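import Mathlib

/-! The three algebras. -/

namespace Pool.Agent.QF

/-- The strictly positive rationals `ℚ⁺`. -/
abbrev QPos : Type := {q : ℚ // 0 < q}

/-- The rationals in `(0,1]`. -/
abbrev QUnit : Type := {q : ℚ // 0 < q ∧ q ≤ 1}

/-- `ℓ¹(ℚ⁺, ω)`: the functions `f : ℚ⁺ → ℂ` with `∑ |f t| ω t < ∞`. -/
def Ell1 (ω : QPos → ℝ) : Set (QPos → ℂ) := {f | Summable fun t => ‖f t‖ * ω t}

/-- Convolution on `ℚ⁺`: `(f*g)(t) = ∑_{s+u=t} f(s) g(u)`. -/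
noncomputable def conv (f g : QPos → ℂ) : QPos → ℂ := fun t =>
  ∑' p : {p : QPos × QPos // p.1.1 + p.2.1 = t.1}, f p.1.1 * g p.1.2

/-- `ℓ¹(ℚ⁺ ∩ (0,1])`. -/
def Ell1Unit : Set (QUnit → ℂ) := {f | Summable fun t => ‖f t‖}

/-- Truncated convolution on `ℚ⁺ ∩ (0,1]`. -/
noncomputable def convUnit (f g : QUnit → ℂ) : QUnit → ℂ := fun t =>
  ∑' p : {p : QUnit × QUnit // p.1.1 + p.2.1 = t.1}, f p.1.1 * g p.1.2

/-- `A` factors: every element of `A` is a product of two elements of `A`. -/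
def Factors {I : Type} (A : Set (I → ℂ)) (mul : (I → ℂ) → (I → ℂ) → (I → ℂ)) : Prop :=
  ∀ a ∈ A, ∃ b ∈ A, ∃ c ∈ A, a = mul b c

end Pool.Agent.QF
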