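import Pool.Agent.QF.Defs

/-! DR: the drift of the tail, and the path inside a fibre to the standard position. -/

namespace Pool.Agent.QF

open Complex

theorem dr_t_nonneg {t : ℕ → ℚ} (hsz : Sizes t) (k : ℕ) : (0 : ℝ) ≤ (t k : ℝ) := by
  have := (hsz k).1
  have := tau_pos k
  linarith

theorem dr_norm_exp_le {t : ℕ → ℚ} (hsz : Sizes t) (k : ℕ) {s : ℂ} (hs : 0 ≤ s.re) :
    ‖exp (-(t k : ℂ) * s)‖ ≤ 1 := by
  rw [Complex.norm_exp]
  rw [Real.exp_le_one_iff]
  have h1 : (-(t k : ℂ) * s).re = -((t k : ℝ) * s.re) := by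
    have : ((t k : ℚ) : ℂ) = (((t k : ℚ) : ℝ) : ℂ) := by push_cast; rfl
    rw [this]
    simp
  rw [h1]
  have := mul_nonneg (dr_t_nonneg hsz k) hs
  linarith

theorem mainF_norm_le {n : ℕ} {t : ℕ → ℚ} (hsz : Sizes t) (θ : ℝ) {s : ℂ} (hs : 0 ≤ s.re) :
    ‖mainF n t θ s‖ ≤ 2 * amp n := by
  unfold mainF
  have ha := amp_pos n
  have hb := amp_pos (n + 1)
  have hab := amp_anti (Nat.le_succ n)
  have h1 : ‖(amp n : ℂ) * exp (-(t n : ℂ) * s)‖ ≤ amp n := by
    rw [norm_mul, Complex.norm_real, Real.norm_of_nonneg ha.le]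
    exact mul_le_of_le_one_right ha.le (dr_norm_exp_le hsz n hs)
  have h2 : ‖(amp (n + 1) : ℂ) * exp ((θ : ℂ) * I) * exp (-(t (n + 1) : ℂ) * s)‖ ≤ amp (n + 1) := by
    rw [norm_mul, norm_mul, Complex.norm_real, Real.norm_of_nonneg hb.le, Complex.norm_exp_ofReal_mul_I, mul_one]
    exact mul_le_of_le_one_right hb.le (dr_norm_exp_le hsz (n + 1) hs)
  calc _ ≤ _ := norm_add_le _ _
    _ ≤ amp n + amp (n + 1) := add_le_add h1 h2
    _ ≤ 2 * amp n := by linarith [show amp (n + 1) ≤ amp n from hab]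

/-- powers of `tau n`. -/
theorem dr_pow_le (n a b : ℕ) (hab : b ≤ a) : tau n ^ a ≤ tau n ^ b := by
  have h1 : tau n ≤ 1 := (tau_le n).trans (by norm_num)
  exact pow_le_pow_of_le_one (tau_pos n).le h1 hab

theorem dr_small (n : ℕ) : 200 * tau n ^ 9900 ≤ tau n ^ 9000 := by
  have h1 : tau n ^ 9900 = tau n ^ 9000 * tau n ^ 900 := by rw [← pow_add]
  have h2 : tau n ^ 900 ≤ tau n := by
    have := dr_pow_le n 900 1 (by norm_num)
    simpa using this
  have h3 : tau n ≤ 1 / 200 := (tau_le n).trans (by norm_num)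
  have h4 : 0 < tau n ^ 9000 := pow_pos (tau_pos n) _
  rw [h1]
  nlinarith

/-- `|e^{-t_k σ} - 1| ≤ t_k σ ≤ τ_{n+2}/τ_{n+1}` for `k ≥ n+2`. -/
theorem drift {n : ℕ} {t : ℕ → ℚ} (hsz : Sizes t) {J : Finset ℕ} (J_gt : ∀ k ∈ J, n < k) (hJ1 : n + 1 ∈ J)
    (α : ℕ → ℝ) {s : ℂ} (h1 : 0 ≤ s.re) (h2 : s.re ≤ Elev n) :
    ‖FF n t J α s - (mainF n t (α (n + 1)) s + Ssum (J.erase (n + 1)) (fun k => α k - t k * s.im))‖
      ≤ tau n ^ 9000 := by
  have hsplit : FF n t J α s - (mainF n t (α (n + 1)) s + Ssum (J.erase (n + 1)) (fun k => α k - t k * s.im))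
      = ∑ k ∈ J.erase (n + 1), (amp k : ℂ) * exp (((α k - t k * s.im : ℝ) : ℂ) * I) *
          (exp (((-(t k * s.re) : ℝ) : ℂ)) - 1) := by
    unfold FF mainF Ssum
    rw [← Finset.add_sum_erase J _ hJ1]
    rw [show ∀ a b c d : ℂ, a + (b + c) - (a + b + d) = c - d by intros; ring]
    rw [← Finset.sum_sub_distrib]
    refine Finset.sum_congr rfl fun k _ => ?_
    have e1 : exp ((α k : ℂ) * I) * exp (-(t k : ℂ) * s) =
        exp (((α k - t k * s.im : ℝ) : ℂ) * I) * exp (((-(t k * s.re) : ℝ) : ℂ)) := by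
      rw [← Complex.exp_add, ← Complex.exp_add]
      congr 1
      apply Complex.ext
      · simp
      · simp; ring
    rw [mul_assoc, e1]
    ring
  rw [hsplit]
  have hterm : ∀ k ∈ J.erase (n + 1), ‖(amp k : ℂ) * exp (((α k - t k * s.im : ℝ) : ℂ) * I) *
      (exp (((-(t k * s.re) : ℝ) : ℂ)) - 1)‖ ≤ amp k * tau n ^ 9900 := by
    intro k hk
    have hk1 : k ≠ n + 1 := Finset.ne_of_mem_erase hk
    have hk2 : n < k := J_gt k (Finset.mem_of_mem_erase hk)
    have hk3 : n + 2 ≤ k := by omega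
    rw [norm_mul, norm_mul, Complex.norm_real, Real.norm_of_nonneg (amp_pos k).le,
      Complex.norm_exp_ofReal_mul_I, mul_one]
    apply mul_le_mul_of_nonneg_left _ (amp_pos k).le
    rw [← Complex.ofReal_exp, ← Complex.ofReal_one, ← Complex.ofReal_sub, Complex.norm_real, Real.norm_eq_abs]
    have ht0 := dr_t_nonneg hsz k
    have hx0 : 0 ≤ (t k : ℝ) * s.re := mul_nonneg ht0 h1
    have hexp1 : Real.exp (-((t k : ℝ) * s.re)) ≤ 1 := Real.exp_le_one_iff.2 (by linarith)
    have hexp2 : 1 - (t k : ℝ) * s.re ≤ Real.exp (-((t k : ℝ) * s.re)) := by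
      have := Real.add_one_le_exp (-((t k : ℝ) * s.re))
      linarith
    rw [abs_le]
    have hb : (t k : ℝ) * s.re ≤ tau n ^ 9900 := by
      have c1 : (t k : ℝ) ≤ tau (n + 2) := ((hsz k).2).trans (tau_anti hk3)
      calc (t k : ℝ) * s.re ≤ tau (n + 2) * Elev n :=
            mul_le_mul c1 h2 h1 (tau_pos _).le
        _ = tau n ^ 9900 := by
            rw [Elev_eq, tau_succ (n + 1), tau_succ n]
            have : tau n ≠ 0 := (tau_pos n).ne'
            rw [← pow_mul, mul_one_div, ]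
            rw [div_eq_iff (by positivity), ← pow_add]
    constructor <;> linarith
  calc ‖_‖ ≤ ∑ k ∈ J.erase (n + 1), amp k * tau n ^ 9900 := norm_sum_le_of_le _ hterm
    _ = (∑ k ∈ J.erase (n + 1), amp k) * tau n ^ 9900 := by rw [Finset.sum_mul]
    _ ≤ 200 * tau n ^ 9900 := by
        apply mul_le_mul_of_nonneg_right _ (by have := tau_pos n; positivity)
        have := amp_sum_le (n + 1) (J.erase (n + 1)) (fun k hk => by
          have := J_gt k (Finset.mem_of_mem_erase hk)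
          omega)
        have := amp_le_one (n + 1)
        linarith
    _ ≤ _ := dr_small n

/-- In the standard states `F` is (almost) `0`. -/
theorem FF_stdst {n : ℕ} {t : ℕ → ℚ} (hsz : Sizes t) {J : Finset ℕ} (J_gt : ∀ k ∈ J, n < k) (hJ1 : n + 1 ∈ J)
    {std : ℂ → ℕ → ℝ} (hstd : IsStd n (J.erase (n + 1)) std) (α : ℕ → ℝ) {s : ℂ} (h1 : 0 ≤ s.re)
    (h2 : s.re ≤ Elev n) : ‖FF n t J (stdst n t J std α s) s‖ ≤ tau n ^ 9000 := by
  have hd := drift hsz J_gt hJ1 (stdst n t J std α s) h1 h2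
  have e1 : stdst n t J std α s (n + 1) = α (n + 1) := by
    unfold stdst; simp
  have hm : ‖-mainF n t (α (n + 1)) s‖ ≤ 3 * amp n := by
    rw [norm_neg]
    have := mainF_norm_le hsz (α (n + 1)) h1 (n := n)
    have := amp_pos n
    linarith
  have e2 : Ssum (J.erase (n + 1)) (fun k => stdst n t J std α s k - t k * s.im) =
      -mainF n t (α (n + 1)) s := by
    rw [← (hstd.2 _ hm).1]
    unfold Ssum
    refine Finset.sum_congr rfl fun k hk => ?_
    unfold stdst
    simp only [if_pos hk, add_sub_cancel_right]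
  rw [e1, e2] at hd
  simpa using hd

theorem dr_amp_ge {n : ℕ} (hx : SmallL n 1) : 2 * tau n ≤ amp n := by
  unfold SmallL at hx
  have ha := amp_pos n
  have ha1 := amp_le_one n
  have hy : 1 ≤ 10 ^ 10 * 1 / amp n := by
    rw [le_div_iff₀ ha]
    nlinarith
  have h2 : 10 ^ 10 * 1 / amp n ≤ (10 ^ 10 * 1 / amp n) ^ 100 := by
    have := pow_le_pow_right₀ hy (show 1 ≤ 100 by norm_num)
    simpa using this
  have ht := tau_pos n
  have h3 : 10 ^ 10 * 1 / amp n * tau n ≤ 1 :=
    (mul_le_mul_of_nonneg_right h2 ht.le).trans hx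
  rw [div_mul_eq_mul_div, div_le_one ha] at h3
  linarith

theorem dr_powsum (n : ℕ) : tau n ^ 450 + 2 * tau n ^ 9000 ≤ 2 * tau n ^ 450 := by
  have h1 : tau n ^ 9000 = tau n ^ 450 * tau n ^ 8550 := by rw [← pow_add]
  have h2 : tau n ^ 8550 ≤ tau n := by
    have := dr_pow_le n 8550 1 (by norm_num)
    simpa using this
  have h3 : tau n ≤ 1 / 2 := (tau_le n).trans (by norm_num)
  have h4 : 0 < tau n ^ 450 := pow_pos (tau_pos n) _
  rw [h1]
  nlinarith

/-- A near-zero state can be joined to the standard state over the same `s` and `α (n+1)`. -/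
theorem to_std {n : ℕ} {t : ℕ → ℚ} (hsz : Sizes t) (hx : SmallL n 1) {J : Finset ℕ} (J_gt : ∀ k ∈ J, n < k)
    (hJ1 : n + 1 ∈ J) {std : ℂ → ℕ → ℝ} (hstd : IsStd n (J.erase (n + 1)) std) (α : ℕ → ℝ) {s : ℂ}
    (h1 : 0 ≤ s.re) (h2 : s.re ≤ Elev n) (hF : ‖FF n t J α s‖ ≤ tau n ^ 450) :
    JoinedIn {α' : ℕ → ℝ | α' (n + 1) = α (n + 1) ∧ ‖FF n t J α' s‖ ≤ 2 * tau n ^ 450} α
      (stdst n t J std α s) := by
  have hnm : n + 1 ∉ J.erase (n + 1) := Finset.notMem_erase _ _
  set w' : ℂ := Ssum (J.erase (n + 1)) (fun k => α k - t k * s.im) with hw'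
  set w0 : ℂ := -mainF n t (α (n + 1)) s with hw0
  have hd := drift hsz J_gt hJ1 α h1 h2
  have hm := mainF_norm_le hsz (α (n + 1)) h1 (n := n)
  have hdiff : ‖w' - w0‖ ≤ tau n ^ 450 + tau n ^ 9000 := by
    have e : w' - w0 = FF n t J α s -
        (FF n t J α s - (mainF n t (α (n + 1)) s + Ssum (J.erase (n + 1)) (fun k => α k - t k * s.im))) := by
      rw [hw0, hw']; ring
    rw [e]
    exact (norm_sub_le _ _).trans (add_le_add hF hd)
  have hamp := dr_amp_ge hx
  have hps := dr_powsum n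
  have ht450 : tau n ^ 450 ≤ tau n := by
    have := dr_pow_le n 450 1 (by norm_num)
    simpa using this
  have h9000 : 0 < tau n ^ 9000 := pow_pos (tau_pos n) _
  have hw0n : ‖w0‖ ≤ 2 * amp n := by rw [hw0, norm_neg]; exact hm
  have hw'n : ‖w'‖ ≤ 3 * amp n := by
    have : ‖w'‖ ≤ ‖w' - w0‖ + ‖w0‖ := by
      have := norm_add_le (w' - w0) w0
      simpa using this
    linarith
  -- the norm of `F` in a state with tail sum `w`
  have key : ∀ (α' : ℕ → ℝ) (w : ℂ), α' (n + 1) = α (n + 1) →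
      Ssum (J.erase (n + 1)) (fun k => α' k - t k * s.im) = w → ‖w - w0‖ ≤ tau n ^ 450 + tau n ^ 9000 →
      ‖FF n t J α' s‖ ≤ 2 * tau n ^ 450 := by
    intro α' w e1 e2 e3
    have hd' := drift hsz J_gt hJ1 α' h1 h2
    rw [e1, e2] at hd'
    have e4 : mainF n t (α (n + 1)) s + w = w - w0 := by rw [hw0]; ring
    rw [e4] at hd'
    have : ‖FF n t J α' s‖ ≤ ‖FF n t J α' s - (w - w0)‖ + ‖w - w0‖ := by
      have := norm_add_le (FF n t J α' s - (w - w0)) (w - w0)
      simpa using this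
    linarith
  -- first path
  have hj1 : JoinedIn {α' : ℕ → ℝ | α' (n + 1) = α (n + 1) ∧ ‖FF n t J α' s‖ ≤ 2 * tau n ^ 450} α
      (fun k => if k ∈ J.erase (n + 1) then std w' k + t k * s.im else α k) := by
    obtain ⟨γ, hγ⟩ := (hstd.2 w' hw'n).2 (fun k => α k - t k * s.im) rfl
    have hcont : Continuous (fun (β : ℕ → ℝ) (k : ℕ) => β k + t k * s.im) := by fun_prop
    have hx0 : (fun (k : ℕ) => (α k - t k * s.im) + t k * s.im) = α := by
      funext k; ring
    have hx1 : (fun (k : ℕ) => (if k ∈ J.erase (n + 1) then std w' k else α k - t k * s.im) + t k * s.im) =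
        (fun k => if k ∈ J.erase (n + 1) then std w' k + t k * s.im else α k) := by
      funext k
      split_ifs <;> ring
    refine ⟨(γ.map hcont).cast hx0.symm hx1.symm, fun τ => ?_⟩
    have hg := hγ τ
    simp only [Set.mem_setOf_eq] at hg
    have e1 : (fun k => (γ τ) k + t k * s.im) (n + 1) = α (n + 1) := by
      simp only
      rw [hg.2 _ hnm]; ring
    refine ⟨e1, ?_⟩
    apply key _ w' e1 _ hdiff
    refine Eq.trans ?_ hg.1
    congr 1
    funext k
    simp
  -- second path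
  have hj2 : JoinedIn {α' : ℕ → ℝ | α' (n + 1) = α (n + 1) ∧ ‖FF n t J α' s‖ ≤ 2 * tau n ^ 450}
      (fun k => if k ∈ J.erase (n + 1) then std w' k + t k * s.im else α k) (stdst n t J std α s) := by
    refine JoinedIn.ofLine (f := fun τ : ℝ => fun k => if k ∈ J.erase (n + 1) then
        std (w' + (τ : ℂ) * (w0 - w')) k + t k * s.im else α k) ?_ ?_ ?_ ?_
    · apply Continuous.continuousOn
      apply continuous_pi
      intro k
      split_ifs
      · have hc : Continuous fun τ : ℝ => std (w' + (τ : ℂ) * (w0 - w')) :=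
          hstd.1.comp (by fun_prop)
        exact ((continuous_apply k).comp hc).add continuous_const
      · exact continuous_const
    · simp
    · unfold stdst
      funext k
      simp only [Complex.ofReal_one, one_mul, add_sub_cancel, hw0]
    · rintro _ ⟨τ, hτ, rfl⟩
      have e1 : (fun k => if k ∈ J.erase (n + 1) then
        std (w' + (τ : ℂ) * (w0 - w')) k + t k * s.im else α k) (n + 1) = α (n + 1) := by
        simp only
        rw [if_neg hnm]
      refine ⟨e1, ?_⟩
      have hconv : w' + (τ : ℂ) * (w0 - w') = ((1 - τ : ℝ) : ℂ) * w' + (τ : ℂ) * w0 := by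
        push_cast; ring
      have hn3 : ‖w' + (τ : ℂ) * (w0 - w')‖ ≤ 3 * amp n := by
        rw [hconv]
        have ha := amp_pos n
        calc _ ≤ ‖((1 - τ : ℝ) : ℂ) * w'‖ + ‖(τ : ℂ) * w0‖ := norm_add_le _ _
          _ = (1 - τ) * ‖w'‖ + τ * ‖w0‖ := by
              rw [norm_mul, norm_mul, Complex.norm_real, Complex.norm_real, Real.norm_of_nonneg (by linarith [hτ.2]),
                Real.norm_of_nonneg hτ.1]
          _ ≤ (1 - τ) * (3 * amp n) + τ * (3 * amp n) := by
              apply add_le_add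
              · exact mul_le_mul_of_nonneg_left hw'n (by linarith [hτ.2])
              · exact mul_le_mul_of_nonneg_left (by linarith) hτ.1
          _ = 3 * amp n := by ring
      apply key _ (w' + (τ : ℂ) * (w0 - w')) e1
      · rw [← (hstd.2 _ hn3).1]
        unfold Ssum
        refine Finset.sum_congr rfl fun k hk => ?_
        simp only [if_pos hk, add_sub_cancel_right]
      · have e5 : w' + (τ : ℂ) * (w0 - w') - w0 = ((1 - τ : ℝ) : ℂ) * (w' - w0) := by
          push_cast; ring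
        rw [e5, norm_mul, Complex.norm_real, Real.norm_of_nonneg (by linarith [hτ.2])]
        have : (1 - τ) * ‖w' - w0‖ ≤ 1 * ‖w' - w0‖ :=
          mul_le_mul_of_nonneg_right (by linarith [hτ.1]) (norm_nonneg _)
        linarith
  exact hj1.trans hj2

end Pool.Agent.QF
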