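import Mathlib

/-!
# QF: `ℓ¹(ℚ⁺)` does not factor — definitions

See the blueprint `QF_BLUEPRINT.md`.
-/

namespace Pool.Agent.QF

open Complex

/-- The amplitudes: equal on the pairs `(2j, 2j+1)`. -/
noncomputable def amp (k : ℕ) : ℝ := (99 / 100 : ℝ) ^ (k / 2)

/-- The sizes of the exponents: `τ₀ = 2^{-100}`, `τ_{k+1} = τ_k^{100}`. -/
noncomputable def tau (k : ℕ) : ℝ := (1 / 2 : ℝ) ^ (100 ^ (k + 1))

/-- The base level `τ_n^{-1/2}` of the `n`-th window. -/
noncomputable def Slev (n : ℕ) : ℝ := (2 : ℝ) ^ (50 * 100 ^ n)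

/-- The top level `1 / τ_{n+1}` of the `n`-th window. -/
noncomputable def Elev (n : ℕ) : ℝ := (2 : ℝ) ^ (100 ^ (n + 2))

/-- The exponents `t_k` have size `τ_k`. -/
def Sizes (t : ℕ → ℚ) : Prop := ∀ k, tau k / 2 ≤ (t k : ℝ) ∧ (t k : ℝ) ≤ tau k

/-- Genericity: an integer relation with coefficients at most `K n` does not involve indices `> n`. -/
def Ind (t : ℕ → ℚ) (K : ℕ → ℕ) : Prop :=
  ∀ (n : ℕ) (m : ℕ →₀ ℤ), (∀ k, |m k| ≤ (K n : ℤ)) → (m.sum fun k c => (c : ℚ) * t k) = 0 →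
    ∀ k, n < k → m k = 0

/-- The exponential polynomial with the coefficients `b g`, `g ∈ A`. -/
noncomputable def poly (b : ℚ → ℂ) (A : Finset ℚ) (s : ℂ) : ℂ :=
  ∑ g ∈ A, b g * exp (-(g : ℂ) * s)

/-- Up to a set of total weight `≤ ϑ` (weights at the level `S`), all coefficients of `b` outside of `A`
are at most `θ`. -/
def Split (b : ℚ → ℂ) (S ϑ θ : ℝ) (A : Finset ℚ) : Prop :=
  ∃ D : Finset ℚ, Disjoint A D ∧ (∑ g ∈ D, ‖b g‖ * Real.exp (-(g : ℝ) * S)) ≤ ϑ ∧
    ∀ g, g ∉ A → g ∉ D → ‖b g‖ * Real.exp (-(g : ℝ) * S) ≤ θ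

/-- The mass threshold of the `n`-th window. -/
noncomputable def vth (n : ℕ) : ℝ := tau (n + 2) ^ 50

/-- The coefficient at `r` of `f = ∑ₖ amp k · z^{t k}`. -/
noncomputable def fcoef (t : ℕ → ℚ) (r : ℚ) : ℂ := ∑' k, if t k = r then (amp k : ℂ) else 0

/-- `b * c = f` in the algebra `ℓ¹(ℚ ∩ (0,1])`, with `‖b‖, ‖c‖ ≤ L`. -/
structure Fac (t : ℕ → ℚ) (L : ℝ) (b c : ℚ → ℂ) : Prop where
  one_le : 1 ≤ L
  posb : ∀ g, g ≤ 0 → b g = 0
  posc : ∀ g, g ≤ 0 → c g = 0
  sumb : Summable fun g => ‖b g‖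
  sumc : Summable fun g => ‖c g‖
  normb : ∑' g, ‖b g‖ ≤ L
  normc : ∑' g, ‖c g‖ ≤ L
  prod : ∀ r : ℚ, 0 < r → r ≤ 1 → ∑' g, b g * c (r - g) = fcoef t r

/-- The translates of `f` at the scale of the `n`-th window: the terms `n` and `k ∈ J` (all `> n`). -/
noncomputable def FF (n : ℕ) (t : ℕ → ℚ) (J : Finset ℕ) (α : ℕ → ℝ) (s : ℂ) : ℂ :=
  (amp n : ℂ) * exp (-(t n : ℂ) * s) +
    ∑ k ∈ J, (amp k : ℂ) * exp ((α k : ℂ) * I) * exp (-(t k : ℂ) * s)

/-- `L` is small compared with `1 / τ_n`. -/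
def SmallL (n : ℕ) (L : ℝ) : Prop := (10 ^ 10 * L / amp n) ^ 100 * tau n ≤ 1

/-- Everything that the window lemma uses. -/
structure Win (n : ℕ) (t : ℕ → ℚ) (L : ℝ) (J : Finset ℕ) (B C : (ℕ → ℝ) → ℂ → ℂ) : Prop where
  sizes : Sizes t
  one_le : 1 ≤ L
  small : SmallL n L
  J_gt : ∀ k ∈ J, n < k
  J_mem : ∀ k, n < k → k ≤ n + 1400 → k ∈ J
  contB : Continuous fun p : (ℕ → ℝ) × ℂ => B p.1 p.2
  contC : Continuous fun p : (ℕ → ℝ) × ℂ => C p.1 p.2
  holB : ∀ α, Differentiable ℂ (B α)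
  holC : ∀ α, Differentiable ℂ (C α)
  bddB : ∀ α s, 0 ≤ s.re → ‖B α s‖ ≤ L
  bddC : ∀ α s, 0 ≤ s.re → ‖C α s‖ ≤ L
  lipB : ∀ α s (ζ : ℝ), 0 < s.re → 0 ≤ ζ → ‖B α (s + ζ) - B α s‖ ≤ L * ζ / s.re
  lipC : ∀ α s (ζ : ℝ), 0 < s.re → 0 ≤ ζ → ‖C α (s + ζ) - C α s‖ ≤ L * ζ / s.re
  prod : ∀ α s, Slev n ≤ s.re → ‖B α s * C α s - FF n t J α s‖ ≤ tau n ^ 4000

theorem Win.symm {n : ℕ} {t : ℕ → ℚ} {L : ℝ} {J : Finset ℕ} {B C : (ℕ → ℝ) → ℂ → ℂ}
    (h : Win n t L J B C) : Win n t L J C B where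
  sizes := h.sizes
  one_le := h.one_le
  small := h.small
  J_gt := h.J_gt
  J_mem := h.J_mem
  contB := h.contC
  contC := h.contB
  holB := h.holC
  holC := h.holB
  bddB := h.bddC
  bddC := h.bddB
  lipB := h.lipC
  lipC := h.lipB
  prod := fun α s hs => by rw [mul_comm]; exact h.prod α s hs

theorem Fac.symm {t : ℕ → ℚ} {L : ℝ} {b c : ℚ → ℂ} (h : Fac t L b c) : Fac t L c b where
  one_le := h.one_le
  posb := h.posc
  posc := h.posb
  sumb := h.sumc
  sumc := h.sumb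
  normb := h.normc
  normc := h.normb
  prod := fun r h0 h1 => by
    rw [← h.prod r h0 h1]
    rw [← (Equiv.subLeft r).tsum_eq (fun g => c g * b (r - g))]
    refine tsum_congr fun g => ?_
    simp only [Equiv.subLeft_apply, sub_sub_cancel]
    rw [mul_comm]

/-- The sum over the tail. -/
noncomputable def Ssum (J : Finset ℕ) (α : ℕ → ℝ) : ℂ := ∑ k ∈ J, (amp k : ℂ) * exp ((α k : ℂ) * I)

/-- The time function of the straight line homotopies: `0` on `[0,1/3]`, `1` on `[2/3,1]`. -/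
noncomputable def lam (x : ℝ) : ℝ := max 0 (min 1 (3 * x - 1))

/-- The two main terms of `-∂F/∂s`. -/
noncomputable def TT (n : ℕ) (t : ℕ → ℚ) (θ : ℝ) (s : ℂ) : ℂ :=
  (t n : ℂ) * amp n * exp (-(t n : ℂ) * s) +
    (t (n + 1) : ℂ) * amp (n + 1) * exp ((θ : ℂ) * I) * exp (-(t (n + 1) : ℂ) * s)

/-- The larger of the moduli of the two terms of `TT`. -/
noncomputable def TM (n : ℕ) (t : ℕ → ℚ) (σ : ℝ) : ℝ :=
  max ((t n : ℝ) * amp n * Real.exp (-(t n : ℝ) * σ))
    ((t (n + 1) : ℝ) * amp (n + 1) * Real.exp (-(t (n + 1) : ℝ) * σ))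

/-- The near-zero good states of a window. -/
def Gst (n : ℕ) (t : ℕ → ℚ) (J : Finset ℕ) : Set ((ℕ → ℝ) × ℂ) :=
  {p | Slev n ≤ p.2.re ∧ p.2.re ≤ Elev n ∧ ‖FF n t J p.1 p.2‖ ≤ 2 * tau n ^ 450 ∧
    TM n t p.2.re ≤ 65 * ‖TT n t (p.1 (n + 1)) p.2‖}

/-- The two main terms of `F`. -/
noncomputable def mainF (n : ℕ) (t : ℕ → ℚ) (θ : ℝ) (s : ℂ) : ℂ :=
  (amp n : ℂ) * exp (-(t n : ℂ) * s) +
    (amp (n + 1) : ℂ) * exp ((θ : ℂ) * I) * exp (-(t (n + 1) : ℂ) * s)

/-- `std` is a continuous section of `Ssum J` over `‖w‖ ≤ 3 amp n`, and each point of a fibre can be joined to the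
section, inside the fibre, with the coordinates outside of `J` fixed. -/
def IsStd (n : ℕ) (J : Finset ℕ) (std : ℂ → ℕ → ℝ) : Prop :=
  Continuous std ∧ ∀ w : ℂ, ‖w‖ ≤ 3 * amp n → Ssum J (std w) = w ∧
    ∀ α : ℕ → ℝ, Ssum J α = w →
      JoinedIn {α' : ℕ → ℝ | Ssum J α' = w ∧ ∀ k, k ∉ J → α' k = α k} α (fun k => if k ∈ J then std w k else α k)

/-- The state over `(s, α (n+1))` in which the tail is in standard position and compensates the main terms exactly
(up to the drift); the coordinates outside of `J.erase (n+1)` are those of `α`. -/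
noncomputable def stdst (n : ℕ) (t : ℕ → ℚ) (J : Finset ℕ) (std : ℂ → ℕ → ℝ) (α : ℕ → ℝ) (s : ℂ) : ℕ → ℝ :=
  fun k => if k ∈ J.erase (n + 1) then std (-mainF n t (α (n + 1)) s) k + t k * s.im else α k

/-- The period mean of `log |c(σ + iy)|` for an exponential polynomial with frequencies in `(1/D)ℤ`. -/
noncomputable def LM (D : ℕ) (c : ℚ → ℂ) (C : Finset ℚ) (σ : ℝ) : ℝ :=
  (1 / (2 * Real.pi)) * ∫ x in (0 : ℝ)..(2 * Real.pi), Real.log ‖poly c C (σ + (D : ℂ) * x * I)‖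

/-! ### Amplitudes -/

theorem amp_pos (k : ℕ) : 0 < amp k := by unfold amp; positivity

theorem amp_le_one (k : ℕ) : amp k ≤ 1 := by
  unfold amp; exact pow_le_one₀ (by norm_num) (by norm_num)

theorem amp_anti {i j : ℕ} (h : i ≤ j) : amp j ≤ amp i := by
  unfold amp
  exact pow_le_pow_of_le_one (by norm_num) (by norm_num) (Nat.div_le_div_right h)

theorem amp_pair (p : ℕ) : amp (2 * p + 1) = amp (2 * p) := by
  unfold amp
  congr 1
  omega

theorem amp_add_two (k : ℕ) : amp (k + 2) = 99 / 100 * amp k := by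
  unfold amp
  rw [Nat.add_div_right k (by norm_num), pow_succ]
  ring

theorem amp_summable : Summable amp := by
  have h : ∀ k, amp k ≤ 2 * (Real.sqrt (99 / 100)) ^ k := by
    intro k
    have hs : (Real.sqrt (99 / 100)) ^ 2 = 99 / 100 := Real.sq_sqrt (by norm_num)
    have h1 : (1 / 2 : ℝ) ≤ Real.sqrt (99 / 100) := by
      apply Real.le_sqrt_of_sq_le; norm_num
    have h0 : 0 < Real.sqrt (99 / 100) := by linarith
    rcases Nat.even_or_odd' k with ⟨p, rfl | rfl⟩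
    · unfold amp
      rw [Nat.mul_div_cancel_left p (by norm_num), pow_mul, hs]
      have : (0 : ℝ) < (99 / 100 : ℝ) ^ p := by positivity
      linarith
    · rw [amp_pair]
      unfold amp
      rw [Nat.mul_div_cancel_left p (by norm_num), pow_succ, pow_mul, hs]
      have : (0 : ℝ) < (99 / 100 : ℝ) ^ p := by positivity
      nlinarith
  refine Summable.of_nonneg_of_le (fun k => (amp_pos k).le) h ?_
  refine (summable_geometric_of_lt_one (Real.sqrt_nonneg _) ?_).mul_left 2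
  rw [Real.sqrt_lt' (by norm_num)]
  norm_num

/-- The tail sums of the amplitudes. -/
noncomputable def ampT (k : ℕ) : ℝ := if Even k then 200 * amp k else 199 * amp k

theorem ampT_sub (k : ℕ) : ampT k - ampT (k + 1) = amp k := by
  unfold ampT
  rcases Nat.even_or_odd k with h | h
  · have h1 : ¬ Even (k + 1) := by
      rw [Nat.not_even_iff_odd]; exact h.add_one
    rw [if_pos h, if_neg h1]
    obtain ⟨p, rfl⟩ := h
    rw [← two_mul, amp_pair]
    ring
  · have h0 : ¬ Even k := by rwa [Nat.not_even_iff_odd]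
    have h1 : Even (k + 1) := h.add_one
    rw [if_neg h0, if_pos h1]
    obtain ⟨p, rfl⟩ := h
    have h2 : amp (2 * p + 1 + 1) = 99 / 100 * amp (2 * p) := by
      rw [show 2 * p + 1 + 1 = 2 * p + 2 from rfl, amp_add_two]
    rw [h2, amp_pair]
    ring

theorem amp_sum_range_eq (m N : ℕ) : (∑ i ∈ Finset.range N, amp (m + i)) = ampT m - ampT (m + N) := by
  induction N with
  | zero => simp
  | succ N ih =>
    rw [Finset.sum_range_succ, ih, ← ampT_sub (m + N)]
    ring_nf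

theorem ampT_le (k : ℕ) : ampT k ≤ 200 * amp k := by
  unfold ampT
  split_ifs
  · exact le_rfl
  · have := amp_pos k
    linarith

theorem ampT_ge (k : ℕ) : 199 * amp k ≤ ampT k := by
  unfold ampT
  split_ifs
  · have := amp_pos k
    linarith
  · exact le_rfl

/-- The sum of the first amplitudes after `m`. -/
theorem amp_sum_range (m N : ℕ) : (∑ i ∈ Finset.range N, amp (m + i)) ≤ 200 * amp m - 199 * amp (m + N) := by
  rw [amp_sum_range_eq]
  have := ampT_le m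
  have := ampT_ge (m + N)
  linarith

theorem amp_tail (m : ℕ) : (∑' i, amp (m + i)) ≤ 200 * amp m := by
  refine (summable_nat_add_iff (f := amp) m |>.mpr amp_summable |>.congr
    (fun i => by rw [add_comm])).tsum_le_of_sum_range_le ?_ 
  intro N
  have := amp_sum_range m N
  have := amp_pos (m + N)
  linarith

/-- A finite sum of amplitudes with indices `≥ m`. -/
theorem amp_sum_le (m : ℕ) (J : Finset ℕ) (hJ : ∀ k ∈ J, m ≤ k) : (∑ k ∈ J, amp k) ≤ 200 * amp m := by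
  classical
  have hinj : Set.InjOn (fun k => k - m) (J : Set ℕ) := by
    intro a ha b hb hab
    have := hJ a ha
    have := hJ b hb
    simp only at hab
    omega
  have h1 : (∑ k ∈ J, amp k) = ∑ i ∈ J.image (fun k => k - m), amp (m + i) := by
    rw [Finset.sum_image hinj]
    refine Finset.sum_congr rfl fun k hk => ?_
    rw [Nat.add_sub_cancel' (hJ k hk)]
  rw [h1]
  have hs : Summable fun i => amp (m + i) :=
    (summable_nat_add_iff (f := amp) m |>.mpr amp_summable |>.congr (fun i => by rw [add_comm]))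
  exact (hs.sum_le_tsum _ fun i _ => (amp_pos _).le).trans (amp_tail m)

theorem amp_add_le (n j : ℕ) : amp (n + j) ≤ (99 / 100 : ℝ) ^ (j / 2) * amp n := by
  unfold amp
  rw [← pow_add]
  refine pow_le_pow_of_le_one (by norm_num) (by norm_num) ?_
  omega

theorem amp_add_ge (n j : ℕ) : (99 / 100 : ℝ) ^ ((j + 1) / 2) * amp n ≤ amp (n + j) := by
  unfold amp
  rw [← pow_add]
  refine pow_le_pow_of_le_one (by norm_num) (by norm_num) ?_
  omega

/-- The lower bound for the amplitudes of the workers. -/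
theorem amp_near (n j : ℕ) (hj : j ≤ 50) : 3 / 4 * amp n ≤ amp (n + j) := by
  refine le_trans ?_ (amp_add_ge n j)
  have h1 : (99 / 100 : ℝ) ^ 25 ≤ (99 / 100 : ℝ) ^ ((j + 1) / 2) :=
    pow_le_pow_of_le_one (by norm_num) (by norm_num) (by omega)
  have h2 : (3 / 4 : ℝ) ≤ (99 / 100 : ℝ) ^ 25 := by norm_num
  have := amp_pos n
  nlinarith

/-! ### Sizes -/

theorem tau_pos (k : ℕ) : 0 < tau k := by unfold tau; positivity

theorem tau_succ (k : ℕ) : tau (k + 1) = tau k ^ 100 := by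
  unfold tau
  rw [← pow_mul]
  congr 1

theorem tau_le (k : ℕ) : tau k ≤ (1 / 2) ^ 100 := by
  unfold tau
  refine pow_le_pow_of_le_one (by norm_num) (by norm_num) ?_
  exact Nat.le_self_pow (by omega) 100

theorem tau_anti {i j : ℕ} (h : i ≤ j) : tau j ≤ tau i := by
  unfold tau
  refine pow_le_pow_of_le_one (by norm_num) (by norm_num) ?_
  exact Nat.pow_le_pow_right (by norm_num) (by omega)

theorem Slev_sq (n : ℕ) : Slev n ^ 2 = 1 / tau n := by
  unfold Slev tau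
  rw [← pow_mul, one_div, one_div, inv_pow, inv_inv]
  congr 1
  rw [pow_succ]
  ring

theorem Elev_eq (n : ℕ) : Elev n = 1 / tau (n + 1) := by
  unfold Elev tau
  rw [one_div, one_div, inv_pow, inv_inv]

theorem Slev_pos (n : ℕ) : 0 < Slev n := by unfold Slev; positivity

theorem Elev_pos (n : ℕ) : 0 < Elev n := by unfold Elev; positivity

theorem Slev_ge (n : ℕ) : 2 ^ 50 ≤ Slev n := by
  unfold Slev
  refine pow_le_pow_right₀ (by norm_num) ?_
  have : 1 ≤ 100 ^ n := Nat.one_le_pow _ _ (by norm_num)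
  omega

theorem Slev_succ_sq (n : ℕ) : Slev (n + 1) ^ 2 = Elev n := by
  rw [Slev_sq, Elev_eq]

theorem Slev_succ_le (n : ℕ) : Slev (n + 1) ≤ Elev n / 2 := by
  have h := Slev_succ_sq n
  have h2 := Slev_ge (n + 1)
  nlinarith [Slev_pos (n + 1)]

theorem Slev_lt_Elev (n : ℕ) : Slev n < Elev n := by
  have h1 : Slev n ^ 2 ≤ Elev n := by
    rw [Slev_sq, Elev_eq]
    exact one_div_le_one_div_of_le (tau_pos _) (tau_anti (Nat.le_succ n))
  have h2 := Slev_ge n
  nlinarith [Slev_pos n]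

end Pool.Agent.QF
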