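import Pool.Agent.QF.Defs

/-! EV: for large `n` the constant `L` is small. -/

namespace Pool.Agent.QF

theorem ev_exp (n : ℕ) (hn : 1 ≤ n) : 3400 + 200 * n ≤ 100 ^ (n + 1) := by
  induction n, hn using Nat.le_induction with
  | base => norm_num
  | succ n hn ih =>
    rw [pow_succ]
    have : 3400 + 200 * (n + 1) ≤ (3400 + 200 * n) * 100 := by omega
    exact this.trans (Nat.mul_le_mul_right 100 ih)

theorem eventually_small (L : ℝ) (hL : 1 ≤ L) : ∃ n₁ : ℕ, ∀ n, n₁ ≤ n → SmallL n L ∧ L ≤ n + 1 := by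
  refine ⟨max 1 ⌈L⌉₊, fun n hn => ?_⟩
  have h1 : 1 ≤ n := (le_max_left _ _).trans hn
  have h2 : L ≤ n := (Nat.le_ceil L).trans (by exact_mod_cast (le_max_right _ _).trans hn)
  refine ⟨?_, by linarith⟩
  have hL2 : L ≤ 2 ^ n := by
    have : (n : ℝ) ≤ 2 ^ n := by exact_mod_cast (Nat.lt_two_pow_self (n := n)).le
    linarith
  have ha : (1 / 2 : ℝ) ^ n ≤ amp n := by
    unfold amp
    calc (1 / 2 : ℝ) ^ n ≤ (1 / 2) ^ (n / 2) :=
          pow_le_pow_of_le_one (by norm_num) (by norm_num) (Nat.div_le_self _ _)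
      _ ≤ (99 / 100) ^ (n / 2) := pow_le_pow_left₀ (by norm_num) (by norm_num) _
  have hap := amp_pos n
  have hq : 10 ^ 10 * L / amp n ≤ 2 ^ (34 + 2 * n) := by
    rw [div_le_iff₀ hap]
    have h3 : (2 : ℝ) ^ (34 + 2 * n) * (1 / 2) ^ n = 2 ^ 34 * 2 ^ n := by
      rw [pow_add, mul_comm 2 n, pow_mul, one_div, inv_pow]
      have : (2 : ℝ) ^ n ≠ 0 := by positivity
      field_simp
    calc 10 ^ 10 * L ≤ 2 ^ 34 * 2 ^ n := by
          have : (10 : ℝ) ^ 10 ≤ 2 ^ 34 := by norm_num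
          have h5 : (0 : ℝ) < 2 ^ n := by positivity
          nlinarith
      _ = 2 ^ (34 + 2 * n) * (1 / 2) ^ n := h3.symm
      _ ≤ 2 ^ (34 + 2 * n) * amp n := by
          apply mul_le_mul_of_nonneg_left ha (by positivity)
  have hq0 : 0 ≤ 10 ^ 10 * L / amp n := by positivity
  unfold SmallL
  calc (10 ^ 10 * L / amp n) ^ 100 * tau n ≤ (2 ^ (34 + 2 * n)) ^ 100 * tau n := by
        apply mul_le_mul_of_nonneg_right _ (tau_pos n).le
        exact pow_le_pow_left₀ hq0 hq 100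
    _ = 2 ^ (3400 + 200 * n) * tau n := by
        rw [← pow_mul]; congr 2; ring
    _ ≤ 2 ^ (100 ^ (n + 1)) * tau n := by
        apply mul_le_mul_of_nonneg_right _ (tau_pos n).le
        exact pow_le_pow_right₀ (by norm_num) (ev_exp n h1)
    _ = 1 := by
        unfold tau
        rw [← mul_pow]; norm_num

end Pool.Agent.QF
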