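import Pool.Agent.QF.Defs

/-! EX: generic exponents exist. -/

namespace Pool.Agent.QF

/-- The values of `t k` that complete a relation with coefficients at most `M` with the previous ones. -/
def Bad (M k : ℕ) (u : ℕ → ℚ) : Set ℚ :=
  {q | ∃ m : ℕ → ℤ, (∀ j, |m j| ≤ (M : ℤ)) ∧ m k ≠ 0 ∧
    ∑ j ∈ Finset.range k, (m j : ℚ) * u j + (m k : ℚ) * q = 0}

theorem Bad_finite (M k : ℕ) (u : ℕ → ℚ) : (Bad M k u).Finite := by
  classical
  have hfin : ((Fintype.piFinset (fun _ : Fin (k + 1) => Finset.Icc (-(M : ℤ)) M)).image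
    (fun m : Fin (k + 1) → ℤ => -(∑ j : Fin k, (m j.castSucc : ℚ) * u j) / (m (Fin.last k) : ℚ)) :
      Set ℚ).Finite := Finset.finite_toSet _
  refine hfin.subset ?_
  rintro q ⟨m, h1, h2, h3⟩
  rw [Finset.coe_image]
  refine ⟨fun j => m j, ?_, ?_⟩
  · rw [Finset.mem_coe, Fintype.mem_piFinset]
    intro j
    rw [Finset.mem_Icc]
    exact abs_le.1 (h1 j)
  · simp only [Fin.val_castSucc, Fin.val_last]
    have h2' : (m k : ℚ) ≠ 0 := by exact_mod_cast h2
    rw [Finset.sum_range] at h3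
    rw [div_eq_iff h2']
    linarith

theorem exists_good (M k : ℕ) (u : ℕ → ℚ) : ∃ q : ℚ, (tau k / 2 ≤ (q : ℝ) ∧ (q : ℝ) ≤ tau k) ∧ q ∉ Bad M k u := by
  have hT : (0 : ℚ) < (1 / 2 : ℚ) ^ (100 ^ (k + 1)) := by positivity
  have hlt : (1 / 2 : ℚ) ^ (100 ^ (k + 1)) / 2 < (1 / 2 : ℚ) ^ (100 ^ (k + 1)) := by linarith
  have hinf := Set.Icc_infinite hlt
  obtain ⟨q, hq1, hq2⟩ := (hinf.sdiff (Bad_finite M k u)).nonempty
  refine ⟨q, ⟨?_, ?_⟩, hq2⟩
  · have : (((1 / 2 : ℚ) ^ (100 ^ (k + 1)) / 2 : ℚ) : ℝ) ≤ (q : ℝ) := by exact_mod_cast hq1.1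
    push_cast at this
    exact this
  · have : (q : ℝ) ≤ (((1 / 2 : ℚ) ^ (100 ^ (k + 1)) : ℚ) : ℝ) := by exact_mod_cast hq1.2
    push_cast at this
    exact this

/-- The first `k` values. -/
noncomputable def exSeq (Q : ℕ → (ℕ → ℚ) → ℚ) : ℕ → ℕ → ℚ
  | 0 => fun _ => 0
  | k + 1 => Function.update (exSeq Q k) k (Q k (exSeq Q k))

theorem exSeq_eq (Q : ℕ → (ℕ → ℚ) → ℚ) (k j : ℕ) (h : j < k) : exSeq Q k j = exSeq Q (j + 1) j := by
  induction k with
  | zero => omega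
  | succ k ih =>
    rcases Nat.lt_succ_iff_lt_or_eq.1 h with h1 | h1
    · rw [← ih h1]
      exact Function.update_of_ne h1.ne _ _
    · rw [h1]

/-- Choose `t k` recursively in `[τ_k/2, τ_k] ∩ ℚ`, outside of the finitely many values
`-(∑_{j<k} m_j t_j)/m_k` with `|m_j| ≤ max_{n<k} K n`. -/
theorem exists_t (K : ℕ → ℕ) : ∃ t : ℕ → ℚ, Sizes t ∧ Ind t K := by
  classical
  choose Q hQ1 hQ2 using fun (k : ℕ) (u : ℕ → ℚ) => exists_good ((Finset.range k).sup K) k u
  refine ⟨fun k => exSeq Q (k + 1) k, fun k => ?_, fun n m hm hsum => ?_⟩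
  · have : exSeq Q (k + 1) k = Q k (exSeq Q k) := Function.update_self _ _ _
    simp only [this]
    exact hQ1 k _
  · by_contra hcon
    rw [not_forall] at hcon
    obtain ⟨k₀, hk₀⟩ := hcon
    rw [Classical.not_imp] at hk₀
    obtain ⟨h1, h2⟩ := hk₀
    have hne : m.support.Nonempty := ⟨k₀, Finsupp.mem_support_iff.2 h2⟩
    set k := m.support.max' hne with hk
    have hkmem : k ∈ m.support := Finset.max'_mem _ _
    have hk0k : k₀ ≤ k := Finset.le_max' _ _ (Finsupp.mem_support_iff.2 h2)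
    have hnk : n < k := lt_of_lt_of_le h1 hk0k
    apply hQ2 k (exSeq Q k)
    refine ⟨m, fun j => ?_, Finsupp.mem_support_iff.1 hkmem, ?_⟩
    · refine (hm j).trans ?_
      exact_mod_cast Finset.le_sup (f := K) (Finset.mem_range.2 hnk)
    · have h3 : m.sum (fun k c => (c : ℚ) * exSeq Q (k + 1) k) =
          ∑ j ∈ Finset.range (k + 1), (m j : ℚ) * exSeq Q (j + 1) j := by
        apply Finsupp.sum_of_support_subset
        · intro j hj
          rw [Finset.mem_range, Nat.lt_succ_iff]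
          exact Finset.le_max' _ _ hj
        · intro j _
          simp
      rw [hsum, Finset.sum_range_succ] at h3
      have h4 : exSeq Q (k + 1) k = Q k (exSeq Q k) := Function.update_self _ _ _
      rw [h4] at h3
      rw [h3]
      congr 1
      refine Finset.sum_congr rfl fun j hj => ?_
      rw [exSeq_eq Q k j (Finset.mem_range.1 hj)]

end Pool.Agent.QF
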