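import Pool.Agent.QF.Defs

/-! FBC: a group of pairs in section position compensates the motion of the other coordinates. -/

namespace Pool.Agent.QF

open Complex

/-- The capacity of a group of pairs. -/
noncomputable def cap (G : Finset ℕ) : ℝ := ∑ p ∈ G, 2 * amp (2 * p)

/-- Put the pairs `(2p, 2p+1)`, `p ∈ Gh` (real direction) and `p ∈ Gv` (imaginary direction), into the section
position with sum `v`; the integers `m p` are the labels (lifts to the universal cover). -/
noncomputable def place (Gh Gv : Finset ℕ) (m : ℕ → ℤ) (v : ℂ) (α : ℕ → ℝ) : ℕ → ℝ := fun k =>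
  if k / 2 ∈ Gh then
    (if Even k then Real.arccos (v.re / cap Gh) + 2 * Real.pi * m (k / 2) else -Real.arccos (v.re / cap Gh))
  else if k / 2 ∈ Gv then
    (if Even k then Real.pi / 2 + Real.arccos (v.im / cap Gv) + 2 * Real.pi * m (k / 2)
      else Real.pi / 2 - Real.arccos (v.im / cap Gv))
  else α k

/-- The sum over the indices outside of the groups. -/
noncomputable def rest (J Gh Gv : Finset ℕ) (α : ℕ → ℝ) : ℂ :=
  ∑ k ∈ J.filter (fun k => k / 2 ∉ Gh ∧ k / 2 ∉ Gv), (amp k : ℂ) * exp ((α k : ℂ) * I)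

theorem fbc_pairs {J G : Finset ℕ} (hJ : ∀ p ∈ G, 2 * p ∈ J ∧ 2 * p + 1 ∈ J) (f : ℕ → ℂ) :
    ∑ k ∈ J.filter (fun k => k / 2 ∈ G), f k = ∑ p ∈ G, (f (2 * p) + f (2 * p + 1)) := by
  classical
  rw [← Finset.sum_fiberwise_of_maps_to (s := J.filter (fun k => k / 2 ∈ G)) (t := G)
    (g := fun k => k / 2) (fun k hk => (Finset.mem_filter.1 hk).2)]
  refine Finset.sum_congr rfl fun p hp => ?_
  have hset : (J.filter (fun k => k / 2 ∈ G)).filter (fun k => k / 2 = p) = {2 * p, 2 * p + 1} := by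
    ext k
    simp only [Finset.mem_filter, Finset.mem_insert, Finset.mem_singleton]
    constructor
    · rintro ⟨_, h⟩
      omega
    · rintro (rfl | rfl)
      · have h2 : 2 * p / 2 = p := by omega
        exact ⟨⟨(hJ p hp).1, by rw [h2]; exact hp⟩, h2⟩
      · have h2 : (2 * p + 1) / 2 = p := by omega
        exact ⟨⟨(hJ p hp).2, by rw [h2]; exact hp⟩, h2⟩
  rw [hset, Finset.sum_pair (by omega)]

theorem fbc_exp_period (x : ℝ) (m : ℤ) :
    exp (((x + 2 * Real.pi * m : ℝ) : ℂ) * I) = exp ((x : ℂ) * I) := by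
  have h : (((x + 2 * Real.pi * m : ℝ) : ℂ) * I) = (x : ℂ) * I + m * (2 * Real.pi * I) := by
    push_cast
    ring
  rw [h]
  exact Complex.exp_periodic.int_mul m _

theorem fbc_two_cos (x : ℝ) : exp ((x : ℂ) * I) + exp (((-x : ℝ) : ℂ) * I) = ((2 * Real.cos x : ℝ) : ℂ) := by
  rw [Complex.exp_mul_I, Complex.exp_mul_I]
  push_cast
  rw [Complex.cos_neg, Complex.sin_neg]
  ring

theorem fbc_two_sin (x : ℝ) : exp (((Real.pi / 2 + x : ℝ) : ℂ) * I) + exp (((Real.pi / 2 - x : ℝ) : ℂ) * I)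
    = ((2 * Real.cos x : ℝ) : ℂ) * I := by
  have h1 : ((Real.pi / 2 + x : ℝ) : ℂ) * I = ((Real.pi / 2 : ℝ) : ℂ) * I + (x : ℂ) * I := by
    push_cast; ring
  have h2 : ((Real.pi / 2 - x : ℝ) : ℂ) * I = ((Real.pi / 2 : ℝ) : ℂ) * I + ((-x : ℝ) : ℂ) * I := by
    push_cast; ring
  have h3 : exp (((Real.pi / 2 : ℝ) : ℂ) * I) = I := by
    push_cast
    exact Complex.exp_pi_div_two_mul_I
  rw [h1, h2, Complex.exp_add, Complex.exp_add, h3, ← mul_add, fbc_two_cos]
  ring

theorem Ssum_place {J Gh Gv : Finset ℕ} (hd : Disjoint Gh Gv) (hJ : ∀ p ∈ Gh ∪ Gv, 2 * p ∈ J ∧ 2 * p + 1 ∈ J)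
    (m : ℕ → ℤ) (v : ℂ) (α : ℕ → ℝ) (h0 : 0 < cap Gh) (h0' : 0 < cap Gv) (h1 : |v.re| ≤ cap Gh)
    (h2 : |v.im| ≤ cap Gv) : Ssum J (place Gh Gv m v α) = v + rest J Gh Gv α := by
  classical
  have hcos : ∀ (x c : ℝ), 0 < c → |x| ≤ c → Real.cos (Real.arccos (x / c)) = x / c := by
    intro x c hc hx
    rw [abs_le] at hx
    apply Real.cos_arccos
    · rw [le_div_iff₀ hc]; linarith
    · rw [div_le_iff₀ hc]; linarith
  set F : ℕ → ℂ := fun k => (amp k : ℂ) * exp ((place Gh Gv m v α k : ℂ) * I) with hF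
  have hsplit : Ssum J (place Gh Gv m v α) =
      ∑ k ∈ J.filter (fun k => k / 2 ∈ Gh), F k + (∑ k ∈ J.filter (fun k => k / 2 ∈ Gv), F k +
        ∑ k ∈ J.filter (fun k => k / 2 ∉ Gh ∧ k / 2 ∉ Gv), F k) := by
    have e1 := Finset.sum_filter_add_sum_filter_not J (fun k => k / 2 ∈ Gh) F
    have e2 := Finset.sum_filter_add_sum_filter_not (J.filter (fun k => ¬ k / 2 ∈ Gh))
      (fun k => k / 2 ∈ Gv) F
    have s1 : (J.filter (fun k => ¬ k / 2 ∈ Gh)).filter (fun k => k / 2 ∈ Gv)
        = J.filter (fun k => k / 2 ∈ Gv) := by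
      ext k
      simp only [Finset.mem_filter]
      constructor
      · rintro ⟨⟨a, _⟩, c⟩; exact ⟨a, c⟩
      · rintro ⟨a, c⟩
        exact ⟨⟨a, fun hb => (Finset.disjoint_left.1 hd hb) c⟩, c⟩
    have s2 : (J.filter (fun k => ¬ k / 2 ∈ Gh)).filter (fun k => ¬ k / 2 ∈ Gv)
        = J.filter (fun k => k / 2 ∉ Gh ∧ k / 2 ∉ Gv) := by
      rw [Finset.filter_filter]
    rw [s1, s2] at e2
    rw [e2, e1]
    rfl
  have hh : ∑ k ∈ J.filter (fun k => k / 2 ∈ Gh), F k = (v.re : ℂ) := by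
    rw [fbc_pairs (fun p hp => hJ p (Finset.mem_union_left _ hp))]
    have hp : ∀ p ∈ Gh, F (2 * p) + F (2 * p + 1) = ((2 * amp (2 * p) * (v.re / cap Gh) : ℝ) : ℂ) := by
      intro p hp
      have d1 : 2 * p / 2 = p := by omega
      have d2 : (2 * p + 1) / 2 = p := by omega
      have ev1 : Even (2 * p) := even_two_mul p
      have ev2 : ¬ Even (2 * p + 1) := by
        rw [Nat.not_even_iff_odd]; exact odd_two_mul_add_one p
      simp only [hF, place, d1, d2, if_pos hp, if_pos ev1, if_neg ev2]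
      rw [amp_pair, fbc_exp_period, ← mul_add, fbc_two_cos, hcos _ _ h0 h1]
      push_cast
      ring
    rw [Finset.sum_congr rfl hp, ← Complex.ofReal_sum, ← Finset.sum_mul]
    congr 1
    change cap Gh * _ = _
    field_simp
  have hv : ∑ k ∈ J.filter (fun k => k / 2 ∈ Gv), F k = (v.im : ℂ) * I := by
    rw [fbc_pairs (fun p hp => hJ p (Finset.mem_union_right _ hp))]
    have hp : ∀ p ∈ Gv, F (2 * p) + F (2 * p + 1) = ((2 * amp (2 * p) * (v.im / cap Gv) : ℝ) : ℂ) * I := by
      intro p hp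
      have hn : p ∉ Gh := fun hb => (Finset.disjoint_left.1 hd hb) hp
      have d1 : 2 * p / 2 = p := by omega
      have d2 : (2 * p + 1) / 2 = p := by omega
      have ev1 : Even (2 * p) := even_two_mul p
      have ev2 : ¬ Even (2 * p + 1) := by
        rw [Nat.not_even_iff_odd]; exact odd_two_mul_add_one p
      simp only [hF, place, d1, d2, if_neg hn, if_pos hp, if_pos ev1, if_neg ev2]
      rw [amp_pair, fbc_exp_period, ← mul_add, fbc_two_sin, hcos _ _ h0' h2]
      push_cast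
      ring
    rw [Finset.sum_congr rfl hp, ← Finset.sum_mul, ← Complex.ofReal_sum, ← Finset.sum_mul]
    congr 2
    change cap Gv * _ = _
    field_simp
  have hr : ∑ k ∈ J.filter (fun k => k / 2 ∉ Gh ∧ k / 2 ∉ Gv), F k = rest J Gh Gv α := by
    unfold rest
    refine Finset.sum_congr rfl fun k hk => ?_
    have hk2 := (Finset.mem_filter.1 hk).2
    simp only [hF, place, if_neg hk2.1, if_neg hk2.2]
  rw [hsplit, hh, hv, hr, ← add_assoc, Complex.re_add_im]

/-- The path `τ ↦ place Gh Gv m (w - rest (Γ τ)) (Γ τ)`. -/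
theorem comp {J Gh Gv : Finset ℕ} (hd : Disjoint Gh Gv) (hJ : ∀ p ∈ Gh ∪ Gv, 2 * p ∈ J ∧ 2 * p + 1 ∈ J)
    (m : ℕ → ℤ) (w : ℂ) {c : ℝ} (h0 : 0 < c) (h1 : c ≤ cap Gh) (h2 : c ≤ cap Gv) (Γ : ℝ → ℕ → ℝ)
    (hΓ : ∀ k, Continuous fun x => Γ x k) (α₀ : ℕ → ℝ) (hα₀ : ∀ x ∈ Set.Icc (0 : ℝ) 1, ∀ k, k ∉ J → Γ x k = α₀ k)
    (h : ∀ x ∈ Set.Icc (0 : ℝ) 1, ‖w - rest J Gh Gv (Γ x)‖ ≤ c) :
    JoinedIn {α' : ℕ → ℝ | Ssum J α' = w ∧ ∀ k, k ∉ J → α' k = α₀ k}
      (place Gh Gv m (w - rest J Gh Gv (Γ 0)) (Γ 0)) (place Gh Gv m (w - rest J Gh Gv (Γ 1)) (Γ 1)) := by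
  have hrest : Continuous fun x => rest J Gh Gv (Γ x) := by
    unfold rest
    refine continuous_finsetSum _ fun k _ => ?_
    exact continuous_const.mul (Complex.continuous_exp.comp
      ((Complex.continuous_ofReal.comp (hΓ k)).mul continuous_const))
  have hv : Continuous fun x => w - rest J Gh Gv (Γ x) := continuous_const.sub hrest
  have hcont : Continuous fun x => place Gh Gv m (w - rest J Gh Gv (Γ x)) (Γ x) := by
    refine continuous_pi fun k => ?_
    unfold place
    by_cases hk : k / 2 ∈ Gh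
    · have hre : Continuous fun x => Real.arccos ((w - rest J Gh Gv (Γ x)).re / cap Gh) :=
        Real.continuous_arccos.comp ((Complex.continuous_re.comp hv).div_const _)
      by_cases he : Even k
      · simp only [if_pos hk, if_pos he]
        exact hre.add continuous_const
      · simp only [if_pos hk, if_neg he]
        exact hre.neg
    · by_cases hk' : k / 2 ∈ Gv
      · have him : Continuous fun x => Real.arccos ((w - rest J Gh Gv (Γ x)).im / cap Gv) :=
          Real.continuous_arccos.comp ((Complex.continuous_im.comp hv).div_const _)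
        by_cases he : Even k
        · simp only [if_neg hk, if_pos hk', if_pos he]
          exact (continuous_const.add him).add continuous_const
        · simp only [if_neg hk, if_pos hk', if_neg he]
          exact continuous_const.sub him
      · simp only [if_neg hk, if_neg hk']
        exact hΓ k
  refine JoinedIn.ofLine (f := fun x => place Gh Gv m (w - rest J Gh Gv (Γ x)) (Γ x))
    hcont.continuousOn rfl rfl ?_
  rintro _ ⟨x, hx, rfl⟩
  refine ⟨?_, fun k hk => ?_⟩
  · have hb := h x hx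
    change Ssum J (place Gh Gv m (w - rest J Gh Gv (Γ x)) (Γ x)) = w
    rw [Ssum_place hd hJ m _ _ (h0.trans_le h1) (h0.trans_le h2)
      ((Complex.abs_re_le_norm _).trans (hb.trans h1)) ((Complex.abs_im_le_norm _).trans (hb.trans h2))]
    ring
  · have hk1 : k / 2 ∉ Gh := by
      intro hp
      have := hJ _ (Finset.mem_union_left _ hp)
      rcases Nat.even_or_odd' k with ⟨q, rfl | rfl⟩
      · have e : 2 * q / 2 = q := by omega
        rw [e] at this
        exact hk this.1
      · have e : (2 * q + 1) / 2 = q := by omega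
        rw [e] at this
        exact hk this.2
    have hk2 : k / 2 ∉ Gv := by
      intro hp
      have := hJ _ (Finset.mem_union_right _ hp)
      rcases Nat.even_or_odd' k with ⟨q, rfl | rfl⟩
      · have e : 2 * q / 2 = q := by omega
        rw [e] at this
        exact hk this.1
      · have e : (2 * q + 1) / 2 = q := by omega
        rw [e] at this
        exact hk this.2
    change place Gh Gv m (w - rest J Gh Gv (Γ x)) (Γ x) k = α₀ k
    unfold place
    rw [if_neg hk1, if_neg hk2]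
    exact hα₀ x hx k hk

end Pool.Agent.QF
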