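import Pool.Agent.QF.LS
import Pool.Agent.QF.FBC

/-! FB: the fibres of the sum over the tail are connected (in the universal cover). See the blueprint, §FB. -/

namespace Pool.Agent.QF

open Complex

/-! ### Sums over pairs -/

theorem sum_pairs (J T : Finset ℕ) (hT : ∀ p ∈ T, 2 * p ∈ J ∧ 2 * p + 1 ∈ J) (f : ℕ → ℂ) :
    ∑ k ∈ J.filter (fun k => k / 2 ∈ T), f k = ∑ p ∈ T, (f (2 * p) + f (2 * p + 1)) := by
  classical
  have h1 : J.filter (fun k => k / 2 ∈ T) = T.biUnion (fun p => ({2 * p, 2 * p + 1} : Finset ℕ)) := by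
    ext k
    simp only [Finset.mem_filter, Finset.mem_biUnion, Finset.mem_insert, Finset.mem_singleton]
    constructor
    · rintro ⟨_, h⟩
      exact ⟨k / 2, h, by omega⟩
    · rintro ⟨p, hp, rfl | rfl⟩
      · exact ⟨(hT p hp).1, by rwa [Nat.mul_div_cancel_left p (by norm_num)]⟩
      · refine ⟨(hT p hp).2, ?_⟩
        rwa [show (2 * p + 1) / 2 = p by omega]
  rw [h1, Finset.sum_biUnion]
  · refine Finset.sum_congr rfl fun p _ => ?_
    rw [Finset.sum_pair (by omega)]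
  · intro p _ q _ hpq
    rw [Function.onFun, Finset.disjoint_left]
    intro k hk hk'
    simp only [Finset.mem_insert, Finset.mem_singleton] at hk hk'
    omega

/-! ### The groups -/

/-- The first pair. -/
def p0 (n : ℕ) : ℕ := (n + 3) / 2

/-- All pairs. -/
def PP (n : ℕ) : Finset ℕ := Finset.Icc (p0 n) ((n + 1399) / 2)

def Ph (n : ℕ) : Finset ℕ := Finset.Ico (p0 n) (p0 n + 5)
def Pv (n : ℕ) : Finset ℕ := Finset.Ico (p0 n + 5) (p0 n + 10)
def Qh (n : ℕ) : Finset ℕ := Finset.Ico (p0 n + 10) (p0 n + 15)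
def Qv (n : ℕ) : Finset ℕ := Finset.Ico (p0 n + 15) (p0 n + 20)

theorem PP_mem {n : ℕ} {J : Finset ℕ} (hJm : ∀ k, n + 2 ≤ k → k ≤ n + 1400 → k ∈ J) :
    ∀ p ∈ PP n, 2 * p ∈ J ∧ 2 * p + 1 ∈ J := by
  intro p hp
  unfold PP p0 at hp
  rw [Finset.mem_Icc] at hp
  exact ⟨hJm _ (by omega) (by omega), hJm _ (by omega) (by omega)⟩

theorem Ph_sub (n : ℕ) : Ph n ⊆ PP n := by
  intro p hp
  unfold Ph p0 at hp
  unfold PP p0
  rw [Finset.mem_Ico] at hp
  rw [Finset.mem_Icc]
  omega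

theorem Pv_sub (n : ℕ) : Pv n ⊆ PP n := by
  intro p hp
  unfold Pv p0 at hp
  unfold PP p0
  rw [Finset.mem_Ico] at hp
  rw [Finset.mem_Icc]
  omega

theorem Qh_sub (n : ℕ) : Qh n ⊆ PP n := by
  intro p hp
  unfold Qh p0 at hp
  unfold PP p0
  rw [Finset.mem_Ico] at hp
  rw [Finset.mem_Icc]
  omega

theorem Qv_sub (n : ℕ) : Qv n ⊆ PP n := by
  intro p hp
  unfold Qv p0 at hp
  unfold PP p0
  rw [Finset.mem_Ico] at hp
  rw [Finset.mem_Icc]
  omega

theorem cap_Ico {n a : ℕ} (ha : a ≤ p0 n + 15) : 7 * amp n ≤ cap (Finset.Ico a (a + 5)) := by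
  unfold cap
  have h1 : ∀ p ∈ Finset.Ico a (a + 5), 3 / 2 * amp n ≤ 2 * amp (2 * p) := by
    intro p hp
    rw [Finset.mem_Ico] at hp
    have h2 : 3 / 4 * amp n ≤ amp (n + 50) := amp_near n 50 le_rfl
    have h3 : amp (n + 50) ≤ amp (2 * p) := by
      apply amp_anti
      unfold p0 at ha
      omega
    linarith
  have h4 := Finset.card_nsmul_le_sum _ _ _ h1
  rw [Nat.card_Ico, show a + 5 - a = 5 by omega, nsmul_eq_mul] at h4
  have := amp_pos n
  push_cast at h4
  linarith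

theorem cap_Ph (n : ℕ) : 7 * amp n ≤ cap (Ph n) := cap_Ico (by omega)
theorem cap_Pv (n : ℕ) : 7 * amp n ≤ cap (Pv n) := cap_Ico (by omega)
theorem cap_Qh (n : ℕ) : 7 * amp n ≤ cap (Qh n) := cap_Ico (by omega)
theorem cap_Qv (n : ℕ) : 7 * amp n ≤ cap (Qv n) := cap_Ico (by omega)

theorem disj_P (n : ℕ) : Disjoint (Ph n) (Pv n) := by
  rw [Finset.disjoint_left]
  intro p h1 h2
  unfold Ph at h1
  unfold Pv at h2
  rw [Finset.mem_Ico] at h1 h2
  omega

theorem disj_Q (n : ℕ) : Disjoint (Qh n) (Qv n) := by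
  rw [Finset.disjoint_left]
  intro p h1 h2
  unfold Qh at h1
  unfold Qv at h2
  rw [Finset.mem_Ico] at h1 h2
  omega

/-! ### The singles -/

/-- The sum over the indices that do not belong to a pair. -/
noncomputable def sing (n : ℕ) (J : Finset ℕ) (α : ℕ → ℝ) : ℂ :=
  ∑ k ∈ J.filter (fun k => k / 2 ∉ PP n), (amp k : ℂ) * exp ((α k : ℂ) * I)

theorem sing_norm {n : ℕ} {J : Finset ℕ} (hJ : ∀ k ∈ J, n + 2 ≤ k) (α : ℕ → ℝ) : ‖sing n J α‖ ≤ 2 * amp n := by
  classical
  unfold sing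
  refine (norm_sum_le _ _).trans ?_
  have h1 : ∀ k ∈ J.filter (fun k => k / 2 ∉ PP n), ‖(amp k : ℂ) * exp ((α k : ℂ) * I)‖ = amp k := by
    intro k _
    rw [norm_mul, Complex.norm_exp_ofReal_mul_I, mul_one, Complex.norm_real, Real.norm_eq_abs,
      abs_of_pos (amp_pos k)]
  rw [Finset.sum_congr rfl h1]
  have h2 : J.filter (fun k => k / 2 ∉ PP n) ⊆ {n + 2} ∪ J.filter (fun k => n + 1400 ≤ k) := by
    intro k hk
    rw [Finset.mem_filter] at hk
    have h3 := hJ k hk.1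
    have h4 := hk.2
    unfold PP p0 at h4
    rw [Finset.mem_Icc] at h4
    rw [Finset.mem_union, Finset.mem_singleton, Finset.mem_filter]
    by_cases h5 : k = n + 2
    · exact Or.inl h5
    · exact Or.inr ⟨hk.1, by omega⟩
  have h3 : (∑ k ∈ J.filter (fun k => k / 2 ∉ PP n), amp k)
      ≤ ∑ k ∈ {n + 2} ∪ J.filter (fun k => n + 1400 ≤ k), amp k :=
    Finset.sum_le_sum_of_subset_of_nonneg h2 fun k _ _ => (amp_pos k).le
  have h4 : (∑ k ∈ {n + 2} ∪ J.filter (fun k => n + 1400 ≤ k), amp k)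
      ≤ (∑ k ∈ ({n + 2} : Finset ℕ), amp k) + ∑ k ∈ J.filter (fun k => n + 1400 ≤ k), amp k := by
    rw [← Finset.sum_union_inter]
    have : 0 ≤ ∑ k ∈ {n + 2} ∩ J.filter (fun k => n + 1400 ≤ k), amp k :=
      Finset.sum_nonneg fun k _ => (amp_pos k).le
    linarith
  have h5 : (∑ k ∈ J.filter (fun k => n + 1400 ≤ k), amp k) ≤ 200 * amp (n + 1400) := by
    refine amp_sum_le _ _ ?_
    intro k hk
    exact (Finset.mem_filter.mp hk).2
  have h6 : amp (n + 1400) ≤ (99 / 100 : ℝ) ^ 700 * amp n := by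
    simpa using amp_add_le n 1400
  have h7 : (99 / 100 : ℝ) ^ 700 ≤ 1 / 200 := by
    have e1 : (99 / 100 : ℝ) ^ 70 ≤ 1 / 2 := by norm_num
    have e2 : (99 / 100 : ℝ) ^ 700 = ((99 / 100 : ℝ) ^ 70) ^ 10 := by rw [← pow_mul]
    rw [e2]
    calc ((99 / 100 : ℝ) ^ 70) ^ 10 ≤ (1 / 2) ^ 10 := by gcongr
      _ ≤ 1 / 200 := by norm_num
  have h8 : amp (n + 2) ≤ amp n := amp_anti (by omega)
  rw [Finset.sum_singleton] at h4
  have h9 := amp_pos n
  have h10 : (99 / 100 : ℝ) ^ 700 * amp n ≤ 1 / 200 * amp n := mul_le_mul_of_nonneg_right h7 h9.le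
  have h11 : (∑ k ∈ J.filter (fun k => k / 2 ∉ PP n), amp k) ≤ amp (n + 2) + 200 * amp (n + 1400) := by
    linarith
  have h12 : amp (n + 1400) ≤ 1 / 200 * amp n := h6.trans h10
  clear h6 h7 h10
  have h13 : amp (n + 2) + 200 * amp (n + 1400) ≤ 2 * amp n := by linarith
  exact h11.trans h13

/-! ### Decompositions -/

/-- The sum of a pair. -/
noncomputable def pr (α : ℕ → ℝ) (p : ℕ) : ℂ := exp ((α (2 * p) : ℂ) * I) + exp ((α (2 * p + 1) : ℂ) * I)

theorem pr_norm (α : ℕ → ℝ) (p : ℕ) : ‖pr α p‖ ≤ 2 := by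
  unfold pr
  refine (norm_add_le _ _).trans ?_
  rw [Complex.norm_exp_ofReal_mul_I, Complex.norm_exp_ofReal_mul_I]
  norm_num

theorem rest_eq {n : ℕ} {J Gh Gv : Finset ℕ} (hPP : ∀ p ∈ PP n, 2 * p ∈ J ∧ 2 * p + 1 ∈ J) (hGh : Gh ⊆ PP n)
    (hGv : Gv ⊆ PP n) (α : ℕ → ℝ) :
    rest J Gh Gv α = sing n J α + ∑ p ∈ PP n \ (Gh ∪ Gv), (amp (2 * p) : ℂ) * pr α p := by
  classical
  have h1 : ∑ p ∈ PP n \ (Gh ∪ Gv), (amp (2 * p) : ℂ) * pr α p
      = ∑ k ∈ J.filter (fun k => k / 2 ∈ PP n \ (Gh ∪ Gv)), (amp k : ℂ) * exp ((α k : ℂ) * I) := by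
    rw [sum_pairs J (PP n \ (Gh ∪ Gv)) (fun p hp => hPP p (Finset.mem_sdiff.mp hp).1)]
    refine Finset.sum_congr rfl fun p _ => ?_
    rw [amp_pair, pr, mul_add]
  rw [h1]
  unfold rest sing
  rw [← Finset.sum_union]
  · refine Finset.sum_congr ?_ fun _ _ => rfl
    ext k
    simp only [Finset.mem_filter, Finset.mem_union, Finset.mem_sdiff, not_or]
    constructor
    · rintro ⟨hk, h2, h3⟩
      by_cases h4 : k / 2 ∈ PP n
      · exact Or.inr ⟨hk, h4, h2, h3⟩
      · exact Or.inl ⟨hk, h4⟩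
    · rintro (⟨hk, h4⟩ | ⟨hk, _, h2, h3⟩)
      · exact ⟨hk, fun h => h4 (hGh h), fun h => h4 (hGv h)⟩
      · exact ⟨hk, h2, h3⟩
  · rw [Finset.disjoint_left]
    intro k h2 h3
    rw [Finset.mem_filter] at h2 h3
    exact h2.2 (Finset.mem_sdiff.mp h3.2).1

theorem Ssum_eq {n : ℕ} {J : Finset ℕ} (hPP : ∀ p ∈ PP n, 2 * p ∈ J ∧ 2 * p + 1 ∈ J) (α : ℕ → ℝ) :
    Ssum J α = sing n J α + ∑ p ∈ PP n, (amp (2 * p) : ℂ) * pr α p := by
  have h := rest_eq hPP (Finset.empty_subset _) (Finset.empty_subset _) α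
  rw [Finset.union_empty, Finset.sdiff_empty] at h
  rw [← h]
  unfold Ssum rest
  simp

theorem Ssum_eq_rest {n : ℕ} {J Gh Gv : Finset ℕ} (hPP : ∀ p ∈ PP n, 2 * p ∈ J ∧ 2 * p + 1 ∈ J)
    (hGh : Gh ⊆ PP n) (hGv : Gv ⊆ PP n) (α : ℕ → ℝ) :
    Ssum J α = rest J Gh Gv α + ∑ p ∈ Gh ∪ Gv, (amp (2 * p) : ℂ) * pr α p := by
  classical
  rw [Ssum_eq hPP, rest_eq hPP hGh hGv, add_assoc,
    Finset.sum_sdiff (Finset.union_subset hGh hGv)]

theorem rest_congr {J Gh Gv : Finset ℕ} {α α' : ℕ → ℝ}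
    (h : ∀ k, k / 2 ∉ Gh → k / 2 ∉ Gv → α k = α' k) : rest J Gh Gv α = rest J Gh Gv α' := by
  unfold rest
  refine Finset.sum_congr rfl fun k hk => ?_
  rw [Finset.mem_filter] at hk
  rw [h k hk.2.1 hk.2.2]

theorem place_congr {Gh Gv : Finset ℕ} {m : ℕ → ℤ} {v : ℂ} {α α' : ℕ → ℝ}
    (h : ∀ k, k / 2 ∉ Gh → k / 2 ∉ Gv → α k = α' k) : place Gh Gv m v α = place Gh Gv m v α' := by
  funext k
  unfold place
  by_cases h1 : k / 2 ∈ Gh
  · rw [if_pos h1, if_pos h1]
  · rw [if_neg h1, if_neg h1]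
    by_cases h2 : k / 2 ∈ Gv
    · rw [if_pos h2, if_pos h2]
    · rw [if_neg h2, if_neg h2]
      exact h k h1 h2

theorem place_zero {Gh Gv : Finset ℕ} {m : ℕ → ℤ} {α : ℕ → ℝ}
    (h1 : ∀ p ∈ Gh, α (2 * p) = Real.pi / 2 + 2 * Real.pi * m p ∧ α (2 * p + 1) = -(Real.pi / 2))
    (h2 : ∀ p ∈ Gv, α (2 * p) = Real.pi + 2 * Real.pi * m p ∧ α (2 * p + 1) = 0) :
    place Gh Gv m 0 α = α := by
  funext k
  unfold place
  simp only [Complex.zero_re, Complex.zero_im, zero_div, Real.arccos_zero]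
  rcases Nat.even_or_odd' k with ⟨p, rfl | rfl⟩
  · rw [Nat.mul_div_cancel_left p (by norm_num), if_pos (even_two_mul p), if_pos (even_two_mul p)]
    by_cases h3 : p ∈ Gh
    · rw [if_pos h3, (h1 p h3).1]
    · rw [if_neg h3]
      by_cases h4 : p ∈ Gv
      · rw [if_pos h4, (h2 p h4).1]
        ring
      · rw [if_neg h4]
  · have e : ¬ Even (2 * p + 1) := by
      rw [Nat.not_even_iff_odd]; exact odd_two_mul_add_one p
    rw [show (2 * p + 1) / 2 = p by omega, if_neg e, if_neg e]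
    by_cases h3 : p ∈ Gh
    · rw [if_pos h3, (h1 p h3).2]
    · rw [if_neg h3]
      by_cases h4 : p ∈ Gv
      · rw [if_pos h4, (h2 p h4).2]
        ring
      · rw [if_neg h4]

/-! ### Configurations with all pairs in label form -/

/-- The direction of the pair. -/
noncomputable def chi (n p : ℕ) : ℝ := if p ∈ Pv n ∨ p ∈ Qv n then Real.pi / 2 else 0

noncomputable def conf (n : ℕ) (J : Finset ℕ) (μ α₀ : ℕ → ℝ) : ℕ → ℝ := fun k =>
  if k ∈ J then
    (if k / 2 ∈ PP n then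
      (if Even k then chi n (k / 2) + Real.pi / 2 + 2 * Real.pi * μ (k / 2) else chi n (k / 2) - Real.pi / 2)
    else 0)
  else α₀ k

theorem conf_even {n : ℕ} {J : Finset ℕ} (hPP : ∀ p ∈ PP n, 2 * p ∈ J ∧ 2 * p + 1 ∈ J) (μ α₀ : ℕ → ℝ) {p : ℕ}
    (hp : p ∈ PP n) : conf n J μ α₀ (2 * p) = chi n p + Real.pi / 2 + 2 * Real.pi * μ p := by
  unfold conf
  rw [if_pos (hPP p hp).1, Nat.mul_div_cancel_left p (by norm_num), if_pos hp, if_pos (even_two_mul p)]

theorem conf_odd {n : ℕ} {J : Finset ℕ} (hPP : ∀ p ∈ PP n, 2 * p ∈ J ∧ 2 * p + 1 ∈ J) (μ α₀ : ℕ → ℝ) {p : ℕ}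
    (hp : p ∈ PP n) : conf n J μ α₀ (2 * p + 1) = chi n p - Real.pi / 2 := by
  unfold conf
  have e : ¬ Even (2 * p + 1) := by
    rw [Nat.not_even_iff_odd]; exact odd_two_mul_add_one p
  rw [if_pos (hPP p hp).2, show (2 * p + 1) / 2 = p by omega, if_pos hp, if_neg e]

theorem exp_label (c : ℝ) (m : ℤ) :
    exp (((c + Real.pi / 2 + 2 * Real.pi * m : ℝ) : ℂ) * I) + exp (((c - Real.pi / 2 : ℝ) : ℂ) * I) = 0 := by
  have h1 : ((c + Real.pi / 2 + 2 * Real.pi * m : ℝ) : ℂ) * I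
      = ((c - Real.pi / 2 : ℝ) : ℂ) * I + Real.pi * I + m * (2 * Real.pi * I) := by
    push_cast
    ring
  rw [h1, Complex.exp_add, Complex.exp_int_mul_two_pi_mul_I, Complex.exp_add, Complex.exp_pi_mul_I]
  ring

theorem pr_conf_int {n : ℕ} {J : Finset ℕ} (hPP : ∀ p ∈ PP n, 2 * p ∈ J ∧ 2 * p + 1 ∈ J) (μ α₀ : ℕ → ℝ) {p : ℕ}
    (hp : p ∈ PP n) (m : ℤ) (hm : μ p = m) : pr (conf n J μ α₀) p = 0 := by
  unfold pr
  rw [conf_even hPP μ α₀ hp, conf_odd hPP μ α₀ hp, hm]
  exact exp_label _ _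

theorem sing_conf {n : ℕ} {J : Finset ℕ} (μ μ' α₀ α₀' : ℕ → ℝ) :
    sing n J (conf n J μ α₀) = sing n J (conf n J μ' α₀') := by
  unfold sing
  refine Finset.sum_congr rfl fun k hk => ?_
  rw [Finset.mem_filter] at hk
  unfold conf
  rw [if_pos hk.1, if_neg hk.2, if_pos hk.1, if_neg hk.2]

theorem rest_conf {n : ℕ} {J Gh Gv : Finset ℕ} (hPP : ∀ p ∈ PP n, 2 * p ∈ J ∧ 2 * p + 1 ∈ J)
    (hGh : Gh ⊆ PP n) (hGv : Gv ⊆ PP n) (μ : ℕ → ℤ) (α₀ : ℕ → ℝ) :
    rest J Gh Gv (conf n J (fun p => (μ p : ℝ)) α₀) = sing n J (conf n J 0 0) := by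
  rw [rest_eq hPP hGh hGv, Finset.sum_eq_zero, add_zero]
  · exact sing_conf _ _ _ _
  · intro p hp
    rw [pr_conf_int hPP _ _ (Finset.mem_sdiff.mp hp).1 (μ p) rfl, mul_zero]

/-! ### The moves -/

/-- The fibre through `α₀`. -/
def Fib (J : Finset ℕ) (w : ℂ) (α₀ : ℕ → ℝ) : Set (ℕ → ℝ) := {α' | Ssum J α' = w ∧ ∀ k, k ∉ J → α' k = α₀ k}

theorem amp_PP {n p : ℕ} (hp : p ∈ PP n) : amp (2 * p) ≤ amp n := by
  apply amp_anti
  unfold PP p0 at hp
  rw [Finset.mem_Icc] at hp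
  omega

/-- Moving one label to `0`. -/
theorem relabel_one {n : ℕ} {J Gh Gv : Finset ℕ} (hJ : ∀ k ∈ J, n + 2 ≤ k)
    (hPP : ∀ p ∈ PP n, 2 * p ∈ J ∧ 2 * p + 1 ∈ J) (hd : Disjoint Gh Gv) (hGh : Gh ⊆ PP n) (hGv : Gv ⊆ PP n)
    (hch : 7 * amp n ≤ cap Gh) (hcv : 7 * amp n ≤ cap Gv) (m : ℕ → ℤ) {w : ℂ} (hw : ‖w‖ ≤ 3 * amp n)
    (α₀ : ℕ → ℝ) (μ : ℕ → ℤ) (q : ℕ) :
    JoinedIn (Fib J w α₀)
      (place Gh Gv m (w - sing n J (conf n J 0 0)) (conf n J (fun p => (μ p : ℝ)) α₀))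
      (place Gh Gv m (w - sing n J (conf n J 0 0))
        (conf n J (fun p => ((if p = q then 0 else μ p : ℤ) : ℝ)) α₀)) := by
  classical
  have ha := amp_pos n
  have hU : ∀ p ∈ Gh ∪ Gv, 2 * p ∈ J ∧ 2 * p + 1 ∈ J := fun p hp =>
    hPP p (Finset.union_subset hGh hGv hp)
  let Γ : ℝ → ℕ → ℝ := fun x => conf n J (fun p => if p = q then (1 - x) * μ p else (μ p : ℝ)) α₀
  have hΓ0 : Γ 0 = conf n J (fun p => (μ p : ℝ)) α₀ := by
    simp only [Γ]
    congr 1
    funext p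
    split_ifs <;> ring
  have hΓ1 : Γ 1 = conf n J (fun p => ((if p = q then 0 else μ p : ℤ) : ℝ)) α₀ := by
    simp only [Γ]
    congr 1
    funext p
    split_ifs
    · push_cast
      ring
    · rfl
  have hcont : ∀ k, Continuous fun x => Γ x k := by
    intro k
    simp only [Γ, conf]
    by_cases h1 : k ∈ J
    · simp only [if_pos h1]
      by_cases h2 : k / 2 ∈ PP n
      · simp only [if_pos h2]
        by_cases h3 : Even k
        · simp only [if_pos h3]
          by_cases h4 : k / 2 = q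
          · simp only [if_pos h4]
            fun_prop
          · simp only [if_neg h4]
            fun_prop
        · simp only [if_neg h3]
          fun_prop
      · simp only [if_neg h2]
        fun_prop
    · simp only [if_neg h1]
      fun_prop
  have hout : ∀ x ∈ Set.Icc (0 : ℝ) 1, ∀ k, k ∉ J → Γ x k = α₀ k := by
    intro x _ k hk
    simp only [Γ, conf, if_neg hk]
  have hbd : ∀ x ∈ Set.Icc (0 : ℝ) 1, ‖w - rest J Gh Gv (Γ x)‖ ≤ 7 * amp n := by
    intro x _
    rw [rest_eq hPP hGh hGv]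
    have h1 : ‖sing n J (Γ x)‖ ≤ 2 * amp n := sing_norm hJ _
    have h2 : ‖∑ p ∈ PP n \ (Gh ∪ Gv), (amp (2 * p) : ℂ) * pr (Γ x) p‖ ≤ 2 * amp n := by
      by_cases hq : q ∈ PP n \ (Gh ∪ Gv)
      · rw [Finset.sum_eq_single_of_mem q hq]
        · rw [norm_mul, Complex.norm_real, Real.norm_eq_abs, abs_of_pos (amp_pos _)]
          have h3 := pr_norm (Γ x) q
          have h4 := amp_PP (Finset.mem_sdiff.mp hq).1
          have h5 := amp_pos (2 * q)
          nlinarith [norm_nonneg (pr (Γ x) q)]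
        · intro p hp hpq
          rw [pr_conf_int hPP _ _ (Finset.mem_sdiff.mp hp).1 (μ p) (by rw [if_neg hpq]), mul_zero]
      · rw [Finset.sum_eq_zero]
        · rw [norm_zero]
          positivity
        · intro p hp
          have hpq : p ≠ q := by
            rintro rfl
            exact hq hp
          rw [pr_conf_int hPP _ _ (Finset.mem_sdiff.mp hp).1 (μ p) (by rw [if_neg hpq]), mul_zero]
    calc ‖w - (sing n J (Γ x) + ∑ p ∈ PP n \ (Gh ∪ Gv), (amp (2 * p) : ℂ) * pr (Γ x) p)‖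
        ≤ ‖w‖ + ‖sing n J (Γ x) + ∑ p ∈ PP n \ (Gh ∪ Gv), (amp (2 * p) : ℂ) * pr (Γ x) p‖ := norm_sub_le _ _
      _ ≤ ‖w‖ + (‖sing n J (Γ x)‖ + ‖∑ p ∈ PP n \ (Gh ∪ Gv), (amp (2 * p) : ℂ) * pr (Γ x) p‖) := by
          gcongr
          exact norm_add_le _ _
      _ ≤ 7 * amp n := by linarith
  have hmain := comp hd hU m w (by positivity : (0 : ℝ) < 7 * amp n) hch hcv Γ hcont α₀ hout hbd
  rw [hΓ0, hΓ1] at hmain
  rw [rest_conf hPP hGh hGv, rest_conf hPP hGh hGv] at hmain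
  exact hmain

/-- Moving all labels to `0`. -/
theorem relabel_all {n : ℕ} {J Gh Gv : Finset ℕ} (hJ : ∀ k ∈ J, n + 2 ≤ k)
    (hPP : ∀ p ∈ PP n, 2 * p ∈ J ∧ 2 * p + 1 ∈ J) (hd : Disjoint Gh Gv) (hGh : Gh ⊆ PP n) (hGv : Gv ⊆ PP n)
    (hch : 7 * amp n ≤ cap Gh) (hcv : 7 * amp n ≤ cap Gv) (m : ℕ → ℤ) {w : ℂ} (hw : ‖w‖ ≤ 3 * amp n)
    (α₀ : ℕ → ℝ) (μ : ℕ → ℤ) (T : Finset ℕ) :
    JoinedIn (Fib J w α₀)
      (place Gh Gv m (w - sing n J (conf n J 0 0)) (conf n J (fun p => (μ p : ℝ)) α₀))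
      (place Gh Gv m (w - sing n J (conf n J 0 0))
        (conf n J (fun p => ((if p ∈ T then 0 else μ p : ℤ) : ℝ)) α₀)) := by
  classical
  induction T using Finset.induction_on with
  | empty =>
    have h := relabel_one hJ hPP hd hGh hGv hch hcv m hw α₀ μ 0
    simpa using JoinedIn.refl h.source_mem
  | insert q T hq ih =>
    refine ih.trans ?_
    have h := relabel_one hJ hPP hd hGh hGv hch hcv m hw α₀ (fun p => if p ∈ T then 0 else μ p) q
    have e : (fun p => ((if p = q then 0 else (if p ∈ T then 0 else μ p) : ℤ) : ℝ))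
        = (fun p => ((if p ∈ insert q T then 0 else μ p : ℤ) : ℝ)) := by
      funext p
      by_cases h1 : p = q
      · rw [if_pos h1, if_pos (by rw [h1]; exact Finset.mem_insert_self _ _)]
      · rw [if_neg h1]
        by_cases h2 : p ∈ T
        · rw [if_pos h2, if_pos (Finset.mem_insert_of_mem h2)]
        · rw [if_neg h2, if_neg (by rw [Finset.mem_insert]; tauto)]
    rw [e] at h
    exact h

theorem chi_h {n p : ℕ} (hp : p ∈ Ph n ∨ p ∈ Qh n) : chi n p = 0 := by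
  unfold chi
  rw [if_neg]
  unfold Ph Qh at hp
  unfold Pv Qv
  simp only [Finset.mem_Ico] at hp ⊢
  omega

theorem chi_v {n p : ℕ} (hp : p ∈ Pv n ∨ p ∈ Qv n) : chi n p = Real.pi / 2 := by
  unfold chi
  rw [if_pos hp]

theorem PQ_disj {n p : ℕ} (hp : p ∈ Ph n ∪ Pv n) : p ∉ Qh n ∪ Qv n := by
  unfold Ph Pv at hp
  unfold Qh Qv
  rw [Finset.mem_union, Finset.mem_Ico, Finset.mem_Ico] at hp
  rw [Finset.mem_union, Finset.mem_Ico, Finset.mem_Ico]
  omega

theorem place_out {Gh Gv : Finset ℕ} (m : ℕ → ℤ) (v : ℂ) (α : ℕ → ℝ) {k : ℕ} (h : k / 2 ∉ Gh ∪ Gv) :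
    place Gh Gv m v α k = α k := by
  rw [Finset.mem_union, not_or] at h
  unfold place
  rw [if_neg h.1, if_neg h.2]

/-- The sum is carried over from the group `Q` (labels `m`) to the group `P`. -/
theorem swap {n : ℕ} {J : Finset ℕ} (hJ : ∀ k ∈ J, n + 2 ≤ k)
    (hPP : ∀ p ∈ PP n, 2 * p ∈ J ∧ 2 * p + 1 ∈ J) (m : ℕ → ℤ) {w : ℂ} (hw : ‖w‖ ≤ 3 * amp n)
    (α₀ : ℕ → ℝ) (μ : ℕ → ℤ) (hμP : ∀ p ∈ Ph n ∪ Pv n, μ p = 0) (hμQ : ∀ p ∈ Qh n ∪ Qv n, μ p = m p) :
    JoinedIn (Fib J w α₀)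
      (place (Qh n) (Qv n) m (w - sing n J (conf n J 0 0)) (conf n J (fun p => (μ p : ℝ)) α₀))
      (place (Ph n) (Pv n) 0 (w - sing n J (conf n J 0 0)) (conf n J (fun p => (μ p : ℝ)) α₀)) := by
  classical
  have ha := amp_pos n
  set Z := sing n J (conf n J 0 0) with hZ
  set c₀ := conf n J (fun p => (μ p : ℝ)) α₀ with hc₀
  have hZn : ‖Z‖ ≤ 2 * amp n := sing_norm hJ _
  have hvn : ‖w - Z‖ ≤ 5 * amp n := (norm_sub_le _ _).trans (by linarith)
  have hUQ : ∀ p ∈ Qh n ∪ Qv n, 2 * p ∈ J ∧ 2 * p + 1 ∈ J := fun p hp =>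
    hPP p (Finset.union_subset (Qh_sub n) (Qv_sub n) hp)
  have hUP : ∀ p ∈ Ph n ∪ Pv n, 2 * p ∈ J ∧ 2 * p + 1 ∈ J := fun p hp =>
    hPP p (Finset.union_subset (Ph_sub n) (Pv_sub n) hp)
  let Γ : ℝ → ℕ → ℝ := fun x => place (Qh n) (Qv n) m (((1 - x : ℝ) : ℂ) * (w - Z)) c₀
  have hcapQh : 0 < cap (Qh n) := lt_of_lt_of_le (by positivity) (cap_Qh n)
  have hcapQv : 0 < cap (Qv n) := lt_of_lt_of_le (by positivity) (cap_Qv n)
  have hcont : ∀ k, Continuous fun x => Γ x k := by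
    intro k
    simp only [Γ, place]
    by_cases h1 : k / 2 ∈ Qh n
    · simp only [if_pos h1]
      by_cases h3 : Even k
      · simp only [if_pos h3]
        refine (Real.continuous_arccos.comp ?_).add continuous_const
        refine Continuous.div_const ?_ _
        exact Complex.continuous_re.comp ((Complex.continuous_ofReal.comp
          (continuous_const.sub continuous_id)).mul continuous_const)
      · simp only [if_neg h3]
        refine (Real.continuous_arccos.comp ?_).neg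
        refine Continuous.div_const ?_ _
        exact Complex.continuous_re.comp ((Complex.continuous_ofReal.comp
          (continuous_const.sub continuous_id)).mul continuous_const)
    · simp only [if_neg h1]
      by_cases h2 : k / 2 ∈ Qv n
      · simp only [if_pos h2]
        by_cases h3 : Even k
        · simp only [if_pos h3]
          refine (continuous_const.add (Real.continuous_arccos.comp ?_)).add continuous_const
          refine Continuous.div_const ?_ _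
          exact Complex.continuous_im.comp ((Complex.continuous_ofReal.comp
            (continuous_const.sub continuous_id)).mul continuous_const)
        · simp only [if_neg h3]
          refine continuous_const.sub (Real.continuous_arccos.comp ?_)
          refine Continuous.div_const ?_ _
          exact Complex.continuous_im.comp ((Complex.continuous_ofReal.comp
            (continuous_const.sub continuous_id)).mul continuous_const)
      · simp only [if_neg h2]
        exact continuous_const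
  have hout : ∀ x ∈ Set.Icc (0 : ℝ) 1, ∀ k, k ∉ J → Γ x k = α₀ k := by
    intro x _ k hk
    have h1 : k / 2 ∉ Qh n ∪ Qv n := by
      intro h
      apply hk
      rcases Nat.even_or_odd' k with ⟨p, rfl | rfl⟩
      · rw [Nat.mul_div_cancel_left p (by norm_num)] at h
        exact (hUQ p h).1
      · rw [show (2 * p + 1) / 2 = p by omega] at h
        exact (hUQ p h).2
    simp only [Γ]
    rw [place_out _ _ _ h1, hc₀]
    simp only [conf, if_neg hk]
  -- the rest for the group `P`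
  have hrest : ∀ x ∈ Set.Icc (0 : ℝ) 1, rest J (Ph n) (Pv n) (Γ x) = ((1 - x : ℝ) : ℂ) * (w - Z) + Z := by
    intro x hx
    have h1 := Ssum_eq_rest hPP (Ph_sub n) (Pv_sub n) (Γ x)
    have h2 : ∑ p ∈ Ph n ∪ Pv n, (amp (2 * p) : ℂ) * pr (Γ x) p = 0 := by
      refine Finset.sum_eq_zero fun p hp => ?_
      have h3 : pr (Γ x) p = pr c₀ p := by
        unfold pr
        simp only [Γ]
        rw [place_out _ _ _ (by rw [Nat.mul_div_cancel_left p (by norm_num)]; exact PQ_disj hp),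
          place_out _ _ _ (by rw [show (2 * p + 1) / 2 = p by omega]; exact PQ_disj hp)]
      rw [h3, hc₀, pr_conf_int hPP _ _ (Finset.union_subset (Ph_sub n) (Pv_sub n) hp) (μ p) rfl, mul_zero]
    rw [h2, add_zero] at h1
    rw [← h1]
    have h4 : ‖((1 - x : ℝ) : ℂ) * (w - Z)‖ ≤ 5 * amp n := by
      rw [norm_mul, Complex.norm_real, Real.norm_eq_abs, abs_of_nonneg (by linarith [hx.2])]
      have : (1 - x) * ‖w - Z‖ ≤ 1 * ‖w - Z‖ :=
        mul_le_mul_of_nonneg_right (by linarith [hx.1]) (norm_nonneg _)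
      linarith
    have h5 := Ssum_place (disj_Q n) hUQ m (((1 - x : ℝ) : ℂ) * (w - Z)) c₀ hcapQh hcapQv
      ((Complex.abs_re_le_norm _).trans (h4.trans (by linarith [cap_Qh n])))
      ((Complex.abs_im_le_norm _).trans (h4.trans (by linarith [cap_Qv n])))
    rw [h5, rest_conf hPP (Qh_sub n) (Qv_sub n)]
  have hbd : ∀ x ∈ Set.Icc (0 : ℝ) 1, ‖w - rest J (Ph n) (Pv n) (Γ x)‖ ≤ 7 * amp n := by
    intro x hx
    rw [hrest x hx]
    have h1 : w - (((1 - x : ℝ) : ℂ) * (w - Z) + Z) = (x : ℂ) * (w - Z) := by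
      push_cast
      ring
    rw [h1, norm_mul, Complex.norm_real, Real.norm_eq_abs, abs_of_nonneg hx.1]
    have : x * ‖w - Z‖ ≤ 1 * ‖w - Z‖ := mul_le_mul_of_nonneg_right hx.2 (norm_nonneg _)
    linarith
  have hmain := comp (disj_P n) hUP 0 w (by positivity : (0 : ℝ) < 7 * amp n) (cap_Ph n) (cap_Pv n) Γ hcont α₀
    hout hbd
  rw [hrest 0 (by simp), hrest 1 (by simp)] at hmain
  have e0 : w - (((1 - 0 : ℝ) : ℂ) * (w - Z) + Z) = 0 := by
    push_cast
    ring
  have e1 : w - (((1 - 1 : ℝ) : ℂ) * (w - Z) + Z) = w - Z := by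
    push_cast
    ring
  rw [e0, e1] at hmain
  have f0 : place (Ph n) (Pv n) 0 0 (Γ 0) = place (Qh n) (Qv n) m (w - Z) c₀ := by
    rw [place_zero]
    · simp only [Γ]
      congr 1
      push_cast
      ring
    · intro p hp
      have hp' : p ∈ Ph n ∪ Pv n := Finset.mem_union_left _ hp
      have hpPP := Ph_sub n hp
      simp only [Γ]
      rw [place_out _ _ _ (by rw [Nat.mul_div_cancel_left p (by norm_num)]; exact PQ_disj hp'),
        place_out _ _ _ (by rw [show (2 * p + 1) / 2 = p by omega]; exact PQ_disj hp'),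
        hc₀, conf_even hPP _ _ hpPP, conf_odd hPP _ _ hpPP, chi_h (Or.inl hp), hμP p hp']
      simp
    · intro p hp
      have hp' : p ∈ Ph n ∪ Pv n := Finset.mem_union_right _ hp
      have hpPP := Pv_sub n hp
      simp only [Γ]
      rw [place_out _ _ _ (by rw [Nat.mul_div_cancel_left p (by norm_num)]; exact PQ_disj hp'),
        place_out _ _ _ (by rw [show (2 * p + 1) / 2 = p by omega]; exact PQ_disj hp'),
        hc₀, conf_even hPP _ _ hpPP, conf_odd hPP _ _ hpPP, chi_v (Or.inl hp), hμP p hp']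
      simp
  have f1 : Γ 1 = c₀ := by
    simp only [Γ]
    have : ((1 - 1 : ℝ) : ℂ) * (w - Z) = 0 := by
      push_cast
      ring
    rw [this]
    apply place_zero
    · intro p hp
      have hp' : p ∈ Qh n ∪ Qv n := Finset.mem_union_left _ hp
      have hpPP := Qh_sub n hp
      rw [hc₀, conf_even hPP _ _ hpPP, conf_odd hPP _ _ hpPP, chi_h (Or.inr hp), hμQ p hp']
      simp
    · intro p hp
      have hp' : p ∈ Qh n ∪ Qv n := Finset.mem_union_right _ hp
      have hpPP := Qv_sub n hp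
      rw [hc₀, conf_even hPP _ _ hpPP, conf_odd hPP _ _ hpPP, chi_v (Or.inr hp), hμQ p hp']
      simp
  rw [f0, f1] at hmain
  exact hmain

theorem lam_zero : lam 0 = 0 := by unfold lam; norm_num
theorem lam_one : lam 1 = 1 := by unfold lam; norm_num
theorem lam_mem (x : ℝ) : 0 ≤ lam x ∧ lam x ≤ 1 := by
  unfold lam
  exact ⟨le_max_left _ _, max_le (by norm_num) (min_le_left _ _)⟩

/-- First straight line homotopy: all pairs except those of `Ph` to the sum `0` (label form), the pairs of `Ph` share the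
rest. -/
theorem stage_one {n : ℕ} {J : Finset ℕ} (hJ : ∀ k ∈ J, n + 2 ≤ k)
    (hPP : ∀ p ∈ PP n, 2 * p ∈ J ∧ 2 * p + 1 ∈ J) {w : ℂ} (hw : ‖w‖ ≤ 3 * amp n)
    (α : ℕ → ℝ) (hα : Ssum J α = w) :
    ∃ (β : ℕ → ℝ) (m : ℕ → ℤ), JoinedIn (Fib J w α) α β ∧
      (∀ k ∈ J, k / 2 ∉ PP n → β k = α k) ∧
      (∀ p ∈ Ph n, pr β p = 2 * (w - sing n J α) / cap (Ph n)) ∧
      (∀ p ∈ PP n, p ∉ Ph n → β (2 * p) = chi n p + Real.pi / 2 + 2 * Real.pi * m p ∧
        β (2 * p + 1) = chi n p - Real.pi / 2) := by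
  classical
  have ha := amp_pos n
  have hcap := cap_Ph n
  have hcap0 : 0 < cap (Ph n) := lt_of_lt_of_le (by positivity) hcap
  set v := w - sing n J α with hv
  have hvn : ‖v‖ ≤ 5 * amp n := by
    have h1 := sing_norm hJ α
    exact (norm_sub_le _ _).trans (by linarith)
  have hvsum : ∑ p ∈ PP n, (amp (2 * p) : ℂ) * pr α p = v := by
    rw [hv, ← hα, Ssum_eq hPP α]
    ring
  let W : ℕ → ℂ := fun p => if p ∈ Ph n then 2 * v / cap (Ph n) else 0
  have hWn : ∀ p, ‖W p‖ ≤ 2 := by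
    intro p
    simp only [W]
    split_ifs
    · rw [norm_div, norm_mul, Complex.norm_real, Real.norm_eq_abs, abs_of_pos hcap0, div_le_iff₀ hcap0]
      simp only [Complex.norm_ofNat]
      linarith
    · simp
  have hWsum : ∑ p ∈ PP n, (amp (2 * p) : ℂ) * W p = v := by
    rw [← Finset.sum_subset (Ph_sub n)]
    · have h1 : ∑ p ∈ Ph n, (amp (2 * p) : ℂ) * W p = ∑ p ∈ Ph n, ((2 * amp (2 * p) : ℝ) : ℂ) * (v / cap (Ph n)) := by
        refine Finset.sum_congr rfl fun p hp => ?_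
        simp only [W, if_pos hp]
        push_cast
        ring
      rw [h1, ← Finset.sum_mul, ← Complex.ofReal_sum]
      change ((cap (Ph n) : ℝ) : ℂ) * (v / cap (Ph n)) = v
      have : ((cap (Ph n) : ℝ) : ℂ) ≠ 0 := by exact_mod_cast hcap0.ne'
      field_simp
    · intro p _ hp
      simp only [W, if_neg hp, mul_zero]
  have hlift : ∀ p, ∃ X Y : ℝ → ℝ, Continuous X ∧ Continuous Y ∧ X 0 = α (2 * p) ∧ Y 0 = α (2 * p + 1) ∧
      (∀ τ ∈ Set.Icc (0 : ℝ) 1, exp ((X τ : ℂ) * I) + exp ((Y τ : ℂ) * I) =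
        (1 - lam τ) * pr α p + lam τ * W p) ∧
      ∃ m : ℤ, p ∉ Ph n → X 1 = chi n p + Real.pi / 2 + 2 * Real.pi * m ∧ Y 1 = chi n p - Real.pi / 2 := by
    intro p
    by_cases hp : p ∈ Ph n
    · obtain ⟨X, Y, h1, h2, h3, h4, h5⟩ := lift_seg (α (2 * p)) (α (2 * p + 1)) (W p) (hWn p)
      exact ⟨X, Y, h1, h2, h3, h4, fun τ hτ => by rw [h5 τ hτ, pr], 0, fun h => absurd hp h⟩
    · obtain ⟨X, Y, h1, h2, h3, h4, h5, m, h6⟩ := lift_seg_zero (α (2 * p)) (α (2 * p + 1)) (chi n p)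
      refine ⟨X, Y, h1, h2, h3, h4, fun τ hτ => ?_, m, fun _ => h6⟩
      rw [h5 τ hτ, pr]
      simp only [W, if_neg hp, mul_zero, add_zero]
  choose X Y hX hY hX0 hY0 hXY m hm using hlift
  let Γ : ℝ → ℕ → ℝ := fun x k => if k ∈ J ∧ k / 2 ∈ PP n then (if Even k then X (k / 2) x else Y (k / 2) x) else α k
  have hΓe : ∀ x, ∀ p ∈ PP n, Γ x (2 * p) = X p x := by
    intro x p hp
    simp only [Γ]
    rw [Nat.mul_div_cancel_left p (by norm_num), if_pos ⟨(hPP p hp).1, hp⟩, if_pos (even_two_mul p)]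
  have hΓo : ∀ x, ∀ p ∈ PP n, Γ x (2 * p + 1) = Y p x := by
    intro x p hp
    have e : ¬ Even (2 * p + 1) := by
      rw [Nat.not_even_iff_odd]; exact odd_two_mul_add_one p
    simp only [Γ]
    rw [show (2 * p + 1) / 2 = p by omega, if_pos ⟨(hPP p hp).2, hp⟩, if_neg e]
  have hΓs : ∀ x k, k / 2 ∉ PP n → Γ x k = α k := by
    intro x k hk
    simp only [Γ]
    rw [if_neg (fun h => hk h.2)]
  have hΓJ : ∀ x k, k ∉ J → Γ x k = α k := by
    intro x k hk
    simp only [Γ]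
    rw [if_neg (fun h => hk h.1)]
  refine ⟨Γ 1, m, ?_, fun k _ hk => hΓs 1 k hk, ?_, ?_⟩
  · refine JoinedIn.ofLine (f := Γ) ?_ ?_ rfl ?_
    · refine Continuous.continuousOn (continuous_pi fun k => ?_)
      simp only [Γ]
      by_cases h1 : k ∈ J ∧ k / 2 ∈ PP n
      · simp only [if_pos h1]
        by_cases h2 : Even k
        · simp only [if_pos h2]
          exact hX _
        · simp only [if_neg h2]
          exact hY _
      · simp only [if_neg h1]
        exact continuous_const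
    · funext k
      by_cases h1 : k ∈ J ∧ k / 2 ∈ PP n
      · rcases Nat.even_or_odd' k with ⟨p, rfl | rfl⟩
        · rw [Nat.mul_div_cancel_left p (by norm_num)] at h1
          rw [hΓe 0 p h1.2, hX0]
        · rw [show (2 * p + 1) / 2 = p by omega] at h1
          rw [hΓo 0 p h1.2, hY0]
      · simp only [Γ]
        rw [if_neg h1]
    · rintro _ ⟨x, hx, rfl⟩
      refine ⟨?_, fun k hk => hΓJ x k hk⟩
      rw [Ssum_eq hPP]
      have h1 : sing n J (Γ x) = sing n J α := by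
        unfold sing
        refine Finset.sum_congr rfl fun k hk => ?_
        rw [hΓs x k (Finset.mem_filter.mp hk).2]
      have h2 : ∑ p ∈ PP n, (amp (2 * p) : ℂ) * pr (Γ x) p = v := by
        have h3 : ∀ p ∈ PP n, (amp (2 * p) : ℂ) * pr (Γ x) p
            = (1 - lam x) * ((amp (2 * p) : ℂ) * pr α p) + lam x * ((amp (2 * p) : ℂ) * W p) := by
          intro p hp
          have h4 : pr (Γ x) p = (1 - lam x) * pr α p + lam x * W p := by
            rw [← hXY p x hx]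
            unfold pr
            rw [hΓe x p hp, hΓo x p hp]
          rw [h4]
          ring
        rw [Finset.sum_congr rfl h3, Finset.sum_add_distrib, ← Finset.mul_sum, ← Finset.mul_sum, hvsum, hWsum]
        ring
      rw [h1, h2, hv]
      ring
  · intro p hp
    have h1 := hXY p 1 (by simp)
    unfold pr
    rw [hΓe 1 p (Ph_sub n hp), hΓo 1 p (Ph_sub n hp), h1, lam_one]
    simp only [W, if_pos hp]
    push_cast
    ring
  · intro p hp hp'
    rw [hΓe 1 p hp, hΓo 1 p hp]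
    exact hm p hp'

/-- Second homotopy: the sum is carried over from `Ph` to the group `Q`. -/
theorem stage_two {n : ℕ} {J : Finset ℕ} (hJ : ∀ k ∈ J, n + 2 ≤ k)
    (hPP : ∀ p ∈ PP n, 2 * p ∈ J ∧ 2 * p + 1 ∈ J) {w : ℂ} (hw : ‖w‖ ≤ 3 * amp n)
    (α β : ℕ → ℝ) (m : ℕ → ℤ) (hβJ : ∀ k, k ∉ J → β k = α k)
    (hβs : ∀ k ∈ J, k / 2 ∉ PP n → β k = α k)
    (hβP : ∀ p ∈ Ph n, pr β p = 2 * (w - sing n J α) / cap (Ph n))
    (hβ : ∀ p ∈ PP n, p ∉ Ph n → β (2 * p) = chi n p + Real.pi / 2 + 2 * Real.pi * m p ∧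
        β (2 * p + 1) = chi n p - Real.pi / 2) :
    ∃ (γ : ℕ → ℝ) (m2 : ℕ → ℤ), JoinedIn (Fib J w α) β (place (Qh n) (Qv n) m (w - sing n J α) γ) ∧
      (∀ k, k ∉ J → γ k = α k) ∧ (∀ k ∈ J, k / 2 ∉ PP n → γ k = α k) ∧
      (∀ p ∈ PP n, p ∉ Qh n ∪ Qv n → γ (2 * p) = chi n p + Real.pi / 2 + 2 * Real.pi * m2 p ∧
        γ (2 * p + 1) = chi n p - Real.pi / 2) := by
  classical
  have ha := amp_pos n
  have hcap := cap_Ph n
  have hcap0 : 0 < cap (Ph n) := lt_of_lt_of_le (by positivity) hcap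
  set v := w - sing n J α with hv
  have hvn : ‖v‖ ≤ 5 * amp n := by
    have h1 := sing_norm hJ α
    exact (norm_sub_le _ _).trans (by linarith)
  have hUQ : ∀ p ∈ Qh n ∪ Qv n, 2 * p ∈ J ∧ 2 * p + 1 ∈ J := fun p hp =>
    hPP p (Finset.union_subset (Qh_sub n) (Qv_sub n) hp)
  have hPQ : ∀ p ∈ Ph n, p ∉ Qh n ∪ Qv n := fun p hp => PQ_disj (Finset.mem_union_left _ hp)
  choose X Y hX hY hX0 hY0 hXY m' hm' using fun p => lift_seg_zero (β (2 * p)) (β (2 * p + 1)) (chi n p)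
  let Γ : ℝ → ℕ → ℝ := fun x k => if k ∈ J ∧ k / 2 ∈ Ph n then (if Even k then X (k / 2) x else Y (k / 2) x) else β k
  have hΓe : ∀ x, ∀ p ∈ Ph n, Γ x (2 * p) = X p x := by
    intro x p hp
    simp only [Γ]
    rw [Nat.mul_div_cancel_left p (by norm_num), if_pos ⟨(hPP p (Ph_sub n hp)).1, hp⟩, if_pos (even_two_mul p)]
  have hΓo : ∀ x, ∀ p ∈ Ph n, Γ x (2 * p + 1) = Y p x := by
    intro x p hp
    have e : ¬ Even (2 * p + 1) := by
      rw [Nat.not_even_iff_odd]; exact odd_two_mul_add_one p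
    simp only [Γ]
    rw [show (2 * p + 1) / 2 = p by omega, if_pos ⟨(hPP p (Ph_sub n hp)).2, hp⟩, if_neg e]
  have hΓs : ∀ x k, k / 2 ∉ Ph n → Γ x k = β k := by
    intro x k hk
    simp only [Γ]
    rw [if_neg (fun h => hk h.2)]
  have hΓJ : ∀ x k, k ∉ J → Γ x k = β k := by
    intro x k hk
    simp only [Γ]
    rw [if_neg (fun h => hk h.1)]
  have hΓ0 : Γ 0 = β := by
    funext k
    by_cases h1 : k ∈ J ∧ k / 2 ∈ Ph n
    · rcases Nat.even_or_odd' k with ⟨p, rfl | rfl⟩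
      · rw [Nat.mul_div_cancel_left p (by norm_num)] at h1
        rw [hΓe 0 p h1.2, hX0]
      · rw [show (2 * p + 1) / 2 = p by omega] at h1
        rw [hΓo 0 p h1.2, hY0]
    · simp only [Γ]
      rw [if_neg h1]
  have hcont : ∀ k, Continuous fun x => Γ x k := by
    intro k
    simp only [Γ]
    by_cases h1 : k ∈ J ∧ k / 2 ∈ Ph n
    · simp only [if_pos h1]
      by_cases h2 : Even k
      · simp only [if_pos h2]
        exact hX _
      · simp only [if_neg h2]
        exact hY _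
    · simp only [if_neg h1]
      exact continuous_const
  have hrest : ∀ x ∈ Set.Icc (0 : ℝ) 1, rest J (Qh n) (Qv n) (Γ x) = sing n J α + (1 - lam x) * v := by
    intro x hx
    rw [rest_eq hPP (Qh_sub n) (Qv_sub n)]
    have h1 : sing n J (Γ x) = sing n J α := by
      unfold sing
      refine Finset.sum_congr rfl fun k hk => ?_
      rw [Finset.mem_filter] at hk
      rw [hΓs x k (fun h => hk.2 (Ph_sub n h)), hβs k hk.1 hk.2]
    rw [h1]
    congr 1
    have h2 : ∑ p ∈ PP n \ (Qh n ∪ Qv n), (amp (2 * p) : ℂ) * pr (Γ x) p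
        = ∑ p ∈ Ph n, (amp (2 * p) : ℂ) * pr (Γ x) p := by
      symm
      refine Finset.sum_subset (fun p hp => Finset.mem_sdiff.mpr ⟨Ph_sub n hp, hPQ p hp⟩) ?_
      intro p hp hp'
      have h3 := hβ p (Finset.mem_sdiff.mp hp).1 hp'
      have h4 : pr (Γ x) p = 0 := by
        unfold pr
        rw [hΓs x (2 * p) (by rw [Nat.mul_div_cancel_left p (by norm_num)]; exact hp'),
          hΓs x (2 * p + 1) (by rw [show (2 * p + 1) / 2 = p by omega]; exact hp'), h3.1, h3.2]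
        exact exp_label _ _
      rw [h4, mul_zero]
    rw [h2]
    have h5 : ∀ p ∈ Ph n, (amp (2 * p) : ℂ) * pr (Γ x) p
        = ((2 * amp (2 * p) : ℝ) : ℂ) * ((1 - lam x) * (v / cap (Ph n))) := by
      intro p hp
      have h6 : pr (Γ x) p = (1 - lam x) * pr β p := by
        unfold pr
        rw [hΓe x p hp, hΓo x p hp, hXY p x hx]
      rw [h6, hβP p hp]
      push_cast
      ring
    rw [Finset.sum_congr rfl h5, ← Finset.sum_mul, ← Complex.ofReal_sum]
    change ((cap (Ph n) : ℝ) : ℂ) * ((1 - lam x) * (v / cap (Ph n))) = (1 - lam x) * v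
    have : ((cap (Ph n) : ℝ) : ℂ) ≠ 0 := by exact_mod_cast hcap0.ne'
    field_simp
  have hw' : w = sing n J α + v := by rw [hv]; ring
  have hdiff : ∀ x ∈ Set.Icc (0 : ℝ) 1, w - rest J (Qh n) (Qv n) (Γ x) = lam x * v := by
    intro x hx
    rw [hrest x hx]
    linear_combination hw'
  have hbd : ∀ x ∈ Set.Icc (0 : ℝ) 1, ‖w - rest J (Qh n) (Qv n) (Γ x)‖ ≤ 7 * amp n := by
    intro x hx
    rw [hdiff x hx, norm_mul, Complex.norm_real, Real.norm_eq_abs, abs_of_nonneg (lam_mem x).1]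
    have : lam x * ‖v‖ ≤ 1 * ‖v‖ := mul_le_mul_of_nonneg_right (lam_mem x).2 (norm_nonneg _)
    linarith
  have hmain := comp (disj_Q n) hUQ m w (by positivity : (0 : ℝ) < 7 * amp n) (cap_Qh n) (cap_Qv n) Γ hcont α
    (fun x _ k hk => by rw [hΓJ x k hk, hβJ k hk]) hbd
  rw [hdiff 0 (by simp), hdiff 1 (by simp), lam_zero, lam_one, hΓ0] at hmain
  have e0 : ((0 : ℝ) : ℂ) * v = 0 := by push_cast; ring
  have e1 : ((1 : ℝ) : ℂ) * v = v := by push_cast; ring
  rw [e0, e1] at hmain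
  have f0 : place (Qh n) (Qv n) m 0 β = β := by
    apply place_zero
    · intro p hp
      have h1 : p ∉ Ph n := fun h => hPQ p h (Finset.mem_union_left _ hp)
      have h2 := hβ p (Qh_sub n hp) h1
      rw [h2.1, h2.2, chi_h (Or.inr hp)]
      simp
    · intro p hp
      have h1 : p ∉ Ph n := fun h => hPQ p h (Finset.mem_union_right _ hp)
      have h2 := hβ p (Qv_sub n hp) h1
      rw [h2.1, h2.2, chi_v (Or.inr hp)]
      simp
  rw [f0] at hmain
  refine ⟨Γ 1, fun p => if p ∈ Ph n then m' p else m p, hmain, fun k hk => by rw [hΓJ 1 k hk, hβJ k hk],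
    fun k hk hk' => by rw [hΓs 1 k (fun h => hk' (Ph_sub n h)), hβs k hk hk'], ?_⟩
  intro p hp hp'
  by_cases h1 : p ∈ Ph n
  · rw [hΓe 1 p h1, hΓo 1 p h1]
    simp only [if_pos h1]
    exact hm' p
  · rw [hΓs 1 (2 * p) (by rw [Nat.mul_div_cancel_left p (by norm_num)]; exact h1),
      hΓs 1 (2 * p + 1) (by rw [show (2 * p + 1) / 2 = p by omega]; exact h1)]
    simp only [if_neg h1]
    exact hβ p hp h1

/-- Third homotopy: the singles to the phase `0`. -/
theorem stage_three {n : ℕ} {J : Finset ℕ} (hJ : ∀ k ∈ J, n + 2 ≤ k)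
    (hPP : ∀ p ∈ PP n, 2 * p ∈ J ∧ 2 * p + 1 ∈ J) {w : ℂ} (hw : ‖w‖ ≤ 3 * amp n)
    (α γ : ℕ → ℝ) (m m2 : ℕ → ℤ) (hγJ : ∀ k, k ∉ J → γ k = α k)
    (hγs : ∀ k ∈ J, k / 2 ∉ PP n → γ k = α k)
    (hγ : ∀ p ∈ PP n, p ∉ Qh n ∪ Qv n → γ (2 * p) = chi n p + Real.pi / 2 + 2 * Real.pi * m2 p ∧
        γ (2 * p + 1) = chi n p - Real.pi / 2) :
    JoinedIn (Fib J w α) (place (Qh n) (Qv n) m (w - sing n J α) γ)
      (place (Qh n) (Qv n) m (w - sing n J (conf n J 0 0)) (conf n J (fun p => (m2 p : ℝ)) α)) := by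
  classical
  have ha := amp_pos n
  have hUQ : ∀ p ∈ Qh n ∪ Qv n, 2 * p ∈ J ∧ 2 * p + 1 ∈ J := fun p hp =>
    hPP p (Finset.union_subset (Qh_sub n) (Qv_sub n) hp)
  let Γ : ℝ → ℕ → ℝ := fun x k => if k ∈ J ∧ k / 2 ∉ PP n then (1 - x) * α k else γ k
  have hcont : ∀ k, Continuous fun x => Γ x k := by
    intro k
    simp only [Γ]
    by_cases h1 : k ∈ J ∧ k / 2 ∉ PP n
    · simp only [if_pos h1]
      fun_prop
    · simp only [if_neg h1]
      fun_prop
  have hrest : ∀ x, rest J (Qh n) (Qv n) (Γ x) = sing n J (Γ x) := by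
    intro x
    rw [rest_eq hPP (Qh_sub n) (Qv_sub n), Finset.sum_eq_zero, add_zero]
    intro p hp
    rw [Finset.mem_sdiff] at hp
    have h3 := hγ p hp.1 hp.2
    have h4 : pr (Γ x) p = 0 := by
      unfold pr
      simp only [Γ]
      rw [Nat.mul_div_cancel_left p (by norm_num), if_neg (fun h => h.2 hp.1),
        show (2 * p + 1) / 2 = p by omega, if_neg (fun h => h.2 hp.1), h3.1, h3.2]
      exact exp_label _ _
    rw [h4, mul_zero]
  have hbd : ∀ x ∈ Set.Icc (0 : ℝ) 1, ‖w - rest J (Qh n) (Qv n) (Γ x)‖ ≤ 7 * amp n := by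
    intro x _
    rw [hrest x]
    have h1 := sing_norm hJ (Γ x)
    exact (norm_sub_le _ _).trans (by linarith)
  have hmain := comp (disj_Q n) hUQ m w (by positivity : (0 : ℝ) < 7 * amp n) (cap_Qh n) (cap_Qv n) Γ hcont α
    (fun x _ k hk => by simp only [Γ]; rw [if_neg (fun h => hk h.1), hγJ k hk]) hbd
  have hΓ0 : Γ 0 = γ := by
    funext k
    simp only [Γ]
    by_cases h1 : k ∈ J ∧ k / 2 ∉ PP n
    · rw [if_pos h1, hγs k h1.1 h1.2]
      ring
    · rw [if_neg h1]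
  have hs0 : sing n J (Γ 0) = sing n J α := by
    rw [hΓ0]
    unfold sing
    refine Finset.sum_congr rfl fun k hk => ?_
    rw [Finset.mem_filter] at hk
    rw [hγs k hk.1 hk.2]
  have hs1 : sing n J (Γ 1) = sing n J (conf n J 0 0) := by
    unfold sing
    refine Finset.sum_congr rfl fun k hk => ?_
    rw [Finset.mem_filter] at hk
    simp only [Γ, conf]
    rw [if_pos hk, if_pos hk.1, if_neg hk.2]
    simp
  rw [hrest, hrest, hs0, hs1, hΓ0] at hmain
  have f1 : place (Qh n) (Qv n) m (w - sing n J (conf n J 0 0)) (Γ 1)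
      = place (Qh n) (Qv n) m (w - sing n J (conf n J 0 0)) (conf n J (fun p => (m2 p : ℝ)) α) := by
    apply place_congr
    intro k h1 h2
    by_cases h3 : k ∈ J
    · by_cases h4 : k / 2 ∈ PP n
      · rcases Nat.even_or_odd' k with ⟨p, rfl | rfl⟩
        · rw [Nat.mul_div_cancel_left p (by norm_num)] at h1 h2 h4
          rw [conf_even hPP _ _ h4]
          simp only [Γ]
          rw [Nat.mul_div_cancel_left p (by norm_num), if_neg (fun h => h.2 h4)]
          exact (hγ p h4 (by rw [Finset.mem_union]; tauto)).1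
        · rw [show (2 * p + 1) / 2 = p by omega] at h1 h2 h4
          rw [conf_odd hPP _ _ h4]
          simp only [Γ]
          rw [show (2 * p + 1) / 2 = p by omega, if_neg (fun h => h.2 h4)]
          exact (hγ p h4 (by rw [Finset.mem_union]; tauto)).2
      · simp only [Γ, conf]
        rw [if_pos ⟨h3, h4⟩, if_pos h3, if_neg h4]
        ring
    · simp only [Γ, conf]
      rw [if_neg (fun h => h3 h.1), if_neg h3]
      exact hγJ k h3
  rw [f1] at hmain
  exact hmain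

theorem fibre (n : ℕ) (J : Finset ℕ) (hJ : ∀ k ∈ J, n + 2 ≤ k) (hJm : ∀ k, n + 2 ≤ k → k ≤ n + 1400 → k ∈ J) :
    ∃ std : ℂ → ℕ → ℝ, IsStd n J std := by
  classical
  have ha := amp_pos n
  have hPP := PP_mem hJm
  have hUP : ∀ p ∈ Ph n ∪ Pv n, 2 * p ∈ J ∧ 2 * p + 1 ∈ J := fun p hp =>
    hPP p (Finset.union_subset (Ph_sub n) (Pv_sub n) hp)
  set Z := sing n J (conf n J 0 0) with hZ
  have hZn : ‖Z‖ ≤ 2 * amp n := sing_norm hJ _
  have hcapPh : 0 < cap (Ph n) := lt_of_lt_of_le (by positivity) (cap_Ph n)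
  have hcapPv : 0 < cap (Pv n) := lt_of_lt_of_le (by positivity) (cap_Pv n)
  have hc0 : conf n J (fun p => (((0 : ℕ → ℤ) p : ℤ) : ℝ)) 0 = conf n J 0 0 := by
    congr 1
    funext p
    simp
  refine ⟨fun w => place (Ph n) (Pv n) 0 (w - Z) (conf n J 0 0), ?_, ?_⟩
  · refine continuous_pi fun k => ?_
    simp only [place]
    by_cases h1 : k / 2 ∈ Ph n
    · simp only [if_pos h1]
      by_cases h3 : Even k
      · simp only [if_pos h3]
        refine (Real.continuous_arccos.comp ?_).add continuous_const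
        exact (Complex.continuous_re.comp (continuous_id.sub continuous_const)).div_const _
      · simp only [if_neg h3]
        refine (Real.continuous_arccos.comp ?_).neg
        exact (Complex.continuous_re.comp (continuous_id.sub continuous_const)).div_const _
    · simp only [if_neg h1]
      by_cases h2 : k / 2 ∈ Pv n
      · simp only [if_pos h2]
        by_cases h3 : Even k
        · simp only [if_pos h3]
          refine (continuous_const.add (Real.continuous_arccos.comp ?_)).add continuous_const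
          exact (Complex.continuous_im.comp (continuous_id.sub continuous_const)).div_const _
        · simp only [if_neg h3]
          refine continuous_const.sub (Real.continuous_arccos.comp ?_)
          exact (Complex.continuous_im.comp (continuous_id.sub continuous_const)).div_const _
      · simp only [if_neg h2]
        exact continuous_const
  · intro w hw
    have hvn : ‖w - Z‖ ≤ 5 * amp n := (norm_sub_le _ _).trans (by linarith)
    refine ⟨?_, ?_⟩
    · rw [Ssum_place (disj_P n) hUP 0 (w - Z) _ hcapPh hcapPv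
        ((Complex.abs_re_le_norm _).trans (hvn.trans (by linarith [cap_Ph n])))
        ((Complex.abs_im_le_norm _).trans (hvn.trans (by linarith [cap_Pv n])))]
      rw [← hc0, rest_conf hPP (Ph_sub n) (Pv_sub n)]
      ring
    · intro α hα
      obtain ⟨β, m, h1, h2, h3, h4⟩ := stage_one hJ hPP hw α hα
      have hβJ : ∀ k, k ∉ J → β k = α k := h1.target_mem.2
      obtain ⟨γ, m2, h5, h6, h7, h8⟩ := stage_two hJ hPP hw α β m hβJ h2 h3 h4
      have h9 := stage_three hJ hPP hw α γ m m2 h6 h7 h8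
      have h10 := relabel_all hJ hPP (disj_Q n) (Qh_sub n) (Qv_sub n) (cap_Qh n) (cap_Qv n) m hw α m2 (PP n)
      let μ : ℕ → ℤ := fun p => if p ∈ Qh n ∪ Qv n then m p else 0
      have e1 : place (Qh n) (Qv n) m (w - Z) (conf n J (fun p => ((if p ∈ PP n then 0 else m2 p : ℤ) : ℝ)) α)
          = place (Qh n) (Qv n) m (w - Z) (conf n J (fun p => (μ p : ℝ)) α) := by
        apply place_congr
        intro k hk1 hk2
        have hk3 : k / 2 ∉ Qh n ∪ Qv n := by rw [Finset.mem_union]; tauto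
        simp only [conf, μ]
        by_cases hk4 : k / 2 ∈ PP n
        · simp only [if_pos hk4, if_neg hk3]
        · simp only [if_neg hk4]
      have h11 := swap hJ hPP m hw α μ
        (fun p hp => by simp only [μ]; rw [if_neg (PQ_disj hp)])
        (fun p hp => by simp only [μ]; rw [if_pos hp])
      have h12 := relabel_all hJ hPP (disj_P n) (Ph_sub n) (Pv_sub n) (cap_Ph n) (cap_Pv n) 0 hw α μ (PP n)
      have e2 : place (Ph n) (Pv n) 0 (w - Z) (conf n J (fun p => ((if p ∈ PP n then 0 else μ p : ℤ) : ℝ)) α)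
          = fun k => if k ∈ J then place (Ph n) (Pv n) 0 (w - Z) (conf n J 0 0) k else α k := by
        funext k
        by_cases hk : k ∈ J
        · rw [if_pos hk]
          simp only [place, conf]
          by_cases hk1 : k / 2 ∈ Ph n
          · simp only [if_pos hk1]
          · simp only [if_neg hk1]
            by_cases hk2 : k / 2 ∈ Pv n
            · simp only [if_pos hk2]
            · simp only [if_neg hk2, if_pos hk]
              by_cases hk3 : k / 2 ∈ PP n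
              · simp only [if_pos hk3]
                simp
              · simp only [if_neg hk3]
        · rw [if_neg hk]
          have hk1 : k / 2 ∉ Ph n ∪ Pv n := by
            intro h
            apply hk
            rcases Nat.even_or_odd' k with ⟨p, rfl | rfl⟩
            · rw [Nat.mul_div_cancel_left p (by norm_num)] at h
              exact (hUP p h).1
            · rw [show (2 * p + 1) / 2 = p by omega] at h
              exact (hUP p h).2
          rw [place_out _ _ _ hk1]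
          simp only [conf, if_neg hk]
      rw [e2] at h12
      rw [e1] at h10
      exact (((h1.trans h5).trans h9).trans h10).trans (h11.trans h12)

end Pool.Agent.QF
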