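import Pool.Agent.QF.Defs

/-! FR: the linear algebra alternative for Freiman homomorphisms (finitely many patterns). -/

namespace Pool.Agent.QF

/-- the functional `x i + y j` -/
noncomputable def frF (N : ℕ) (p : Fin N × Fin N) : ((Fin N → ℚ) × (Fin N → ℚ)) →ₗ[ℚ] ℚ where
  toFun z := z.1 p.1 + z.2 p.2
  map_add' z w := by simp only [Prod.fst_add, Prod.snd_add, Pi.add_apply]; ring
  map_smul' c z := by simp [mul_add]

theorem frF_apply (N : ℕ) (p : Fin N × Fin N) (z : (Fin N → ℚ) × (Fin N → ℚ)) :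
    frF N p z = z.1 p.1 + z.2 p.2 := rfl

/-- One pattern. -/
theorem fr_pattern (N : ℕ) (Q : Finset ((Fin N × Fin N) × (Fin N × Fin N))) (P : Finset (Fin N × Fin N))
    (p₀ : Fin N × Fin N) :
    (∃ x y : Fin N → ℚ, (∀ q ∈ Q, x q.1.1 + y q.1.2 = x q.2.1 + y q.2.2) ∧ x p₀.1 + y p₀.2 = 1 ∧
      ∀ p ∈ P, x p.1 + y p.2 = 0) ∨
    (∃ (D : ℤ) (b : Fin N × Fin N → ℤ), D ≠ 0 ∧ ∀ u v : Fin N → ℚ,
      (∀ q ∈ Q, u q.1.1 + v q.1.2 = u q.2.1 + v q.2.2) →
      (D : ℚ) * (u p₀.1 + v p₀.2) = ∑ p ∈ P, (b p : ℚ) * (u p.1 + v p.2)) := by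
  classical
  let L : (Q ⊕ P) → (((Fin N → ℚ) × (Fin N → ℚ)) →ₗ[ℚ] ℚ) :=
    Sum.elim (fun q => frF N q.1.1 - frF N q.1.2) (fun p => frF N p.1)
  by_cases h : (⨅ i, LinearMap.ker (L i)) ≤ LinearMap.ker (frF N p₀)
  · right
    have h1 := mem_span_of_iInf_ker_le_ker h
    rw [Submodule.mem_span_range_iff_exists_fun] at h1
    obtain ⟨c, hc⟩ := h1
    -- the coefficients of the pairs
    let a : Fin N × Fin N → ℚ := fun p => if hp : p ∈ P then c (Sum.inr ⟨p, hp⟩) else 0
    let D : ℕ := ∏ p ∈ P, (a p).den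
    have hD : D ≠ 0 := Finset.prod_ne_zero_iff.mpr fun p _ => (a p).den_nz
    have hint : ∀ p, ∃ z : ℤ, p ∈ P → (z : ℚ) = D * a p := by
      intro p
      by_cases hp : p ∈ P
      · have hdvd : (a p).den ∣ D := Finset.dvd_prod_of_mem (fun p => (a p).den) hp
        obtain ⟨k, hk⟩ := hdvd
        refine ⟨k * (a p).num, fun _ => ?_⟩
        rw [hk]
        push_cast
        have := Rat.mul_den_eq_num (a p)
        calc (k : ℚ) * (a p).num = k * (a p * (a p).den) := by rw [this]
          _ = _ := by ring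
      · exact ⟨0, fun h => absurd h hp⟩
    choose b hb using hint
    refine ⟨(D : ℤ), b, by exact_mod_cast hD, fun u v huv => ?_⟩
    have h2 : frF N p₀ (u, v) = ∑ p ∈ P, a p * (u p.1 + v p.2) := by
      rw [← hc]
      rw [LinearMap.sum_apply, Fintype.sum_sum_type]
      have e1 : ∑ q : Q, (c (Sum.inl q) • L (Sum.inl q)) (u, v) = 0 := by
        refine Finset.sum_eq_zero fun q _ => ?_
        rw [LinearMap.smul_apply]
        have : L (Sum.inl q) (u, v) = 0 := by
          change (frF N q.1.1 - frF N q.1.2) (u, v) = 0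
          rw [LinearMap.sub_apply, frF_apply, frF_apply]
          have := huv q.1 q.2
          simp only
          linarith
        rw [this, smul_zero]
      have e2 : ∑ p : P, (c (Sum.inr p) • L (Sum.inr p)) (u, v)
          = ∑ p ∈ P, a p * (u p.1 + v p.2) := by
        rw [← Finset.sum_coe_sort P]
        refine Finset.sum_congr rfl fun p _ => ?_
        rw [LinearMap.smul_apply, smul_eq_mul]
        have : a (p : Fin N × Fin N) = c (Sum.inr p) := by
          simp only [a]
          rw [dif_pos p.2]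
        rw [this]
        rfl
      rw [e1, e2, zero_add]
    rw [frF_apply] at h2
    simp only at h2
    rw [h2, Finset.mul_sum]
    refine Finset.sum_congr rfl fun p hp => ?_
    rw [hb p hp]
    push_cast
    ring
  · left
    rw [SetLike.not_le_iff_exists] at h
    obtain ⟨z, hz, hz0⟩ := h
    rw [Submodule.mem_iInf] at hz
    rw [LinearMap.mem_ker] at hz0
    set e := frF N p₀ z with he
    refine ⟨fun i => z.1 i / e, fun i => z.2 i / e, ?_, ?_, ?_⟩
    · intro q hq
      have := hz (Sum.inl ⟨q, hq⟩)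
      rw [LinearMap.mem_ker] at this
      change (frF N q.1 - frF N q.2) z = 0 at this
      rw [LinearMap.sub_apply, frF_apply, frF_apply] at this
      rw [← add_div, ← add_div]
      congr 1
      linarith
    · rw [← add_div]
      rw [frF_apply] at he
      rw [← he]
      exact div_self hz0
    · intro p hp
      have := hz (Sum.inr ⟨p, hp⟩)
      rw [LinearMap.mem_ker] at this
      change frF N p z = 0 at this
      rw [frF_apply] at this
      rw [← add_div, this, zero_div]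

/-- For `u, v : Fin N → ℚ` and a finite set `I` of sums `u i + v j` with a marked `r₀ ∈ I`: either there is a
homomorphism `(x, y)` with value `1` at `r₀` and `0` at the other elements of `I`, or there is an integer
relation between the elements of `I`, with coefficients bounded in terms of `N` only, that involves `r₀`.
(Only finitely many patterns: the relations `u i + v j = u i' + v j'` and the pairs `(i,j)` with
`u i + v j ∈ I`, `= r₀`. For one pattern: duality in `ℚ`-vector spaces and clearing denominators.) -/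
theorem freiman_alt (N : ℕ) : ∃ K : ℕ, ∀ (u v : Fin N → ℚ) (I : Finset ℚ),
    (∀ r ∈ I, ∃ i j, u i + v j = r) → ∀ r₀ ∈ I,
    (∃ x y : Fin N → ℚ, (∀ i j i' j', u i + v j = u i' + v j' → x i + y j = x i' + y j') ∧
      (∀ i j, u i + v j = r₀ → x i + y j = 1) ∧
      (∀ i j, u i + v j ∈ I → u i + v j ≠ r₀ → x i + y j = 0)) ∨
    (∃ m : ℚ → ℤ, (∀ r, |m r| ≤ (K : ℤ)) ∧ m r₀ ≠ 0 ∧ (∀ r, r ∉ I → m r = 0) ∧
      ∑ r ∈ I, (m r : ℚ) * r = 0) := by
  classical
  -- the bound of one pattern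
  have hK : ∀ T : Finset ((Fin N × Fin N) × (Fin N × Fin N)) × Finset (Fin N × Fin N) × (Fin N × Fin N),
      ∃ K : ℕ, (∃ x y : Fin N → ℚ, (∀ q ∈ T.1, x q.1.1 + y q.1.2 = x q.2.1 + y q.2.2) ∧
        x T.2.2.1 + y T.2.2.2 = 1 ∧ ∀ p ∈ T.2.1, x p.1 + y p.2 = 0) ∨
      (∃ (D : ℤ) (b : Fin N × Fin N → ℤ), D ≠ 0 ∧ |D| + ∑ p ∈ T.2.1, |b p| ≤ (K : ℤ) ∧
        ∀ u v : Fin N → ℚ, (∀ q ∈ T.1, u q.1.1 + v q.1.2 = u q.2.1 + v q.2.2) →
        (D : ℚ) * (u T.2.2.1 + v T.2.2.2) = ∑ p ∈ T.2.1, (b p : ℚ) * (u p.1 + v p.2)) := by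
    rintro ⟨Q, P, p₀⟩
    rcases fr_pattern N Q P p₀ with h | ⟨D, b, hD, h⟩
    · exact ⟨0, Or.inl h⟩
    · refine ⟨(|D| + ∑ p ∈ P, |b p|).toNat, Or.inr ⟨D, b, hD, ?_, h⟩⟩
      exact Int.self_le_toNat _
  choose Kf hKf using hK
  refine ⟨Finset.univ.sup Kf, fun u v I hI r₀ hr₀ => ?_⟩
  obtain ⟨i₀, j₀, h₀⟩ := hI r₀ hr₀
  set Q : Finset ((Fin N × Fin N) × (Fin N × Fin N)) :=
    Finset.univ.filter (fun q => u q.1.1 + v q.1.2 = u q.2.1 + v q.2.2) with hQ
  set P : Finset (Fin N × Fin N) :=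
    Finset.univ.filter (fun p => u p.1 + v p.2 ∈ I ∧ u p.1 + v p.2 ≠ r₀) with hP
  have hle : Kf (Q, P, (i₀, j₀)) ≤ Finset.univ.sup Kf := Finset.le_sup (Finset.mem_univ _)
  rcases hKf (Q, P, (i₀, j₀)) with ⟨x, y, h1, h2, h3⟩ | ⟨D, b, hD, hb, h⟩
  · left
    have h1' : ∀ i j i' j', u i + v j = u i' + v j' → x i + y j = x i' + y j' := by
      intro i j i' j' hh
      exact h1 ((i, j), (i', j')) (Finset.mem_filter.mpr ⟨Finset.mem_univ _, hh⟩)
    refine ⟨x, y, h1', ?_, ?_⟩
    · intro i j hij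
      rw [h1' i j i₀ j₀ (hij.trans h₀.symm)]
      exact h2
    · intro i j hij hne
      exact h3 (i, j) (Finset.mem_filter.mpr ⟨Finset.mem_univ _, hij, hne⟩)
  · right
    have h' := h u v (fun q hq => (Finset.mem_filter.mp hq).2)
    simp only at h'
    rw [h₀] at h'
    refine ⟨fun r => (if r = r₀ then D else 0) - ∑ p ∈ P.filter (fun p => u p.1 + v p.2 = r), b p,
      ?_, ?_, ?_, ?_⟩
    · intro r
      have e1 : |(if r = r₀ then D else 0)| ≤ |D| := by split_ifs <;> simp
      have e2 : |∑ p ∈ P.filter (fun p => u p.1 + v p.2 = r), b p| ≤ ∑ p ∈ P, |b p| :=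
        (Finset.abs_sum_le_sum_abs _ _).trans
          (Finset.sum_le_sum_of_subset_of_nonneg (Finset.filter_subset _ _) fun _ _ _ => abs_nonneg _)
      have e3 : ((Kf (Q, P, (i₀, j₀)) : ℕ) : ℤ) ≤ ((Finset.univ.sup Kf : ℕ) : ℤ) := by exact_mod_cast hle
      calc |(if r = r₀ then D else 0) - ∑ p ∈ P.filter (fun p => u p.1 + v p.2 = r), b p|
          ≤ |(if r = r₀ then D else 0)| + |∑ p ∈ P.filter (fun p => u p.1 + v p.2 = r), b p| :=
            abs_sub _ _
        _ ≤ |D| + ∑ p ∈ P, |b p| := add_le_add e1 e2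
        _ ≤ _ := hb.trans e3
    · have : P.filter (fun p => u p.1 + v p.2 = r₀) = ∅ := by
        rw [Finset.filter_eq_empty_iff]
        intro p hp hh
        exact (Finset.mem_filter.mp hp).2.2 hh
      simp only [if_true]
      rw [this, Finset.sum_empty, sub_zero]
      exact hD
    · intro r hr
      have : P.filter (fun p => u p.1 + v p.2 = r) = ∅ := by
        rw [Finset.filter_eq_empty_iff]
        intro p hp hh
        exact hr (hh ▸ (Finset.mem_filter.mp hp).2.1)
      have hne : r ≠ r₀ := fun hh => hr (hh ▸ hr₀)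
      simp only [if_neg hne]
      rw [this, Finset.sum_empty, sub_zero]
    · have e1 : ∀ r ∈ I, (((if r = r₀ then D else 0) -
          ∑ p ∈ P.filter (fun p => u p.1 + v p.2 = r), b p : ℤ) : ℚ) * r
          = (if r = r₀ then (D : ℚ) * r₀ else 0) -
            ∑ p ∈ P, (if u p.1 + v p.2 = r then (b p : ℚ) * (u p.1 + v p.2) else 0) := by
        intro r _
        push_cast
        rw [sub_mul, Finset.sum_mul, Finset.sum_filter]
        congr 1
        · split_ifs with hh
          · rw [hh]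
          · simp
        · refine Finset.sum_congr rfl fun p _ => ?_
          split_ifs with hh
          · rw [hh]
          · rfl
      rw [Finset.sum_congr rfl e1, Finset.sum_sub_distrib, Finset.sum_ite_eq' I r₀, if_pos hr₀,
        Finset.sum_comm, h', sub_eq_zero]
      refine Finset.sum_congr rfl fun p hp => ?_
      rw [Finset.sum_ite_eq I, if_pos (Finset.mem_filter.mp hp).2.1]

end Pool.Agent.QF
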