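import Pool.Agent.QF.Defs

/-! J1: the logarithmic means are affine where there is no zero. -/

namespace Pool.Agent.QF

open Complex

/-- The polynomial `P` with `poly c C (σ + iDx) = P(e^{-σ/D} e^{-ix})`. -/
noncomputable def jP (D : ℕ) (c : ℚ → ℂ) (C : Finset ℚ) : Polynomial ℂ :=
  ∑ g ∈ C, Polynomial.monomial ⌊g * D⌋₊ (c g)

theorem poly_eq_jP {D : ℕ} (hD : 0 < D) {c : ℚ → ℂ} {C : Finset ℚ} (hC : ∀ g ∈ C, ∃ m : ℕ, g * D = m)
    (s : ℂ) : poly c C s = (jP D c C).eval (exp (-s / D)) := by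
  unfold poly jP
  rw [Polynomial.eval_finsetSum]
  refine Finset.sum_congr rfl fun g hg => ?_
  obtain ⟨m, hm⟩ := hC g hg
  rw [Polynomial.eval_monomial, hm, Nat.floor_natCast, ← Complex.exp_nat_mul]
  congr 2
  have hD' : (D : ℂ) ≠ 0 := by exact_mod_cast hD.ne'
  have h2 : (g : ℂ) * D = m := by exact_mod_cast hm
  rw [← h2]
  field_simp

theorem LM_eq_circleAverage {D : ℕ} (hD : 0 < D) {c : ℚ → ℂ} {C : Finset ℚ} (hC : ∀ g ∈ C, ∃ m : ℕ, g * D = m)
    (σ : ℝ) : LM D c C σ =
      Real.circleAverage (fun z => Real.log ‖(jP D c C).eval z‖) 0 (Real.exp (-σ / D)) := by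
  unfold LM
  have hD' : (D : ℂ) ≠ 0 := by exact_mod_cast hD.ne'
  have h1 : ∀ x : ℝ, Real.log ‖poly c C (σ + (D : ℂ) * x * I)‖ =
      (fun y : ℝ => Real.log ‖(jP D c C).eval (circleMap 0 (Real.exp (-σ / D)) y)‖) (-x) := by
    intro x
    rw [poly_eq_jP hD hC]
    simp only [circleMap, zero_add]
    rw [Complex.ofReal_exp, ← Complex.exp_add]
    congr 4
    push_cast
    field_simp
    ring
  simp_rw [h1]
  rw [intervalIntegral.integral_comp_neg
    (fun y : ℝ => Real.log ‖(jP D c C).eval (circleMap 0 (Real.exp (-σ / D)) y)‖)]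
  have hper : Function.Periodic
      (fun y : ℝ => Real.log ‖(jP D c C).eval (circleMap 0 (Real.exp (-σ / D)) y)‖) (2 * Real.pi) := by
    intro y
    simp only [periodic_circleMap 0 (Real.exp (-σ / D)) y]
  have h2 := hper.intervalIntegral_add_eq (-(2 * Real.pi)) 0
  rw [neg_add_cancel, zero_add] at h2
  rw [neg_zero, h2, Real.circleAverage_def, one_div, smul_eq_mul]

theorem circle_prod {R : ℝ} (hR : 0 < R) (s : Multiset ℂ) (hs : ∀ a ∈ s, ‖a‖ ≠ R) :
    CircleIntegrable (fun z => Real.log ‖(s.map (fun a => z - a)).prod‖) 0 R ∧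
    Real.circleAverage (fun z => Real.log ‖(s.map (fun a => z - a)).prod‖) 0 R =
      (s.map (fun a => Real.log R + Real.posLog (R⁻¹ * ‖a‖))).sum := by
  induction s using Multiset.induction_on with
  | empty =>
    constructor
    · simp only [Multiset.map_zero, Multiset.prod_zero, norm_one, Real.log_one]
      exact circleIntegrable_const 0 0 R
    · simp only [Multiset.map_zero, Multiset.prod_zero, norm_one, Real.log_one, Multiset.sum_zero]
      exact Real.circleAverage_const (0 : ℝ) 0 R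
  | cons a s ih =>
    obtain ⟨i1, i2⟩ := ih (fun b hb => hs b (Multiset.mem_cons_of_mem hb))
    have ha : ‖a‖ ≠ R := hs a (Multiset.mem_cons_self a s)
    have hi : CircleIntegrable (fun z => Real.log ‖z - a‖) 0 R := circleIntegrable_log_norm_sub_const R
    have heq : Set.EqOn (fun z => Real.log ‖((a ::ₘ s).map (fun a => z - a)).prod‖)
        (fun z => Real.log ‖z - a‖ + Real.log ‖(s.map (fun a => z - a)).prod‖) (Metric.sphere 0 |R|) := by
      intro z hz
      have hz' : ‖z‖ = R := by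
        rw [mem_sphere_zero_iff_norm] at hz
        rw [hz, abs_of_pos hR]
      have h1 : ‖z - a‖ ≠ 0 := by
        intro h
        rw [norm_eq_zero, sub_eq_zero] at h
        exact ha (h ▸ hz')
      have h2 : ‖(s.map (fun a => z - a)).prod‖ ≠ 0 := by
        rw [norm_ne_zero_iff]
        refine Multiset.prod_ne_zero ?_
        intro h
        rw [Multiset.mem_map] at h
        obtain ⟨b, hb, hb'⟩ := h
        rw [sub_eq_zero] at hb'
        exact hs b (Multiset.mem_cons_of_mem hb) (hb' ▸ hz')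
      simp only [Multiset.map_cons, Multiset.prod_cons, norm_mul]
      rw [Real.log_mul h1 h2]
    constructor
    · exact (circleIntegrable_congr heq).2 (hi.add i1)
    · rw [Real.circleAverage_congr_sphere heq, Real.circleAverage_fun_add hi i1, i2,
        Multiset.map_cons, Multiset.sum_cons,
        circleAverage_log_norm_sub_const_eq_log_radius_add_posLog hR.ne', zero_sub, norm_neg]

/-- `poly c C (σ + iDx) = P(e^{-σ/D} e^{-ix})` with a polynomial `P`; Jensen's formula in the form
`Polynomial.logMahlerMeasure_eq_log_leadingCoeff_add_sum_log_roots` for `P(R·)`. -/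
theorem LM_affine {D : ℕ} (hD : 0 < D) {c : ℚ → ℂ} {C : Finset ℚ} (hC : ∀ g ∈ C, ∃ m : ℕ, g * D = m)
    {S E : ℝ} (hSE : S < E) (hz : ∀ s : ℂ, S ≤ s.re → s.re ≤ E → poly c C s ≠ 0) :
    ∃ κ ρ : ℝ, ∀ σ ∈ Set.Icc S E, LM D c C σ = κ * σ + ρ := by
  classical
  have hD' : (D : ℂ) ≠ 0 := by exact_mod_cast hD.ne'
  have hDr : (0 : ℝ) < D := by exact_mod_cast hD
  set P := jP D c C with hP
  have hP0 : P ≠ 0 := by
    intro h
    apply hz (S : ℂ) (by simp) (by simpa using hSE.le)
    rw [poly_eq_jP hD hC, ← hP, h, Polynomial.eval_zero]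
  -- no root in the annulus
  have hroot : ∀ a ∈ P.roots, ∀ σ ∈ Set.Icc S E, ‖a‖ ≠ Real.exp (-σ / D) := by
    intro a ha σ hσ h
    have ha0 : a ≠ 0 := by
      intro h0
      rw [h0, norm_zero] at h
      exact (Real.exp_pos _).ne h
    obtain ⟨w, hw⟩ : ∃ w, exp w = a := ⟨log a, exp_log ha0⟩
    have hw2 : w.re = -σ / D := by
      have := h
      rw [← hw, Complex.norm_exp] at this
      exact Real.exp_injective this
    have h3 : (-(D * w) : ℂ).re = σ := by
      rw [neg_re, mul_re, natCast_re, natCast_im, zero_mul, sub_zero, hw2]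
      field_simp
    apply hz (-(D * w)) (by rw [h3]; exact hσ.1) (by rw [h3]; exact hσ.2)
    rw [poly_eq_jP hD hC]
    have h4 : -(-(D * w)) / (D : ℂ) = w := by
      field_simp
    rw [h4, hw]
    exact (Polynomial.mem_roots hP0).1 ha
  have hroot2 : ∀ a ∈ P.roots, ‖a‖ < Real.exp (-E / D) ∨ Real.exp (-S / D) < ‖a‖ := by
    intro a ha
    by_contra hcon
    rw [not_or, not_lt, not_lt] at hcon
    obtain ⟨h1, h2⟩ := hcon
    have h0 : 0 < ‖a‖ := lt_of_lt_of_le (Real.exp_pos _) h1
    apply hroot a ha (-(D * Real.log ‖a‖)) ⟨?_, ?_⟩ ?_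
    · have := Real.log_le_log h0 h2
      rw [Real.log_exp, le_div_iff₀ hDr] at this
      linarith
    · have := Real.log_le_log (Real.exp_pos _) h1
      rw [Real.log_exp, div_le_iff₀ hDr] at this
      linarith
    · rw [neg_neg, mul_div_cancel_left₀ _ hDr.ne', Real.exp_log h0]
  refine ⟨(P.roots.map (fun a => if ‖a‖ < Real.exp (-E / D) then -(1 / D : ℝ) else 0)).sum,
    Real.log ‖P.leadingCoeff‖ +
      (P.roots.map (fun a => if ‖a‖ < Real.exp (-E / D) then 0 else Real.log ‖a‖)).sum, fun σ hσ => ?_⟩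
  rw [LM_eq_circleAverage hD hC, ← hP]
  have hR := Real.exp_pos (-σ / D)
  obtain ⟨i1, i2⟩ := circle_prod hR P.roots (fun a ha => hroot a ha σ hσ)
  have heq : Set.EqOn (fun z => Real.log ‖P.eval z‖)
      (fun z => Real.log ‖P.leadingCoeff‖ + Real.log ‖(P.roots.map (fun a => z - a)).prod‖)
      (Metric.sphere 0 |Real.exp (-σ / D)|) := by
    intro z hz
    have hz' : ‖z‖ = Real.exp (-σ / D) := by
      rw [mem_sphere_zero_iff_norm] at hz
      rw [hz, abs_of_pos hR]
    have h1 : P.eval z = P.leadingCoeff * (P.roots.map (fun a => z - a)).prod := by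
      rw [(IsAlgClosed.splits P).eval_eq_prod_roots]
    have h2 : ‖(P.roots.map (fun a => z - a)).prod‖ ≠ 0 := by
      rw [norm_ne_zero_iff]
      refine Multiset.prod_ne_zero ?_
      intro h
      rw [Multiset.mem_map] at h
      obtain ⟨b, hb, hb'⟩ := h
      rw [sub_eq_zero] at hb'
      exact hroot b hb σ hσ (hb' ▸ hz')
    simp only
    rw [h1, norm_mul, Real.log_mul (norm_ne_zero_iff.2 (Polynomial.leadingCoeff_ne_zero.2 hP0)) h2]
  rw [Real.circleAverage_congr_sphere heq, Real.circleAverage_fun_add (circleIntegrable_const _ _ _) i1, i2,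
    Real.circleAverage_const]
  have h5 : ∀ a ∈ P.roots, Real.log (Real.exp (-σ / D)) + Real.posLog ((Real.exp (-σ / D))⁻¹ * ‖a‖) =
      (if ‖a‖ < Real.exp (-E / D) then -(1 / D : ℝ) else 0) * σ +
        (if ‖a‖ < Real.exp (-E / D) then 0 else Real.log ‖a‖) := by
    intro a ha
    rw [Real.log_exp]
    split_ifs with hlt
    · have h6 : Real.posLog ((Real.exp (-σ / D))⁻¹ * ‖a‖) = 0 := by
        rw [Real.posLog_eq_zero_iff, abs_of_nonneg (by positivity), inv_mul_le_iff₀ hR, mul_one]
        refine hlt.le.trans (Real.exp_le_exp.2 ?_)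
        rw [div_le_div_iff_of_pos_right hDr]
        linarith [hσ.2]
      rw [h6]
      ring
    · have h7 : Real.exp (-S / D) < ‖a‖ := (hroot2 a ha).resolve_left hlt
      have h8 : Real.exp (-σ / D) ≤ ‖a‖ := by
        refine le_trans (Real.exp_le_exp.2 ?_) h7.le
        rw [div_le_div_iff_of_pos_right hDr]
        linarith [hσ.1]
      have h9 : 0 < ‖a‖ := lt_of_lt_of_le hR h8
      rw [Real.posLog_eq_log (by
        rw [abs_of_nonneg (by positivity)]
        rw [le_inv_mul_iff₀ hR, mul_one]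
        exact h8), Real.log_mul (inv_ne_zero hR.ne') h9.ne', Real.log_inv, Real.log_exp]
      ring
  rw [Multiset.map_congr rfl h5, Multiset.sum_map_add, Multiset.sum_map_mul_right]
  ring

end Pool.Agent.QF
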