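import Pool.Agent.QF.Defs

/-! J2: bounds and comparison of the logarithmic means. -/

namespace Pool.Agent.QF

open Complex

theorem continuous_poly_line (D : ℕ) (c : ℚ → ℂ) (C : Finset ℚ) (σ : ℝ) :
    Continuous fun x : ℝ => poly c C (σ + (D : ℂ) * x * I) := by
  unfold poly
  fun_prop

theorem cast_line (D : ℕ) (σ x : ℝ) : (σ : ℂ) + (D : ℂ) * x * I = (σ : ℂ) + (((D : ℝ) * x : ℝ) : ℂ) * I := by
  push_cast; ring

theorem LM_le {D : ℕ} {c : ℚ → ℂ} {C : Finset ℚ} {σ M : ℝ} (hM : 0 < M) (h0 : ∀ y : ℝ, poly c C (σ + y * I) ≠ 0)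
    (h : ∀ y : ℝ, ‖poly c C (σ + y * I)‖ ≤ M) : LM D c C σ ≤ Real.log M := by
  have hpi : (0 : ℝ) < 2 * Real.pi := by positivity
  have hne : ∀ x : ℝ, ‖poly c C (σ + (D : ℂ) * x * I)‖ ≠ 0 := fun x => by
    rw [cast_line]; exact norm_ne_zero_iff.2 (h0 _)
  have hcont : Continuous fun x : ℝ => Real.log ‖poly c C (σ + (D : ℂ) * x * I)‖ :=
    (continuous_poly_line D c C σ).norm.log hne
  have h1 : ∫ x in (0 : ℝ)..(2 * Real.pi), Real.log ‖poly c C (σ + (D : ℂ) * x * I)‖ ≤
      ∫ x in (0 : ℝ)..(2 * Real.pi), Real.log M := by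
    refine intervalIntegral.integral_mono hpi.le (hcont.intervalIntegrable _ _)
      (continuous_const.intervalIntegrable _ _) fun x => ?_
    refine Real.log_le_log (lt_of_le_of_ne (norm_nonneg _) (hne x).symm) ?_
    rw [cast_line]
    exact h _
  rw [intervalIntegral.integral_const, smul_eq_mul, sub_zero] at h1
  unfold LM
  rw [one_div, inv_mul_le_iff₀ hpi]
  exact h1

theorem LM_ge {D : ℕ} {c : ℚ → ℂ} {C : Finset ℚ} {σ m : ℝ} (hm : 0 < m)
    (h : ∀ y : ℝ, m ≤ ‖poly c C (σ + y * I)‖) : Real.log m ≤ LM D c C σ := by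
  have hpi : (0 : ℝ) < 2 * Real.pi := by positivity
  have hle : ∀ x : ℝ, m ≤ ‖poly c C (σ + (D : ℂ) * x * I)‖ := fun x => by
    rw [cast_line]; exact h _
  have hcont : Continuous fun x : ℝ => Real.log ‖poly c C (σ + (D : ℂ) * x * I)‖ :=
    (continuous_poly_line D c C σ).norm.log fun x => (lt_of_lt_of_le hm (hle x)).ne'
  have h1 : ∫ x in (0 : ℝ)..(2 * Real.pi), Real.log m ≤
      ∫ x in (0 : ℝ)..(2 * Real.pi), Real.log ‖poly c C (σ + (D : ℂ) * x * I)‖ :=
    intervalIntegral.integral_mono hpi.le (continuous_const.intervalIntegrable _ _)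
      (hcont.intervalIntegrable _ _) fun x => Real.log_le_log hm (hle x)
  rw [intervalIntegral.integral_const, smul_eq_mul, sub_zero] at h1
  unfold LM
  rw [one_div, le_inv_mul_iff₀ hpi]
  exact h1

/-- The orthogonality relation. -/
theorem integral_exp_int (k : ℤ) : ∫ x in (0 : ℝ)..(2 * Real.pi), exp ((k : ℂ) * I * x) =
    if k = 0 then (2 * Real.pi : ℂ) else 0 := by
  split_ifs with hk
  · rw [hk]
    simp
  · have hc : (k : ℂ) * I ≠ 0 := mul_ne_zero (by exact_mod_cast hk) I_ne_zero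
    rw [integral_exp_mul_complex hc]
    have h1 : exp ((k : ℂ) * I * ((2 * Real.pi : ℝ) : ℂ)) = 1 := by
      rw [← Complex.exp_int_mul_two_pi_mul_I k]
      congr 1
      push_cast
      ring
    rw [h1]
    simp

/-- Parseval for a finite sum. -/
theorem parseval_fin {G : Finset ℚ} (a : ℚ → ℂ) (m : ℚ → ℤ) (hm : Set.InjOn m G) :
    ∫ x in (0 : ℝ)..(2 * Real.pi), ‖∑ g ∈ G, a g * exp (-(m g : ℂ) * I * x)‖ ^ 2 =
      2 * Real.pi * ∑ g ∈ G, ‖a g‖ ^ 2 := by
  have h1 : ∀ x : ℝ, ((‖∑ g ∈ G, a g * exp (-(m g : ℂ) * I * x)‖ ^ 2 : ℝ) : ℂ) =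
      ∑ g ∈ G, ∑ h ∈ G, (a g * (starRingEnd ℂ) (a h)) * exp (((m h - m g : ℤ) : ℂ) * I * x) := by
    intro x
    rw [Complex.ofReal_pow, ← Complex.mul_conj', map_sum, Finset.sum_mul_sum]
    refine Finset.sum_congr rfl fun g _ => Finset.sum_congr rfl fun h _ => ?_
    rw [map_mul, ← Complex.exp_conj, map_mul, map_mul, map_neg, Complex.conj_I, Complex.conj_ofReal]
    have h2 : (starRingEnd ℂ) (m h : ℂ) = (m h : ℂ) := by
      rw [← Complex.ofReal_intCast, Complex.conj_ofReal]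
    rw [h2]
    have h3 : exp (((m h - m g : ℤ) : ℂ) * I * x) =
        exp (-(m g : ℂ) * I * x) * exp (-(m h : ℂ) * -I * x) := by
      rw [← Complex.exp_add]
      congr 1
      push_cast
      ring
    rw [h3]
    ring
  have h2 : ((∫ x in (0 : ℝ)..(2 * Real.pi), ‖∑ g ∈ G, a g * exp (-(m g : ℂ) * I * x)‖ ^ 2 : ℝ) : ℂ) =
      ((2 * Real.pi * ∑ g ∈ G, ‖a g‖ ^ 2 : ℝ) : ℂ) := by
    rw [← intervalIntegral.integral_ofReal]
    simp_rw [h1]
    rw [intervalIntegral.integral_finsetSum]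
    swap
    · intro g _
      exact Continuous.intervalIntegrable (by fun_prop) _ _
    have h3 : ∀ g ∈ G, (∫ x in (0 : ℝ)..(2 * Real.pi),
        ∑ h ∈ G, (a g * (starRingEnd ℂ) (a h)) * exp (((m h - m g : ℤ) : ℂ) * I * x)) =
        2 * Real.pi * (‖a g‖ : ℂ) ^ 2 := by
      intro g hg
      rw [intervalIntegral.integral_finsetSum]
      swap
      · intro h _
        exact Continuous.intervalIntegrable (by fun_prop) _ _
      rw [Finset.sum_eq_single g]
      · rw [intervalIntegral.integral_const_mul, integral_exp_int, if_pos (sub_self _), Complex.mul_conj']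
        ring
      · intro h hh hne
        rw [intervalIntegral.integral_const_mul, integral_exp_int, if_neg, mul_zero]
        intro h0
        exact hne (hm hh hg (sub_eq_zero.1 h0))
      · intro h
        exact absurd hg h
    rw [Finset.sum_congr rfl h3]
    push_cast
    rw [Finset.mul_sum]
  exact_mod_cast h2

/-- The mean of `|f|` is at most the root of the mean of `|f|^2`. -/
theorem mean_le_sqrt {f : ℝ → ℝ} (hf : Continuous f) {B : ℝ}
    (hB : ∫ x in (0 : ℝ)..(2 * Real.pi), f x ^ 2 ≤ 2 * Real.pi * B) :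
    (1 / (2 * Real.pi)) * ∫ x in (0 : ℝ)..(2 * Real.pi), f x ≤ Real.sqrt B := by
  have hpi : (0 : ℝ) < 2 * Real.pi := by positivity
  set A := (1 / (2 * Real.pi)) * ∫ x in (0 : ℝ)..(2 * Real.pi), f x with hA
  have hA' : ∫ x in (0 : ℝ)..(2 * Real.pi), f x = 2 * Real.pi * A := by
    rw [hA]; field_simp
  apply Real.le_sqrt_of_sq_le
  have h1 : ∫ x in (0 : ℝ)..(2 * Real.pi), 2 * A * f x ≤
      ∫ x in (0 : ℝ)..(2 * Real.pi), (f x ^ 2 + A ^ 2) := by
    refine intervalIntegral.integral_mono hpi.le (Continuous.intervalIntegrable (by fun_prop) _ _)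
      (Continuous.intervalIntegrable (by fun_prop) _ _) fun x => ?_
    nlinarith [sq_nonneg (f x - A)]
  rw [intervalIntegral.integral_const_mul, hA', intervalIntegral.integral_add
    (Continuous.intervalIntegrable (by fun_prop) _ _) (Continuous.intervalIntegrable (by fun_prop) _ _),
    intervalIntegral.integral_const, smul_eq_mul, sub_zero] at h1
  have h2 : 2 * Real.pi * A ^ 2 ≤ 2 * Real.pi * B := by nlinarith
  exact le_of_mul_le_mul_left h2 hpi

/-- The mean of the part outside of `A`. -/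
theorem mean_poly_le {D : ℕ} (hD : 0 < D) {c : ℚ → ℂ} {L : ℝ} (hc0 : ∀ g, g ≤ 0 → c g = 0)
    (hc : Summable fun g => ‖c g‖) (hL : ∑' g, ‖c g‖ ≤ L) {A G : Finset ℚ}
    (hG : ∀ g ∈ G, ∃ m : ℕ, g * D = m) (hAG : ∀ g ∈ G, g ∉ A) {S σ v θ : ℝ} (hS : S ≤ σ) (hσ : 0 ≤ σ)
    (hθ : 0 ≤ θ) (h1 : Split c S v θ A) :
    (1 / (2 * Real.pi)) * ∫ x in (0 : ℝ)..(2 * Real.pi), ‖poly c G (σ + (D : ℂ) * x * I)‖ ≤
      v + Real.sqrt (θ * L) := by
  classical
  obtain ⟨D₁, -, hD2, hD3⟩ := h1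
  have hpi : (0 : ℝ) < 2 * Real.pi := by positivity
  set G₁ := G.filter (fun g => g ∈ D₁) with hG1
  set G₂ := G.filter (fun g => g ∉ D₁) with hG2
  have hsplit : ∀ s, poly c G s = poly c G₁ s + poly c G₂ s := fun s => by
    unfold poly
    exact (Finset.sum_filter_add_sum_filter_not G _ _).symm
  -- weights decrease
  have hw : ∀ g, ‖c g‖ * Real.exp (-(g : ℝ) * σ) ≤ ‖c g‖ * Real.exp (-(g : ℝ) * S) := by
    intro g
    rcases le_or_gt g 0 with h | h
    · rw [hc0 g h, norm_zero, zero_mul, zero_mul]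
    · have h' : (0 : ℝ) < g := by exact_mod_cast h
      refine mul_le_mul_of_nonneg_left (Real.exp_le_exp.2 ?_) (norm_nonneg _)
      nlinarith
  have hw1 : ∀ g, ‖c g‖ * Real.exp (-(g : ℝ) * σ) ≤ ‖c g‖ := by
    intro g
    rcases le_or_gt g 0 with h | h
    · rw [hc0 g h, norm_zero, zero_mul]
    · have h' : (0 : ℝ) < g := by exact_mod_cast h
      refine mul_le_of_le_one_right (norm_nonneg _) (Real.exp_le_one_iff.2 ?_)
      nlinarith
  have hnorm : ∀ (g : ℚ) (x : ℝ), ‖c g * exp (-(g : ℂ) * (σ + (D : ℂ) * x * I))‖ =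
      ‖c g‖ * Real.exp (-(g : ℝ) * σ) := by
    intro g x
    rw [norm_mul, Complex.norm_exp]
    congr 2
    simp
  have hb1 : ∀ x : ℝ, ‖poly c G₁ (σ + (D : ℂ) * x * I)‖ ≤ v := by
    intro x
    unfold poly
    refine (norm_sum_le _ _).trans ?_
    rw [Finset.sum_congr rfl fun g _ => hnorm g x]
    refine le_trans ?_ hD2
    refine (Finset.sum_le_sum fun g _ => hw g).trans ?_
    refine Finset.sum_le_sum_of_subset_of_nonneg ?_ fun g _ _ => by positivity
    intro g hg
    exact (Finset.mem_filter.1 hg).2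
  have hb2 : (1 / (2 * Real.pi)) * ∫ x in (0 : ℝ)..(2 * Real.pi), ‖poly c G₂ (σ + (D : ℂ) * x * I)‖ ≤
      Real.sqrt (θ * L) := by
    refine mean_le_sqrt (continuous_poly_line D c G₂ σ).norm ?_
    have h2 : ∀ x : ℝ, poly c G₂ (σ + (D : ℂ) * x * I) =
        ∑ g ∈ G₂, (c g * exp (-(g : ℂ) * σ)) * exp (-((⌊g * D⌋ : ℤ) : ℂ) * I * x) := by
      intro x
      unfold poly
      refine Finset.sum_congr rfl fun g hg => ?_
      obtain ⟨m, hm⟩ := hG g (Finset.mem_filter.1 hg).1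
      rw [mul_assoc (c g), ← Complex.exp_add]
      congr 2
      have h3 : (⌊g * D⌋ : ℤ) = (m : ℤ) := by rw [hm]; exact Int.floor_natCast m
      have h4 : (g : ℂ) * D = m := by exact_mod_cast hm
      rw [h3]
      push_cast
      rw [← h4]
      ring
    simp_rw [h2]
    rw [parseval_fin (fun g => c g * exp (-(g : ℂ) * σ)) (fun g => ⌊g * D⌋)]
    · refine mul_le_mul_of_nonneg_left ?_ hpi.le
      have h5 : ∀ g ∈ G₂, ‖c g * exp (-(g : ℂ) * σ)‖ ^ 2 ≤ θ * ‖c g‖ := by
        intro g hg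
        have h6 : ‖c g * exp (-(g : ℂ) * σ)‖ = ‖c g‖ * Real.exp (-(g : ℝ) * σ) := by
          have := hnorm g 0
          simpa using this
        rw [h6, pow_two]
        refine mul_le_mul ?_ (hw1 g) (by positivity) hθ
        exact (hw g).trans (hD3 g (hAG g (Finset.mem_filter.1 hg).1) (Finset.mem_filter.1 hg).2)
      refine (Finset.sum_le_sum h5).trans ?_
      rw [← Finset.mul_sum]
      refine mul_le_mul_of_nonneg_left ?_ hθ
      exact (hc.sum_le_tsum _ fun _ _ => norm_nonneg _).trans hL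
    · intro g hg h hh heq
      obtain ⟨m, hm⟩ := hG g (Finset.mem_filter.1 hg).1
      obtain ⟨m', hm'⟩ := hG h (Finset.mem_filter.1 hh).1
      simp only at heq
      rw [hm, hm', Int.floor_natCast, Int.floor_natCast] at heq
      have h7 : g * D = h * D := by rw [hm, hm']; exact_mod_cast heq
      have hDq : (D : ℚ) ≠ 0 := by exact_mod_cast hD.ne'
      exact mul_right_cancel₀ hDq h7
  have h8 : ∫ x in (0 : ℝ)..(2 * Real.pi), ‖poly c G (σ + (D : ℂ) * x * I)‖ ≤
      ∫ x in (0 : ℝ)..(2 * Real.pi), (v + ‖poly c G₂ (σ + (D : ℂ) * x * I)‖) := by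
    refine intervalIntegral.integral_mono hpi.le ((continuous_poly_line D c G σ).norm.intervalIntegrable _ _)
      ((continuous_const.add (continuous_poly_line D c G₂ σ).norm).intervalIntegrable _ _) fun x => ?_
    simp only
    rw [hsplit]
    exact (norm_add_le _ _).trans (add_le_add_left (hb1 x) _)
  rw [intervalIntegral.integral_add (continuous_const.intervalIntegrable _ _)
    ((continuous_poly_line D c G₂ σ).norm.intervalIntegrable _ _), intervalIntegral.integral_const, smul_eq_mul,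
    sub_zero] at h8
  have h9 := mul_le_mul_of_nonneg_left h8 (by positivity : (0 : ℝ) ≤ 1 / (2 * Real.pi))
  refine h9.trans ?_
  rw [mul_add]
  have h10 : 1 / (2 * Real.pi) * (2 * Real.pi * v) = v := by field_simp
  rw [h10]
  exact add_le_add_right hb2 _

theorem abs_log_sub_le {x y m : ℝ} (hm : 0 < m) (hx : m ≤ x) (hy : m ≤ y) :
    |Real.log x - Real.log y| ≤ |x - y| / m := by
  have key : ∀ {x y : ℝ}, m ≤ x → m ≤ y → Real.log x - Real.log y ≤ |x - y| / m := by
    intro x y hx hy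
    have hx0 : 0 < x := lt_of_lt_of_le hm hx
    have hy0 : 0 < y := lt_of_lt_of_le hm hy
    rw [← Real.log_div hx0.ne' hy0.ne']
    have h1 := Real.log_le_sub_one_of_pos (div_pos hx0 hy0)
    have h2 : x / y - 1 = (x - y) / y := by field_simp
    rw [h2] at h1
    refine h1.trans ?_
    refine (div_le_div_of_nonneg_right (le_abs_self _) hy0.le).trans ?_
    exact div_le_div_of_nonneg_left (abs_nonneg _) hm hy
  rw [abs_le]
  constructor
  · have := key hy hx
    rw [abs_sub_comm] at this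
    linarith
  · exact key hx hy

/-- `|log x - log y| ≤ |x - y| / m`, and Parseval for the difference of the two polynomials. -/
theorem LM_compare {D : ℕ} (hD : 0 < D) {c : ℚ → ℂ} {L : ℝ} (hc0 : ∀ g, g ≤ 0 → c g = 0)
    (hc : Summable fun g => ‖c g‖) (hL : ∑' g, ‖c g‖ ≤ L) {C C' : Finset ℚ}
    (hC : ∀ g ∈ C, ∃ m : ℕ, g * D = m) (hC' : ∀ g ∈ C', ∃ m : ℕ, g * D = m) {S S' σ v v' θ θ' m : ℝ}
    (hS : S ≤ σ) (hS' : S' ≤ σ) (hσ : 0 ≤ σ) (hm : 0 < m) (hv : 0 ≤ v) (hv' : 0 ≤ v') (hθ : 0 ≤ θ)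
    (hθ' : 0 ≤ θ') (h1 : Split c S v θ C) (h2 : Split c S' v' θ' C')
    (h3 : ∀ y : ℝ, m ≤ ‖poly c C (σ + y * I)‖) (h4 : ∀ y : ℝ, m ≤ ‖poly c C' (σ + y * I)‖) :
    |LM D c C σ - LM D c C' σ| ≤ (v + v' + Real.sqrt (θ * L) + Real.sqrt (θ' * L)) / m := by
  classical
  have hpi : (0 : ℝ) < 2 * Real.pi := by positivity
  have hle : ∀ x : ℝ, m ≤ ‖poly c C (σ + (D : ℂ) * x * I)‖ := fun x => by
    rw [cast_line]; exact h3 _
  have hle' : ∀ x : ℝ, m ≤ ‖poly c C' (σ + (D : ℂ) * x * I)‖ := fun x => by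
    rw [cast_line]; exact h4 _
  have hcont : Continuous fun x : ℝ => Real.log ‖poly c C (σ + (D : ℂ) * x * I)‖ :=
    (continuous_poly_line D c C σ).norm.log fun x => (lt_of_lt_of_le hm (hle x)).ne'
  have hcont' : Continuous fun x : ℝ => Real.log ‖poly c C' (σ + (D : ℂ) * x * I)‖ :=
    (continuous_poly_line D c C' σ).norm.log fun x => (lt_of_lt_of_le hm (hle' x)).ne'
  have hdiff : ∀ s, poly c C s - poly c C' s = poly c (C \ C') s - poly c (C' \ C) s := by
    intro s
    unfold poly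
    rw [← Finset.sum_sdiff_sub_sum_sdiff]
  have hm1 := mean_poly_le hD hc0 hc hL (A := C) (G := C' \ C)
    (fun g hg => hC' g (Finset.mem_sdiff.1 hg).1) (fun g hg => (Finset.mem_sdiff.1 hg).2) hS hσ hθ h1
  have hm2 := mean_poly_le hD hc0 hc hL (A := C') (G := C \ C')
    (fun g hg => hC g (Finset.mem_sdiff.1 hg).1) (fun g hg => (Finset.mem_sdiff.1 hg).2) hS' hσ hθ' h2
  unfold LM
  rw [← mul_sub, ← intervalIntegral.integral_sub (hcont.intervalIntegrable _ _) (hcont'.intervalIntegrable _ _),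
    abs_mul, abs_of_pos (by positivity : (0 : ℝ) < 1 / (2 * Real.pi))]
  have hc1 := (continuous_poly_line D c (C \ C') σ).norm
  have hc2 := (continuous_poly_line D c (C' \ C) σ).norm
  have h5 : |∫ x in (0 : ℝ)..(2 * Real.pi), (Real.log ‖poly c C (σ + (D : ℂ) * x * I)‖ -
      Real.log ‖poly c C' (σ + (D : ℂ) * x * I)‖)| ≤
      ∫ x in (0 : ℝ)..(2 * Real.pi), (‖poly c (C \ C') (σ + (D : ℂ) * x * I)‖ +
        ‖poly c (C' \ C) (σ + (D : ℂ) * x * I)‖) / m := by
    refine (intervalIntegral.abs_integral_le_integral_abs hpi.le).trans ?_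
    refine intervalIntegral.integral_mono hpi.le ((hcont.sub hcont').abs.intervalIntegrable _ _)
      (((hc1.add hc2).div_const m).intervalIntegrable _ _) fun x => ?_
    refine (abs_log_sub_le hm (hle x) (hle' x)).trans ?_
    refine div_le_div_of_nonneg_right ?_ hm.le
    refine (abs_norm_sub_norm_le _ _).trans ?_
    rw [hdiff]
    exact norm_sub_le _ _
  refine (mul_le_mul_of_nonneg_left h5 (by positivity)).trans ?_
  rw [intervalIntegral.integral_div, intervalIntegral.integral_add (hc1.intervalIntegrable _ _)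
    (hc2.intervalIntegrable _ _), mul_div_assoc', mul_add]
  refine div_le_div_of_nonneg_right ?_ hm.le
  linarith

end Pool.Agent.QF
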