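import Pool.Agent.QF.J1
import Pool.Agent.QF.J2

/-! JF: the final contradiction. -/

namespace Pool.Agent.QF

open Complex

/-- Finitely many positive rationals have a common denominator. -/
theorem common_den (T : Finset ℚ) (hT : ∀ g ∈ T, 0 < g) :
    ∃ D : ℕ, 0 < D ∧ ∀ g ∈ T, ∃ m : ℕ, g * D = m := by
  classical
  refine ⟨∏ g ∈ T, g.den, Finset.prod_pos fun g _ => g.den_pos, fun g hg => ?_⟩
  have h1 : (∏ g ∈ T, g.den) = g.den * ∏ g' ∈ T.erase g, g'.den :=
    (Finset.mul_prod_erase T (fun g : ℚ => g.den) hg).symm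
  have h2 : g * (g.den : ℚ) = g.num := Rat.mul_den_eq_num g
  have h3 : 0 < g.num := Rat.num_pos.mpr (hT g hg)
  refine ⟨g.num.toNat * ∏ g' ∈ T.erase g, g'.den, ?_⟩
  rw [h1, Nat.cast_mul, ← mul_assoc, h2, Nat.cast_mul]
  congr 1
  have h4 : ((g.num.toNat : ℤ) : ℚ) = (g.num : ℚ) := by rw [Int.toNat_of_nonneg h3.le]
  exact_mod_cast h4.symm

theorem norm_poly_le {c : ℚ → ℂ} (hc : Summable fun g => ‖c g‖) (hc0 : ∀ g, g ≤ 0 → c g = 0)
    (C : Finset ℚ) {s : ℂ} (hs : 0 ≤ s.re) :
    ‖poly c C s‖ ≤ ∑' g, ‖c g‖ * Real.exp (-(g : ℝ) * s.re) := by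
  have hsum : Summable fun g : ℚ => ‖c g‖ * Real.exp (-(g : ℝ) * s.re) := by
    refine Summable.of_nonneg_of_le (fun g => by positivity) (fun g => ?_) hc
    by_cases hg : g ≤ 0
    · rw [hc0 g hg]; simp
    · have hg' : (0 : ℝ) < g := by exact_mod_cast not_le.mp hg
      have : Real.exp (-(g : ℝ) * s.re) ≤ 1 := by
        apply Real.exp_le_one_iff.mpr
        have := mul_nonneg hg'.le hs
        linarith
      calc _ ≤ ‖c g‖ * 1 := by gcongr
        _ = _ := mul_one _
  unfold poly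
  refine (norm_sum_le _ _).trans ?_
  have h1 : ∀ g ∈ C, ‖c g * exp (-(g : ℂ) * s)‖ = ‖c g‖ * Real.exp (-(g : ℝ) * s.re) := by
    intro g _
    rw [norm_mul, Complex.norm_exp]
    congr 2
    simp
  rw [Finset.sum_congr rfl h1]
  exact hsum.sum_le_tsum _ fun g _ => by positivity

theorem Elev_tendsto : Filter.Tendsto Elev Filter.atTop Filter.atTop := by
  have h : ∀ n : ℕ, (n : ℝ) ≤ Elev n := by
    intro n
    unfold Elev
    have h1 : (n : ℝ) ≤ (2 : ℝ) ^ n := by
      exact_mod_cast (Nat.lt_two_pow_self (n := n)).le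
    refine h1.trans (pow_le_pow_right₀ (by norm_num) ?_)
    have : n + 2 < 100 ^ (n + 2) := Nat.lt_pow_self (by norm_num)
    omega
  exact Filter.tendsto_atTop_mono h tendsto_natCast_atTop_atTop

theorem weight_tendsto {c : ℚ → ℂ} (hc0 : ∀ g, g ≤ 0 → c g = 0) (hc : Summable fun g => ‖c g‖) :
    Filter.Tendsto (fun n : ℕ => ∑' g, ‖c g‖ * Real.exp (-(g : ℝ) * Elev n)) Filter.atTop (nhds 0) := by
  have h := tendsto_tsum_of_dominated_convergence (𝓕 := (Filter.atTop : Filter ℕ))
    (f := fun (n : ℕ) (g : ℚ) => ‖c g‖ * Real.exp (-(g : ℝ) * Elev n)) (g := fun _ => (0 : ℝ))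
    (bound := fun g => ‖c g‖) hc ?_ ?_
  · simpa using h
  · intro g
    by_cases hg : g ≤ 0
    · simp [hc0 g hg]
    · have hg' : (0 : ℝ) < g := by exact_mod_cast not_le.mp hg
      have h1 : Filter.Tendsto (fun n : ℕ => -(g : ℝ) * Elev n) Filter.atTop Filter.atBot := by
        have := Elev_tendsto.const_mul_atTop_of_neg (r := -(g : ℝ)) (by linarith)
        exact this
      have h2 := (Real.tendsto_exp_atBot.comp h1).const_mul ‖c g‖
      simpa using h2
  · filter_upwards with n g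
    rw [Real.norm_eq_abs, abs_of_nonneg (by positivity)]
    by_cases hg : g ≤ 0
    · simp [hc0 g hg]
    · have hg' : (0 : ℝ) < g := by exact_mod_cast not_le.mp hg
      have : Real.exp (-(g : ℝ) * Elev n) ≤ 1 := by
        apply Real.exp_le_one_iff.mpr
        have := mul_nonneg hg'.le (Elev_pos n).le
        linarith
      calc _ ≤ ‖c g‖ * 1 := by gcongr
        _ = _ := mul_one _

theorem tau_tendsto : Filter.Tendsto tau Filter.atTop (nhds 0) := by
  have h : tau = fun n => (Elev n)⁻¹ ^ 1 * 0 + (1 / 2 : ℝ) ^ (100 ^ (n + 1)) := by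
    funext n; simp [tau]
  have h1 : Filter.Tendsto (fun n : ℕ => 100 ^ (n + 1)) Filter.atTop Filter.atTop := by
    apply Filter.tendsto_atTop_mono (f := fun n : ℕ => n) _ Filter.tendsto_id
    intro n
    have : n + 1 < 100 ^ (n + 1) := Nat.lt_pow_self (by norm_num)
    omega
  have h2 := (tendsto_pow_atTop_nhds_zero_of_lt_one (r := (1 / 2 : ℝ)) (by norm_num) (by norm_num)).comp h1
  exact h2

theorem tau_le_half_pow (k : ℕ) : tau k ≤ (1 / 2) ^ (k + 2) := by
  unfold tau
  refine pow_le_pow_of_le_one (by norm_num) (by norm_num) ?_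
  have h1 : k + 1 < 100 ^ (k + 1) := Nat.lt_pow_self (by norm_num)
  omega

/-- No `c ∈ ℓ¹(ℚ⁺)` has zero-free approximants in all windows from some index on. -/
theorem final_contra {c : ℚ → ℂ} {L : ℝ} (hL1 : 1 ≤ L) (hc0 : ∀ g, g ≤ 0 → c g = 0)
    (hc : Summable fun g => ‖c g‖) (hL : ∑' g, ‖c g‖ ≤ L) (n₀ : ℕ) (C : ℕ → Finset ℚ) (θ : ℕ → ℝ)
    (hpos : ∀ n, n₀ ≤ n → ∀ g ∈ C n, 0 < g)
    (hθ : ∀ n, n₀ ≤ n → 0 < θ n ∧ θ n ≤ tau (n + 2) ^ 200)
    (hC : ∀ n, n₀ ≤ n → Split c (Slev n) (vth n) (θ n) (C n))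
    (hlow : ∀ n, n₀ ≤ n → ∀ s : ℂ, Slev n ≤ s.re → s.re ≤ Elev n → tau n ^ 500 ≤ ‖poly c (C n) s‖) : False := by
  classical
  have hL0 : 0 < L := by linarith
  -- large index
  obtain ⟨n₂, hn₂⟩ : ∃ n₂, ∀ n, n₂ ≤ n → tau n < 1 / L := by
    have := tau_tendsto.eventually (gt_mem_nhds (show (0 : ℝ) < 1 / L by positivity))
    exact Filter.eventually_atTop.mp this
  set a := max n₀ n₂ with ha
  have ha0 : n₀ ≤ a := le_max_left _ _
  have ha2 : n₂ ≤ a := le_max_right _ _
  have hLt : ∀ n, a ≤ n → L * tau n ≤ 1 := by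
    intro n hn
    have := hn₂ n (ha2.trans hn)
    rw [lt_div_iff₀ hL0] at this
    linarith [mul_comm L (tau n)]
  -- the far index
  have hε : 0 < Real.exp (500 * Real.log (tau a) - 3) := Real.exp_pos _
  obtain ⟨N₀, hN₀⟩ := Filter.eventually_atTop.mp ((weight_tendsto hc0 hc).eventually (gt_mem_nhds hε))
  set N := max a N₀ with hN
  have hNa : a ≤ N := le_max_left _ _
  have hNε := hN₀ N (le_max_right _ _)
  -- the common denominator
  obtain ⟨D, hD, hDm⟩ := common_den ((Finset.Icc a (N + 1)).biUnion C) (by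
    intro g hg
    obtain ⟨n, hn, hgn⟩ := Finset.mem_biUnion.mp hg
    exact hpos n (ha0.trans (Finset.mem_Icc.mp hn).1) g hgn)
  have hDn : ∀ n, a ≤ n → n ≤ N + 1 → ∀ g ∈ C n, ∃ m : ℕ, g * D = m := fun n h1 h2 g hg =>
    hDm g (Finset.mem_biUnion.mpr ⟨n, Finset.mem_Icc.mpr ⟨h1, h2⟩, hg⟩)
  -- affine
  have hne : ∀ n, a ≤ n → ∀ s : ℂ, Slev n ≤ s.re → s.re ≤ Elev n → poly c (C n) s ≠ 0 := by
    intro n hn s h1 h2 h3
    have := hlow n (ha0.trans hn) s h1 h2
    rw [h3, norm_zero] at this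
    have := pow_pos (tau_pos n) 500
    linarith
  have haff : ∀ n, ∃ κ ρ : ℝ, a ≤ n → n ≤ N + 1 → ∀ σ ∈ Set.Icc (Slev n) (Elev n), LM D c (C n) σ = κ * σ + ρ := by
    intro n
    by_cases h : a ≤ n ∧ n ≤ N + 1
    · obtain ⟨κ, ρ, h'⟩ := LM_affine hD (hDn n h.1 h.2) (Slev_lt_Elev n) (hne n h.1)
      exact ⟨κ, ρ, fun _ _ => h'⟩
    · exact ⟨0, 0, fun h1 h2 => absurd ⟨h1, h2⟩ h⟩
  choose κ ρ haff using haff
  -- re computation
  have hre : ∀ (σ y : ℝ), ((σ : ℂ) + (y : ℂ) * I).re = σ := by intro σ y; simp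
  -- bounds of LM
  have hup : ∀ n, a ≤ n → ∀ σ, Slev n ≤ σ → σ ≤ Elev n → LM D c (C n) σ ≤ Real.log L := by
    intro n hn σ h1 h2
    refine LM_le hL0 (fun y => hne n hn _ (by rw [hre]; exact h1) (by rw [hre]; exact h2)) (fun y => ?_)
    have h0 : 0 ≤ ((σ : ℂ) + (y : ℂ) * I).re := by rw [hre]; exact (Slev_pos n).le.trans h1
    refine (norm_poly_le hc hc0 (C n) h0).trans ?_
    refine le_trans (Summable.tsum_le_tsum (fun g => ?_) ?_ hc) hL
    · by_cases hg : g ≤ 0
      · rw [hc0 g hg]; simp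
      · have hg' : (0 : ℝ) < g := by exact_mod_cast not_le.mp hg
        have : Real.exp (-(g : ℝ) * ((σ : ℂ) + (y : ℂ) * I).re) ≤ 1 := by
          apply Real.exp_le_one_iff.mpr
          have := mul_nonneg hg'.le h0
          linarith
        calc _ ≤ ‖c g‖ * 1 := by gcongr
          _ = _ := mul_one _
    · refine Summable.of_nonneg_of_le (fun g => by positivity) (fun g => ?_) hc
      by_cases hg : g ≤ 0
      · rw [hc0 g hg]; simp
      · have hg' : (0 : ℝ) < g := by exact_mod_cast not_le.mp hg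
        have : Real.exp (-(g : ℝ) * ((σ : ℂ) + (y : ℂ) * I).re) ≤ 1 := by
          apply Real.exp_le_one_iff.mpr
          have := mul_nonneg hg'.le h0
          linarith
        calc _ ≤ ‖c g‖ * 1 := by gcongr
          _ = _ := mul_one _
  have hdn : ∀ n, a ≤ n → ∀ σ, Slev n ≤ σ → σ ≤ Elev n → 500 * Real.log (tau n) ≤ LM D c (C n) σ := by
    intro n hn σ h1 h2
    have h3 := LM_ge (D := D) (c := c) (C := C n) (σ := σ) (m := tau n ^ 500) (pow_pos (tau_pos n) _)
      (fun y => hlow n (ha0.trans hn) _ (by rw [hre]; exact h1) (by rw [hre]; exact h2))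
    rw [Real.log_pow] at h3
    exact_mod_cast h3
  -- comparison
  have hcmp : ∀ n, a ≤ n → n ≤ N → ∀ σ, Slev (n + 1) ≤ σ → σ ≤ Elev n →
      |LM D c (C n) σ - LM D c (C (n + 1)) σ| ≤ tau (n + 1) ^ 4 := by
    intro n hn hnN σ h1 h2
    have hS : Slev n ≤ σ := by
      refine le_trans ?_ h1
      unfold Slev
      refine pow_le_pow_right₀ (by norm_num) ?_
      have : 100 ^ n ≤ 100 ^ (n + 1) := Nat.pow_le_pow_right (by norm_num) (by omega)
      omega
    have hE : σ ≤ Elev (n + 1) := by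
      refine h2.trans ?_
      unfold Elev
      refine pow_le_pow_right₀ (by norm_num) ?_
      exact Nat.pow_le_pow_right (by norm_num) (by omega)
    set x := tau (n + 1) with hx
    have hx0 : 0 < x := tau_pos _
    have hx1 : x ≤ 1 := (tau_le _).trans (by norm_num)
    have hLx : L * x ≤ 1 := hLt (n + 1) (by omega)
    have hx4 : x * 16 ≤ 1 := by
      have := tau_le (n + 1)
      have h16 : ((1 : ℝ) / 2) ^ 100 * 16 ≤ 1 := by norm_num
      nlinarith
    have ht2 : tau (n + 2) = x ^ 100 := tau_succ (n + 1)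
    have ht3 : tau (n + 3) ≤ x ^ 100 := by
      rw [← ht2]; exact tau_anti (by omega)
    have ht30 : 0 < tau (n + 3) := tau_pos _
    have hv : vth n = x ^ 5000 := by
      unfold vth; rw [ht2, ← pow_mul]
    have hv' : vth (n + 1) ≤ x ^ 5000 := by
      unfold vth
      calc tau (n + 1 + 2) ^ 50 ≤ (x ^ 100) ^ 50 := by gcongr
        _ = x ^ 5000 := by rw [← pow_mul]
    have hv0' : 0 ≤ vth (n + 1) := by unfold vth; exact (pow_pos (tau_pos _) _).le
    have hv0 : 0 ≤ vth n := by unfold vth; exact (pow_pos (tau_pos _) _).le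
    have hsq : ∀ z : ℝ, 0 < z → z ≤ x ^ 20000 → Real.sqrt (z * L) ≤ x ^ 5000 := by
      intro z hz0 hz
      rw [Real.sqrt_le_left (by positivity)]
      calc z * L ≤ x ^ 20000 * L := by gcongr
        _ = x ^ 19999 * (L * x) := by ring
        _ ≤ x ^ 19999 * 1 := by gcongr
        _ = x ^ 19999 := mul_one _
        _ ≤ x ^ 10000 := pow_le_pow_of_le_one hx0.le hx1 (by norm_num)
        _ = (x ^ 5000) ^ 2 := by rw [← pow_mul]
    have hθn : θ n ≤ x ^ 20000 := by
      refine (hθ n (ha0.trans hn)).2.trans (le_of_eq ?_)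
      rw [ht2, ← pow_mul]
    have hθn' : θ (n + 1) ≤ x ^ 20000 := by
      refine (hθ (n + 1) (by omega)).2.trans ?_
      calc tau (n + 1 + 2) ^ 200 ≤ (x ^ 100) ^ 200 := by gcongr
        _ = x ^ 20000 := by rw [← pow_mul]
    have h := LM_compare (D := D) hD hc0 hc hL (hDn n hn (by omega)) (hDn (n + 1) (by omega) (by omega))
      (m := x ^ 500) hS h1 ((Slev_pos n).le.trans hS) (pow_pos hx0 _) hv0 hv0' (hθ n (ha0.trans hn)).1.le (hθ (n + 1) (by omega)).1.le
      (hC n (ha0.trans hn)) (hC (n + 1) (by omega))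
      (fun y => le_trans (pow_le_pow_left₀ hx0.le (tau_anti (Nat.le_succ n)) 500)
        (hlow n (ha0.trans hn) _ (by rw [hre]; exact hS) (by rw [hre]; exact h2)))
      (fun y => hlow (n + 1) (by omega) _ (by rw [hre]; exact h1) (by rw [hre]; exact hE))
    refine h.trans ?_
    rw [div_le_iff₀ (pow_pos hx0 _)]
    have e1 := hsq (θ n) (hθ n (ha0.trans hn)).1 hθn
    have e2 := hsq (θ (n + 1)) (hθ (n + 1) (by omega)).1 hθn'
    have e3 : x ^ 5000 = x ^ 4 * x ^ 500 * x ^ 4495 * x := by ring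
    have e4 : x ^ 4495 ≤ 1 := pow_le_one₀ hx0.le hx1
    have e5 : 0 < x ^ 4 * x ^ 500 := by positivity
    have e6 : 4 * x ^ 5000 ≤ x ^ 4 * x ^ 500 := by
      rw [e3]
      have e7 : x ^ 4495 * x * 4 ≤ 1 := by
        have : x ^ 4495 * x ≤ 1 * x := by gcongr
        linarith
      nlinarith
    linarith
  -- slopes
  have hSE : ∀ n, Slev n ≤ Elev n / 2 := by
    intro n
    have h1 : Slev n ^ 2 ≤ Elev n := by
      rw [Slev_sq, Elev_eq]
      exact one_div_le_one_div_of_le (tau_pos _) (tau_anti (Nat.le_succ n))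
    have h2 := Slev_ge n
    nlinarith [Slev_pos n]
  have hslope : ∀ n, a ≤ n → n ≤ N + 1 → |κ n| * Elev n ≤ 1002 / tau n := by
    intro n hn hnN
    have hE := Elev_pos n
    have e1 := haff n hn hnN (Elev n) ⟨(Slev_lt_Elev n).le, le_rfl⟩
    have e2 := haff n hn hnN (Slev n) ⟨le_rfl, (Slev_lt_Elev n).le⟩
    have u1 := hup n hn (Elev n) (Slev_lt_Elev n).le le_rfl
    have u2 := hup n hn (Slev n) le_rfl (Slev_lt_Elev n).le
    have d1 := hdn n hn (Elev n) (Slev_lt_Elev n).le le_rfl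
    have d2 := hdn n hn (Slev n) le_rfl (Slev_lt_Elev n).le
    have hx0 : 0 < tau n := tau_pos n
    have hlogL : Real.log L ≤ 1 / tau n := by
      have h1 := Real.log_le_sub_one_of_pos hL0
      have h2 := hLt n hn
      have h3 : L ≤ 1 / tau n := by rw [le_div_iff₀ hx0]; exact h2
      linarith
    have hlogt : -Real.log (tau n) ≤ 1 / tau n := by
      have h1 := Real.log_le_sub_one_of_pos (show 0 < 1 / tau n by positivity)
      rw [one_div, Real.log_inv] at h1
      rw [one_div]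
      linarith
    have hdiff : |κ n * (Elev n - Slev n)| ≤ 501 / tau n := by
      have : κ n * (Elev n - Slev n) = LM D c (C n) (Elev n) - LM D c (C n) (Slev n) := by
        rw [e1, e2]; ring
      rw [this, abs_le]
      have h501 : 501 / tau n = 1 / tau n + 500 * (1 / tau n) := by ring
      rw [h501]
      constructor <;> nlinarith
    have hSE0 := Slev_lt_Elev n
    rw [abs_mul, abs_of_pos (show 0 < Elev n - Slev n by linarith)] at hdiff
    have h2 := hSE n
    have h3 : |κ n| * (Elev n / 2) ≤ |κ n| * (Elev n - Slev n) := by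
      apply mul_le_mul_of_nonneg_left _ (abs_nonneg _); linarith
    have h4 : 1002 / tau n = 2 * (501 / tau n) := by ring
    rw [h4]
    linarith
  have hslope2 : ∀ n, a ≤ n → n ≤ N → |κ n| * Elev n ≤ tau (n + 1) := by
    intro n hn hnN
    set x := tau (n + 1) with hx
    have hx0 : 0 < x := tau_pos _
    have hx1 : x ≤ 1 := (tau_le _).trans (by norm_num)
    have hxs : x * 4096 ≤ 1 := by
      have := tau_le (n + 1)
      have h16 : ((1 : ℝ) / 2) ^ 100 * 4096 ≤ 1 := by norm_num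
      nlinarith
    have hE0 := Elev_pos n
    have hEx : Elev n * x = 1 := by rw [Elev_eq, ← hx]; field_simp
    have hE1 : Elev (n + 1) * x ^ 100 = 1 := by
      rw [Elev_eq, show n + 1 + 1 = n + 2 from rfl, show tau (n + 2) = x ^ 100 from tau_succ (n + 1)]
      field_simp
    have hS2 : Slev (n + 1) ≤ Elev n / 2 := Slev_succ_le n
    have hSn : Slev n ≤ Elev n / 2 := hSE n
    have hEE : Elev n ≤ Elev (n + 1) := by
      unfold Elev
      refine pow_le_pow_right₀ (by norm_num) ?_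
      exact Nat.pow_le_pow_right (by norm_num) (by omega)
    have c1 := hcmp n hn hnN (Elev n / 2) hS2 (by linarith)
    have c2 := hcmp n hn hnN (Elev n) (by linarith) le_rfl
    rw [haff n hn (by omega) _ ⟨hSn, by linarith⟩,
      haff (n + 1) (by omega) (by omega) _ ⟨hS2, by linarith⟩] at c1
    rw [haff n hn (by omega) _ ⟨by linarith, le_rfl⟩,
      haff (n + 1) (by omega) (by omega) _ ⟨by linarith, hEE⟩] at c2
    have hk : |κ n - κ (n + 1)| * (Elev n / 2) ≤ 2 * x ^ 4 := by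
      rw [← abs_of_pos (show 0 < Elev n / 2 by linarith), ← abs_mul]
      rw [abs_le] at c1 c2 ⊢
      constructor <;> nlinarith [c1.1, c1.2, c2.1, c2.2]
    have hs := hslope (n + 1) (by omega) (by omega)
    -- |κ (n+1)| ≤ 1002 x^99
    have hs' : |κ (n + 1)| ≤ 1002 * x ^ 99 := by
      have h1 : |κ (n + 1)| * Elev (n + 1) * x ^ 100 ≤ 1002 / x * x ^ 100 := by gcongr
      have h2 : 1002 / x * x ^ 100 = 1002 * x ^ 99 := by field_simp
      rw [h2, mul_assoc, hE1, mul_one] at h1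
      exact h1
    have h3 : |κ n| ≤ |κ n - κ (n + 1)| + |κ (n + 1)| := by
      have := abs_add_le (κ n - κ (n + 1)) (κ (n + 1))
      simpa using this
    have h4 : |κ n| * Elev n ≤ 4 * x ^ 4 + |κ (n + 1)| * Elev n := by
      have := mul_le_mul_of_nonneg_right h3 hE0.le
      nlinarith
    have h5 : |κ (n + 1)| * Elev n ≤ 1002 * x ^ 98 := by
      have h6 : |κ (n + 1)| * Elev n ≤ 1002 * x ^ 99 * Elev n := by gcongr
      have h7 : 1002 * x ^ 99 * Elev n = 1002 * x ^ 98 * (Elev n * x) := by ring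
      rw [h7, hEx, mul_one] at h6
      exact h6
    have h8 : x ^ 98 ≤ x ^ 2 := pow_le_pow_of_le_one hx0.le hx1 (by norm_num)
    have h9 : x ^ 4 ≤ x ^ 2 := pow_le_pow_of_le_one hx0.le hx1 (by norm_num)
    nlinarith
  -- the chain
  have hchain : ∀ j, a + j ≤ N → LM D c (C a) (Elev a) - (2 - (1 / 2) ^ j) ≤
      LM D c (C (a + j)) (Elev (a + j)) - 1 := by
    intro j
    induction j with
    | zero => intro _; simp only [add_zero, pow_zero]; linarith
    | succ j ih =>
      intro hj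
      have ih' := ih (by omega)
      set n := a + j with hn
      have hEE : Elev n ≤ Elev (n + 1) := by
        unfold Elev
        refine pow_le_pow_right₀ (by norm_num) ?_
        exact Nat.pow_le_pow_right (by norm_num) (by omega)
      have hS2 : Slev (n + 1) ≤ Elev n / 2 := Slev_succ_le n
      have hE0 := Elev_pos n
      have c2 := hcmp n (by omega) (by omega) (Elev n) (by linarith) le_rfl
      have e1 := haff (n + 1) (by omega) (by omega) (Elev n) ⟨by linarith, hEE⟩
      have e2 := haff (n + 1) (by omega) (by omega) (Elev (n + 1)) ⟨(Slev_lt_Elev _).le, le_rfl⟩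
      have h3 := hslope2 (n + 1) (by omega) (by omega)
      have h4 : |κ (n + 1) * (Elev (n + 1) - Elev n)| ≤ tau (n + 2) := by
        rw [abs_mul, abs_of_nonneg (show 0 ≤ Elev (n + 1) - Elev n by linarith)]
        refine le_trans (mul_le_mul_of_nonneg_left ?_ (abs_nonneg _)) h3
        linarith
      have ht1 := tau_le_half_pow (n + 1)
      have ht2 := tau_le_half_pow (n + 2)
      have hx0 : 0 < tau (n + 1) := tau_pos _
      have hx1 : tau (n + 1) ≤ 1 := (tau_le _).trans (by norm_num)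
      have hx4 : tau (n + 1) ^ 4 ≤ tau (n + 1) := by
        calc tau (n + 1) ^ 4 ≤ tau (n + 1) ^ 1 := pow_le_pow_of_le_one hx0.le hx1 (by norm_num)
          _ = _ := pow_one _
      have hp1 : ((1 : ℝ) / 2) ^ (n + 1 + 2) ≤ (1 / 2) ^ (j + 1) / 4 := by
        have : ((1 : ℝ) / 2) ^ (j + 1) / 4 = (1 / 2) ^ (j + 1 + 2) := by
          rw [pow_add _ (j + 1) 2]; norm_num; ring
        rw [this]
        exact pow_le_pow_of_le_one (by norm_num) (by norm_num) (by omega)
      have hp2 : ((1 : ℝ) / 2) ^ (n + 2 + 2) ≤ (1 / 2) ^ (j + 1) / 4 := by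
        have : ((1 : ℝ) / 2) ^ (j + 1) / 4 = (1 / 2) ^ (j + 1 + 2) := by
          rw [pow_add _ (j + 1) 2]; norm_num; ring
        rw [this]
        exact pow_le_pow_of_le_one (by norm_num) (by norm_num) (by omega)
      have hp3 : ((1 : ℝ) / 2) ^ j = 2 * (1 / 2) ^ (j + 1) := by rw [pow_succ]; ring
      have hp4 : (0 : ℝ) < (1 / 2) ^ (j + 1) := by positivity
      have hidx : a + (j + 1) = n + 1 := by omega
      rw [hidx]
      rw [abs_le] at c2 h4
      have hd : LM D c (C (n + 1)) (Elev (n + 1)) =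
          LM D c (C (n + 1)) (Elev n) + κ (n + 1) * (Elev (n + 1) - Elev n) := by
        rw [e1, e2]; ring
      rw [hd]
      linarith [c2.1, c2.2, h4.1, h4.2]
  have hfin := hchain (N - a) (by omega)
  have hNN : a + (N - a) = N := by omega
  rw [hNN] at hfin
  have hd := hdn a le_rfl (Elev a) (Slev_lt_Elev a).le le_rfl
  have hu : LM D c (C N) (Elev N) ≤ 500 * Real.log (tau a) - 3 := by
    have h := LM_le (D := D) (c := c) (C := C N) (σ := Elev N) hε
      (fun y => hne N hNa _ (by rw [hre]; exact (Slev_lt_Elev N).le) (by rw [hre])) (fun y => ?_)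
    · rwa [Real.log_exp] at h
    · have h0 : 0 ≤ ((Elev N : ℂ) + (y : ℂ) * I).re := by rw [hre]; exact (Elev_pos N).le
      have h1 := norm_poly_le hc hc0 (C N) h0
      rw [hre] at h1
      exact h1.trans hNε.le
  have hp : (0 : ℝ) < (1 / 2) ^ (N - a) := by positivity
  linarith

end Pool.Agent.QF
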