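import Pool.Agent.QF.Defs

/-! LS: straight segments in the plane of `W = e^{ix} + e^{iy}` lift to the `(x,y)`-plane. -/

namespace Pool.Agent.QF

open Complex

theorem ls_lam_nonneg (τ : ℝ) : 0 ≤ lam τ := le_max_left _ _

theorem ls_lam_le_one (τ : ℝ) : lam τ ≤ 1 := max_le zero_le_one (min_le_left _ _)

theorem ls_lam_continuous : Continuous lam := by
  unfold lam
  fun_prop

theorem ls_lam_zero : lam 0 = 0 := by
  unfold lam
  norm_num

theorem ls_lam_eq_zero {τ : ℝ} (h : τ ≤ 1 / 3) : lam τ = 0 := by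
  unfold lam
  rw [max_eq_left]
  exact (min_le_right _ _).trans (by linarith)

theorem ls_lam_eq_one {τ : ℝ} (h : 2 / 3 ≤ τ) : lam τ = 1 := by
  unfold lam
  rw [min_eq_left (by linarith)]
  norm_num

/-- Lifting for the cosine. -/
theorem ls_exists_beta (β₀ : ℝ) (c : ℝ → ℝ) (hc : Continuous c) (hb : ∀ τ, |c τ| ≤ 1)
    (h0 : c 0 = Real.cos β₀) : ∃ β : ℝ → ℝ, Continuous β ∧ β 0 = β₀ ∧ (∀ τ, Real.cos (β τ) = c τ) ∧
      ∃ (k : ℤ) (ε : ℝ), (ε = 1 ∨ ε = -1) ∧ ∀ τ, β τ = 2 * k * Real.pi + ε * Real.arccos (c τ) := by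
  have hcos : Real.cos (Real.arccos (c 0)) = Real.cos β₀ := by
    rw [← h0]
    exact Real.cos_arccos (abs_le.1 (hb 0)).1 (abs_le.1 (hb 0)).2
  obtain ⟨k, hk⟩ := Real.cos_eq_cos_iff.1 hcos
  obtain ⟨ε, hε, hk'⟩ : ∃ ε : ℝ, (ε = 1 ∨ ε = -1) ∧ β₀ = 2 * k * Real.pi + ε * Real.arccos (c 0) := by
    rcases hk with h | h
    · exact ⟨1, Or.inl rfl, by rw [h]; ring⟩
    · exact ⟨-1, Or.inr rfl, by rw [h]; ring⟩
  refine ⟨fun τ => 2 * k * Real.pi + ε * Real.arccos (c τ), ?_, hk'.symm, ?_, k, ε, hε, fun τ => rfl⟩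
  · exact continuous_const.add (continuous_const.mul (Real.continuous_arccos.comp hc))
  · intro τ
    have h1 : Real.cos (Real.arccos (c τ)) = c τ :=
      Real.cos_arccos (abs_le.1 (hb τ)).1 (abs_le.1 (hb τ)).2
    have h2 : Real.cos (2 * k * Real.pi + ε * Real.arccos (c τ)) = Real.cos (ε * Real.arccos (c τ)) := by
      rw [show 2 * (k : ℝ) * Real.pi + ε * Real.arccos (c τ) =
        ε * Real.arccos (c τ) + k * (2 * Real.pi) by ring]
      exact Real.cos_add_int_mul_two_pi _ _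
    rw [h2]
    rcases hε with h | h
    · rw [h, one_mul, h1]
    · rw [h, neg_one_mul, Real.cos_neg, h1]

theorem ls_sum_exp (ψ β : ℝ) : exp (((ψ + β : ℝ) : ℂ) * I) + exp (((ψ - β : ℝ) : ℂ) * I) =
    2 * (Real.cos β : ℂ) * exp ((ψ : ℂ) * I) := by
  have h1 : exp (((ψ + β : ℝ) : ℂ) * I) = exp ((ψ : ℂ) * I) * exp ((β : ℂ) * I) := by
    rw [← Complex.exp_add]
    congr 1
    push_cast
    ring
  have h2 : exp (((ψ - β : ℝ) : ℂ) * I) = exp ((ψ : ℂ) * I) * exp (-(β : ℂ) * I) := by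
    rw [← Complex.exp_add]
    congr 1
    push_cast
    ring
  have h3 : (Real.cos β : ℂ) = (exp ((β : ℂ) * I) + exp (-(β : ℂ) * I)) / 2 := by
    rw [Complex.ofReal_cos]
    rfl
  rw [h1, h2, h3]
  ring

/-- The reduction: it suffices to find the phase and the signed modulus. -/
theorem ls_core (x y : ℝ) (V : ℝ → ℂ) (ψ c : ℝ → ℝ) (hψ : Continuous ψ) (hc : Continuous c)
    (hb : ∀ τ, |c τ| ≤ 1) (hψ0 : ψ 0 = (x + y) / 2) (hc0 : c 0 = Real.cos ((x - y) / 2))
    (hV : ∀ τ ∈ Set.Icc (0 : ℝ) 1, 2 * (c τ : ℂ) * exp ((ψ τ : ℂ) * I) = V τ) :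
    ∃ X Y : ℝ → ℝ, Continuous X ∧ Continuous Y ∧ X 0 = x ∧ Y 0 = y ∧
      (∀ τ ∈ Set.Icc (0 : ℝ) 1, exp ((X τ : ℂ) * I) + exp ((Y τ : ℂ) * I) = V τ) ∧
      ∃ (k : ℤ) (ε : ℝ), (ε = 1 ∨ ε = -1) ∧ ∀ τ,
        X τ = ψ τ + (2 * k * Real.pi + ε * Real.arccos (c τ)) ∧
        Y τ = ψ τ - (2 * k * Real.pi + ε * Real.arccos (c τ)) := by
  obtain ⟨β, hβc, hβ0, hβ, k, ε, hε, hk⟩ := ls_exists_beta ((x - y) / 2) c hc hb hc0
  refine ⟨fun τ => ψ τ + β τ, fun τ => ψ τ - β τ, hψ.add hβc, hψ.sub hβc, ?_, ?_, ?_, k, ε, hε, ?_⟩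
  · simp only [hψ0, hβ0]; ring
  · simp only [hψ0, hβ0]; ring
  · intro τ hτ
    rw [← hV τ hτ, ls_sum_exp, hβ]
  · intro τ
    simp only [hk τ, and_self]

theorem ls_start (x y : ℝ) : exp ((x : ℂ) * I) + exp ((y : ℂ) * I) =
    2 * (Real.cos ((x - y) / 2) : ℂ) * exp ((((x + y) / 2 : ℝ) : ℂ) * I) := by
  rw [← ls_sum_exp]
  congr 3
  · congr 1; ring
  · congr 1; ring

theorem ls_start_norm (x y : ℝ) : ‖exp ((x : ℂ) * I) + exp ((y : ℂ) * I)‖ ≤ 2 := by
  refine (norm_add_le _ _).trans ?_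
  rw [Complex.norm_exp_ofReal_mul_I, Complex.norm_exp_ofReal_mul_I]
  norm_num

theorem ls_convex {W₀ W : ℂ} (h0 : ‖W₀‖ ≤ 2) (hW : ‖W‖ ≤ 2) {l : ℝ} (h1 : 0 ≤ l) (h2 : l ≤ 1) :
    ‖(1 - l) * W₀ + l * W‖ ≤ 2 := by
  refine (norm_add_le _ _).trans ?_
  rw [norm_mul, norm_mul]
  have e1 : ‖(1 : ℂ) - l‖ = 1 - l := by
    rw [← Complex.ofReal_one, ← Complex.ofReal_sub, Complex.norm_real, Real.norm_eq_abs,
      abs_of_nonneg (by linarith)]
  have e2 : ‖(l : ℂ)‖ = l := by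
    rw [Complex.norm_real, Real.norm_eq_abs, abs_of_nonneg h1]
  rw [e1, e2]
  nlinarith [norm_nonneg W₀, norm_nonneg W]

/-- Any straight segment in the disc of radius `2` lifts, from any starting point. Coordinates
`x = ψ + β`, `y = ψ - β`, `W = 2 cos β e^{iψ}`. The time `[0,1/3]` (where `lam = 0`) is used to rotate `ψ`
when `W = 0` at the start. If the segment avoids `0` use `ψ(λ) = ψ₀ + arg(W_λ/W₀)`,
`cos β(λ) = cos β₀ ‖W_λ/W₀‖` with `β(λ) = 2πk ± arccos(...)`; if `W_λ/W₀` is real, `ψ` is constant. -/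
theorem lift_seg (x y : ℝ) (W : ℂ) (hW : ‖W‖ ≤ 2) : ∃ X Y : ℝ → ℝ, Continuous X ∧ Continuous Y ∧
    X 0 = x ∧ Y 0 = y ∧ ∀ τ ∈ Set.Icc (0 : ℝ) 1,
      exp ((X τ : ℂ) * I) + exp ((Y τ : ℂ) * I) =
        (1 - lam τ) * (exp ((x : ℂ) * I) + exp ((y : ℂ) * I)) + lam τ * W := by
  set W₀ : ℂ := exp ((x : ℂ) * I) + exp ((y : ℂ) * I) with hW0def
  have hW0 : W₀ = 2 * (Real.cos ((x - y) / 2) : ℂ) * exp ((((x + y) / 2 : ℝ) : ℂ) * I) := ls_start x y
  have hn0 : ‖W₀‖ ≤ 2 := ls_start_norm x y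
  -- it suffices to find `ψ`, `c`
  suffices h : ∃ ψ c : ℝ → ℝ, Continuous ψ ∧ Continuous c ∧ (∀ τ, |c τ| ≤ 1) ∧ ψ 0 = (x + y) / 2 ∧
      c 0 = Real.cos ((x - y) / 2) ∧ ∀ τ ∈ Set.Icc (0 : ℝ) 1,
        2 * (c τ : ℂ) * exp ((ψ τ : ℂ) * I) = (1 - lam τ) * W₀ + lam τ * W by
    obtain ⟨ψ, c, h1, h2, h3, h4, h5, h6⟩ := h
    obtain ⟨X, Y, hX, hY, hX0, hY0, hXY, -⟩ := ls_core x y _ ψ c h1 h2 h3 h4 h5 h6
    exact ⟨X, Y, hX, hY, hX0, hY0, hXY⟩
  by_cases hz : W₀ = 0
  · -- start at `0`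
    have hcos : Real.cos ((x - y) / 2) = 0 := by
      rw [hW0] at hz
      rcases mul_eq_zero.1 hz with h | h
      · rcases mul_eq_zero.1 h with h | h
        · norm_num at h
        · exact_mod_cast h
      · exact absurd h (Complex.exp_ne_zero _)
    refine ⟨fun τ => (x + y) / 2 + max 0 (min 1 (3 * τ)) * (arg W - (x + y) / 2),
      fun τ => lam τ * (‖W‖ / 2), ?_, ?_, ?_, ?_, ?_, ?_⟩
    · fun_prop
    · exact ls_lam_continuous.mul continuous_const
    · intro τ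
      rw [abs_of_nonneg (mul_nonneg (ls_lam_nonneg τ) (by positivity))]
      nlinarith [ls_lam_nonneg τ, ls_lam_le_one τ, norm_nonneg W]
    · simp
    · simp only [ls_lam_zero, zero_mul, hcos]
    · intro τ hτ
      rw [hz, mul_zero, zero_add]
      by_cases h3 : τ ≤ 1 / 3
      · simp only [ls_lam_eq_zero h3]
        simp
      · push Not at h3
        have h4 : max 0 (min 1 (3 * τ)) = 1 := by
          rw [min_eq_left (by linarith)]
          norm_num
        simp only [h4, one_mul]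
        have h5 : ((x + y) / 2 + (arg W - (x + y) / 2) : ℝ) = arg W := by ring
        rw [h5]
        push_cast
        conv_rhs => rw [← Complex.norm_mul_exp_arg_mul_I W]
        ring
  · -- `W₀ ≠ 0`
    set z : ℂ := W / W₀ with hzdef
    have hWz : W = W₀ * z := by rw [hzdef]; field_simp
    have hseg : ∀ l : ℝ, (1 - l) * W₀ + l * W = W₀ * ((1 - l) + l * z) := by
      intro l; rw [hWz]; ring
    -- polar form of the relative segment
    obtain ⟨ρ, θ, hρ, hθ, hρ0, hθ0, hpol⟩ : ∃ ρ θ : ℝ → ℝ, Continuous ρ ∧ Continuous θ ∧ ρ 0 = 1 ∧ θ 0 = 0 ∧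
        ∀ τ, (1 - lam τ : ℂ) + lam τ * z = ρ τ * exp ((θ τ : ℂ) * I) := by
      by_cases him : z.im = 0
      · refine ⟨fun τ => (1 - lam τ) + lam τ * z.re, fun _ => 0, ?_, continuous_const, ?_, rfl, ?_⟩
        · exact (continuous_const.sub ls_lam_continuous).add (ls_lam_continuous.mul continuous_const)
        · simp only [ls_lam_zero]; ring
        · intro τ
          have : z = (z.re : ℂ) := by
            apply Complex.ext
            · simp
            · simpa using him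
          rw [this]
          push_cast
          simp
      · have hcont : Continuous fun τ : ℝ => (1 - lam τ : ℂ) + lam τ * z := by
          have := ls_lam_continuous
          fun_prop
        have hslit : ∀ τ : ℝ, (1 - lam τ : ℂ) + lam τ * z ∈ Complex.slitPlane := by
          intro τ
          rw [Complex.mem_slitPlane_iff]
          by_cases hl : lam τ = 0
          · left
            simp [hl]
          · right
            have : ((1 - lam τ : ℂ) + lam τ * z).im = lam τ * z.im := by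
              simp
            rw [this]
            exact mul_ne_zero hl him
        refine ⟨fun τ => ‖(1 - lam τ : ℂ) + lam τ * z‖, fun τ => arg ((1 - lam τ : ℂ) + lam τ * z),
          hcont.norm, ?_, ?_, ?_, ?_⟩
        · rw [continuous_iff_continuousAt]
          intro τ
          exact (Complex.continuousAt_arg (hslit τ)).comp (f := fun τ : ℝ => (1 - lam τ : ℂ) + lam τ * z)
            hcont.continuousAt
        · simp [ls_lam_zero]
        · simp [ls_lam_zero]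
        · intro τ
          rw [Complex.norm_mul_exp_arg_mul_I]
    refine ⟨fun τ => (x + y) / 2 + θ τ, fun τ => Real.cos ((x - y) / 2) * ρ τ, ?_, ?_, ?_, ?_, ?_, ?_⟩
    · exact continuous_const.add hθ
    · exact continuous_const.mul hρ
    · intro τ
      have h1 := ls_convex hn0 hW (ls_lam_nonneg τ) (ls_lam_le_one τ)
      rw [hseg, hpol, hW0] at h1
      rw [norm_mul, norm_mul, norm_mul, norm_mul, Complex.norm_exp_ofReal_mul_I,
        Complex.norm_exp_ofReal_mul_I, Complex.norm_real, Complex.norm_real, Real.norm_eq_abs,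
        Real.norm_eq_abs] at h1
      rw [abs_mul]
      have h2 : ‖(2 : ℂ)‖ = 2 := by norm_num
      rw [h2] at h1
      linarith
    · simp only [hθ0]; ring
    · simp only [hρ0]; ring
    · intro τ _
      rw [hseg, hpol, hW0]
      have h1 : exp ((((x + y) / 2 + θ τ : ℝ) : ℂ) * I) =
          exp ((((x + y) / 2 : ℝ) : ℂ) * I) * exp ((θ τ : ℂ) * I) := by
        rw [← Complex.exp_add]
        congr 1
        push_cast
        ring
      rw [h1]
      push_cast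
      ring

/-- The segment to `W = 0`; the time `[2/3,1]` (where `lam = 1`) is used to rotate to the prescribed
position `(χ + π/2 + 2πm, χ - π/2)`. -/
theorem lift_seg_zero (x y χ : ℝ) : ∃ X Y : ℝ → ℝ, Continuous X ∧ Continuous Y ∧
    X 0 = x ∧ Y 0 = y ∧ (∀ τ ∈ Set.Icc (0 : ℝ) 1,
      exp ((X τ : ℂ) * I) + exp ((Y τ : ℂ) * I) =
        (1 - lam τ) * (exp ((x : ℂ) * I) + exp ((y : ℂ) * I))) ∧
    ∃ m : ℤ, X 1 = χ + Real.pi / 2 + 2 * Real.pi * m ∧ Y 1 = χ - Real.pi / 2 := by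
  -- the sign data of `β`
  have hb : ∀ τ, |Real.cos ((x - y) / 2) * (1 - lam τ)| ≤ 1 := by
    intro τ
    rw [abs_mul]
    have h1 := Real.abs_cos_le_one ((x - y) / 2)
    have h2 : |1 - lam τ| ≤ 1 := by
      rw [abs_of_nonneg (by linarith [ls_lam_le_one τ])]
      linarith [ls_lam_nonneg τ]
    exact mul_le_one₀ h1 (abs_nonneg _) h2
  have hc : Continuous fun τ => Real.cos ((x - y) / 2) * (1 - lam τ) :=
    continuous_const.mul (continuous_const.sub ls_lam_continuous)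
  have hc0 : Real.cos ((x - y) / 2) * (1 - lam 0) = Real.cos ((x - y) / 2) := by
    rw [ls_lam_zero]; ring
  obtain ⟨β, hβc, hβ0, hβ, k, ε, hε, hk⟩ := ls_exists_beta ((x - y) / 2) _ hc hb hc0
  have hβ1 : β 1 = 2 * k * Real.pi + ε * (Real.pi / 2) := by
    rw [hk 1, ls_lam_eq_one (by norm_num)]
    simp
  refine ⟨fun τ => (x + y) / 2 + max 0 (min 1 (3 * τ - 2)) * (χ - Real.pi / 2 + β 1 - (x + y) / 2) + β τ,
    fun τ => (x + y) / 2 + max 0 (min 1 (3 * τ - 2)) * (χ - Real.pi / 2 + β 1 - (x + y) / 2) - β τ,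
    ?_, ?_, ?_, ?_, ?_, ?_⟩
  · fun_prop
  · fun_prop
  · have : max (0 : ℝ) (min 1 (3 * 0 - 2)) = 0 := by norm_num
    simp only [this, hβ0]; ring
  · have : max (0 : ℝ) (min 1 (3 * 0 - 2)) = 0 := by norm_num
    simp only [this, hβ0]; ring
  · intro τ hτ
    rw [ls_sum_exp, hβ]
    by_cases h3 : τ ≤ 2 / 3
    · have h4 : max (0 : ℝ) (min 1 (3 * τ - 2)) = 0 := by
        rw [max_eq_left]
        exact (min_le_right _ _).trans (by linarith)
      rw [h4, zero_mul, add_zero, ls_start]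
      push_cast
      ring
    · push Not at h3
      rw [ls_lam_eq_one h3.le]
      push_cast
      ring
  · have h1 : max (0 : ℝ) (min 1 (3 * 1 - 2)) = 1 := by norm_num
    rcases hε with h | h
    · refine ⟨2 * k, ?_, ?_⟩
      · simp only [h1, hβ1, h]; push_cast; ring
      · simp only [h1]; ring
    · refine ⟨2 * k - 1, ?_, ?_⟩
      · simp only [h1, hβ1, h]; push_cast; ring
      · simp only [h1]; ring

end Pool.Agent.QF
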