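import Pool.Agent.QF.Defs

/-! PE: the product of the two approximants. -/

namespace Pool.Agent.QF

/-- The coefficient of the product of the approximants. -/
noncomputable def pcoef (b c : ℚ → ℂ) (A C : Finset ℚ) (r : ℚ) : ℂ :=
  ∑ p ∈ (A ×ˢ C).filter (fun p => p.1 + p.2 = r), b p.1 * c p.2

/-- The weight of `b` at `g` at the level `S`. -/
noncomputable def wt (b : ℚ → ℂ) (S : ℝ) (g : ℚ) : ℝ := ‖b g‖ * Real.exp (-(g : ℝ) * S)

theorem wt_nonneg (b : ℚ → ℂ) (S : ℝ) (g : ℚ) : 0 ≤ wt b S g := by unfold wt; positivity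

theorem wt_le {b : ℚ → ℂ} (hb : ∀ g, g ≤ 0 → b g = 0) {S : ℝ} (hS : 0 ≤ S) (g : ℚ) : wt b S g ≤ ‖b g‖ := by
  unfold wt
  rcases le_or_gt g 0 with h | h
  · simp [hb g h]
  · have h1 : Real.exp (-(g : ℝ) * S) ≤ 1 := by
      rw [Real.exp_le_one_iff]
      have : (0 : ℝ) < g := by exact_mod_cast h
      nlinarith
    have := norm_nonneg (b g)
    nlinarith

theorem wt_summable {b : ℚ → ℂ} (hb : ∀ g, g ≤ 0 → b g = 0) (hs : Summable fun g => ‖b g‖) {S : ℝ} (hS : 0 ≤ S) :
    Summable (wt b S) :=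
  Summable.of_nonneg_of_le (wt_nonneg b S) (wt_le hb hS) hs

theorem wt_tsum_le {b : ℚ → ℂ} (hb : ∀ g, g ≤ 0 → b g = 0) (hs : Summable fun g => ‖b g‖) {S L : ℝ} (hS : 0 ≤ S)
    (hL : ∑' g, ‖b g‖ ≤ L) : ∑' g, wt b S g ≤ L :=
  ((wt_summable hb hs hS).tsum_le_tsum (wt_le hb hS) hs).trans hL

theorem wt_sum_le {b : ℚ → ℂ} (hb : ∀ g, g ≤ 0 → b g = 0) (hs : Summable fun g => ‖b g‖) {S L : ℝ} (hS : 0 ≤ S)
    (hL : ∑' g, ‖b g‖ ≤ L) (R : Finset ℚ) (g : ℚ) : ∑ r ∈ R, wt b S (r - g) ≤ L := by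
  classical
  have h1 : ∑ r ∈ R, wt b S (r - g) = ∑ r ∈ R.image (fun r => r - g), wt b S r := by
    rw [Finset.sum_image]
    intro x _ y _ hxy
    simpa using hxy
  rw [h1]
  exact ((wt_summable hb hs hS).sum_le_tsum _ fun i _ => wt_nonneg b S i).trans (wt_tsum_le hb hs hS hL)

/-- The first error term. -/
noncomputable def perr (b c : ℚ → ℂ) (S : ℝ) (D : Finset ℚ) (r : ℚ) : ℝ :=
  ∑ g ∈ D, wt b S g * wt c S (r - g)

theorem perr_nonneg (b c : ℚ → ℂ) (S : ℝ) (D : Finset ℚ) (r : ℚ) : 0 ≤ perr b c S D r := by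
  unfold perr
  exact Finset.sum_nonneg fun g _ => mul_nonneg (wt_nonneg _ _ _) (wt_nonneg _ _ _)

theorem perr_sum {b c : ℚ → ℂ} (hc : ∀ g, g ≤ 0 → c g = 0) (hs : Summable fun g => ‖c g‖) {S L v : ℝ} (hS : 0 ≤ S)
    (hL0 : 0 ≤ L) (hL : ∑' g, ‖c g‖ ≤ L) {D : Finset ℚ} (hD : (∑ g ∈ D, wt b S g) ≤ v) (R : Finset ℚ) :
    ∑ r ∈ R, perr b c S D r ≤ L * v := by
  unfold perr
  rw [Finset.sum_comm]
  calc ∑ g ∈ D, ∑ r ∈ R, wt b S g * wt c S (r - g) = ∑ g ∈ D, wt b S g * ∑ r ∈ R, wt c S (r - g) := by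
        refine Finset.sum_congr rfl fun g _ => ?_
        rw [Finset.mul_sum]
    _ ≤ ∑ g ∈ D, wt b S g * L := by
        refine Finset.sum_le_sum fun g _ => ?_
        exact mul_le_mul_of_nonneg_left (wt_sum_le hc hs hS hL R g) (wt_nonneg _ _ _)
    _ = (∑ g ∈ D, wt b S g) * L := by rw [Finset.sum_mul]
    _ ≤ L * v := by rw [mul_comm L v]; exact mul_le_mul_of_nonneg_right hD hL0

theorem pcoef_tsum (b c : ℚ → ℂ) (A C : Finset ℚ) (r : ℚ) :
    pcoef b c A C r = ∑ g ∈ A, if r - g ∈ C then b g * c (r - g) else 0 := by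
  classical
  unfold pcoef
  rw [Finset.sum_filter, Finset.sum_product]
  refine Finset.sum_congr rfl fun g _ => ?_
  have : ∀ h ∈ C, (if g + h = r then b g * c h else 0) = if h = r - g then b g * c (r - g) else 0 := by
    intro h _
    by_cases hh : h = r - g
    · rw [if_pos hh, if_pos (by rw [hh]; ring), hh]
    · rw [if_neg hh, if_neg (fun h' => hh (by rw [← h']; ring))]
  rw [Finset.sum_congr rfl this]
  rw [Finset.sum_ite_eq' C (r - g)]

/-- The main pointwise estimate. -/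
theorem diff_est {t : ℕ → ℚ} {L : ℝ} {b c : ℚ → ℂ} (h : Fac t L b c)
    {S v θ : ℝ} (hS : 0 ≤ S)
    (hθ : 0 ≤ θ) {A C D D' : Finset ℚ}
    (hA : ∀ g, g ∉ A → g ∉ D → wt b S g ≤ θ)
    (hC : ∀ g, g ∉ C → g ∉ D' → wt c S g ≤ θ) (r : ℚ) (h0 : 0 < r) (h1 : r ≤ 1) :
    ‖pcoef b c A C r - fcoef t r‖ * Real.exp (-(r : ℝ) * S) ≤
      perr b c S D r + perr c b S D' r + 2 * L * θ := by
  classical
  have hsb := wt_summable h.posb h.sumb hS
  have hsc := wt_summable h.posc h.sumc hS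
  have hscr : Summable fun g => wt c S (r - g) := (Equiv.subLeft r).summable_iff.mpr hsc
  have hbL := wt_tsum_le h.posb h.sumb hS h.normb
  have hcL : ∑' g, wt c S (r - g) ≤ L := by
    have := (Equiv.subLeft r).tsum_eq (wt c S)
    simp only [Equiv.subLeft_apply] at this
    rw [this]
    exact wt_tsum_le h.posc h.sumc hS h.normc
  -- boundedness of wt c
  have hcb : ∀ g, wt c S g ≤ L := fun g =>
    (hsc.le_tsum g fun j _ => wt_nonneg _ _ _).trans (wt_tsum_le h.posc h.sumc hS h.normc)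
  have hcn : ∀ g, ‖c g‖ ≤ L := fun g => (h.sumc.le_tsum g fun j _ => norm_nonneg _).trans h.normc
  have hprod : Summable fun g => b g * c (r - g) := by
    refine Summable.of_norm_bounded (g := fun g => ‖b g‖ * L) (h.sumb.mul_right L) fun g => ?_
    rw [norm_mul]
    exact mul_le_mul_of_nonneg_left (hcn _) (norm_nonneg _)
  have hfin : Summable fun g => (if g ∈ A then (if r - g ∈ C then b g * c (r - g) else 0) else 0 : ℂ) :=
    summable_of_ne_finset_zero (s := A) (by intro g hg; rw [if_neg hg])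
  have hp : pcoef b c A C r = ∑' g, (if g ∈ A then (if r - g ∈ C then b g * c (r - g) else 0) else 0 : ℂ) := by
    rw [pcoef_tsum, tsum_eq_sum (s := A) (by intro g hg; rw [if_neg hg])]
    exact Finset.sum_congr rfl fun g hg => by rw [if_pos hg]
  have hd : fcoef t r - pcoef b c A C r =
      ∑' g, (b g * c (r - g) - (if g ∈ A then (if r - g ∈ C then b g * c (r - g) else 0) else 0 : ℂ)) := by
    rw [hprod.tsum_sub hfin, ← hp, h.prod r h0 h1]
  set E : ℚ → ℂ := fun g => b g * c (r - g) - (if g ∈ A then (if r - g ∈ C then b g * c (r - g) else 0) else 0) with hE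
  -- bound
  set U : ℚ → ℝ := fun g => (if g ∈ D then wt b S g * wt c S (r - g) else 0) +
    (if r - g ∈ D' then wt c S (r - g) * wt b S g else 0) + θ * wt b S g + θ * wt c S (r - g) with hU
  have hexp : ∀ g : ℚ, ‖b g‖ * ‖c (r - g)‖ * Real.exp (-(r : ℝ) * S) = wt b S g * wt c S (r - g) := by
    intro g
    unfold wt
    have : Real.exp (-(r : ℝ) * S) = Real.exp (-(g : ℝ) * S) * Real.exp (-((r - g : ℚ) : ℝ) * S) := by
      rw [← Real.exp_add]
      congr 1
      push_cast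
      ring
    rw [this]
    ring
  have hEU : ∀ g, ‖E g‖ * Real.exp (-(r : ℝ) * S) ≤ U g := by
    intro g
    have hb0 := wt_nonneg b S g
    have hc0 := wt_nonneg c S (r - g)
    have hprodle : ‖E g‖ * Real.exp (-(r : ℝ) * S) ≤ wt b S g * wt c S (r - g) := by
      rw [← hexp g, ← norm_mul]
      refine mul_le_mul_of_nonneg_right ?_ (Real.exp_pos _).le
      simp only [hE]
      split_ifs
      · rw [sub_self, norm_zero]; exact norm_nonneg _
      · rw [sub_zero]
      · rw [sub_zero]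
    have hn1 : 0 ≤ (if g ∈ D then wt b S g * wt c S (r - g) else 0) := by
      split_ifs
      · exact mul_nonneg hb0 hc0
      · exact le_rfl
    have hn2 : 0 ≤ (if r - g ∈ D' then wt c S (r - g) * wt b S g else 0) := by
      split_ifs
      · exact mul_nonneg hc0 hb0
      · exact le_rfl
    have hn3 : 0 ≤ θ * wt b S g := mul_nonneg hθ hb0
    have hn4 : 0 ≤ θ * wt c S (r - g) := mul_nonneg hθ hc0
    simp only [hU]
    by_cases hgD : g ∈ D
    · rw [if_pos hgD] at hn1 ⊢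
      linarith
    by_cases hhD : r - g ∈ D'
    · rw [if_pos hhD] at hn2 ⊢
      have : wt c S (r - g) * wt b S g = wt b S g * wt c S (r - g) := mul_comm _ _
      linarith
    by_cases hgA : g ∈ A
    · by_cases hhC : r - g ∈ C
      · have : ‖E g‖ * Real.exp (-(r : ℝ) * S) = 0 := by
          simp only [hE]
          rw [if_pos hgA, if_pos hhC]
          simp
        linarith
      · have := hC (r - g) hhC hhD
        have : wt b S g * wt c S (r - g) ≤ wt b S g * θ := mul_le_mul_of_nonneg_left this hb0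
        linarith [mul_comm (wt b S g) θ]
    · have := hA g hgA hgD
      have : wt b S g * wt c S (r - g) ≤ θ * wt c S (r - g) := mul_le_mul_of_nonneg_right this hc0
      linarith
  have hE1 : Summable fun g => ‖E g‖ := by
    have h1 : Summable E := hprod.sub hfin
    exact h1.norm
  have hs1 : Summable fun g => (if g ∈ D then wt b S g * wt c S (r - g) else 0 : ℝ) :=
    summable_of_ne_finset_zero (s := D) (by intro g hg; rw [if_neg hg])
  have hs2 : Summable fun g => (if r - g ∈ D' then wt c S (r - g) * wt b S g else 0 : ℝ) := by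
    refine summable_of_ne_finset_zero (s := D'.image (fun x => r - x)) ?_
    intro g hg
    rw [if_neg]
    intro hh
    exact hg (Finset.mem_image.mpr ⟨r - g, hh, by ring⟩)
  have hs3 : Summable fun g => θ * wt b S g := hsb.mul_left θ
  have hs4 : Summable fun g => θ * wt c S (r - g) := hscr.mul_left θ
  have hUs : Summable U := ((hs1.add hs2).add hs3).add hs4
  have ht1 : ∑' g, (if g ∈ D then wt b S g * wt c S (r - g) else 0 : ℝ) = perr b c S D r := by
    rw [tsum_eq_sum (s := D) (by intro g hg; rw [if_neg hg])]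
    exact Finset.sum_congr rfl fun g hg => by rw [if_pos hg]
  have ht2 : ∑' g, (if r - g ∈ D' then wt c S (r - g) * wt b S g else 0 : ℝ) = perr c b S D' r := by
    have := (Equiv.subLeft r).tsum_eq (fun g => (if g ∈ D' then wt c S g * wt b S (r - g) else 0 : ℝ))
    simp only [Equiv.subLeft_apply, sub_sub_cancel] at this
    rw [this]
    rw [tsum_eq_sum (s := D') (by intro g hg; rw [if_neg hg])]
    exact Finset.sum_congr rfl fun g hg => by rw [if_pos hg]
  have hUt : ∑' g, U g ≤ perr b c S D r + perr c b S D' r + 2 * L * θ := by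
    have : ∑' g, U g = perr b c S D r + perr c b S D' r + θ * (∑' g, wt b S g) + θ * ∑' g, wt c S (r - g) := by
      simp only [hU]
      rw [((hs1.add hs2).add hs3).tsum_add hs4, (hs1.add hs2).tsum_add hs3, hs1.tsum_add hs2, ht1, ht2, tsum_mul_left,
        tsum_mul_left]
    rw [this]
    nlinarith [mul_le_mul_of_nonneg_left hbL hθ, mul_le_mul_of_nonneg_left hcL hθ]
  calc ‖pcoef b c A C r - fcoef t r‖ * Real.exp (-(r : ℝ) * S)
      = ‖∑' g, E g‖ * Real.exp (-(r : ℝ) * S) := by rw [norm_sub_rev, hd]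
    _ ≤ (∑' g, ‖E g‖) * Real.exp (-(r : ℝ) * S) :=
        mul_le_mul_of_nonneg_right (norm_tsum_le_tsum_norm hE1) (Real.exp_pos _).le
    _ = ∑' g, ‖E g‖ * Real.exp (-(r : ℝ) * S) := by rw [tsum_mul_right]
    _ ≤ ∑' g, U g := (hE1.mul_right _).tsum_le_tsum hEU hUs
    _ ≤ _ := hUt

theorem fcoef_of_one_lt {t : ℕ → ℚ} (hsz : Sizes t) {r : ℚ} (hr : 1 < r) : fcoef t r = 0 := by
  unfold fcoef
  have : ∀ k, (if t k = r then (amp k : ℂ) else 0) = 0 := by
    intro k
    rw [if_neg]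
    intro hk
    have h1 := (hsz k).2
    have h2 := tau_le k
    have h3 : (1 : ℝ) < r := by exact_mod_cast hr
    rw [hk] at h1
    have h4 : ((1 : ℝ) / 2) ^ 100 ≤ 1 := pow_le_one₀ (by norm_num) (by norm_num)
    linarith
  simp [this]

/-- With `b = β + m + d` (`β` on `A`, `m` on `D`, `d` the rest), `b*c = β*γ + (m*c + (β+d)*m') +
(β*d' + d*γ + d*d')`; the norms at the level `S` of the middle terms are `≤ 2 L v`, the atoms of the last
three terms are `≤ 3 L θ`, and there are at most `card A * card C` sums. The part of `b*c` on `(1,∞)` has norm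
`≤ L² e^{-S}` at the level `S`. -/
theorem prod_est {t : ℕ → ℚ} {L : ℝ} {b c : ℚ → ℂ} (hsz : Sizes t) (h : Fac t L b c)
    {S v θ : ℝ} (hS : 0 ≤ S) (hv : 0 ≤ v)
    (hθ : 0 ≤ θ) {A C : Finset ℚ} (hA : Split b S v θ A) (hC : Split c S v θ C)
    (hA0 : ∀ g ∈ A, 0 < g) (hC0 : ∀ g ∈ C, 0 < g)
    (hθv : 3 * L * ((A.card : ℝ) * C.card + 1) * θ ≤ v) :
    ∑ r ∈ (A ×ˢ C).image (fun p => p.1 + p.2),
      ‖pcoef b c A C r - fcoef t r‖ * Real.exp (-(r : ℝ) * S) ≤ 3 * L * v + L ^ 2 * Real.exp (-S) := by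
  classical
  obtain ⟨D, hAD, hD, hA1⟩ := hA
  obtain ⟨D', hCD, hD', hC1⟩ := hC
  have hL1 := h.one_le
  have hL0 : (0 : ℝ) ≤ L := by linarith
  set R := (A ×ˢ C).image (fun p => p.1 + p.2) with hR
  have hRpos : ∀ r ∈ R, 0 < r := by
    intro r hr
    obtain ⟨p, hp, rfl⟩ := Finset.mem_image.mp hr
    have := Finset.mem_product.mp hp
    exact add_pos (hA0 _ this.1) (hC0 _ this.2)
  rw [← Finset.sum_filter_add_sum_filter_not R (fun r => r ≤ 1)]
  refine add_le_add ?_ ?_
  · have hcard : ((R.filter (fun r => r ≤ 1)).card : ℝ) ≤ (A.card : ℝ) * C.card := by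
      have h1 : (R.filter (fun r => r ≤ 1)).card ≤ A.card * C.card := by
        refine (Finset.card_filter_le _ _).trans ?_
        rw [hR, ← Finset.card_product]
        exact Finset.card_image_le
      exact_mod_cast h1
    calc ∑ r ∈ R.filter (fun r => r ≤ 1), ‖pcoef b c A C r - fcoef t r‖ * Real.exp (-(r : ℝ) * S)
        ≤ ∑ r ∈ R.filter (fun r => r ≤ 1), (perr b c S D r + perr c b S D' r + 2 * L * θ) := by
          refine Finset.sum_le_sum fun r hr => ?_
          rw [Finset.mem_filter] at hr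
          exact diff_est (v := v) h hS hθ hA1 hC1 r (hRpos r hr.1) hr.2
      _ = (∑ r ∈ R.filter (fun r => r ≤ 1), perr b c S D r) + (∑ r ∈ R.filter (fun r => r ≤ 1), perr c b S D' r) +
          (R.filter (fun r => r ≤ 1)).card * (2 * L * θ) := by
          rw [Finset.sum_add_distrib, Finset.sum_add_distrib, Finset.sum_const, nsmul_eq_mul]
      _ ≤ L * v + L * v + (A.card : ℝ) * C.card * (2 * L * θ) := by
          refine add_le_add (add_le_add ?_ ?_) ?_
          · exact perr_sum h.posc h.sumc hS hL0 h.normc hD _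
          · exact perr_sum h.posb h.sumb hS hL0 h.normb hD' _
          · exact mul_le_mul_of_nonneg_right hcard (by positivity)
      _ ≤ 3 * L * v := by
          have h1 : (A.card : ℝ) * C.card * (2 * L * θ) ≤ 3 * L * ((A.card : ℝ) * C.card + 1) * θ := by
            have : (0 : ℝ) ≤ (A.card : ℝ) * C.card := by positivity
            have h2 : 0 ≤ L * θ := mul_nonneg hL0 hθ
            nlinarith [mul_nonneg this h2]
          have h2 : v ≤ L * v := by nlinarith
          linarith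
  · have hzero : ∀ r ∈ R.filter (fun r => ¬ r ≤ 1), ‖pcoef b c A C r - fcoef t r‖ * Real.exp (-(r : ℝ) * S) ≤
        (∑ p ∈ (A ×ˢ C).filter (fun p => p.1 + p.2 = r), ‖b p.1‖ * ‖c p.2‖) * Real.exp (-S) := by
      intro r hr
      rw [Finset.mem_filter, not_le] at hr
      rw [fcoef_of_one_lt hsz hr.2, sub_zero]
      have h1 : ‖pcoef b c A C r‖ ≤ ∑ p ∈ (A ×ˢ C).filter (fun p => p.1 + p.2 = r), ‖b p.1‖ * ‖c p.2‖ := by
        unfold pcoef
        refine (norm_sum_le _ _).trans (Finset.sum_le_sum fun p _ => ?_)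
        rw [norm_mul]
      have h2 : Real.exp (-(r : ℝ) * S) ≤ Real.exp (-S) := by
        rw [Real.exp_le_exp]
        have : (1 : ℝ) < r := by exact_mod_cast hr.2
        nlinarith
      exact mul_le_mul h1 h2 (Real.exp_pos _).le (Finset.sum_nonneg fun p _ => by positivity)
    calc ∑ r ∈ R.filter (fun r => ¬ r ≤ 1), ‖pcoef b c A C r - fcoef t r‖ * Real.exp (-(r : ℝ) * S)
        ≤ ∑ r ∈ R.filter (fun r => ¬ r ≤ 1),
          (∑ p ∈ (A ×ˢ C).filter (fun p => p.1 + p.2 = r), ‖b p.1‖ * ‖c p.2‖) * Real.exp (-S) :=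
          Finset.sum_le_sum hzero
      _ = (∑ r ∈ R.filter (fun r => ¬ r ≤ 1),
          ∑ p ∈ (A ×ˢ C).filter (fun p => p.1 + p.2 = r), ‖b p.1‖ * ‖c p.2‖) * Real.exp (-S) := by
          rw [Finset.sum_mul]
      _ ≤ L ^ 2 * Real.exp (-S) := by
          refine mul_le_mul_of_nonneg_right ?_ (Real.exp_pos _).le
          calc ∑ r ∈ R.filter (fun r => ¬ r ≤ 1),
                ∑ p ∈ (A ×ˢ C).filter (fun p => p.1 + p.2 = r), ‖b p.1‖ * ‖c p.2‖
              ≤ ∑ r ∈ R, ∑ p ∈ (A ×ˢ C).filter (fun p => p.1 + p.2 = r), ‖b p.1‖ * ‖c p.2‖ :=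
                Finset.sum_le_sum_of_subset_of_nonneg (Finset.filter_subset _ _)
                  fun r _ _ => Finset.sum_nonneg fun p _ => by positivity
            _ = ∑ p ∈ A ×ˢ C, ‖b p.1‖ * ‖c p.2‖ :=
                Finset.sum_fiberwise_of_maps_to (fun p hp => Finset.mem_image_of_mem _ hp) _
            _ = (∑ g ∈ A, ‖b g‖) * ∑ g ∈ C, ‖c g‖ := by
                rw [Finset.sum_mul_sum, Finset.sum_product]
            _ ≤ L * L := by
                refine mul_le_mul ?_ ?_ (Finset.sum_nonneg fun g _ => norm_nonneg _) hL0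
                · exact (h.sumb.sum_le_tsum _ fun i _ => norm_nonneg _).trans h.normb
                · exact (h.sumc.sum_le_tsum _ fun i _ => norm_nonneg _).trans h.normc
            _ = L ^ 2 := by ring

theorem mem_est {t : ℕ → ℚ} {L : ℝ} {b c : ℚ → ℂ} (hsz : Sizes t) (h : Fac t L b c)
    {S v θ : ℝ} (hS : 0 ≤ S) (hv : 0 ≤ v)
    (hθ : 0 ≤ θ) {A C : Finset ℚ} (hA : Split b S v θ A) (hC : Split c S v θ C)
    (hA0 : ∀ g ∈ A, 0 < g) (hC0 : ∀ g ∈ C, 0 < g)
    (hθv : 3 * L * ((A.card : ℝ) * C.card + 1) * θ ≤ v) (r : ℚ) (h0 : 0 < r) (h1 : r ≤ 1)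
    (hr : ∀ g ∈ A, ∀ h ∈ C, g + h ≠ r) :
    ‖fcoef t r‖ * Real.exp (-(r : ℝ) * S) ≤ 3 * L * v := by
  classical
  obtain ⟨D, hAD, hD, hA1⟩ := hA
  obtain ⟨D', hCD, hD', hC1⟩ := hC
  have hL1 := h.one_le
  have hL0 : (0 : ℝ) ≤ L := by linarith
  have hp : pcoef b c A C r = 0 := by
    unfold pcoef
    refine Finset.sum_eq_zero fun p hp => ?_
    rw [Finset.mem_filter, Finset.mem_product] at hp
    exact absurd hp.2 (hr _ hp.1.1 _ hp.1.2)
  have h2 := diff_est (v := v) h hS hθ hA1 hC1 r h0 h1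
  rw [hp, zero_sub, norm_neg] at h2
  have h3 : perr b c S D r ≤ L * v := by
    have := perr_sum (b := b) h.posc h.sumc hS hL0 h.normc hD {r}
    simpa using this
  have h4 : perr c b S D' r ≤ L * v := by
    have := perr_sum (b := c) h.posb h.sumb hS hL0 h.normb hD' {r}
    simpa using this
  have h5 : 2 * L * θ ≤ v := by
    refine le_trans ?_ hθv
    have : (0 : ℝ) ≤ (A.card : ℝ) * C.card := by positivity
    have h6 : 0 ≤ L * θ := mul_nonneg hL0 hθ
    nlinarith [mul_nonneg this h6]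
  have h6 : v ≤ L * v := by nlinarith
  linarith

end Pool.Agent.QF
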