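import Pool.Agent.QF.Defs

/-! SP: the pigeonhole choice of the thresholds. -/

namespace Pool.Agent.QF

private theorem sp_key (b : ℚ → ℂ) (S L : ℝ) (hS : 0 ≤ S) (hb : ∀ g, g ≤ 0 → b g = 0)
    (hs : Summable (fun g => ‖b g‖)) (hn : ∑' g, ‖b g‖ ≤ L) :
    (∀ T : Finset ℚ, (∑ g ∈ T, ‖b g‖ * Real.exp (-(g : ℝ) * S)) ≤ L) ∧
    ∃ W : ℝ → Finset ℚ, ∀ θ, 0 < θ → ∀ g, g ∈ W θ ↔ θ < ‖b g‖ * Real.exp (-(g : ℝ) * S) := by
  classical
  have hle : ∀ g, ‖b g‖ * Real.exp (-(g : ℝ) * S) ≤ ‖b g‖ := by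
    intro g
    by_cases hg : g ≤ 0
    · rw [hb g hg]
      simp
    · push Not at hg
      have h1 : Real.exp (-(g : ℝ) * S) ≤ 1 := by
        rw [Real.exp_le_one_iff]
        have : (0 : ℝ) ≤ (g : ℝ) * S := mul_nonneg (by exact_mod_cast hg.le) hS
        linarith
      calc ‖b g‖ * Real.exp (-(g : ℝ) * S) ≤ ‖b g‖ * 1 :=
            mul_le_mul_of_nonneg_left h1 (norm_nonneg _)
        _ = ‖b g‖ := mul_one _
  have hnn : ∀ g, 0 ≤ ‖b g‖ * Real.exp (-(g : ℝ) * S) := fun g => by positivity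
  have hsw : Summable fun g => ‖b g‖ * Real.exp (-(g : ℝ) * S) :=
    Summable.of_nonneg_of_le hnn hle hs
  refine ⟨fun T => ?_, ?_⟩
  · calc (∑ g ∈ T, ‖b g‖ * Real.exp (-(g : ℝ) * S)) ≤ ∑ g ∈ T, ‖b g‖ :=
          Finset.sum_le_sum fun g _ => hle g
      _ ≤ ∑' g, ‖b g‖ := hs.sum_le_tsum _ fun g _ => norm_nonneg _
      _ ≤ L := hn
  · have hfin : ∀ θ : ℝ, 0 < θ → {g : ℚ | θ < ‖b g‖ * Real.exp (-(g : ℝ) * S)}.Finite := by
      intro θ hθ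
      have h1 := hsw.tendsto_cofinite_zero.eventually (gt_mem_nhds hθ)
      rw [Filter.eventually_cofinite] at h1
      refine h1.subset fun g hg => ?_
      simp only [Set.mem_ofPred_eq] at hg ⊢
      exact not_lt.2 hg.le
    refine ⟨fun θ => if h : 0 < θ then (hfin θ h).toFinset else ∅, fun θ hθ g => ?_⟩
    simp only [dif_pos hθ, Set.Finite.mem_toFinset, Set.mem_ofPred_eq]

/-- Pigeonhole: thresholds `θ₁ > θ₂ > ...`, `θ_{i+1} ≤ ϑ θ_i² / (...)`; one of the first `R ≥ 4L/ϑ` annuli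
`θ_{i+1} < ‖b g‖ e^{-gS} ≤ θ_i` (together with the one for `c`) has total weight `≤ ϑ`. `A`, `C` are the sets
where the weight is `> θ_i`, `D` the annulus, `θ = θ_{i+1}`; `card A ≤ L/θ_i`. `N` depends only on
`ϑ, θ₀, L`. -/
theorem exists_split (v θ₀ L : ℝ) (hv : 0 < v) (hθ₀ : 0 < θ₀) (hL : 1 ≤ L) :
    ∃ N : ℕ, ∀ (b c : ℚ → ℂ) (S : ℝ), 0 ≤ S → (∀ g, g ≤ 0 → b g = 0) → (∀ g, g ≤ 0 → c g = 0) →
      Summable (fun g => ‖b g‖) → Summable (fun g => ‖c g‖) →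
      ∑' g, ‖b g‖ ≤ L → ∑' g, ‖c g‖ ≤ L →
      ∃ (A C : Finset ℚ) (θ : ℝ), A.card ≤ N ∧ C.card ≤ N ∧ 0 < θ ∧ θ ≤ θ₀ ∧
        3 * L * ((A.card : ℝ) * C.card + 1) * θ ≤ v ∧
        Split b S v θ A ∧ Split c S v θ C ∧ (∀ g ∈ A, 0 < g) ∧ (∀ g ∈ C, 0 < g) := by
  classical
  have hL0 : 0 < L := by linarith
  obtain ⟨th, th0, ths⟩ : ∃ th : ℕ → ℝ, th 0 = θ₀ ∧
      ∀ i, th (i + 1) = min (th i) (v / (3 * L * ((L / th i) ^ 2 + 1))) :=
    ⟨fun i => Nat.rec θ₀ (fun _ x => min x (v / (3 * L * ((L / x) ^ 2 + 1)))) i, rfl,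
      fun _ => rfl⟩
  have hpos : ∀ i, 0 < th i := by
    intro i
    induction i with
    | zero => rw [th0]; exact hθ₀
    | succ i ih =>
      rw [ths]
      exact lt_min ih (by positivity)
  have hanti : ∀ i, th (i + 1) ≤ th i := fun i => by
    rw [ths]
    exact min_le_left _ _
  have hanti' : Antitone th := antitone_nat_of_succ_le hanti
  have hsmall : ∀ i, 3 * L * ((L / th i) ^ 2 + 1) * th (i + 1) ≤ v := by
    intro i
    have h1 : th (i + 1) ≤ v / (3 * L * ((L / th i) ^ 2 + 1)) := by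
      rw [ths]
      exact min_le_right _ _
    have h2 : 0 < 3 * L * ((L / th i) ^ 2 + 1) := by positivity
    rw [le_div_iff₀ h2] at h1
    linarith
  obtain ⟨R, hR⟩ := exists_nat_gt (2 * L / v)
  refine ⟨⌈L / th R⌉₊, ?_⟩
  intro b c S hS hb hc hsb hsc hnb hnc
  obtain ⟨hTb, Wb, hWb⟩ := sp_key b S L hS hb hsb hnb
  obtain ⟨hTc, Wc, hWc⟩ := sp_key c S L hS hc hsc hnc
  -- general facts
  have hcard : ∀ (b : ℚ → ℂ) (W : ℝ → Finset ℚ),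
      (∀ T : Finset ℚ, (∑ g ∈ T, ‖b g‖ * Real.exp (-(g : ℝ) * S)) ≤ L) →
      (∀ θ, 0 < θ → ∀ g, g ∈ W θ ↔ θ < ‖b g‖ * Real.exp (-(g : ℝ) * S)) →
      ∀ i, ((W (th i)).card : ℝ) ≤ L / th i := by
    intro b W hT hW i
    rw [le_div_iff₀ (hpos i)]
    calc ((W (th i)).card : ℝ) * th i = ∑ g ∈ W (th i), th i := by
          rw [Finset.sum_const, nsmul_eq_mul]
      _ ≤ ∑ g ∈ W (th i), ‖b g‖ * Real.exp (-(g : ℝ) * S) :=
          Finset.sum_le_sum fun g hg => ((hW _ (hpos i) g).1 hg).le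
      _ ≤ L := hT _
  have hsub : ∀ (b : ℚ → ℂ) (W : ℝ → Finset ℚ),
      (∀ θ, 0 < θ → ∀ g, g ∈ W θ ↔ θ < ‖b g‖ * Real.exp (-(g : ℝ) * S)) →
      ∀ i, W (th i) ⊆ W (th (i + 1)) := by
    intro b W hW i g hg
    rw [hW _ (hpos _)] at hg ⊢
    exact lt_of_le_of_lt (hanti i) hg
  have htel : ∀ (b : ℚ → ℂ) (W : ℝ → Finset ℚ),
      (∀ T : Finset ℚ, (∑ g ∈ T, ‖b g‖ * Real.exp (-(g : ℝ) * S)) ≤ L) →
      (∀ θ, 0 < θ → ∀ g, g ∈ W θ ↔ θ < ‖b g‖ * Real.exp (-(g : ℝ) * S)) →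
      (∑ i ∈ Finset.range R, ∑ g ∈ W (th (i + 1)) \ W (th i),
        ‖b g‖ * Real.exp (-(g : ℝ) * S)) ≤ L := by
    intro b W hT hW
    have h1 : ∀ i, (∑ g ∈ W (th (i + 1)) \ W (th i), ‖b g‖ * Real.exp (-(g : ℝ) * S)) =
        (∑ g ∈ W (th (i + 1)), ‖b g‖ * Real.exp (-(g : ℝ) * S)) -
          ∑ g ∈ W (th i), ‖b g‖ * Real.exp (-(g : ℝ) * S) := by
      intro i
      rw [eq_sub_iff_add_eq, Finset.sum_sdiff (hsub b W hW i)]
    rw [Finset.sum_congr rfl fun i _ => h1 i,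
      Finset.sum_range_sub (fun i => ∑ g ∈ W (th i), ‖b g‖ * Real.exp (-(g : ℝ) * S))]
    have h2 := hT (W (th R))
    have h3 : 0 ≤ ∑ g ∈ W (th 0), ‖b g‖ * Real.exp (-(g : ℝ) * S) :=
      Finset.sum_nonneg fun g _ => by positivity
    linarith
  obtain ⟨i, hi, hib, hic⟩ : ∃ i, i < R ∧
      (∑ g ∈ Wb (th (i + 1)) \ Wb (th i), ‖b g‖ * Real.exp (-(g : ℝ) * S)) ≤ v ∧
      (∑ g ∈ Wc (th (i + 1)) \ Wc (th i), ‖c g‖ * Real.exp (-(g : ℝ) * S)) ≤ v := by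
    by_contra hcon
    push Not at hcon
    have h1 := htel b Wb hTb hWb
    have h2 := htel c Wc hTc hWc
    have h3 : ∀ i ∈ Finset.range R, v ≤
        (∑ g ∈ Wb (th (i + 1)) \ Wb (th i), ‖b g‖ * Real.exp (-(g : ℝ) * S)) +
        ∑ g ∈ Wc (th (i + 1)) \ Wc (th i), ‖c g‖ * Real.exp (-(g : ℝ) * S) := by
      intro i hi
      have hb0 : 0 ≤ ∑ g ∈ Wb (th (i + 1)) \ Wb (th i), ‖b g‖ * Real.exp (-(g : ℝ) * S) :=
        Finset.sum_nonneg fun g _ => by positivity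
      have hc0 : 0 ≤ ∑ g ∈ Wc (th (i + 1)) \ Wc (th i), ‖c g‖ * Real.exp (-(g : ℝ) * S) :=
        Finset.sum_nonneg fun g _ => by positivity
      by_cases h : (∑ g ∈ Wb (th (i + 1)) \ Wb (th i), ‖b g‖ * Real.exp (-(g : ℝ) * S)) ≤ v
      · have := hcon i (Finset.mem_range.1 hi) h
        linarith
      · push Not at h
        linarith
    have h4 := Finset.sum_le_sum h3
    rw [Finset.sum_const, Finset.card_range, nsmul_eq_mul, Finset.sum_add_distrib] at h4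
    rw [div_lt_iff₀ hv] at hR
    linarith
  have hcb := hcard b Wb hTb hWb i
  have hcc := hcard c Wc hTc hWc i
  have hmono : L / th i ≤ L / th R := by
    apply div_le_div_of_nonneg_left hL0.le (hpos R)
    exact hanti' hi.le
  have hsplit : ∀ (b : ℚ → ℂ) (W : ℝ → Finset ℚ),
      (∀ θ, 0 < θ → ∀ g, g ∈ W θ ↔ θ < ‖b g‖ * Real.exp (-(g : ℝ) * S)) →
      (∑ g ∈ W (th (i + 1)) \ W (th i), ‖b g‖ * Real.exp (-(g : ℝ) * S)) ≤ v →
      Split b S v (th (i + 1)) (W (th i)) := by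
    intro b W hW hv
    refine ⟨W (th (i + 1)) \ W (th i), Finset.disjoint_sdiff, hv, fun g h1 h2 => ?_⟩
    by_contra h3
    push Not at h3
    exact h2 (Finset.mem_sdiff.2 ⟨(hW _ (hpos _) g).2 h3, h1⟩)
  have hgpos : ∀ (b : ℚ → ℂ) (W : ℝ → Finset ℚ), (∀ g, g ≤ 0 → b g = 0) →
      (∀ θ, 0 < θ → ∀ g, g ∈ W θ ↔ θ < ‖b g‖ * Real.exp (-(g : ℝ) * S)) →
      ∀ g ∈ W (th i), 0 < g := by
    intro b W hb hW g hg
    by_contra h
    push Not at h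
    have h1 := (hW _ (hpos i) g).1 hg
    rw [hb g h] at h1
    simp only [norm_zero, zero_mul] at h1
    exact absurd h1 (not_lt.2 (hpos i).le)
  refine ⟨Wb (th i), Wc (th i), th (i + 1), ?_, ?_, hpos _, ?_, ?_,
    hsplit b Wb hWb hib, hsplit c Wc hWc hic, hgpos b Wb hb hWb, hgpos c Wc hc hWc⟩
  · exact Nat.cast_le.1 ((hcb.trans hmono).trans (Nat.le_ceil _))
  · exact Nat.cast_le.1 ((hcc.trans hmono).trans (Nat.le_ceil _))
  · have := hanti' (Nat.zero_le (i + 1))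
    rwa [th0] at this
  · have h1 : ((Wb (th i)).card : ℝ) * (Wc (th i)).card ≤ (L / th i) ^ 2 := by
      rw [pow_two]
      exact mul_le_mul hcb hcc (Nat.cast_nonneg _) (le_trans (Nat.cast_nonneg _) hcb)
    calc 3 * L * (((Wb (th i)).card : ℝ) * (Wc (th i)).card + 1) * th (i + 1)
        ≤ 3 * L * ((L / th i) ^ 2 + 1) * th (i + 1) := by
          apply mul_le_mul_of_nonneg_right _ (hpos _).le
          apply mul_le_mul_of_nonneg_left _ (by positivity)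
          linarith
      _ ≤ v := hsmall i

end Pool.Agent.QF
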