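import Pool.Agent.QF.TW
import Pool.Agent.QF.SP
import Pool.Agent.QF.PE

/-! MW: windows exist. -/

namespace Pool.Agent.QF

namespace MWx

open Complex

/-- The twisted exponential polynomial. -/
noncomputable def tpoly (b : ℚ → ℂ) (A : Finset ℚ) (J : Finset ℕ) (x : ℕ → ℚ → ℚ) (α : ℕ → ℝ) (s : ℂ) : ℂ :=
  ∑ g ∈ A, b g * exp (((∑ k ∈ J, α k * ((x k g : ℚ) : ℝ) : ℝ) : ℂ) * I) * exp (-(g : ℂ) * s)

theorem tpoly_zero (b : ℚ → ℂ) (A : Finset ℚ) (J : Finset ℕ) (x : ℕ → ℚ → ℚ) (s : ℂ) :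
    tpoly b A J x 0 s = poly b A s := by
  unfold tpoly poly
  refine Finset.sum_congr rfl fun g _ => ?_
  simp

theorem tpoly_cont (b : ℚ → ℂ) (A : Finset ℚ) (J : Finset ℕ) (x : ℕ → ℚ → ℚ) :
    Continuous fun p : (ℕ → ℝ) × ℂ => tpoly b A J x p.1 p.2 := by
  unfold tpoly
  fun_prop

theorem tpoly_hol (b : ℚ → ℂ) (A : Finset ℚ) (J : Finset ℕ) (x : ℕ → ℚ → ℚ) (α : ℕ → ℝ) :
    Differentiable ℂ (tpoly b A J x α) := by
  unfold tpoly
  fun_prop

theorem norm_exp_neg (g : ℚ) (s : ℂ) : ‖exp (-(g : ℂ) * s)‖ = Real.exp (-(g : ℝ) * s.re) := by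
  rw [Complex.norm_exp]
  congr 1
  have : (-(g : ℂ)) = ((-(g : ℝ) : ℝ) : ℂ) := by push_cast; rfl
  rw [this, Complex.re_ofReal_mul]

theorem sum_norm_le {b : ℚ → ℂ} {L : ℝ} (hs : Summable fun g => ‖b g‖) (hL : ∑' g, ‖b g‖ ≤ L) (A : Finset ℚ) :
    ∑ g ∈ A, ‖b g‖ ≤ L :=
  (hs.sum_le_tsum A fun _ _ => norm_nonneg _).trans hL

theorem tpoly_bdd {b : ℚ → ℂ} {L : ℝ} (hs : Summable fun g => ‖b g‖) (hL : ∑' g, ‖b g‖ ≤ L) {A : Finset ℚ}
    (hA : ∀ g ∈ A, 0 < g) (J : Finset ℕ) (x : ℕ → ℚ → ℚ) (α : ℕ → ℝ) (s : ℂ) (h0 : 0 ≤ s.re) :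
    ‖tpoly b A J x α s‖ ≤ L := by
  refine le_trans ?_ (sum_norm_le hs hL A)
  unfold tpoly
  refine (norm_sum_le _ _).trans (Finset.sum_le_sum fun g hg => ?_)
  rw [norm_mul, norm_mul, Complex.norm_exp_ofReal_mul_I, mul_one, norm_exp_neg]
  have h1 : Real.exp (-(g : ℝ) * s.re) ≤ 1 := by
    rw [Real.exp_le_one_iff]
    have : (0 : ℝ) < (g : ℝ) := by exact_mod_cast hA g hg
    nlinarith
  exact mul_le_of_le_one_right (norm_nonneg _) h1

theorem tpoly_lip {b : ℚ → ℂ} {L : ℝ} (hs : Summable fun g => ‖b g‖) (hL : ∑' g, ‖b g‖ ≤ L) {A : Finset ℚ}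
    (hA : ∀ g ∈ A, 0 < g) (J : Finset ℕ) (x : ℕ → ℚ → ℚ) (α : ℕ → ℝ) (s : ℂ) (ζ : ℝ) (h0 : 0 < s.re)
    (hζ : 0 ≤ ζ) :
    ‖tpoly b A J x α (s + ζ) - tpoly b A J x α s‖ ≤ L * ζ / s.re := by
  have hstep : ‖tpoly b A J x α (s + ζ) - tpoly b A J x α s‖ ≤ ∑ g ∈ A, ‖b g‖ * (ζ / s.re) := by
    unfold tpoly
    rw [← Finset.sum_sub_distrib]
    refine (norm_sum_le _ _).trans (Finset.sum_le_sum fun g hg => ?_)
    rw [← mul_sub, norm_mul, norm_mul, Complex.norm_exp_ofReal_mul_I, mul_one]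
    refine mul_le_mul_of_nonneg_left ?_ (norm_nonneg _)
    have hg : (0 : ℝ) < (g : ℝ) := by exact_mod_cast hA g hg
    have e1 : exp (-(g : ℂ) * (s + ζ)) - exp (-(g : ℂ) * s) =
        exp (-(g : ℂ) * s) * (((Real.exp (-(g * ζ)) - 1 : ℝ)) : ℂ) := by
      push_cast
      rw [mul_sub, mul_one, ← Complex.exp_add]
      congr 2
      ring
    rw [e1, norm_mul, norm_exp_neg, Complex.norm_real, Real.norm_eq_abs]
    have h2 : |Real.exp (-(g * ζ)) - 1| ≤ g * ζ := by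
      have h3 : Real.exp (-(g * ζ)) ≤ 1 := by
        rw [Real.exp_le_one_iff]
        have : 0 ≤ (g : ℝ) * ζ := by positivity
        linarith
      have h4 := Real.add_one_le_exp (-((g : ℝ) * ζ))
      rw [abs_le]
      constructor <;> linarith
    have h5 : Real.exp (-(g : ℝ) * s.re) * (g * s.re) ≤ 1 := by
      have h6 := Real.add_one_le_exp ((g : ℝ) * s.re)
      have h7 : Real.exp (-(g : ℝ) * s.re) * Real.exp ((g : ℝ) * s.re) = 1 := by
        rw [← Real.exp_add]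
        simp
      have h8 := Real.exp_pos (-(g : ℝ) * s.re)
      nlinarith
    rw [le_div_iff₀ h0]
    calc Real.exp (-(g : ℝ) * s.re) * |Real.exp (-(g * ζ)) - 1| * s.re
        ≤ Real.exp (-(g : ℝ) * s.re) * (g * ζ) * s.re := by
          have := Real.exp_pos (-(g : ℝ) * s.re)
          gcongr
      _ = (Real.exp (-(g : ℝ) * s.re) * (g * s.re)) * ζ := by ring
      _ ≤ 1 * ζ := by gcongr
      _ = ζ := one_mul _
  refine hstep.trans ?_
  rw [← Finset.sum_mul, mul_div_assoc]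
  exact mul_le_mul_of_nonneg_right (sum_norm_le hs hL A) (by positivity)

/-! ### The coefficients of `f` -/

theorem fcoef_mem {t : ℕ → ℚ} (ht : StrictAnti t) (k : ℕ) : fcoef t (t k) = (amp k : ℂ) := by
  unfold fcoef
  rw [tsum_eq_single k]
  · simp
  · intro j hj
    rw [if_neg]
    intro h
    exact hj (ht.injective h)

theorem fcoef_not {t : ℕ → ℚ} {r : ℚ} (h : ∀ k, t k ≠ r) : fcoef t r = 0 := by
  unfold fcoef
  simp [h]

/-! ### Numbers -/

theorem tau_eq (n : ℕ) : tau n = ((1 / 2 : ℝ) ^ 100) ^ (100 ^ n) := by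
  unfold tau
  rw [← pow_mul]
  congr 1
  rw [pow_succ]
  ring

theorem tau_le_one (n : ℕ) : tau n ≤ 1 := (tau_le n).trans (by norm_num)

/-- `L ≤ 1 / τ_n` and the ratio `amp n / L` is at least `τ_n`. -/
theorem small_ratio {n : ℕ} {L : ℝ} (h1 : 1 ≤ L) (h : SmallL n L) : 10 ^ 10 * L * tau n ≤ amp n := by
  unfold SmallL at h
  have ha := amp_pos n
  have ha1 := amp_le_one n
  have ht := tau_pos n
  have hq : 1 ≤ 10 ^ 10 * L / amp n := by
    rw [le_div_iff₀ ha]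
    nlinarith
  have hq2 : 10 ^ 10 * L / amp n ≤ (10 ^ 10 * L / amp n) ^ 100 := le_self_pow₀ hq (by norm_num)
  have h3 : 10 ^ 10 * L / amp n * tau n ≤ 1 := (mul_le_mul_of_nonneg_right hq2 ht.le).trans h
  rw [div_mul_eq_mul_div, div_le_iff₀ ha] at h3
  linarith

theorem vth_le (n : ℕ) : vth n ≤ tau n ^ 5000 := by
  unfold vth
  have h1 : tau (n + 2) = tau n ^ 10000 := by
    rw [show n + 2 = (n + 1) + 1 from rfl, tau_succ, tau_succ, ← pow_mul]
  rw [h1, ← pow_mul]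
  exact pow_le_pow_of_le_one (tau_pos n).le (tau_le_one n) (by norm_num)

theorem two_pow_ge (M : ℕ) (h : 1 ≤ M) : (2 : ℝ) ^ 48 * M ≤ 2 ^ (49 * M - 1) := by
  have h1 : (M : ℝ) ≤ 2 ^ (M - 1) := by
    have : M ≤ 2 ^ (M - 1) := by
      have := Nat.lt_two_pow_self (n := M - 1)
      omega
    exact_mod_cast this
  have h2 : 48 + (M - 1) ≤ 49 * M - 1 := by omega
  calc (2 : ℝ) ^ 48 * M ≤ 2 ^ 48 * 2 ^ (M - 1) := by gcongr
    _ = 2 ^ (48 + (M - 1)) := by rw [← pow_add]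
    _ ≤ 2 ^ (49 * M - 1) := pow_le_pow_right₀ (by norm_num) h2

/-- `e^{-2^{48} M}` is super small. -/
theorem exp_small (M : ℕ) (h : 1 ≤ M) {u : ℝ} (hu : (2 : ℝ) ^ 48 * M ≤ u) :
    Real.exp (-u) ≤ (((1 / 2 : ℝ) ^ 100) ^ M) ^ 5000 := by
  have h1 : Real.exp (-u) ≤ Real.exp (-((500000 * M : ℕ) : ℝ)) := by
    apply Real.exp_le_exp.mpr
    push_cast
    have : (1 : ℝ) ≤ M := by exact_mod_cast h
    nlinarith
  refine h1.trans ?_
  have h2 : Real.exp (-((500000 * M : ℕ) : ℝ)) = (Real.exp (-1)) ^ (500000 * M) := by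
    rw [← Real.exp_nat_mul]
    congr 1
    ring
  rw [h2, ← pow_mul, ← pow_mul]
  have h3 : Real.exp (-1) ≤ 1 / 2 := by
    have := Real.exp_one_gt_d9
    rw [Real.exp_neg, one_div]
    apply inv_anti₀ (by norm_num)
    linarith
  have h4 : 100 * (M * 5000) = 500000 * M := by ring
  rw [h4]
  exact pow_le_pow_left₀ (Real.exp_pos _).le h3 _

theorem exp_Slev (n : ℕ) : Real.exp (-Slev n) ≤ tau n ^ 5000 := by
  rw [tau_eq]
  have hM : 1 ≤ 100 ^ n := Nat.one_le_pow _ _ (by norm_num)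
  refine exp_small _ hM ?_
  refine (two_pow_ge _ hM).trans ?_
  unfold Slev
  exact pow_le_pow_right₀ (by norm_num) (by omega)

theorem exp_dead {t : ℕ → ℚ} (hsz : Sizes t) {n k : ℕ} (hk : k < n) {σ : ℝ} (hσ : Slev n ≤ σ) :
    Real.exp (-(t k : ℝ) * σ) ≤ tau n ^ 5000 := by
  rw [tau_eq]
  have hM : 1 ≤ 100 ^ n := Nat.one_le_pow _ _ (by norm_num)
  rw [neg_mul]
  refine exp_small _ hM ?_
  refine (two_pow_ge _ hM).trans ?_
  have h1 := (hsz k).1
  have h2 : (1 / 2 : ℝ) ^ (100 ^ n) ≤ tau k := by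
    unfold tau
    refine pow_le_pow_of_le_one (by norm_num) (by norm_num) ?_
    exact Nat.pow_le_pow_right (by norm_num) (by omega)
  have h3 : (0 : ℝ) < (1 / 2 : ℝ) ^ (100 ^ n) := by positivity
  have h4 : (1 / 2 : ℝ) ^ (100 ^ n) / 2 * Slev n ≤ (t k : ℝ) * σ := by
    have := Slev_pos n
    apply mul_le_mul (by linarith) hσ this.le (by linarith)
  refine le_trans (le_of_eq ?_) h4
  unfold Slev
  have e1 : 50 * 100 ^ n = (49 * 100 ^ n - 1) + 1 + 100 ^ n := by omega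
  rw [e1, pow_add, pow_add]
  have e2 : (1 / 2 : ℝ) ^ (100 ^ n) * 2 ^ (100 ^ n) = 1 := by
    rw [← mul_pow]; norm_num
  calc (2 : ℝ) ^ (49 * 100 ^ n - 1)
      = ((1 / 2 : ℝ) ^ (100 ^ n) * 2 ^ (100 ^ n)) * 2 ^ (49 * 100 ^ n - 1) := by rw [e2, one_mul]
    _ = _ := by ring

/-! ### The product -/

theorem J_bound {n : ℕ} {L : ℝ} (h1 : 1 ≤ L) (h : SmallL n L) {k : ℕ} (hk : k ≤ n + 1400) :
    3 * L * vth n < amp k * Real.exp (-1) := by
  have hr := small_ratio h1 h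
  have ht := tau_pos n
  have ht1 := tau_le_one n
  have hv := vth_le n
  have hv2 : vth n ≤ tau n * (1 / 2 : ℝ) ^ 100 := by
    refine hv.trans ?_
    calc tau n ^ 5000 ≤ tau n ^ 2 := pow_le_pow_of_le_one ht.le ht1 (by norm_num)
      _ = tau n * tau n := by ring
      _ ≤ _ := by
        have := tau_le n
        gcongr
  have ha : (1 / 3000 : ℝ) * amp n ≤ amp k := by
    have h2 := amp_anti hk
    have h3 := amp_add_ge n 1400
    have h4 : (1 / 3000 : ℝ) ≤ (99 / 100 : ℝ) ^ ((1400 + 1) / 2) := by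
      have e : (1400 + 1) / 2 = 100 * 7 := by norm_num
      rw [e, pow_mul]
      have h5 : (36 / 100 : ℝ) ≤ (99 / 100) ^ 100 := by norm_num
      refine le_trans ?_ (pow_le_pow_left₀ (by norm_num) h5 7)
      norm_num
    have := amp_pos n
    exact (mul_le_mul_of_nonneg_right h4 this.le).trans (h3.trans h2)
  have he : (1 / 3 : ℝ) ≤ Real.exp (-1) := by
    have := Real.exp_one_lt_d9
    rw [Real.exp_neg, one_div]
    apply inv_anti₀ (Real.exp_pos _)
    linarith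
  have h5 : 3 * L * vth n ≤ (10 ^ 10 * L * tau n) * ((3 / 10 ^ 10) * (1 / 2 : ℝ) ^ 100) := by
    calc 3 * L * vth n ≤ 3 * L * (tau n * (1 / 2 : ℝ) ^ 100) := by gcongr
      _ = _ := by ring
  have h6 : (10 ^ 10 * L * tau n) * ((3 / 10 ^ 10) * (1 / 2 : ℝ) ^ 100) ≤
      amp n * ((3 / 10 ^ 10) * (1 / 2 : ℝ) ^ 100) := by gcongr
  have h7 : amp n * ((3 / 10 ^ 10) * (1 / 2 : ℝ) ^ 100) < amp n * (1 / 9000) := by
    have := amp_pos n
    apply mul_lt_mul_of_pos_left _ this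
    norm_num
  have h8 : amp n * (1 / 9000) ≤ amp k * Real.exp (-1) := by
    have h9 : (1 / 3000 : ℝ) * amp n * (1 / 3) ≤ amp k * Real.exp (-1) := by
      have := amp_pos k
      have := amp_pos n
      apply mul_le_mul ha he (by norm_num) (by linarith)
    linarith
  linarith

theorem t_pos {t : ℕ → ℚ} (hsz : Sizes t) (k : ℕ) : 0 < t k := by
  have h1 := (hsz k).1
  have h2 := tau_pos k
  have h3 : (0 : ℝ) < (t k : ℝ) := by linarith
  exact_mod_cast h3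

theorem t_le_one {t : ℕ → ℚ} (hsz : Sizes t) (k : ℕ) : t k ≤ 1 := by
  have h1 := (hsz k).2
  have h2 := tau_le_one k
  have h3 : (t k : ℝ) ≤ 1 := by linarith
  exact_mod_cast h3

theorem mem_sum {t : ℕ → ℚ} {L : ℝ} {b c : ℚ → ℂ} (hsz : Sizes t) (h : Fac t L b c) {n : ℕ}
    (hsm : SmallL n L) {θ : ℝ} (hθ : 0 ≤ θ) {A C : Finset ℚ} (hA : Split b (Slev n) (vth n) θ A)
    (hC : Split c (Slev n) (vth n) θ C) (hA0 : ∀ g ∈ A, 0 < g) (hC0 : ∀ g ∈ C, 0 < g)
    (hθv : 3 * L * ((A.card : ℝ) * C.card + 1) * θ ≤ vth n) {k : ℕ} (hk1 : n ≤ k) (hk2 : k ≤ n + 1400) :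
    ∃ g ∈ A, ∃ h ∈ C, g + h = t k := by
  by_contra hcon
  push Not at hcon
  have hv : 0 ≤ vth n := by
    unfold vth
    have := tau_pos (n + 2)
    positivity
  have h1 := mem_est hsz h (Slev_pos n).le hv hθ hA hC hA0 hC0 hθv (t k) (t_pos hsz k) (t_le_one hsz k) hcon
  rw [fcoef_mem hsz.strictAnti, Complex.norm_real, Real.norm_eq_abs, abs_of_pos (amp_pos k)] at h1
  have h2 := J_bound h.one_le hsm hk2
  have h3 : Real.exp (-1) ≤ Real.exp (-(t k : ℝ) * Slev n) := by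
    apply Real.exp_le_exp.mpr
    have h4 : (t k : ℝ) ≤ tau n := (hsz k).2.trans (tau_anti hk1)
    have h5 := Slev_sq n
    have h6 := Slev_pos n
    have h7 := tau_pos n
    have h8 : tau n * Slev n ≤ 1 := by
      have h9 : tau n * Slev n ^ 2 = 1 := by rw [h5]; field_simp
      have h10 := Slev_ge n
      nlinarith
    have h11 : (t k : ℝ) * Slev n ≤ tau n * Slev n := by gcongr
    linarith
  have h4 : amp k * Real.exp (-1) ≤ amp k * Real.exp (-(t k : ℝ) * Slev n) :=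
    mul_le_mul_of_nonneg_left h3 (amp_pos k).le
  linarith

end MWx

open Complex MWx in
/-- `B α s = ∑_{g ∈ A} b g e^{i ∑_{k∈J} α_k x_k(g)} e^{-gs}`, with `J = {k > n : t k ∈ A + C}`. -/
theorem exists_win (n : ℕ) (θ₀ : ℝ) (hθ₀ : 0 < θ₀) : ∃ K₀ : ℕ, ∀ (t : ℕ → ℚ) (K : ℕ → ℕ), K₀ ≤ K n →
    Sizes t → Ind t K → ∀ (L : ℝ) (b c : ℚ → ℂ), Fac t L b c → L ≤ n + 1 → SmallL n L →
    ∃ (A C : Finset ℚ) (θ : ℝ) (J : Finset ℕ) (B D : (ℕ → ℝ) → ℂ → ℂ),
      0 < θ ∧ θ ≤ θ₀ ∧ Split b (Slev n) (vth n) θ A ∧ Split c (Slev n) (vth n) θ C ∧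
      (∀ g ∈ A, 0 < g) ∧ (∀ g ∈ C, 0 < g) ∧
      Win n t L J B D ∧ (∀ s, B 0 s = poly b A s) ∧ (∀ s, D 0 s = poly c C s) := by
  classical
  have hv : 0 < vth n := by
    unfold vth
    have := tau_pos (n + 2)
    positivity
  obtain ⟨N, hN⟩ := exists_split (vth n) θ₀ (n + 1) hv hθ₀ (by linarith [(Nat.cast_nonneg n : (0 : ℝ) ≤ n)])
  obtain ⟨K₀, hK₀⟩ := exists_twist N
  refine ⟨K₀, ?_⟩
  intro t K hK hsz hind L b c hF hL hsm
  obtain ⟨A, C, θ, hAN, hCN, hθ, hθ₀', hθv', hA, hC, hA0, hC0⟩ := hN b c (Slev n) (Slev_pos n).le hF.posb hF.posc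
    hF.sumb hF.sumc (hF.normb.trans hL) (hF.normc.trans hL)
  have hL1 := hF.one_le
  have hθv : 3 * L * ((A.card : ℝ) * C.card + 1) * θ ≤ vth n := by
    refine le_trans ?_ hθv'
    gcongr
  have hinj := hsz.strictAnti.injective
  set R : Finset ℚ := (A ×ˢ C).image (fun p => p.1 + p.2) with hR
  have hRmem : ∀ r, r ∈ R ↔ ∃ g ∈ A, ∃ h ∈ C, g + h = r := by
    intro r
    rw [hR, Finset.mem_image]
    constructor
    · rintro ⟨p, hp, rfl⟩
      rw [Finset.mem_product] at hp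
      exact ⟨p.1, hp.1, p.2, hp.2, rfl⟩
    · rintro ⟨g, hg, h, hh, rfl⟩
      exact ⟨(g, h), Finset.mem_product.mpr ⟨hg, hh⟩, rfl⟩
  set J' : Finset ℕ := R.preimage t hinj.injOn with hJ'
  set J : Finset ℕ := J'.filter (fun k => n < k) with hJ
  have hJ'mem : ∀ k, k ∈ J' ↔ t k ∈ R := fun k => Finset.mem_preimage
  have hJmem : ∀ k, k ∈ J ↔ t k ∈ R ∧ n < k := by
    intro k
    rw [hJ, Finset.mem_filter, hJ'mem]
  -- the twists
  have htw : ∀ k₀ : ℕ, ∃ x y : ℚ → ℚ, k₀ ∈ J →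
      (∀ g ∈ A, ∀ h ∈ C, ∀ g' ∈ A, ∀ h' ∈ C, g + h = g' + h' → x g + y h = x g' + y h') ∧
      (∀ g ∈ A, ∀ h ∈ C, g + h = t k₀ → x g + y h = 1) ∧
      (∀ g ∈ A, ∀ h ∈ C, ∀ k, k ≠ k₀ → g + h = t k → x g + y h = 0) := by
    intro k₀
    by_cases hk : k₀ ∈ J
    · have h1 := (hJmem k₀).mp hk
      obtain ⟨x, y, hxy⟩ := hK₀ t K n hK hsz hind A C hAN hCN k₀ h1.2 ((hRmem _).mp h1.1)
      exact ⟨x, y, fun _ => hxy⟩
    · exact ⟨0, 0, fun h => absurd h hk⟩
  choose x y hxy using htw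
  -- representatives
  have hrep : ∀ r : ℚ, ∃ p : ℚ × ℚ, r ∈ R → p.1 ∈ A ∧ p.2 ∈ C ∧ p.1 + p.2 = r := by
    intro r
    by_cases hr : r ∈ R
    · obtain ⟨g, hg, h, hh, hgh⟩ := (hRmem r).mp hr
      exact ⟨(g, h), fun _ => ⟨hg, hh, hgh⟩⟩
    · exact ⟨(0, 0), fun h => absurd h hr⟩
  choose P hP using hrep
  refine ⟨A, C, θ, J, tpoly b A J x, tpoly c C J y, hθ, hθ₀', hA, hC, hA0, hC0, ?_, tpoly_zero b A J x,
    tpoly_zero c C J y⟩
  refine ⟨hsz, hL1, hsm, fun k hk => ((hJmem k).mp hk).2, ?_, tpoly_cont b A J x, tpoly_cont c C J y,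
    tpoly_hol b A J x, tpoly_hol c C J y, fun α s => tpoly_bdd hF.sumb hF.normb hA0 J x α s,
    fun α s => tpoly_bdd hF.sumc hF.normc hC0 J y α s, fun α s => tpoly_lip hF.sumb hF.normb hA0 J x α s,
    fun α s => tpoly_lip hF.sumc hF.normc hC0 J y α s, ?_⟩
  · intro k hk1 hk2
    rw [hJmem, hRmem]
    exact ⟨mem_sum hsz hF hsm hθ.le hA hC hA0 hC0 hθv hk1.le hk2, hk1⟩
  -- the product
  intro α s hs
  -- the twist factor at `r`
  set tw : ℚ → ℂ := fun r => exp (((∑ k ∈ J, α k * ((x k (P r).1 + y k (P r).2 : ℚ) : ℝ) : ℝ) : ℂ) * I) with htwdef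
  have htwn : ∀ r, ‖tw r‖ = 1 := fun r => Complex.norm_exp_ofReal_mul_I _
  have hprod : tpoly b A J x α s * tpoly c C J y α s =
      ∑ r ∈ R, pcoef b c A C r * (tw r * exp (-(r : ℂ) * s)) := by
    unfold tpoly
    rw [Finset.sum_mul_sum, ← Finset.sum_product', ← Finset.sum_fiberwise_of_maps_to (t := R)
      (g := fun p : ℚ × ℚ => p.1 + p.2) (fun p hp => Finset.mem_image_of_mem _ hp)]
    refine Finset.sum_congr rfl fun r hr => ?_
    unfold pcoef
    rw [Finset.sum_mul]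
    refine Finset.sum_congr rfl fun p hp => ?_
    rw [Finset.mem_filter, Finset.mem_product] at hp
    obtain ⟨⟨hpA, hpC⟩, hpr⟩ := hp
    obtain ⟨h1, h2, h3⟩ := hP r hr
    have e1 : tw r = exp (((∑ k ∈ J, α k * ((x k p.1 : ℚ) : ℝ) : ℝ) : ℂ) * I) *
        exp (((∑ k ∈ J, α k * ((y k p.2 : ℚ) : ℝ) : ℝ) : ℂ) * I) := by
      rw [← Complex.exp_add, ← add_mul, ← Complex.ofReal_add, ← Finset.sum_add_distrib, htwdef]
      simp only
      congr 3
      refine Finset.sum_congr rfl fun k hk => ?_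
      rw [(hxy k hk).1 (P r).1 h1 (P r).2 h2 p.1 hpA p.2 hpC (h3.trans hpr.symm)]
      push_cast
      ring
    have e2 : exp (-(r : ℂ) * s) = exp (-(p.1 : ℂ) * s) * exp (-(p.2 : ℂ) * s) := by
      rw [← Complex.exp_add, ← hpr]
      congr 1
      push_cast
      ring
    rw [e1, e2]
    ring
  -- the main part
  have hmain : ∑ r ∈ R, fcoef t r * (tw r * exp (-(r : ℂ) * s)) =
      ∑ k ∈ J', (amp k : ℂ) * (tw (t k) * exp (-(t k : ℂ) * s)) := by
    have h1 : ∑ k ∈ J', (amp k : ℂ) * (tw (t k) * exp (-(t k : ℂ) * s)) =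
        ∑ k ∈ J', fcoef t (t k) * (tw (t k) * exp (-(t k : ℂ) * s)) := by
      refine Finset.sum_congr rfl fun k _ => ?_
      rw [fcoef_mem hsz.strictAnti]
    rw [h1]
    symm
    refine Finset.sum_preimage t R hinj.injOn (fun r => fcoef t r * (tw r * exp (-(r : ℂ) * s))) ?_
    intro r hr hrt
    have : fcoef t r = 0 := fcoef_not fun k hk => hrt ⟨k, hk⟩
    simp only [this, zero_mul]
  have htwJ : ∀ k ∈ J, tw (t k) = exp ((α k : ℂ) * I) := by
    intro k hk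
    have hkR := ((hJmem k).mp hk).1
    obtain ⟨h1, h2, h3⟩ := hP (t k) hkR
    rw [htwdef]
    simp only
    congr 3
    rw [Finset.sum_eq_single k]
    · rw [(hxy k hk).2.1 _ h1 _ h2 h3]
      simp
    · intro j hj hjk
      rw [(hxy j hj).2.2 _ h1 _ h2 k hjk.symm h3]
      simp
    · intro h
      exact absurd hk h
  have htwN : ∀ k ∈ J', k ∉ J → tw (t k) = 1 := by
    intro k hk hkJ
    obtain ⟨h1, h2, h3⟩ := hP (t k) ((hJ'mem k).mp hk)
    rw [htwdef]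
    simp only
    rw [Finset.sum_eq_zero]
    · simp
    · intro j hj
      have hjk : k ≠ j := by
        rintro rfl
        exact hkJ hj
      rw [(hxy j hj).2.2 _ h1 _ h2 k hjk h3]
      simp
  have hnJ' : n ∈ J' := by
    rw [hJ'mem, hRmem]
    exact mem_sum hsz hF hsm hθ.le hA hC hA0 hC0 hθv le_rfl (by omega)
  set Jl : Finset ℕ := J'.filter (fun k => k < n) with hJl
  have hsplit : ∑ k ∈ J', (amp k : ℂ) * (tw (t k) * exp (-(t k : ℂ) * s)) =
      FF n t J α s + ∑ k ∈ Jl, (amp k : ℂ) * (tw (t k) * exp (-(t k : ℂ) * s)) := by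
    have hJ'eq : J' = insert n J ∪ Jl := by
      ext k
      rw [Finset.mem_union, Finset.mem_insert, hJ, hJl, Finset.mem_filter, Finset.mem_filter]
      constructor
      · intro hk
        rcases lt_trichotomy k n with h | h | h
        · exact Or.inr ⟨hk, h⟩
        · exact Or.inl (Or.inl h)
        · exact Or.inl (Or.inr ⟨hk, h⟩)
      · rintro ((rfl | h) | h)
        · exact hnJ'
        · exact h.1
        · exact h.1
    have hdis : Disjoint (insert n J) Jl := by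
      rw [Finset.disjoint_left]
      intro k hk hkl
      rw [Finset.mem_insert, hJ, Finset.mem_filter] at hk
      rw [hJl, Finset.mem_filter] at hkl
      rcases hk with h | h
      · omega
      · omega
    have hnJ : n ∉ J := by
      rw [hJ, Finset.mem_filter]
      omega
    rw [hJ'eq, Finset.sum_union hdis, Finset.sum_insert hnJ, htwN n hnJ' hnJ, one_mul]
    unfold FF
    congr 2
    refine Finset.sum_congr rfl fun k hk => ?_
    rw [htwJ k hk]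
    ring
  have hlow : ‖∑ k ∈ Jl, (amp k : ℂ) * (tw (t k) * exp (-(t k : ℂ) * s))‖ ≤ 200 * tau n ^ 5000 := by
    refine (norm_sum_le _ _).trans ?_
    have h1 : ∀ k ∈ Jl, ‖(amp k : ℂ) * (tw (t k) * exp (-(t k : ℂ) * s))‖ ≤ amp k * tau n ^ 5000 := by
      intro k hk
      rw [hJl, Finset.mem_filter] at hk
      rw [norm_mul, norm_mul, htwn, one_mul, norm_exp_neg, Complex.norm_real, Real.norm_eq_abs,
        abs_of_pos (amp_pos k)]
      exact mul_le_mul_of_nonneg_left (exp_dead hsz hk.2 hs) (amp_pos k).le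
    refine (Finset.sum_le_sum h1).trans ?_
    rw [← Finset.sum_mul]
    have h2 := amp_sum_le 0 Jl (fun k _ => Nat.zero_le k)
    have h3 : amp 0 = 1 := by unfold amp; norm_num
    rw [h3, mul_one] at h2
    have := tau_pos n
    gcongr
  have herr : ‖∑ r ∈ R, pcoef b c A C r * (tw r * exp (-(r : ℂ) * s)) -
      ∑ r ∈ R, fcoef t r * (tw r * exp (-(r : ℂ) * s))‖ ≤ 3 * L * vth n + L ^ 2 * Real.exp (-Slev n) := by
    refine le_trans ?_ (prod_est hsz hF (Slev_pos n).le hv.le hθ.le hA hC hA0 hC0 hθv)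
    rw [← Finset.sum_sub_distrib]
    refine (norm_sum_le _ _).trans (Finset.sum_le_sum fun r hr => ?_)
    rw [← sub_mul, norm_mul, norm_mul, htwn, one_mul, norm_exp_neg]
    refine mul_le_mul_of_nonneg_left ?_ (norm_nonneg _)
    apply Real.exp_le_exp.mpr
    have hr0 : (0 : ℝ) < (r : ℝ) := by
      obtain ⟨g, hg, h, hh, hgh⟩ := (hRmem r).mp hr
      have := hA0 g hg
      have := hC0 h hh
      rw [← hgh]
      exact_mod_cast add_pos (hA0 g hg) (hC0 h hh)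
    nlinarith
  have hfin : ‖tpoly b A J x α s * tpoly c C J y α s - FF n t J α s‖ ≤
      3 * L * vth n + L ^ 2 * Real.exp (-Slev n) + 200 * tau n ^ 5000 := by
    rw [hprod]
    have e : ∑ r ∈ R, pcoef b c A C r * (tw r * exp (-(r : ℂ) * s)) - FF n t J α s =
        (∑ r ∈ R, pcoef b c A C r * (tw r * exp (-(r : ℂ) * s)) -
          ∑ r ∈ R, fcoef t r * (tw r * exp (-(r : ℂ) * s))) +
        ∑ k ∈ Jl, (amp k : ℂ) * (tw (t k) * exp (-(t k : ℂ) * s)) := by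
      rw [hmain, hsplit]
      ring
    rw [e]
    exact (norm_add_le _ _).trans (add_le_add herr hlow)
  refine hfin.trans ?_
  have hr := small_ratio hL1 hsm
  have hamp := amp_le_one n
  have ht := tau_pos n
  have ht1 := tau_le n
  have hv5 := vth_le n
  have he5 := exp_Slev n
  have hLt : L * tau n ≤ 1 := by nlinarith
  have h5 : tau n ^ 5000 = tau n ^ 4000 * (tau n ^ 998 * (tau n * tau n)) := by
    rw [← pow_two, ← pow_add, ← pow_add]
  have h998 : tau n ^ 998 ≤ (1 / 2) ^ 100 := by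
    calc tau n ^ 998 ≤ tau n ^ 1 := pow_le_pow_of_le_one ht.le (tau_le_one n) (by norm_num)
      _ = tau n := pow_one _
      _ ≤ _ := ht1
  have hp4 : 0 < tau n ^ 4000 := by positivity
  have hp998 : 0 < tau n ^ 998 := by positivity
  have k1 : 3 * L * vth n ≤ 3 * tau n ^ 4000 * (1 / 2) ^ 100 := by
    calc 3 * L * vth n ≤ 3 * L * (tau n ^ 4000 * (tau n ^ 998 * (tau n * tau n))) := by
          rw [← h5]; gcongr
      _ = 3 * tau n ^ 4000 * (tau n ^ 998 * ((L * tau n) * tau n)) := by ring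
      _ ≤ 3 * tau n ^ 4000 * ((1 / 2) ^ 100 * (1 * 1)) := by
          have := tau_le_one n
          gcongr
      _ = _ := by ring
  have k2 : L ^ 2 * Real.exp (-Slev n) ≤ tau n ^ 4000 * (1 / 2) ^ 100 := by
    calc L ^ 2 * Real.exp (-Slev n) ≤ L ^ 2 * (tau n ^ 4000 * (tau n ^ 998 * (tau n * tau n))) := by
          rw [← h5]; gcongr
      _ = tau n ^ 4000 * (tau n ^ 998 * ((L * tau n) * (L * tau n))) := by ring
      _ ≤ tau n ^ 4000 * ((1 / 2) ^ 100 * (1 * 1)) := by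
          gcongr
      _ = _ := by ring
  have k3 : 200 * tau n ^ 5000 ≤ 200 * (tau n ^ 4000 * (1 / 2) ^ 100) := by
    rw [h5]
    have := tau_le_one n
    calc 200 * (tau n ^ 4000 * (tau n ^ 998 * (tau n * tau n))) ≤
        200 * (tau n ^ 4000 * ((1 / 2) ^ 100 * (1 * 1))) := by gcongr
      _ = _ := by ring
  have k4 : (204 : ℝ) * (1 / 2) ^ 100 ≤ 1 := by norm_num
  nlinarith

end Pool.Agent.QF
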