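import Pool.Agent.QF.Defs

/-! O2: polygons close. -/

namespace Pool.Agent.QF

open Complex

/-- Two-step lemma: one more side can reach any modulus allowed by the triangle inequality. -/
theorem one_side (u : ℂ) {ρ v : ℝ} (hρ : 0 ≤ ρ) (hv : 0 ≤ v) (h1 : v ≤ ‖u‖ + ρ) (h2 : ‖u‖ ≤ v + ρ)
    (h3 : ρ ≤ v + ‖u‖) : ∃ φ : ℝ, ‖u + ρ * exp ((φ : ℂ) * I)‖ = v := by
  have hc : Continuous fun φ : ℝ => ‖u + ρ * exp ((φ : ℂ) * I)‖ := by fun_prop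
  have hu : (‖u‖ : ℂ) * exp (arg u * I) = u := norm_mul_exp_arg_mul_I u
  have ha : ‖u + ρ * exp (((arg u + Real.pi : ℝ) : ℂ) * I)‖ ≤ v := by
    have e : u + ρ * exp (((arg u + Real.pi : ℝ) : ℂ) * I) = ((‖u‖ - ρ : ℝ) : ℂ) * exp ((arg u : ℂ) * I) := by
      push_cast
      rw [add_mul, exp_add, exp_pi_mul_I, sub_mul, hu]
      ring
    rw [e, norm_mul, norm_exp_ofReal_mul_I, mul_one, norm_real, Real.norm_eq_abs, abs_le]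
    constructor <;> linarith
  have hb : v ≤ ‖u + ρ * exp ((arg u : ℂ) * I)‖ := by
    have e : u + ρ * exp ((arg u : ℂ) * I) = ((‖u‖ + ρ : ℝ) : ℂ) * exp ((arg u : ℂ) * I) := by
      push_cast
      rw [add_mul, hu]
    rw [e, norm_mul, norm_exp_ofReal_mul_I, mul_one, norm_real, Real.norm_eq_abs,
      abs_of_nonneg (by positivity)]
    exact h1
  exact mem_range_of_exists_le_of_exists_ge hc ⟨_, ha⟩ ⟨_, hb⟩

/-- Sides `ρ 0, ..., ρ M` (`M ≥ 2`): the polygon closes. Keep `‖∑_{i ≤ k} ρ i e^{iφ_i}‖ = ρ (k+1)` for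
`1 ≤ k ≤ M - 1` (triangles with the sides `ρ 0, ρ 1, ρ 2`, then `ρ k, ρ k, ρ (k+1)`). -/
theorem polygon (M : ℕ) (hM : 2 ≤ M) (ρ : ℕ → ℝ) (h0 : ∀ k, 0 < ρ k)
    (h2 : ∀ k, 1 ≤ k → ρ (k + 1) ≤ 2 * ρ k) (h3 : ρ 1 ≤ ρ 0 + ρ 2) (h4 : ρ 2 ≤ ρ 0 + ρ 1) (h5 : ρ 0 ≤ ρ 1 + ρ 2) :
    ∃ φ : ℕ → ℝ, ∑ k ∈ Finset.range (M + 1), (ρ k : ℂ) * exp ((φ k : ℂ) * I) = 0 := by
  have step : ∀ (k : ℕ) (φ : ℕ → ℝ) (v : ℝ), 0 ≤ v →
      v ≤ ‖∑ i ∈ Finset.range k, (ρ i : ℂ) * exp ((φ i : ℂ) * I)‖ + ρ k →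
      ‖∑ i ∈ Finset.range k, (ρ i : ℂ) * exp ((φ i : ℂ) * I)‖ ≤ v + ρ k →
      ρ k ≤ v + ‖∑ i ∈ Finset.range k, (ρ i : ℂ) * exp ((φ i : ℂ) * I)‖ →
      ∃ φ' : ℕ → ℝ, ‖∑ i ∈ Finset.range (k + 1), (ρ i : ℂ) * exp ((φ' i : ℂ) * I)‖ = v := by
    intro k φ v hv ha hb hc
    obtain ⟨x, hx⟩ := one_side _ (h0 k).le hv ha hb hc
    refine ⟨Function.update φ k x, ?_⟩
    rw [Finset.sum_range_succ, Function.update_self]
    rw [← hx]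
    congr 2
    refine Finset.sum_congr rfl fun i hi => ?_
    rw [Function.update_of_ne (Finset.mem_range.mp hi).ne]
  have main : ∀ k : ℕ, ∃ φ : ℕ → ℝ,
      ‖∑ i ∈ Finset.range (k + 2), (ρ i : ℂ) * exp ((φ i : ℂ) * I)‖ = ρ (k + 2) := by
    intro k
    induction k with
    | zero =>
      have e : ‖∑ i ∈ Finset.range 1, (ρ i : ℂ) * exp (((0 : ℝ) : ℂ) * I)‖ = ρ 0 := by
        rw [Finset.sum_range_one, norm_mul, norm_exp_ofReal_mul_I, mul_one, norm_real,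
          Real.norm_eq_abs, abs_of_pos (h0 0)]
      exact step 1 (fun _ => 0) (ρ 2) (h0 2).le (by rw [e]; linarith) (by rw [e]; linarith)
        (by rw [e]; linarith)
    | succ k ih =>
      obtain ⟨φ, hφ⟩ := ih
      have h6 := h2 (k + 2) (by omega)
      have h7 := h0 (k + 3)
      exact step (k + 2) φ (ρ (k + 3)) h7.le (by rw [hφ]; linarith) (by rw [hφ]; linarith)
        (by rw [hφ]; linarith)
  obtain ⟨k, rfl⟩ : ∃ k, M = k + 2 := ⟨M - 2, by omega⟩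
  obtain ⟨φ, hφ⟩ := main k
  obtain ⟨φ', hφ'⟩ := step (k + 2) φ 0 le_rfl (by rw [hφ]; have := h0 (k + 2); linarith)
    (by rw [hφ]; linarith) (by rw [hφ]; linarith)
  exact ⟨φ', norm_eq_zero.mp hφ'⟩

end Pool.Agent.QF
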