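import Pool.Agent.QF.Defs

/-! O3: a Fejér mean picks a good time. -/

namespace Pool.Agent.QF

open Complex Finset

/-- The unit complex number with argument `x`. -/
noncomputable def eeO (x : ℝ) : ℂ := exp (x * I)

theorem eeO_add (x y : ℝ) : eeO (x + y) = eeO x * eeO y := by
  unfold eeO; push_cast; rw [add_mul, exp_add]

theorem eeO_zero : eeO 0 = 1 := by simp [eeO]

theorem eeO_sum {ι : Type*} (s : Finset ι) (f : ι → ℝ) : eeO (∑ i ∈ s, f i) = ∏ i ∈ s, eeO (f i) := by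
  unfold eeO; push_cast; rw [Finset.sum_mul, exp_sum]

theorem norm_eeO (x : ℝ) : ‖eeO x‖ = 1 := norm_exp_ofReal_mul_I x

theorem conj_eeO (x : ℝ) : (starRingEnd ℂ) (eeO x) = eeO (-x) := by
  unfold eeO; rw [← exp_conj]; simp

theorem re_eeO (x : ℝ) : (eeO x).re = Real.cos x := exp_ofReal_mul_I_re x

theorem eeO_nat_mul (j : ℕ) (x : ℝ) : eeO (j * x) = eeO x ^ j := by
  unfold eeO; rw [← exp_nat_mul]; congr 1; push_cast; ring

theorem sq_norm_sumO {ι : Type*} (s : Finset ι) (f : ι → ℂ) :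
    ((‖∑ i ∈ s, f i‖ ^ 2 : ℝ) : ℂ) = ∑ p ∈ s ×ˢ s, f p.1 * (starRingEnd ℂ) (f p.2) := by
  have h : ((‖∑ i ∈ s, f i‖ ^ 2 : ℝ) : ℂ) = (∑ i ∈ s, f i) * (starRingEnd ℂ) (∑ i ∈ s, f i) := by
    rw [mul_conj, normSq_eq_norm_sq]
  rw [h, map_sum, Finset.sum_mul_sum, Finset.sum_product]

/-- Finitely many times in which finitely many frequencies average out. -/
theorem exists_timesO (Q : Finset ℚ) : ∃ (M : ℕ) (y : ℕ → ℝ), 0 < M ∧
    ∀ q ∈ Q, q ≠ 0 → ∑ j ∈ range M, eeO (q * y j) = 0 := by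
  classical
  set D : ℕ := ∏ q ∈ Q, q.den with hD
  have hDpos : 0 < D := Finset.prod_pos fun q _ => q.den_pos
  set M : ℕ := 1 + ∑ q ∈ Q, ⌈|(D : ℚ) * q|⌉₊ with hM
  have hMpos : 0 < M := by omega
  refine ⟨M, fun j => 2 * Real.pi * D * j / M, hMpos, fun q hq hq0 => ?_⟩
  obtain ⟨e, he⟩ : q.den ∣ D := Finset.dvd_prod_of_mem _ hq
  have hn : (D : ℚ) * q = ((e * q.num : ℤ) : ℚ) := by
    rw [he]; push_cast
    have := Rat.mul_den_eq_num q
    calc (q.den : ℚ) * e * q = e * (q * q.den) := by ring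
      _ = _ := by rw [this]
  set n : ℤ := e * q.num with hn'
  have hlt : |(D : ℚ) * q| < M := by
    have h1 : |(D : ℚ) * q| ≤ ⌈|(D : ℚ) * q|⌉₊ := Nat.le_ceil _
    have h2 : ⌈|(D : ℚ) * q|⌉₊ ≤ ∑ q ∈ Q, ⌈|(D : ℚ) * q|⌉₊ :=
      Finset.single_le_sum (f := fun q : ℚ => ⌈|(D : ℚ) * q|⌉₊) (fun _ _ => Nat.zero_le _) hq
    have h3 : (⌈|(D : ℚ) * q|⌉₊ : ℚ) < M := by
      exact_mod_cast (by omega : ⌈|(D : ℚ) * q|⌉₊ < M)
    linarith
  rw [hn] at hlt
  have hlt' : |n| < (M : ℤ) := by exact_mod_cast hlt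
  have hn0 : n ≠ 0 := by
    intro h0
    rw [h0] at hn
    have hD0 : (D : ℚ) ≠ 0 := by exact_mod_cast hDpos.ne'
    rcases mul_eq_zero.mp (hn.trans Int.cast_zero) with h | h
    · exact hD0 h
    · exact hq0 h
  set ζ : ℂ := eeO (2 * Real.pi * n / M) with hζ
  have hnR : (q : ℝ) * D = n := by
    have : ((D : ℚ) * q : ℚ) = (n : ℚ) := hn
    have h2 := congrArg (fun x : ℚ => (x : ℝ)) this
    push_cast at h2
    linarith
  have hterm : ∀ j : ℕ, eeO (q * (2 * Real.pi * D * j / M)) = ζ ^ j := by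
    intro j
    rw [hζ, ← eeO_nat_mul]
    congr 1
    rw [← hnR]
    ring
  rw [Finset.sum_congr rfl fun j _ => hterm j]
  have hM0 : (M : ℝ) ≠ 0 := by exact_mod_cast hMpos.ne'
  have hM0C : (M : ℂ) ≠ 0 := by exact_mod_cast hMpos.ne'
  have hpi : (2 * (Real.pi : ℂ) * I) ≠ 0 := two_pi_I_ne_zero
  have hζM : ζ ^ M = 1 := by
    rw [hζ, ← eeO_nat_mul]
    unfold eeO
    rw [exp_eq_one_iff]
    refine ⟨n, ?_⟩
    push_cast
    field_simp
  have hζ1 : ζ ≠ 1 := by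
    intro h1
    rw [hζ] at h1
    unfold eeO at h1
    rw [exp_eq_one_iff] at h1
    obtain ⟨k, hk⟩ := h1
    push_cast at hk
    have h2 : (n : ℂ) / M = k := by
      have h3 : (2 * (Real.pi : ℂ) * I) * ((n : ℂ) / M) = (2 * (Real.pi : ℂ) * I) * k := by
        rw [show (2 * (Real.pi : ℂ) * I) * ((n : ℂ) / M) = 2 * (Real.pi : ℂ) * n / M * I by ring, hk]
        ring
      exact mul_left_cancel₀ hpi h3
    rw [div_eq_iff hM0C] at h2
    have h4 : n = k * M := by exact_mod_cast h2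
    rcases eq_or_ne k 0 with hk0 | hk0
    · rw [hk0, zero_mul] at h4; exact hn0 h4
    · have h5 : 1 ≤ |k| := Int.one_le_abs hk0
      rw [h4, abs_mul, Nat.abs_cast] at hlt'
      nlinarith
  have hg := mul_neg_geom_sum ζ M
  rw [hζM, sub_self] at hg
  rcases mul_eq_zero.mp hg with h | h
  · exact absurd (sub_eq_zero.mp h).symm hζ1
  · exact h

theorem mean_wO {ι : Type} [Fintype ι] [DecidableEq ι] (t : ι → ℚ) (α : ι → ℝ) (N : ℕ) (M : ℕ) (y : ℕ → ℝ)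
    (hind : ∀ m : ι → ℤ, (∀ k, |m k| ≤ (N : ℤ)) → ∑ k, (m k : ℚ) * t k = 0 → m = 0)
    (hy : ∀ m : ι → ℤ, (∀ k, |m k| ≤ (N : ℤ)) → ∑ k, (m k : ℚ) * t k ≠ 0 →
      ∑ j ∈ range M, eeO (((∑ k, (m k : ℚ) * t k : ℚ) : ℝ) * y j) = 0)
    (r : ι → ℤ) (hr : ∀ k, 0 ≤ r k ∧ r k ≤ 1) :
    ∑ j ∈ range M, (∏ k, ∑ p ∈ range N ×ˢ range N,
        eeO (((p.1 : ℝ) - p.2 + r k) * (t k * y j - α k))) =
      M * ∏ k, ∑ p ∈ range N ×ˢ range N, (if (p.1 : ℤ) - p.2 + r k = 0 then (1 : ℂ) else 0) := by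
  simp_rw [Finset.prod_univ_sum]
  rw [Finset.sum_comm, Finset.mul_sum]
  refine Finset.sum_congr rfl fun x hx => ?_
  rw [Fintype.mem_piFinset] at hx
  set m : ι → ℤ := fun k => ((x k).1 : ℤ) - (x k).2 + r k with hm
  have hmN : ∀ k, |m k| ≤ (N : ℤ) := by
    intro k
    have h1 := hx k
    rw [Finset.mem_product, Finset.mem_range, Finset.mem_range] at h1
    have h2 := hr k
    rw [abs_le]
    constructor <;> simp only [hm] <;> omega
  have e : ∀ j : ℕ, ∏ k, eeO ((((x k).1 : ℝ) - (x k).2 + r k) * (t k * y j - α k)) =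
      eeO (((∑ k, (m k : ℚ) * t k : ℚ) : ℝ) * y j) * eeO (-∑ k, (m k : ℝ) * α k) := by
    intro j
    rw [← eeO_sum, ← eeO_add]
    congr 1
    push_cast
    rw [Finset.sum_mul, ← Finset.sum_neg_distrib, ← Finset.sum_add_distrib]
    refine Finset.sum_congr rfl fun k _ => ?_
    simp only [hm]
    push_cast
    ring
  rw [Finset.sum_congr rfl fun j _ => e j, ← Finset.sum_mul]
  by_cases h0 : m = 0
  · have h1 : ∀ k, ((x k).1 : ℤ) - (x k).2 + r k = 0 := fun k => congrFun h0 k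
    rw [Finset.prod_congr rfl fun k _ => if_pos (h1 k)]
    rw [h0]
    simp [eeO_zero]
  · have h2 : ∑ k, (m k : ℚ) * t k ≠ 0 := fun h => h0 (hind m hmN h)
    rw [hy m hmN h2, zero_mul]
    obtain ⟨k, hk⟩ : ∃ k, m k ≠ 0 := by
      by_contra hcon
      push Not at hcon
      exact h0 (funext hcon)
    rw [Finset.prod_eq_zero (Finset.mem_univ k) (if_neg hk), mul_zero]

theorem cnt0O (N : ℕ) : ∑ p ∈ range N ×ˢ range N, (if (p.1 : ℤ) - p.2 + 0 = 0 then (1 : ℂ) else 0) = N := by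
  rw [Finset.sum_product]
  have h : ∀ a ∈ range N, (∑ b ∈ range N, (if (a : ℤ) - b + 0 = 0 then (1 : ℂ) else 0)) = 1 := by
    intro a ha
    rw [Finset.sum_eq_single a]
    · simp
    · intro b _ hb
      rw [if_neg]
      omega
    · intro h; exact absurd ha h
  rw [Finset.sum_congr rfl h]
  simp

theorem cnt1O (N : ℕ) (hN : 1 ≤ N) :
    ∑ p ∈ range N ×ˢ range N, (if (p.1 : ℤ) - p.2 + 1 = 0 then (1 : ℂ) else 0) = (N : ℂ) - 1 := by
  obtain ⟨n, rfl⟩ : ∃ n, N = n + 1 := ⟨N - 1, by omega⟩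
  rw [Finset.sum_product]
  rw [Finset.sum_range_succ]
  have h : ∀ a ∈ range n, (∑ b ∈ range (n + 1), (if (a : ℤ) - b + 1 = 0 then (1 : ℂ) else 0)) = 1 := by
    intro a ha
    rw [Finset.mem_range] at ha
    rw [Finset.sum_eq_single (a + 1)]
    · simp
    · intro b _ hb
      rw [if_neg]
      omega
    · intro h
      exact absurd (Finset.mem_range.mpr (by omega)) h
  rw [Finset.sum_congr rfl h]
  have h2 : (∑ b ∈ range (n + 1), (if (n : ℤ) - b + 1 = 0 then (1 : ℂ) else 0)) = 0 := by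
    refine Finset.sum_eq_zero fun b hb => ?_
    rw [Finset.mem_range] at hb
    rw [if_neg]
    omega
  rw [h2]
  simp

theorem sum_sq_normO (U : Finset ℚ) (u : ℚ → ℂ) (M : ℕ) (y : ℕ → ℝ)
    (hy : ∀ p ∈ U ×ˢ U, p.2 - p.1 ≠ 0 → ∑ j ∈ range M, eeO (((p.2 - p.1 : ℚ) : ℝ) * y j) = 0) :
    ∑ j ∈ range M, ‖∑ g ∈ U, u g * exp (-(g : ℂ) * (y j * I))‖ ^ 2 = M * ∑ g ∈ U, ‖u g‖ ^ 2 := by
  classical
  have h1 : ((∑ j ∈ range M, ‖∑ g ∈ U, u g * exp (-(g : ℂ) * (y j * I))‖ ^ 2 : ℝ) : ℂ) =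
      ((M * ∑ g ∈ U, ‖u g‖ ^ 2 : ℝ) : ℂ) := by
    rw [ofReal_sum]
    have h2 : ∀ j ∈ range M, ((‖∑ g ∈ U, u g * exp (-(g : ℂ) * (y j * I))‖ ^ 2 : ℝ) : ℂ) =
        ∑ p ∈ U ×ˢ U, (u p.1 * (starRingEnd ℂ) (u p.2)) * eeO (((p.2 - p.1 : ℚ) : ℝ) * y j) := by
      intro j _
      rw [sq_norm_sumO]
      refine Finset.sum_congr rfl fun p _ => ?_
      rw [map_mul, ← exp_conj]
      unfold eeO
      rw [show (u p.1 * exp (-(p.1 : ℂ) * (y j * I))) * ((starRingEnd ℂ) (u p.2) *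
          exp ((starRingEnd ℂ) (-(p.2 : ℂ) * (y j * I)))) = (u p.1 * (starRingEnd ℂ) (u p.2)) *
          (exp (-(p.1 : ℂ) * (y j * I)) * exp ((starRingEnd ℂ) (-(p.2 : ℂ) * (y j * I)))) by ring, ← exp_add]
      congr 2
      simp only [map_mul, map_neg, conj_I, conj_ofReal, map_ratCast]
      push_cast
      ring
    rw [Finset.sum_congr rfl h2, Finset.sum_comm]
    have h3 : ∀ p ∈ U ×ˢ U, (∑ j ∈ range M, (u p.1 * (starRingEnd ℂ) (u p.2)) *
        eeO (((p.2 - p.1 : ℚ) : ℝ) * y j)) = if p.1 = p.2 then (M : ℂ) * ((‖u p.1‖ ^ 2 : ℝ) : ℂ) else 0 := by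
      intro p hp
      rw [← Finset.mul_sum]
      split_ifs with hpp
      · rw [hpp, mul_conj, normSq_eq_norm_sq]
        simp [eeO_zero]
        ring
      · rw [hy p hp (fun h => hpp (sub_eq_zero.mp h).symm), mul_zero]
    rw [Finset.sum_congr rfl h3, Finset.sum_product]
    push_cast
    rw [Finset.mul_sum]
    refine Finset.sum_congr rfl fun g hg => ?_
    rw [Finset.sum_ite_eq, if_pos hg]
  exact_mod_cast h1

/-- Weight `w(y) = ∏_{k∈J} N⁻¹ ‖∑_{j<N} e^{ij(t_k y - α_k)}‖² = N^{-|J|} ‖∑_{j ∈ [N]^J} e^{i⟨j, ty-α⟩}‖²`. Its mean is `1`,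
the mean of `w (1 - cos (t_k y - α_k))` is `1/N` (both by independence), and `w ≤ N^{|J|}`, so the mean of
`w ‖∑ u_g e^{-igy}‖²` is at most `N^{|J|} ∑ ‖u_g‖²`. Means over a common period of all the (rational)
frequencies. -/
theorem fejer_pick (J : Finset ℕ) (t : ℕ → ℚ) (α : ℕ → ℝ) (N : ℕ) (hN : 1 ≤ N)
    (hind : ∀ m : ℕ → ℤ, (∀ k, |m k| ≤ (N : ℤ)) → ∑ k ∈ J, (m k : ℚ) * t k = 0 → ∀ k ∈ J, m k = 0)
    (U V : Finset ℚ) (u v : ℚ → ℂ) (wt : ℕ → ℝ) (hwt : ∀ k, 0 ≤ wt k) (a b : ℝ) (ha : 0 ≤ a) (hb : 0 ≤ b) :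
    ∃ y : ℝ, (∑ k ∈ J, wt k * (1 - Real.cos (t k * y - α k))) +
        a * ‖∑ g ∈ U, u g * exp (-(g : ℂ) * (y * I))‖ ^ 2 + b * ‖∑ g ∈ V, v g * exp (-(g : ℂ) * (y * I))‖ ^ 2 ≤
      (∑ k ∈ J, wt k) / N + (N : ℝ) ^ J.card * (a * ∑ g ∈ U, ‖u g‖ ^ 2 + b * ∑ g ∈ V, ‖v g‖ ^ 2) := by
  classical
  obtain ⟨M, y, hM, hy⟩ := exists_timesO
    (((Fintype.piFinset fun _ : {k // k ∈ J} => Finset.Icc (-(N : ℤ)) N).image
        (fun m => ∑ k : {k // k ∈ J}, (m k : ℚ) * t k)) ∪ ((U ×ˢ U).image fun p => p.2 - p.1) ∪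
      ((V ×ˢ V).image fun p => p.2 - p.1))
  have hyU := sum_sq_normO U u M y (fun p hp h0 => hy _ (by
    refine Finset.mem_union_left _ (Finset.mem_union_right _ (Finset.mem_image.mpr ⟨p, hp, rfl⟩))) h0)
  have hyV := sum_sq_normO V v M y (fun p hp h0 => hy _ (by
    refine Finset.mem_union_right _ (Finset.mem_image.mpr ⟨p, hp, rfl⟩)) h0)
  have hindS : ∀ m : {k // k ∈ J} → ℤ, (∀ k, |m k| ≤ (N : ℤ)) →
      ∑ k : {k // k ∈ J}, (m k : ℚ) * t k = 0 → m = 0 := by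
    intro m hm h0
    have h1 := hind (fun k => if h : k ∈ J then m ⟨k, h⟩ else 0) (fun k => by
      split_ifs with h
      · exact hm _
      · simp) (by
      rw [← h0, ← Finset.sum_coe_sort J]
      refine Finset.sum_congr rfl fun k _ => ?_
      rw [dif_pos k.2])
    funext k
    have h2 := h1 k k.2
    rw [dif_pos k.2] at h2
    exact h2
  have hyS : ∀ m : {k // k ∈ J} → ℤ, (∀ k, |m k| ≤ (N : ℤ)) → ∑ k : {k // k ∈ J}, (m k : ℚ) * t k ≠ 0 →
      ∑ j ∈ range M, eeO (((∑ k : {k // k ∈ J}, (m k : ℚ) * t k : ℚ) : ℝ) * y j) = 0 := by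
    intro m hm h0
    refine hy _ (Finset.mem_union_left _ (Finset.mem_union_left _ (Finset.mem_image.mpr ⟨m, ?_, rfl⟩))) h0
    rw [Fintype.mem_piFinset]
    intro k
    rw [Finset.mem_Icc]
    exact abs_le.mp (hm k)
  -- the weights
  set w : ℕ → ℝ := fun j => ∏ k : {k // k ∈ J}, ‖∑ i ∈ range N, eeO (i * (t k * y j - α k))‖ ^ 2 with hw
  have hw0 : ∀ j, 0 ≤ w j := fun j => Finset.prod_nonneg fun k _ => sq_nonneg _
  have hwN : ∀ j, w j ≤ (N : ℝ) ^ J.card * (N : ℝ) ^ J.card := by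
    intro j
    have h1 : w j ≤ ∏ _k : {k // k ∈ J}, (N : ℝ) ^ 2 := by
      refine Finset.prod_le_prod (fun k _ => sq_nonneg _) fun k _ => ?_
      refine pow_le_pow_left₀ (norm_nonneg _) ?_ 2
      refine (norm_sum_le _ _).trans ?_
      simp [norm_eeO]
    refine h1.trans (le_of_eq ?_)
    rw [Finset.prod_const, Finset.card_univ, Fintype.card_coe, ← pow_mul, ← pow_add, two_mul]
  have hfac : ∀ (j : ℕ) (k : {k // k ∈ J}), ((‖∑ i ∈ range N, eeO (i * (t k * y j - α k))‖ ^ 2 : ℝ) : ℂ) =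
      ∑ p ∈ range N ×ˢ range N, eeO (((p.1 : ℝ) - p.2) * (t k * y j - α k)) := by
    intro j k
    rw [sq_norm_sumO]
    refine Finset.sum_congr rfl fun p _ => ?_
    rw [conj_eeO, ← eeO_add]
    congr 1
    ring
  have hsum1 : ∑ j ∈ range M, w j = M * (N : ℝ) ^ J.card := by
    have h1 := mean_wO (fun k : {k // k ∈ J} => t k) (fun k => α k) N M y hindS hyS (fun _ => 0)
      (fun _ => ⟨le_rfl, zero_le_one⟩)
    have h2 : ((∑ j ∈ range M, w j : ℝ) : ℂ) = ((M * (N : ℝ) ^ J.card : ℝ) : ℂ) := by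
      rw [ofReal_sum]
      have h3 : ∀ j ∈ range M, ((w j : ℝ) : ℂ) = ∏ k : {k // k ∈ J}, ∑ p ∈ range N ×ˢ range N,
          eeO (((p.1 : ℝ) - p.2 + ((0 : ℤ) : ℝ)) * (t k * y j - α k)) := by
        intro j _
        rw [hw]
        dsimp only
        rw [ofReal_prod]
        refine Finset.prod_congr rfl fun k _ => ?_
        rw [hfac]
        simp
      rw [Finset.sum_congr rfl h3, h1, cnt0O]
      rw [Finset.prod_const, Finset.card_univ, Fintype.card_coe]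
      push_cast
      rfl
    exact_mod_cast h2
  have hsum2 : ∀ k0 : {k // k ∈ J}, N * ∑ j ∈ range M, w j * (1 - Real.cos (t k0 * y j - α k0)) =
      M * (N : ℝ) ^ J.card := by
    intro k0
    have h1 := mean_wO (fun k : {k // k ∈ J} => t k) (fun k => α k) N M y hindS hyS (Pi.single k0 1)
      (fun k => by
        rcases eq_or_ne k k0 with h | h
        · rw [h, Pi.single_eq_same]; exact ⟨zero_le_one, le_rfl⟩
        · rw [Pi.single_eq_of_ne h]; exact ⟨le_rfl, zero_le_one⟩)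
    have h2 : ∑ j ∈ range M, ((w j : ℝ) : ℂ) * eeO (t k0 * y j - α k0) =
        M * (((N : ℂ) - 1) * (N : ℂ) ^ (J.card - 1)) := by
      have h3 : ∀ j ∈ range M, ((w j : ℝ) : ℂ) * eeO (t k0 * y j - α k0) =
          ∏ k : {k // k ∈ J}, ∑ p ∈ range N ×ˢ range N,
          eeO (((p.1 : ℝ) - p.2 + (((Pi.single k0 1 : {k // k ∈ J} → ℤ) k : ℤ) : ℝ)) * (t k * y j - α k)) := by
        intro j _
        have h4 : eeO (t k0 * y j - α k0) = ∏ k : {k // k ∈ J},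
            eeO ((((Pi.single k0 1 : {k // k ∈ J} → ℤ) k : ℤ) : ℝ) * (t k * y j - α k)) := by
          rw [Finset.prod_eq_single k0]
          · simp
          · intro k _ hk
            rw [Pi.single_eq_of_ne hk]
            simp [eeO_zero]
          · intro h; exact absurd (Finset.mem_univ _) h
        rw [hw, h4]
        dsimp only
        rw [ofReal_prod, ← Finset.prod_mul_distrib]
        refine Finset.prod_congr rfl fun k _ => ?_
        rw [hfac, Finset.sum_mul]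
        refine Finset.sum_congr rfl fun p _ => ?_
        rw [← eeO_add]
        congr 1
        ring
      rw [Finset.sum_congr rfl h3, h1]
      congr 1
      rw [← Finset.mul_prod_erase _ _ (Finset.mem_univ k0), Pi.single_eq_same, cnt1O N hN]
      congr 1
      have h5 : ∀ k ∈ Finset.univ.erase k0, (∑ p ∈ range N ×ˢ range N,
          (if (p.1 : ℤ) - p.2 + (Pi.single k0 1 : {k // k ∈ J} → ℤ) k = 0 then (1 : ℂ) else 0)) = N := by
        intro k hk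
        rw [Pi.single_eq_of_ne (Finset.ne_of_mem_erase hk), cnt0O]
      rw [Finset.prod_congr rfl h5, Finset.prod_const, Finset.card_erase_of_mem (Finset.mem_univ _),
        Finset.card_univ, Fintype.card_coe]
    have hre : ∑ j ∈ range M, w j * Real.cos (t k0 * y j - α k0) =
        M * (((N : ℝ) - 1) * (N : ℝ) ^ (J.card - 1)) := by
      have h6 := congrArg Complex.re h2
      rw [re_sum] at h6
      have h7 : (M * (((N : ℂ) - 1) * (N : ℂ) ^ (J.card - 1))) =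
          ((M * (((N : ℝ) - 1) * (N : ℝ) ^ (J.card - 1)) : ℝ) : ℂ) := by push_cast; rfl
      rw [h7, ofReal_re] at h6
      rw [← h6]
      refine Finset.sum_congr rfl fun j _ => ?_
      rw [re_ofReal_mul, re_eeO]
    have hc : 1 ≤ J.card := Finset.card_pos.mpr ⟨k0, k0.2⟩
    have hpw : (N : ℝ) ^ J.card = N * (N : ℝ) ^ (J.card - 1) := by
      rw [← pow_succ', Nat.sub_add_cancel hc]
    simp_rw [mul_sub, mul_one]
    rw [Finset.sum_sub_distrib, hre, hsum1, hpw]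
    ring
  -- the average
  by_contra hcon
  push Not at hcon
  have hNpos : (0 : ℝ) < N := by exact_mod_cast hN
  have hMpos : (0 : ℝ) < M := by exact_mod_cast hM
  set R : ℝ := (∑ k ∈ J, wt k) / N +
    (N : ℝ) ^ J.card * (a * ∑ g ∈ U, ‖u g‖ ^ 2 + b * ∑ g ∈ V, ‖v g‖ ^ 2) with hR
  have hpow : (0 : ℝ) < (N : ℝ) ^ J.card := pow_pos hNpos _
  have hlt : ∑ j ∈ range M, w j * R < ∑ j ∈ range M, w j *
      ((∑ k ∈ J, wt k * (1 - Real.cos (t k * y j - α k))) +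
        a * ‖∑ g ∈ U, u g * exp (-(g : ℂ) * (y j * I))‖ ^ 2 +
        b * ‖∑ g ∈ V, v g * exp (-(g : ℂ) * (y j * I))‖ ^ 2) := by
    refine Finset.sum_lt_sum (fun j _ => mul_le_mul_of_nonneg_left (hcon (y j)).le (hw0 j)) ?_
    have h1 : 0 < ∑ j ∈ range M, w j := by rw [hsum1]; positivity
    obtain ⟨j, hj, hj0⟩ : ∃ j ∈ range M, 0 < w j := by
      by_contra hno
      push Not at hno
      exact absurd h1 (not_lt.mpr (Finset.sum_nonpos hno))
    exact ⟨j, hj, mul_lt_mul_of_pos_left (hcon (y j)) hj0⟩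
  rw [← Finset.sum_mul, hsum1] at hlt
  have hA : ∑ j ∈ range M, w j * (∑ k ∈ J, wt k * (1 - Real.cos (t k * y j - α k))) =
      M * (N : ℝ) ^ J.card * ((∑ k ∈ J, wt k) / N) := by
    have h1 : ∀ j ∈ range M, w j * (∑ k ∈ J, wt k * (1 - Real.cos (t k * y j - α k))) =
        ∑ k : {k // k ∈ J}, wt k * (w j * (1 - Real.cos (t k * y j - α k))) := by
      intro j _
      rw [← Finset.sum_coe_sort J, Finset.mul_sum]
      refine Finset.sum_congr rfl fun k _ => ?_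
      ring
    rw [Finset.sum_congr rfl h1, Finset.sum_comm]
    have h2 : ∀ k ∈ (Finset.univ : Finset {k // k ∈ J}),
        (∑ j ∈ range M, wt k * (w j * (1 - Real.cos (t k * y j - α k)))) =
        wt k * (M * (N : ℝ) ^ J.card / N) := by
      intro k _
      rw [← Finset.mul_sum, ← hsum2 k]
      congr 1
      field_simp
    rw [Finset.sum_congr rfl h2, ← Finset.sum_mul, Finset.sum_coe_sort J (fun k => wt k)]
    ring
  have hB : ∀ (c : ℝ) (W : Finset ℚ) (z : ℚ → ℂ), 0 ≤ c →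
      ∑ j ∈ range M, ‖∑ g ∈ W, z g * exp (-(g : ℂ) * (y j * I))‖ ^ 2 = M * ∑ g ∈ W, ‖z g‖ ^ 2 →
      ∑ j ∈ range M, w j * (c * ‖∑ g ∈ W, z g * exp (-(g : ℂ) * (y j * I))‖ ^ 2) ≤
        M * (N : ℝ) ^ J.card * ((N : ℝ) ^ J.card * (c * ∑ g ∈ W, ‖z g‖ ^ 2)) := by
    intro c W z hc hz
    have h1 : ∑ j ∈ range M, w j * (c * ‖∑ g ∈ W, z g * exp (-(g : ℂ) * (y j * I))‖ ^ 2) ≤
        ∑ j ∈ range M, ((N : ℝ) ^ J.card * (N : ℝ) ^ J.card) *
          (c * ‖∑ g ∈ W, z g * exp (-(g : ℂ) * (y j * I))‖ ^ 2) :=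
      Finset.sum_le_sum fun j _ => mul_le_mul_of_nonneg_right (hwN j) (mul_nonneg hc (sq_nonneg _))
    refine h1.trans (le_of_eq ?_)
    rw [← Finset.mul_sum, ← Finset.mul_sum, hz]
    ring
  have hle : ∑ j ∈ range M, w j *
      ((∑ k ∈ J, wt k * (1 - Real.cos (t k * y j - α k))) +
        a * ‖∑ g ∈ U, u g * exp (-(g : ℂ) * (y j * I))‖ ^ 2 +
        b * ‖∑ g ∈ V, v g * exp (-(g : ℂ) * (y j * I))‖ ^ 2) ≤ M * (N : ℝ) ^ J.card * R := by
    simp_rw [mul_add]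
    rw [Finset.sum_add_distrib, Finset.sum_add_distrib, hA]
    have h1 := hB a U u ha hyU
    have h2 := hB b V v hb hyV
    rw [hR]
    nlinarith
  linarith

end Pool.Agent.QF
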