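import Pool.Agent.QF.O1
import Pool.Agent.QF.O2
import Pool.Agent.QF.O3

/-! OV: consecutive windows have the same zero-free factor. -/

namespace Pool.Agent.QF

open Complex

/-- `e^{-z} ≤ x^60000` for `z ≥ x^{-99}/4`. -/
theorem ov_exp_small {x z : ℝ} (hx0 : 0 < x) (hx1 : x ≤ (1 / 2) ^ 100) (hz : 1 ≤ 4 * z * x ^ 99) :
    Real.exp (-z) ≤ x ^ 60000 := by
  have h1 : Real.exp (60000 * Real.log x) = x ^ 60000 := by
    rw [show (60000 : ℝ) = ((60000 : ℕ) : ℝ) by norm_num, ← Real.log_pow, Real.exp_log (by positivity)]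
  rw [← h1, Real.exp_le_exp]
  have h2 : 1 - x⁻¹ ≤ Real.log x := Real.one_sub_inv_le_log_of_pos hx0
  have hx2 : x ≤ 1 / 240000 := hx1.trans (by norm_num)
  have hx3 : x ≤ 1 := hx2.trans (by norm_num)
  have h4 : x ^ 98 ≤ 1 / 240000 := by
    calc x ^ 98 ≤ x ^ 1 := pow_le_pow_of_le_one hx0.le hx3 (by norm_num)
      _ = x := pow_one x
      _ ≤ _ := hx2
  have hz0 : 0 < z := by
    by_contra hneg
    push Not at hneg
    have : 0 < x ^ 99 := by positivity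
    nlinarith
  have h5 : 60000 ≤ z * x := by
    have h6 : x ^ 99 = x * x ^ 98 := by rw [← pow_succ']
    rw [h6] at hz
    have h7 : z * x * x ^ 98 ≤ z * x * (1 / 240000) := mul_le_mul_of_nonneg_left h4 (by positivity)
    nlinarith
  have h3 : 60000 * x⁻¹ ≤ z := by
    rw [← div_eq_mul_inv, div_le_iff₀ hx0]
    exact h5
  nlinarith

theorem ov_norm_term (t : ℕ → ℚ) (k : ℕ) (s : ℂ) :
    ‖(amp k : ℂ) * exp (-(t k : ℂ) * s)‖ = amp k * Real.exp (-(t k : ℝ) * s.re) := by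
  rw [norm_mul, Complex.norm_exp, Complex.norm_real, Real.norm_of_nonneg (amp_pos k).le]
  congr 2
  simp [Complex.mul_re]

theorem ov_chord (u v : ℝ) : ‖exp (-(u : ℂ) * I) - exp (-(v : ℂ) * I)‖ ^ 2 = 2 * (1 - Real.cos (u - v)) := by
  have h1 : ∀ w : ℝ, exp (-(w : ℂ) * I) = ⟨Real.cos w, -Real.sin w⟩ := by
    intro w
    have : -(w : ℂ) * I = ((-w : ℝ) : ℂ) * I := by push_cast; ring
    rw [this, Complex.exp_mul_I, ← Complex.ofReal_cos, ← Complex.ofReal_sin, Real.cos_neg, Real.sin_neg]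
    apply Complex.ext
    · simp [Complex.mul_re, -Complex.ofReal_cos, -Complex.ofReal_sin]
    · simp [Complex.mul_im, -Complex.ofReal_cos, -Complex.ofReal_sin]
  rw [h1, h1, ← Complex.normSq_eq_norm_sq, Complex.normSq_apply]
  simp only [Complex.sub_re, Complex.sub_im]
  rw [Real.cos_sub]
  nlinarith [Real.sin_sq_add_cos_sq u, Real.sin_sq_add_cos_sq v]

theorem ov_summable {t : ℕ → ℚ} (hsz : Sizes t) {s : ℂ} (hs : 0 ≤ s.re) :
    Summable fun k => (amp k : ℂ) * exp (-(t k : ℂ) * s) := by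
  refine Summable.of_norm_bounded amp_summable fun k => ?_
  rw [ov_norm_term]
  have h1 : 0 ≤ (t k : ℝ) := le_trans (by have := tau_pos k; positivity) (hsz k).1
  have h2 : Real.exp (-(t k : ℝ) * s.re) ≤ 1 := by
    rw [Real.exp_le_one_iff]
    nlinarith
  have := amp_pos k
  nlinarith

/-- The bound for `|f(s)|`. -/
theorem ov_f_bound {t : ℕ → ℚ} (hsz : Sizes t) (n M : ℕ) {σ y δ e : ℝ} (hσ : 0 ≤ σ) (φ : ℕ → ℝ)
    (hφ : ∑ j ∈ Finset.range (M + 1),
      ((amp (n + 1 + j) * Real.exp (-(t (n + 1 + j) : ℝ) * σ) : ℝ) : ℂ) * exp ((φ j : ℂ) * I) = 0)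
    (hδ : 0 ≤ δ)
    (hcos : ∑ k ∈ Finset.Ico (n + 1) (n + 1 + (M + 1)), (amp k * Real.exp (-(t k : ℝ) * σ)) *
      (1 - Real.cos (t k * y - (-φ (k - (n + 1))))) ≤ δ ^ 2 / 400)
    (he : ∀ k, k ≤ n → Real.exp (-(t k : ℝ) * σ) ≤ e) :
    ‖∑' k, (amp k : ℂ) * exp (-(t k : ℂ) * ((σ : ℂ) + y * I))‖ ≤ 200 * e + δ + 200 * amp (n + 1 + (M + 1)) := by
  set s : ℂ := (σ : ℂ) + y * I with hs
  have hre : s.re = σ := by simp [hs]
  have hsum := ov_summable hsz (s := s) (by rw [hre]; exact hσ)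
  have ht0 : ∀ k, 0 ≤ (t k : ℝ) := fun k => le_trans (by have := tau_pos k; positivity) (hsz k).1
  have hexp1 : ∀ k, Real.exp (-(t k : ℝ) * σ) ≤ 1 := by
    intro k
    rw [Real.exp_le_one_iff]
    nlinarith [ht0 k]
  have hterm : ∀ k, ‖(amp k : ℂ) * exp (-(t k : ℂ) * s)‖ ≤ amp k := by
    intro k
    rw [ov_norm_term, hre]
    have := amp_pos k
    nlinarith [hexp1 k]
  have hsplit := hsum.sum_add_tsum_nat_add (n + 1 + (M + 1))
  rw [← Finset.sum_range_add_sum_Ico _ (show n + 1 ≤ n + 1 + (M + 1) by omega)] at hsplit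
  rw [← hsplit]
  -- the dead terms
  have h1 : ‖∑ k ∈ Finset.range (n + 1), (amp k : ℂ) * exp (-(t k : ℂ) * s)‖ ≤ 200 * e := by
    have he0 : 0 ≤ e := le_trans (Real.exp_pos _).le (he 0 (Nat.zero_le _))
    calc ‖∑ k ∈ Finset.range (n + 1), (amp k : ℂ) * exp (-(t k : ℂ) * s)‖
        ≤ ∑ k ∈ Finset.range (n + 1), ‖(amp k : ℂ) * exp (-(t k : ℂ) * s)‖ := norm_sum_le _ _
      _ ≤ ∑ k ∈ Finset.range (n + 1), amp k * e := by
          refine Finset.sum_le_sum fun k hk => ?_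
          rw [ov_norm_term, hre]
          exact mul_le_mul_of_nonneg_left (he k (by have := Finset.mem_range.mp hk; omega)) (amp_pos k).le
      _ = (∑ k ∈ Finset.range (n + 1), amp k) * e := by rw [Finset.sum_mul]
      _ ≤ (200 * amp 0) * e :=
          mul_le_mul_of_nonneg_right (amp_sum_le 0 _ fun k _ => Nat.zero_le k) he0
      _ ≤ 200 * e := by
          have := amp_le_one 0
          nlinarith
  -- the tail
  have h3 : ‖∑' i, (amp (i + (n + 1 + (M + 1))) : ℂ) * exp (-(t (i + (n + 1 + (M + 1))) : ℂ) * s)‖ ≤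
      200 * amp (n + 1 + (M + 1)) := by
    have hs1 : Summable fun i => amp (i + (n + 1 + (M + 1))) :=
      (summable_nat_add_iff (f := amp) (n + 1 + (M + 1))).mpr amp_summable
    have hle : ‖∑' i, (amp (i + (n + 1 + (M + 1))) : ℂ) * exp (-(t (i + (n + 1 + (M + 1))) : ℂ) * s)‖ ≤
        ∑' i, amp (i + (n + 1 + (M + 1))) :=
      tsum_of_norm_bounded hs1.hasSum fun i => hterm _
    refine hle.trans ?_
    have := amp_tail (n + 1 + (M + 1))
    refine le_trans (le_of_eq ?_) this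
    exact tsum_congr fun i => by rw [add_comm]
  -- the controlled terms
  have h2 : ‖∑ k ∈ Finset.Ico (n + 1) (n + 1 + (M + 1)), (amp k : ℂ) * exp (-(t k : ℂ) * s)‖ ≤ δ := by
    set ρ : ℕ → ℝ := fun k => amp k * Real.exp (-(t k : ℝ) * σ) with hρ
    have hρ0 : ∀ k, 0 ≤ ρ k := fun k => mul_nonneg (amp_pos k).le (Real.exp_pos _).le
    have hρs : ∑ k ∈ Finset.Ico (n + 1) (n + 1 + (M + 1)), ρ k ≤ 200 := by
      calc ∑ k ∈ Finset.Ico (n + 1) (n + 1 + (M + 1)), ρ k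
          ≤ ∑ k ∈ Finset.Ico (n + 1) (n + 1 + (M + 1)), amp k := by
            refine Finset.sum_le_sum fun k _ => ?_
            have := amp_pos k
            simp only [hρ]
            nlinarith [hexp1 k]
        _ ≤ 200 * amp 0 := amp_sum_le 0 _ fun k _ => Nat.zero_le k
        _ ≤ 200 := by have := amp_le_one 0; linarith
    -- the exact polygon
    have hpoly : ∑ k ∈ Finset.Ico (n + 1) (n + 1 + (M + 1)),
        (ρ k : ℂ) * exp (-((-φ (k - (n + 1)) : ℝ) : ℂ) * I) = 0 := by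
      rw [Finset.sum_Ico_eq_sum_range]
      rw [show n + 1 + (M + 1) - (n + 1) = M + 1 by omega, ← hφ]
      refine Finset.sum_congr rfl fun j _ => ?_
      rw [show n + 1 + j - (n + 1) = j by omega]
      simp only [hρ]
      congr 2
      push_cast
      ring
    have heq : ∑ k ∈ Finset.Ico (n + 1) (n + 1 + (M + 1)), (amp k : ℂ) * exp (-(t k : ℂ) * s) =
        ∑ k ∈ Finset.Ico (n + 1) (n + 1 + (M + 1)),
          (ρ k : ℂ) * (exp (-((t k * y : ℝ) : ℂ) * I) - exp (-((-φ (k - (n + 1)) : ℝ) : ℂ) * I)) := by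
      simp only [mul_sub, Finset.sum_sub_distrib]
      rw [hpoly, sub_zero]
      refine Finset.sum_congr rfl fun k _ => ?_
      simp only [hρ]
      rw [Complex.ofReal_mul, Complex.ofReal_exp, mul_assoc, ← Complex.exp_add]
      congr 2
      rw [hs]
      push_cast
      ring
    rw [heq]
    refine (norm_sum_le _ _).trans ?_
    have hcs := Finset.sum_sq_le_sum_mul_sum_of_sq_le_mul (Finset.Ico (n + 1) (n + 1 + (M + 1)))
      (r := fun k => ‖(ρ k : ℂ) * (exp (-((t k * y : ℝ) : ℂ) * I) - exp (-((-φ (k - (n + 1)) : ℝ) : ℂ) * I))‖)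
      (f := ρ) (g := fun k => ρ k * (2 * (1 - Real.cos (t k * y - (-φ (k - (n + 1)))))))
      (fun k _ => hρ0 k) (fun k _ => mul_nonneg (hρ0 k) (by
        have := Real.cos_le_one (t k * y - (-φ (k - (n + 1))))
        linarith)) (fun k _ => le_of_eq (by
        rw [norm_mul, mul_pow, ov_chord, Complex.norm_real, Real.norm_of_nonneg (hρ0 k)]
        ring))
    have hg : ∑ k ∈ Finset.Ico (n + 1) (n + 1 + (M + 1)),
        ρ k * (2 * (1 - Real.cos (t k * y - (-φ (k - (n + 1)))))) ≤ δ ^ 2 / 200 := by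
      calc _ = 2 * ∑ k ∈ Finset.Ico (n + 1) (n + 1 + (M + 1)),
            ρ k * (1 - Real.cos (t k * y - (-φ (k - (n + 1))))) := by
            rw [Finset.mul_sum]
            refine Finset.sum_congr rfl fun k _ => ?_
            ring
        _ ≤ 2 * (δ ^ 2 / 400) := by
            exact mul_le_mul_of_nonneg_left hcos (by norm_num)
        _ = δ ^ 2 / 200 := by ring
    have hg0 : 0 ≤ ∑ k ∈ Finset.Ico (n + 1) (n + 1 + (M + 1)),
        ρ k * (2 * (1 - Real.cos (t k * y - (-φ (k - (n + 1)))))) :=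
      Finset.sum_nonneg fun k _ => mul_nonneg (hρ0 k) (by
        have := Real.cos_le_one (t k * y - (-φ (k - (n + 1))))
        linarith)
    refine abs_le_of_sq_le_sq' ?_ hδ |>.2
    refine hcs.trans ?_
    calc _ ≤ 200 * (δ ^ 2 / 200) := mul_le_mul hρs hg hg0 (by norm_num)
      _ = δ ^ 2 := by ring
  calc _ ≤ ‖∑ k ∈ Finset.range (n + 1), (amp k : ℂ) * exp (-(t k : ℂ) * s) +
        ∑ k ∈ Finset.Ico (n + 1) (n + 1 + (M + 1)), (amp k : ℂ) * exp (-(t k : ℂ) * s)‖ +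
        ‖∑' i, (amp (i + (n + 1 + (M + 1))) : ℂ) * exp (-(t (i + (n + 1 + (M + 1))) : ℂ) * s)‖ := norm_add_le _ _
    _ ≤ (‖∑ k ∈ Finset.range (n + 1), (amp k : ℂ) * exp (-(t k : ℂ) * s)‖ +
        ‖∑ k ∈ Finset.Ico (n + 1) (n + 1 + (M + 1)), (amp k : ℂ) * exp (-(t k : ℂ) * s)‖) + _ := by
        gcongr
        exact norm_add_le _ _
    _ ≤ 200 * e + δ + 200 * amp (n + 1 + (M + 1)) := by
        gcongr

/-- The side conditions of the polygon. -/
theorem ov_polygon {t : ℕ → ℚ} (hsz : Sizes t) (n M : ℕ) (hM : 2 ≤ M) {σ : ℝ} (hσ0 : 0 ≤ σ)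
    (hσ : σ * tau (n + 1) ≤ 1 / 2) :
    ∃ φ : ℕ → ℝ, ∑ j ∈ Finset.range (M + 1),
      ((amp (n + 1 + j) * Real.exp (-(t (n + 1 + j) : ℝ) * σ) : ℝ) : ℂ) * exp ((φ j : ℂ) * I) = 0 := by
  have ht0 : ∀ k, 0 ≤ (t k : ℝ) := fun k => le_trans (by have := tau_pos k; positivity) (hsz k).1
  have hexp1 : ∀ k, Real.exp (-(t k : ℝ) * σ) ≤ 1 := by
    intro k
    rw [Real.exp_le_one_iff]
    nlinarith [ht0 k]
  have hexp2 : ∀ k, n + 1 ≤ k → 1 / 2 ≤ Real.exp (-(t k : ℝ) * σ) := by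
    intro k hk
    have h1 : (t k : ℝ) * σ ≤ 1 / 2 := by
      have := (hsz k).2
      have h3 := tau_anti hk
      calc (t k : ℝ) * σ ≤ tau (n + 1) * σ := mul_le_mul_of_nonneg_right (this.trans h3) hσ0
        _ ≤ 1 / 2 := by linarith
    have := Real.add_one_le_exp (-(t k : ℝ) * σ)
    linarith
  have hexp3 : ∀ k, n + 2 ≤ k → 99 / 100 ≤ Real.exp (-(t k : ℝ) * σ) := by
    intro k hk
    have h1 : (t k : ℝ) * σ ≤ 1 / 100 := by
      have h2 := (hsz k).2
      have h3 := tau_anti hk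
      have h4 : tau (n + 2) ≤ tau (n + 1) * (1 / 50) := by
        rw [show n + 2 = n + 1 + 1 from rfl, tau_succ]
        have h5 := tau_le (n + 1)
        have h6 := tau_pos (n + 1)
        have h7 : tau (n + 1) ≤ 1 / 50 := h5.trans (by norm_num)
        have h8 : tau (n + 1) ^ 99 ≤ 1 / 50 := by
          calc tau (n + 1) ^ 99 ≤ tau (n + 1) ^ 1 :=
                pow_le_pow_of_le_one h6.le (h7.trans (by norm_num)) (by norm_num)
            _ = tau (n + 1) := pow_one _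
            _ ≤ _ := h7
        calc tau (n + 1) ^ 100 = tau (n + 1) * tau (n + 1) ^ 99 := by rw [← pow_succ']
          _ ≤ _ := mul_le_mul_of_nonneg_left h8 h6.le
      calc (t k : ℝ) * σ ≤ (tau (n + 1) * (1 / 50)) * σ :=
            mul_le_mul_of_nonneg_right (h2.trans (h3.trans h4)) hσ0
        _ ≤ 1 / 100 := by linarith
    have := Real.add_one_le_exp (-(t k : ℝ) * σ)
    linarith
  have hamp2 : amp (n + 1 + 2) = 99 / 100 * amp (n + 1) := amp_add_two _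
  have hamp1 : amp (n + 1 + 1) ≤ amp (n + 1) := amp_anti (by omega)
  have hamp1' : 99 / 100 * amp (n + 1) ≤ amp (n + 1 + 1) := by
    rw [← hamp2]
    exact amp_anti (by omega)
  have hp := amp_pos (n + 1)
  have hp1 := amp_pos (n + 1 + 1)
  have hp2 := amp_pos (n + 1 + 2)
  have e0 := hexp1 (n + 1 + 0)
  have e1 := hexp1 (n + 1 + 1)
  have e2 := hexp1 (n + 1 + 2)
  have f0 := hexp2 (n + 1 + 0) (by omega)
  have f1 := hexp3 (n + 1 + 1) (by omega)
  have f2 := hexp3 (n + 1 + 2) (by omega)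
  rw [Nat.add_zero] at e0 f0
  refine polygon M hM (fun j => amp (n + 1 + j) * Real.exp (-(t (n + 1 + j) : ℝ) * σ)) ?_ ?_ ?_ ?_ ?_
  · intro k
    exact mul_pos (amp_pos _) (Real.exp_pos _)
  · intro k _
    have h1 : amp (n + 1 + (k + 1)) ≤ amp (n + 1 + k) := amp_anti (by omega)
    have h2 := hexp1 (n + 1 + (k + 1))
    have h3 := hexp2 (n + 1 + k) (by omega)
    have h4 := amp_pos (n + 1 + (k + 1))
    have h5 := amp_pos (n + 1 + k)
    nlinarith
  · simp only [Nat.add_zero]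
    nlinarith
  · simp only [Nat.add_zero]
    nlinarith
  · simp only [Nat.add_zero]
    nlinarith

/-- The tail of the amplitudes is eventually small. -/
theorem ov_amp_small (m : ℕ) {y : ℝ} (hy : 0 < y) : ∃ M : ℕ, 2 ≤ M ∧ 200 * amp (m + M) ≤ y := by
  obtain ⟨p, hp⟩ := exists_pow_lt_of_lt_one (show 0 < y / 200 by positivity) (show (99 / 100 : ℝ) < 1 by norm_num)
  refine ⟨2 * p + 2, by omega, ?_⟩
  have h1 : amp (m + (2 * p + 2)) ≤ (99 / 100 : ℝ) ^ p := by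
    unfold amp
    exact pow_le_pow_of_le_one (by norm_num) (by norm_num) (by omega)
  linarith

/-- From genericity to the hypothesis of `fejer_pick`. -/
theorem ov_ind {t : ℕ → ℚ} {K : ℕ → ℕ} (hI : Ind t K) (n N : ℕ) (hN : N ≤ K n) (J : Finset ℕ)
    (hJ : ∀ k ∈ J, n < k) (m : ℕ → ℤ) (hm : ∀ k, |m k| ≤ (N : ℤ)) (h0 : ∑ k ∈ J, (m k : ℚ) * t k = 0) :
    ∀ k ∈ J, m k = 0 := by
  classical
  intro k hk
  let m' : ℕ →₀ ℤ := Finsupp.onFinset J (fun k => if k ∈ J then m k else 0) (by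
    intro a ha
    by_contra hc
    exact ha (if_neg hc))
  have hval : ∀ k, m' k = if k ∈ J then m k else 0 := fun k => Finsupp.onFinset_apply
  have h1 : (m'.sum fun k c => (c : ℚ) * t k) = 0 := by
    rw [Finsupp.onFinset_sum _ (fun a => by simp), ← h0]
    refine Finset.sum_congr rfl fun k hk => ?_
    rw [if_pos hk]
  have h2 := hI n m' (fun k => by
    rw [hval]
    split_ifs
    · exact (hm k).trans (by exact_mod_cast hN)
    · simp) h1 k (hJ k hk)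
  rw [hval, if_pos hk] at h2
  exact h2

/-- The part with small coefficients. -/
theorem ov_small_coef {L θ θ₀ S σ : ℝ} {c : ℚ → ℂ} {U : Finset ℚ} (hθ : θ ≤ θ₀) (hθ₀ : 0 ≤ θ₀) (hS : 0 ≤ S)
    (hSσ : S ≤ σ) (hU0 : ∀ g ∈ U, 0 < g) (hU1 : ∀ g ∈ U, ‖c g‖ * Real.exp (-(g : ℝ) * S) ≤ θ)
    (hU2 : ∑ g ∈ U, ‖c g‖ ≤ L) :
    ∑ g ∈ U, ‖c g * exp (-(g : ℂ) * (σ : ℂ))‖ ^ 2 ≤ θ₀ * L := by
  calc ∑ g ∈ U, ‖c g * exp (-(g : ℂ) * (σ : ℂ))‖ ^ 2 ≤ ∑ g ∈ U, θ₀ * ‖c g‖ := by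
        refine Finset.sum_le_sum fun g hg => ?_
        have hg0 : (0 : ℝ) < g := by exact_mod_cast hU0 g hg
        have h1 : ‖c g * exp (-(g : ℂ) * (σ : ℂ))‖ = ‖c g‖ * Real.exp (-(g : ℝ) * σ) := by
          rw [norm_mul, Complex.norm_exp]
          congr 2
          simp [Complex.mul_re]
        have h2 : Real.exp (-(g : ℝ) * σ) ≤ 1 := by
          rw [Real.exp_le_one_iff]
          nlinarith
        have h3 : Real.exp (-(g : ℝ) * σ) ≤ Real.exp (-(g : ℝ) * S) := by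
          rw [Real.exp_le_exp]
          nlinarith
        have h4 := hU1 g hg
        have h5 := norm_nonneg (c g)
        have h6 := Real.exp_pos (-(g : ℝ) * σ)
        rw [h1, sq]
        refine mul_le_mul ?_ ?_ (by positivity) hθ₀
        · exact (mul_le_mul_of_nonneg_left h3 h5).trans (h4.trans hθ)
        · nlinarith
    _ = θ₀ * ∑ g ∈ U, ‖c g‖ := by rw [Finset.mul_sum]
    _ ≤ θ₀ * L := mul_le_mul_of_nonneg_left hU2 hθ₀

theorem ov_poly_eq (c : ℚ → ℂ) (U : Finset ℚ) (σ y : ℝ) :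
    poly c U ((σ : ℂ) + y * I) = ∑ g ∈ U, (c g * exp (-(g : ℂ) * (σ : ℂ))) * exp (-(g : ℂ) * ((y : ℂ) * I)) := by
  unfold poly
  refine Finset.sum_congr rfl fun g _ => ?_
  rw [mul_assoc, ← Complex.exp_add]
  congr 2
  ring

theorem overlap (n : ℕ) : ∃ θ₀ : ℝ, 0 < θ₀ ∧ ∃ K₀ : ℕ, ∀ (t : ℕ → ℚ) (K : ℕ → ℕ), K₀ ≤ K n → Sizes t → Ind t K →
    ∀ (L : ℝ) (b c : ℚ → ℂ), Fac t L b c → L ≤ n + 1 → SmallL n L →
    ∀ (A C : Finset ℚ) (θ θ' : ℝ), θ ≤ θ₀ → θ' ≤ θ₀ →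
      Split c (Slev n) (vth n) θ C → Split b (Slev (n + 1)) (vth (n + 1)) θ' A →
      (∀ s : ℂ, Slev n ≤ s.re → s.re ≤ Elev n → tau n ^ 500 ≤ ‖poly c C s‖) →
      (∀ s : ℂ, Slev (n + 1) ≤ s.re → s.re ≤ Elev (n + 1) → tau (n + 1) ^ 500 ≤ ‖poly b A s‖) → False := by
  set x : ℝ := tau n with hx
  have hx0 : 0 < x := tau_pos n
  have hx1 : x ≤ (1 / 2) ^ 100 := tau_le n
  have hx2 : x ≤ 1 / 1000 := hx1.trans (by norm_num)
  have hx3 : x ≤ 1 := hx2.trans (by norm_num)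
  obtain ⟨y, hy⟩ : ∃ y : ℝ, y = x ^ 60000 := ⟨_, rfl⟩
  have hy0 : 0 < y := by rw [hy]; positivity
  obtain ⟨M, hM, hM'⟩ := ov_amp_small (n + 1 + 1) hy0
  obtain ⟨N, hN⟩ : ∃ N : ℕ, N = ⌈160000 / y ^ 2⌉₊ := ⟨_, rfl⟩
  have hN1 : 160000 / y ^ 2 ≤ N := by rw [hN]; exact Nat.le_ceil _
  have hNpos : (0 : ℝ) < N := lt_of_lt_of_le (by positivity) hN1
  have hNge : 1 ≤ N := by exact_mod_cast hNpos
  obtain ⟨θ₀, hθ₀⟩ : ∃ θ₀ : ℝ, θ₀ = y ^ 2 / (1600 * ((n : ℝ) + 1) * (N : ℝ) ^ (M + 1)) := ⟨_, rfl⟩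
  have hθ₀pos : 0 < θ₀ := by rw [hθ₀]; positivity
  refine ⟨θ₀, hθ₀pos, N, ?_⟩
  intro t K hK hsz hI L b c hF hL hSm A C θ θ' hθ hθ' hC hA hCl hAl
  have htau1 : tau (n + 1) = x ^ 100 := tau_succ n
  obtain ⟨σ, hσ⟩ : ∃ σ : ℝ, σ = Elev n / 2 := ⟨_, rfl⟩
  have hσE : σ * x ^ 100 = 1 / 2 := by
    rw [hσ, Elev_eq, htau1]
    field_simp
  have hE0 := Elev_pos n
  have hσ0 : 0 < σ := by rw [hσ]; positivity
  have hS1σ : Slev (n + 1) ≤ σ := by rw [hσ]; exact Slev_succ_le n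
  have hSS : Slev n ≤ Slev (n + 1) := by
    unfold Slev
    refine pow_le_pow_right₀ (by norm_num) ?_
    exact Nat.mul_le_mul_left _ (Nat.pow_le_pow_right (by norm_num) (by omega))
  have hSσ : Slev n ≤ σ := hSS.trans hS1σ
  have hσE' : σ ≤ Elev n := by rw [hσ]; linarith
  have hEE : Elev n ≤ Elev (n + 1) := by
    unfold Elev
    refine pow_le_pow_right₀ (by norm_num) ?_
    exact Nat.pow_le_pow_right (by norm_num) (by omega)
  obtain ⟨φ, hφ⟩ := ov_polygon hsz n M hM hσ0.le (by rw [htau1, hσE])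
  obtain ⟨U, hU0, hU1, hU2, hU3⟩ := ser_split hF.posc hF.sumc hF.normc (Slev_pos n).le hC hy0
  obtain ⟨V, hV0, hV1, hV2, hV3⟩ := ser_split hF.posb hF.sumb hF.normb (Slev_pos (n + 1)).le hA hy0
  have ht0 : ∀ k, 0 ≤ (t k : ℝ) := fun k => le_trans (by have := tau_pos k; positivity) (hsz k).1
  have hexp1 : ∀ k, Real.exp (-(t k : ℝ) * σ) ≤ 1 := by
    intro k
    rw [Real.exp_le_one_iff]
    nlinarith [ht0 k]
  have hwt : ∀ k, 0 ≤ amp k * Real.exp (-(t k : ℝ) * σ) := fun k => mul_nonneg (amp_pos k).le (Real.exp_pos _).le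
  obtain ⟨w, hw⟩ := fejer_pick (Finset.Ico (n + 1) (n + 1 + (M + 1))) t (fun k => -φ (k - (n + 1))) N hNge
    (ov_ind hI n N hK (Finset.Ico (n + 1) (n + 1 + (M + 1))) (fun k hk => by
      have := (Finset.mem_Ico.mp hk).1; omega)) U V
    (fun g => c g * exp (-(g : ℂ) * (σ : ℂ))) (fun g => b g * exp (-(g : ℂ) * (σ : ℂ)))
    (fun k => amp k * Real.exp (-(t k : ℝ) * σ)) hwt 1 1 zero_le_one zero_le_one
  -- the right side is at most `y²/400`
  have hrhs : (∑ k ∈ Finset.Ico (n + 1) (n + 1 + (M + 1)), amp k * Real.exp (-(t k : ℝ) * σ)) / N +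
      (N : ℝ) ^ (Finset.Ico (n + 1) (n + 1 + (M + 1))).card *
        (1 * ∑ g ∈ U, ‖c g * exp (-(g : ℂ) * (σ : ℂ))‖ ^ 2 + 1 * ∑ g ∈ V, ‖b g * exp (-(g : ℂ) * (σ : ℂ))‖ ^ 2) ≤
      y ^ 2 / 400 := by
    have h1 : (∑ k ∈ Finset.Ico (n + 1) (n + 1 + (M + 1)), amp k * Real.exp (-(t k : ℝ) * σ)) ≤ 200 := by
      calc _ ≤ ∑ k ∈ Finset.Ico (n + 1) (n + 1 + (M + 1)), amp k := by
            refine Finset.sum_le_sum fun k _ => ?_
            have := amp_pos k
            nlinarith [hexp1 k]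
        _ ≤ 200 * amp 0 := amp_sum_le 0 _ fun k _ => Nat.zero_le k
        _ ≤ 200 := by have := amp_le_one 0; linarith
    have h2 : (∑ k ∈ Finset.Ico (n + 1) (n + 1 + (M + 1)), amp k * Real.exp (-(t k : ℝ) * σ)) / N ≤
        y ^ 2 / 800 := by
      rw [div_le_iff₀ hNpos]
      have h3 : 160000 ≤ (N : ℝ) * y ^ 2 := by
        rw [div_le_iff₀ (by positivity)] at hN1
        exact hN1
      linarith
    have h4 := ov_small_coef hθ hθ₀pos.le (Slev_pos n).le hSσ hU0 hU1 hU2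
    have h5 := ov_small_coef hθ' hθ₀pos.le (Slev_pos (n + 1)).le hS1σ hV0 hV1 hV2
    have hcard : (Finset.Ico (n + 1) (n + 1 + (M + 1))).card = M + 1 := by
      rw [Nat.card_Ico]; omega
    rw [hcard]
    have h6 : (N : ℝ) ^ (M + 1) *
        (1 * ∑ g ∈ U, ‖c g * exp (-(g : ℂ) * (σ : ℂ))‖ ^ 2 + 1 * ∑ g ∈ V, ‖b g * exp (-(g : ℂ) * (σ : ℂ))‖ ^ 2) ≤
        y ^ 2 / 800 := by
      calc _ ≤ (N : ℝ) ^ (M + 1) * (2 * (θ₀ * ((n : ℝ) + 1))) := by
            refine mul_le_mul_of_nonneg_left ?_ (by positivity)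
            have h7 : θ₀ * L ≤ θ₀ * ((n : ℝ) + 1) := mul_le_mul_of_nonneg_left hL hθ₀pos.le
            linarith
        _ = y ^ 2 / 800 := by
            rw [hθ₀]
            have : (N : ℝ) ^ (M + 1) ≠ 0 := by positivity
            have : (n : ℝ) + 1 ≠ 0 := by positivity
            field_simp
            ring
    linarith
  have hw' := hw.trans hrhs
  clear hw hrhs
  have hcos0 : 0 ≤ ∑ k ∈ Finset.Ico (n + 1) (n + 1 + (M + 1)), (amp k * Real.exp (-(t k : ℝ) * σ)) *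
      (1 - Real.cos (t k * w - (-φ (k - (n + 1))))) :=
    Finset.sum_nonneg fun k _ => mul_nonneg (hwt k) (by
      have := Real.cos_le_one (t k * w - (-φ (k - (n + 1))))
      linarith)
  rw [← ov_poly_eq, ← ov_poly_eq] at hw'
  set s : ℂ := (σ : ℂ) + w * I with hs
  have hre : s.re = σ := by simp [hs]
  have hcos : ∑ k ∈ Finset.Ico (n + 1) (n + 1 + (M + 1)), (amp k * Real.exp (-(t k : ℝ) * σ)) *
      (1 - Real.cos (t k * w - (-φ (k - (n + 1))))) ≤ y ^ 2 / 400 := by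
    nlinarith [sq_nonneg ‖poly c U s‖, sq_nonneg ‖poly b V s‖]
  have hU4 : ‖poly c U s‖ ≤ y := by
    refine abs_le_of_sq_le_sq' ?_ hy0.le |>.2
    nlinarith [sq_nonneg ‖poly c U s‖, sq_nonneg ‖poly b V s‖]
  have hV4 : ‖poly b V s‖ ≤ y := by
    refine abs_le_of_sq_le_sq' ?_ hy0.le |>.2
    nlinarith [sq_nonneg ‖poly c U s‖, sq_nonneg ‖poly b V s‖]
  have hfb := ov_f_bound hsz n M (e := y) hσ0.le φ hφ hy0.le hcos (by
    intro k hk
    have h1 := (hsz k).1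
    have h2 := tau_anti hk
    rw [neg_mul, hy]
    refine ov_exp_small hx0 hx1 ?_
    have h3 : x / 2 ≤ t k := le_trans (by linarith) h1
    have h4 : 4 * ((t k : ℝ) * σ) * x ^ 99 = 4 * (t k : ℝ) * (σ * x ^ 99) := by ring
    have h5 : σ * x ^ 99 * x = 1 / 2 := by
      rw [mul_assoc, ← pow_succ, hσE]
    rw [h4]
    have h6 : 0 < σ * x ^ 99 := by positivity
    nlinarith)
  have hamp' : 200 * amp (n + 1 + (M + 1)) ≤ y := by
    rw [show n + 1 + (M + 1) = n + 1 + 1 + M by ring]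
    exact hM'
  have hsm := ser_mul hsz hF (s := s) (by rw [hre]; exact hσ0.le)
  rw [hre] at hsm
  have hexpσ : Real.exp (-σ) ≤ y := by
    rw [hy]
    refine ov_exp_small hx0 hx1 ?_
    have h5 : σ * x ^ 99 * x = 1 / 2 := by
      rw [mul_assoc, ← pow_succ, hσE]
    have h6 : 0 < σ * x ^ 99 := by positivity
    nlinarith
  -- the two factors from below
  have hv0 : vth n ≤ y := by
    unfold vth
    rw [hy, show n + 2 = n + 1 + 1 from rfl, tau_succ, tau_succ, ← pow_mul, ← pow_mul]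
    exact pow_le_pow_of_le_one hx0.le hx3 (by norm_num)
  have hv1 : vth (n + 1) ≤ y := by
    refine le_trans ?_ hv0
    unfold vth
    exact pow_le_pow_left₀ (tau_pos _).le (tau_anti (by omega)) _
  have hc1 : x ^ 500 - 3 * y ≤ ‖ser c s‖ := by
    have h1 := hCl s (by rw [hre]; exact hSσ) (by rw [hre]; exact hσE')
    have h2 := hU3 s (by rw [hre]; exact hSσ)
    have h3 : ‖poly c C s‖ ≤ ‖ser c s‖ + ‖ser c s - poly c C s - poly c U s‖ + ‖poly c U s‖ := by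
      calc ‖poly c C s‖ = ‖ser c s - (ser c s - poly c C s - poly c U s) - poly c U s‖ := by
            congr 1; ring
        _ ≤ ‖ser c s - (ser c s - poly c C s - poly c U s)‖ + ‖poly c U s‖ := norm_sub_le _ _
        _ ≤ _ := by gcongr; exact norm_sub_le _ _
    linarith
  have hb1 : x ^ 50000 - 3 * y ≤ ‖ser b s‖ := by
    have h1 := hAl s (by rw [hre]; exact hS1σ) (by rw [hre]; exact hσE'.trans hEE)
    have h2 := hV3 s (by rw [hre]; exact hS1σ)
    rw [htau1, ← pow_mul] at h1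
    have h3 : ‖poly b A s‖ ≤ ‖ser b s‖ + ‖ser b s - poly b A s - poly b V s‖ + ‖poly b V s‖ := by
      calc ‖poly b A s‖ = ‖ser b s - (ser b s - poly b A s - poly b V s) - poly b V s‖ := by
            congr 1; ring
        _ ≤ ‖ser b s - (ser b s - poly b A s - poly b V s)‖ + ‖poly b V s‖ := norm_sub_le _ _
        _ ≤ _ := by gcongr; exact norm_sub_le _ _
    norm_num at h1
    linarith
  have hle : ∀ m : ℕ, 1 ≤ m → x ^ m ≤ x := fun m hm => by
    calc x ^ m ≤ x ^ 1 := pow_le_pow_of_le_one hx0.le hx3 hm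
      _ = x := pow_one x
  have hyc : y = x ^ 500 * x ^ 59500 := by rw [hy, ← pow_add]
  have hyb : y = x ^ 50000 * x ^ 10000 := by rw [hy, ← pow_add]
  have hc2 : x ^ 500 / 2 ≤ ‖ser c s‖ := by
    have h1 := hle 59500 (by norm_num)
    have h2 : 0 < x ^ 500 := by positivity
    have h3 : y ≤ x ^ 500 * (1 / 1000) := by
      rw [hyc]
      exact mul_le_mul_of_nonneg_left (h1.trans hx2) h2.le
    linarith
  have hb2 : x ^ 50000 / 2 ≤ ‖ser b s‖ := by
    have h1 := hle 10000 (by norm_num)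
    have h2 : 0 < x ^ 50000 := by positivity
    have h3 : y ≤ x ^ 50000 * (1 / 1000) := by
      rw [hyb]
      exact mul_le_mul_of_nonneg_left (h1.trans hx2) h2.le
    linarith
  have hlow : x ^ 50500 / 4 ≤ ‖ser b s * ser c s‖ := by
    rw [norm_mul]
    calc x ^ 50500 / 4 = (x ^ 50000 / 2) * (x ^ 500 / 2) := by
          rw [show (50500 : ℕ) = 50000 + 500 by norm_num, pow_add]; ring
      _ ≤ _ := mul_le_mul hb2 hc2 (by positivity) (norm_nonneg _)
  -- the product from above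
  have hL1 := hF.one_le
  have hLx : L ^ 2 * x ≤ 1 := by
    unfold SmallL at hSm
    have h1 : L ≤ 10 ^ 10 * L / amp n := by
      rw [le_div_iff₀ (amp_pos n)]
      have := amp_le_one n
      have := amp_pos n
      nlinarith
    have h2 : L ^ 2 ≤ L ^ 100 := pow_le_pow_right₀ hL1 (by norm_num)
    have h3 : L ^ 100 ≤ (10 ^ 10 * L / amp n) ^ 100 := pow_le_pow_left₀ (by linarith) h1 _
    exact (mul_le_mul_of_nonneg_right (h2.trans h3) hx0.le).trans hSm
  have hup : ‖ser b s * ser c s‖ ≤ 2 * x ^ 59999 := by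
    have h1 : ‖ser b s * ser c s‖ ≤ ‖∑' k, (amp k : ℂ) * exp (-(t k : ℂ) * s)‖ + L ^ 2 * Real.exp (-σ) := by
      calc ‖ser b s * ser c s‖ = ‖(∑' k, (amp k : ℂ) * exp (-(t k : ℂ) * s)) +
            (ser b s * ser c s - ∑' k, (amp k : ℂ) * exp (-(t k : ℂ) * s))‖ := by congr 1; ring
        _ ≤ _ := (norm_add_le _ _).trans (by gcongr)
    have h2 : y = x * x ^ 59999 := by rw [hy, ← pow_succ']
    have h3 : L ^ 2 * Real.exp (-σ) ≤ x ^ 59999 := by
      calc L ^ 2 * Real.exp (-σ) ≤ L ^ 2 * y := mul_le_mul_of_nonneg_left hexpσ (by positivity)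
        _ = (L ^ 2 * x) * x ^ 59999 := by rw [h2]; ring
        _ ≤ 1 * x ^ 59999 := mul_le_mul_of_nonneg_right hLx (by positivity)
        _ = _ := one_mul _
    have h4 : y ≤ (1 / 1000) * x ^ 59999 := by
      rw [h2]
      exact mul_le_mul_of_nonneg_right hx2 (by positivity)
    have h5 : 0 < x ^ 59999 := by positivity
    linarith
  have hfin : x ^ 50500 / 4 ≤ 2 * x ^ 59999 := hlow.trans hup
  have h1 : x ^ 59999 = x ^ 50500 * x ^ 9499 := by rw [← pow_add]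
  have h2 := hle 9499 (by norm_num)
  have h3 : 0 < x ^ 50500 := by positivity
  have h4 : x ^ 59999 ≤ x ^ 50500 * (1 / 1000) := by
    rw [h1]
    exact mul_le_mul_of_nonneg_left (h2.trans hx2) h3.le
  linarith

end Pool.Agent.QF
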