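import Pool.Agent.QF.Defs

/-! W2P: the planar path. -/

namespace Pool.Agent.QF

open Complex

/-- First modulus. -/
noncomputable def w2pX (n : ℕ) (t : ℕ → ℚ) (σ : ℝ) : ℝ := (t n : ℝ) * amp n * Real.exp (-(t n : ℝ) * σ)

theorem w2p_TM (n : ℕ) (t : ℕ → ℚ) (σ : ℝ) : TM n t σ = max (w2pX n t σ) (w2pX (n + 1) t σ) := rfl

theorem w2p_norm_sq (X Y u v : ℝ) :
    ‖(X : ℂ) * exp ((u : ℂ) * I) + (Y : ℂ) * exp ((v : ℂ) * I)‖ ^ 2 =
      X ^ 2 + 2 * X * Y * Real.cos (v - u) + Y ^ 2 := by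
  rw [← Complex.normSq_eq_norm_sq, Complex.normSq_apply, Real.cos_sub]
  have e1 : ((X : ℂ) * exp ((u : ℂ) * I) + (Y : ℂ) * exp ((v : ℂ) * I)).re =
      X * Real.cos u + Y * Real.cos v := by
    simp [Complex.exp_ofReal_mul_I_re]
  have e2 : ((X : ℂ) * exp ((u : ℂ) * I) + (Y : ℂ) * exp ((v : ℂ) * I)).im =
      X * Real.sin u + Y * Real.sin v := by
    simp [Complex.exp_ofReal_mul_I_im]
  rw [e1, e2]
  have h1 := Real.sin_sq_add_cos_sq u
  have h2 := Real.sin_sq_add_cos_sq v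
  linear_combination X ^ 2 * h1 + Y ^ 2 * h2

theorem w2p_TT_norm_sq (n : ℕ) (t : ℕ → ℚ) (θ : ℝ) (s : ℂ) :
    ‖TT n t θ s‖ ^ 2 = w2pX n t s.re ^ 2 +
      2 * w2pX n t s.re * w2pX (n + 1) t s.re * Real.cos ((θ - t (n + 1) * s.im) - (-(t n) * s.im)) +
      w2pX (n + 1) t s.re ^ 2 := by
  rw [← w2p_norm_sq]
  congr 2
  have hs : s = (s.re : ℂ) + (s.im : ℂ) * I := (Complex.re_add_im s).symm
  unfold TT w2pX
  have e1 : exp (-(t n : ℂ) * s) = exp (((-(t n : ℝ) * s.re : ℝ) : ℂ)) * exp (((-(t n : ℝ) * s.im : ℝ) : ℂ) * I) := by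
    rw [← Complex.exp_add]
    congr 1
    conv_lhs => rw [hs]
    push_cast
    ring
  have e2 : exp ((θ : ℂ) * I) * exp (-(t (n + 1) : ℂ) * s) =
      exp (((-(t (n + 1) : ℝ) * s.re : ℝ) : ℂ)) * exp (((θ - (t (n + 1) : ℝ) * s.im : ℝ) : ℂ) * I) := by
    rw [← Complex.exp_add, ← Complex.exp_add]
    congr 1
    conv_lhs => rw [hs]
    push_cast
    ring
  rw [mul_assoc ((t (n + 1) : ℂ) * amp (n + 1)), e2, e1]
  push_cast
  ring

theorem w2p_t_pos {t : ℕ → ℚ} (hsz : Sizes t) (n : ℕ) : 0 < (t n : ℝ) := by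
  have := (hsz n).1
  have := tau_pos n
  linarith

theorem w2pX_pos {t : ℕ → ℚ} (hsz : Sizes t) (n : ℕ) (σ : ℝ) : 0 < w2pX n t σ := by
  unfold w2pX
  have := w2p_t_pos hsz n
  have := amp_pos n
  positivity

theorem w2p_tau_lt (n : ℕ) : tau (n + 1) ≤ tau n / 2 := by
  rw [tau_succ]
  have h0 := tau_pos n
  have h1 := tau_le n
  have h2 : tau n ≤ 1 / 2 := h1.trans (by norm_num)
  have h3 : tau n ^ 99 ≤ 1 / 2 := by
    calc tau n ^ 99 ≤ tau n ^ 1 := pow_le_pow_of_le_one h0.le (by linarith) (by norm_num)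
      _ = tau n := pow_one _
      _ ≤ 1 / 2 := h2
  have h4 : tau n ^ 100 = tau n * tau n ^ 99 := by ring
  rw [h4]
  nlinarith

theorem w2p_t_anti {t : ℕ → ℚ} (hsz : Sizes t) (n : ℕ) : (t (n + 1) : ℝ) ≤ t n := by
  have := (hsz n).1
  have := (hsz (n + 1)).2
  have := w2p_tau_lt n
  linarith

/-- The ratio `Y / X` is increasing. -/
theorem w2p_ratio {t : ℕ → ℚ} (hsz : Sizes t) (n : ℕ) {σ σ' : ℝ} (h : σ' ≤ σ) :
    w2pX (n + 1) t σ' * w2pX n t σ ≤ w2pX (n + 1) t σ * w2pX n t σ' := by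
  unfold w2pX
  have h1 := w2p_t_anti hsz n
  have h2 : Real.exp (-(t (n + 1) : ℝ) * σ') * Real.exp (-(t n : ℝ) * σ) ≤
      Real.exp (-(t (n + 1) : ℝ) * σ) * Real.exp (-(t n : ℝ) * σ') := by
    rw [← Real.exp_add, ← Real.exp_add]
    apply Real.exp_le_exp.2
    nlinarith
  have h3 := w2p_t_pos hsz n
  have h4 := w2p_t_pos hsz (n + 1)
  have h5 := amp_pos n
  have h6 := amp_pos (n + 1)
  have h7 : 0 ≤ (t (n + 1) : ℝ) * amp (n + 1) * ((t n : ℝ) * amp n) := by positivity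
  calc (t (n + 1) : ℝ) * amp (n + 1) * Real.exp (-(t (n + 1) : ℝ) * σ') *
        ((t n : ℝ) * amp n * Real.exp (-(t n : ℝ) * σ))
      = (t (n + 1) : ℝ) * amp (n + 1) * ((t n : ℝ) * amp n) *
        (Real.exp (-(t (n + 1) : ℝ) * σ') * Real.exp (-(t n : ℝ) * σ)) := by ring
    _ ≤ (t (n + 1) : ℝ) * amp (n + 1) * ((t n : ℝ) * amp n) *
        (Real.exp (-(t (n + 1) : ℝ) * σ) * Real.exp (-(t n : ℝ) * σ')) :=
        mul_le_mul_of_nonneg_left h2 h7
    _ = _ := by ring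

/-- The scalar inequality. -/
theorem w2p_scalar {r r' c : ℝ} (h0 : 0 ≤ r') (h1 : r' ≤ r) (h2 : r ≤ 1) (hc1 : -1 ≤ c) (hc2 : c ≤ 1)
    (h : 1 ≤ 64 ^ 2 * (1 + 2 * r * c + r ^ 2)) : 1 ≤ 65 ^ 2 * (1 + 2 * r' * c + r' ^ 2) := by
  by_cases hc : 0 ≤ c
  · nlinarith [mul_nonneg h0 hc, sq_nonneg r']
  push Not at hc
  by_cases hr : r ≤ -c
  · -- decreasing on `[0, -c]`
    have h3 : 1 + 2 * r * c + r ^ 2 ≤ 1 + 2 * r' * c + r' ^ 2 := by nlinarith
    nlinarith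
  · push Not at hr
    have h3 : 1 - c ^ 2 ≤ 1 + 2 * r' * c + r' ^ 2 := by nlinarith [sq_nonneg (r' + c)]
    have h4 : 1 + 2 * r * c + r ^ 2 ≤ 2 + 2 * c := by nlinarith
    by_cases hd : c ≤ -(94 / 100)
    · have h5 : (1 + c) ≥ 1 / (2 * 64 ^ 2) := by
        rw [ge_iff_le, div_le_iff₀ (by norm_num)]
        nlinarith
      have h6 : (1 - c) ≥ 194 / 100 := by linarith
      have h7 : 1 - c ^ 2 ≥ 1 / (2 * 64 ^ 2) * (194 / 100) := by
        have : 1 - c ^ 2 = (1 + c) * (1 - c) := by ring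
        rw [this]
        have h8 : (0 : ℝ) ≤ 1 + c := by linarith
        nlinarith
      nlinarith
    · push Not at hd
      have h7 : 1 - c ^ 2 ≥ 1 / 10 := by nlinarith
      nlinarith

/-- The homogeneous form. -/
theorem w2p_homog {X Y X' Y' c : ℝ} (hX : 0 < X) (hY : 0 < Y) (hX' : 0 < X') (hY' : 0 < Y') (hYX : Y ≤ X)
    (hr : Y' * X ≤ Y * X') (hc1 : -1 ≤ c) (hc2 : c ≤ 1)
    (h : X ^ 2 ≤ 64 ^ 2 * (X ^ 2 + 2 * X * Y * c + Y ^ 2)) :
    Y' ≤ X' ∧ X' ^ 2 ≤ 65 ^ 2 * (X' ^ 2 + 2 * X' * Y' * c + Y' ^ 2) := by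
  have hq : Y' / X' ≤ Y / X := by
    rw [div_le_div_iff₀ hX' hX]
    exact hr
  have hq1 : Y / X ≤ 1 := by
    rw [div_le_one hX]
    exact hYX
  have hq0 : 0 ≤ Y' / X' := by positivity
  refine ⟨?_, ?_⟩
  · have := hq.trans hq1
    rwa [div_le_one hX'] at this
  · have e1 : 1 + 2 * (Y / X) * c + (Y / X) ^ 2 = (X ^ 2 + 2 * X * Y * c + Y ^ 2) / X ^ 2 := by
      field_simp
    have e2 : 1 + 2 * (Y' / X') * c + (Y' / X') ^ 2 = (X' ^ 2 + 2 * X' * Y' * c + Y' ^ 2) / X' ^ 2 := by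
      field_simp
    have h1 : 1 ≤ 64 ^ 2 * (1 + 2 * (Y / X) * c + (Y / X) ^ 2) := by
      rw [e1, ← mul_div_assoc, le_div_iff₀ (by positivity)]
      linarith
    have h2 := w2p_scalar hq0 hq hq1 hc1 hc2 h1
    rw [e2, ← mul_div_assoc, le_div_iff₀ (by positivity)] at h2
    linarith

/-- Membership from squares. -/
theorem w2p_mem {n : ℕ} {t : ℕ → ℚ} (hsz : Sizes t) {k : ℝ} (hk : 0 ≤ k) {s : ℂ} {θ : ℝ} :
    TM n t s.re ≤ k * ‖TT n t θ s‖ ↔ TM n t s.re ^ 2 ≤ k ^ 2 * ‖TT n t θ s‖ ^ 2 := by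
  have h1 : 0 ≤ TM n t s.re := by
    rw [w2p_TM]
    exact (w2pX_pos hsz n _).le.trans (le_max_left _ _)
  have h2 : 0 ≤ k * ‖TT n t θ s‖ := by positivity
  rw [← mul_pow]
  exact (sq_le_sq₀ h1 h2).symm

theorem w2p_SX {n : ℕ} {t : ℕ → ℚ} (hsz : Sizes t) :
    2 * w2pX (n + 1) t (Slev n) ≤ w2pX n t (Slev n) := by
  have ht0 := w2p_t_pos hsz n
  have ht1 := w2p_t_pos hsz (n + 1)
  have hx0 := tau_pos n
  have hx1 := tau_le n
  have hS := Slev_pos n
  have hSsq := Slev_sq n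
  have ha := amp_pos n
  have ha1 : amp (n + 1) ≤ amp n := amp_anti (Nat.le_succ n)
  have hb := amp_pos (n + 1)
  have hx2 : tau n ≤ 1 := hx1.trans (by norm_num)
  -- `tau n * Slev n ≤ 1`
  have h1 : (t n : ℝ) * Slev n ≤ 1 := by
    have h2 : (t n : ℝ) * Slev n ≤ tau n * Slev n := mul_le_mul_of_nonneg_right (hsz n).2 hS.le
    refine h2.trans ?_
    have h3 : (tau n * Slev n) ^ 2 ≤ 1 := by
      rw [mul_pow, hSsq]
      rw [mul_one_div, div_le_one hx0]
      nlinarith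
    nlinarith [mul_pos hx0 hS]
  have he : 1 / 3 ≤ Real.exp (-(t n : ℝ) * Slev n) := by
    have h2 : Real.exp (-1) ≤ Real.exp (-(t n : ℝ) * Slev n) := by
      apply Real.exp_le_exp.2
      linarith
    have h3 : (1 / 3 : ℝ) ≤ Real.exp (-1) := by
      rw [Real.exp_neg, one_div]
      apply inv_anti₀ (Real.exp_pos 1)
      exact (Real.exp_one_lt_d9.trans (by norm_num)).le
    linarith
  have hX : tau n / 2 * amp n * (1 / 3) ≤ w2pX n t (Slev n) := by
    unfold w2pX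
    have h2 : tau n / 2 * amp n ≤ (t n : ℝ) * amp n := mul_le_mul_of_nonneg_right (hsz n).1 ha.le
    exact mul_le_mul h2 he (by norm_num) (by positivity)
  have hY : w2pX (n + 1) t (Slev n) ≤ tau n ^ 100 * amp n := by
    unfold w2pX
    have h2 : (t (n + 1) : ℝ) * amp (n + 1) ≤ tau n ^ 100 * amp n := by
      refine mul_le_mul ?_ ha1 hb.le (by positivity)
      rw [← tau_succ]
      exact (hsz (n + 1)).2
    have h3 : Real.exp (-(t (n + 1) : ℝ) * Slev n) ≤ 1 := by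
      rw [Real.exp_le_one_iff]
      nlinarith
    calc (t (n + 1) : ℝ) * amp (n + 1) * Real.exp (-(t (n + 1) : ℝ) * Slev n)
        ≤ tau n ^ 100 * amp n * 1 := mul_le_mul h2 h3 (Real.exp_pos _).le (by positivity)
      _ = _ := mul_one _
  have h5 : tau n ^ 100 ≤ tau n * (1 / 2) ^ 100 := by
    calc tau n ^ 100 = tau n * tau n ^ 99 := by ring
      _ ≤ tau n * (1 / 2) ^ 100 := by
          apply mul_le_mul_of_nonneg_left _ hx0.le
          calc tau n ^ 99 ≤ tau n ^ 1 := pow_le_pow_of_le_one hx0.le hx2 (by norm_num)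
            _ = tau n := pow_one _
            _ ≤ _ := hx1
  have h6 : 2 * (tau n ^ 100 * amp n) ≤ tau n / 2 * amp n * (1 / 3) := by
    have h7 : 2 * tau n ^ 100 ≤ tau n / 2 * (1 / 3) := by
      have : (2 : ℝ) * (1 / 2) ^ 100 ≤ 1 / 6 := by norm_num
      nlinarith
    nlinarith
  linarith

theorem w2p_EX {n : ℕ} {t : ℕ → ℚ} (hsz : Sizes t) :
    2 * w2pX n t (Elev n) ≤ w2pX (n + 1) t (Elev n) := by
  have ht0 := w2p_t_pos hsz n
  have ht1 := w2p_t_pos hsz (n + 1)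
  have hx0 := tau_pos n
  have hx1 := tau_le n
  have hy0 := tau_pos (n + 1)
  have hE := Elev_pos n
  have hEe := Elev_eq n
  have ha := amp_pos n
  have hb := amp_pos (n + 1)
  have ha1 : 99 / 100 * amp n ≤ amp (n + 1) := by
    have := amp_anti (show n + 1 ≤ n + 2 by omega)
    rw [amp_add_two] at this
    exact this
  have hx2 : tau n ≤ 1 := hx1.trans (by norm_num)
  -- the second term
  have h1 : (t (n + 1) : ℝ) * Elev n ≤ 1 := by
    rw [hEe, mul_one_div, div_le_one hy0]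
    exact (hsz (n + 1)).2
  have he : 1 / 3 ≤ Real.exp (-(t (n + 1) : ℝ) * Elev n) := by
    have h2 : Real.exp (-1) ≤ Real.exp (-(t (n + 1) : ℝ) * Elev n) := by
      apply Real.exp_le_exp.2
      linarith
    have h3 : (1 / 3 : ℝ) ≤ Real.exp (-1) := by
      rw [Real.exp_neg, one_div]
      apply inv_anti₀ (Real.exp_pos 1)
      exact (Real.exp_one_lt_d9.trans (by norm_num)).le
    linarith
  have hY : tau n ^ 100 / 2 * (99 / 100 * amp n) * (1 / 3) ≤ w2pX (n + 1) t (Elev n) := by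
    unfold w2pX
    have h2 : tau n ^ 100 / 2 * (99 / 100 * amp n) ≤ (t (n + 1) : ℝ) * amp (n + 1) := by
      refine mul_le_mul ?_ ha1 (by positivity) ht1.le
      rw [← tau_succ]
      exact (hsz (n + 1)).1
    exact mul_le_mul h2 he (by norm_num) (by positivity)
  -- the first term
  set u : ℝ := (t n : ℝ) * Elev n with hu
  have hu1 : 1 / (2 * tau n ^ 99) ≤ u := by
    rw [hu, hEe, tau_succ, mul_one_div, div_le_div_iff₀ (by positivity) (by positivity)]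
    have h2 := (hsz n).1
    have h3 : tau n ^ 100 = tau n * tau n ^ 99 := by ring
    have h4 : 0 < tau n ^ 99 := by positivity
    rw [h3]
    nlinarith
  have hu0 : 0 < u := by positivity
  have hexp : Real.exp (-u) ≤ 2 / u ^ 2 := by
    rw [Real.exp_neg, ← one_div, div_le_div_iff₀ (Real.exp_pos _) (by positivity)]
    have := Real.quadratic_le_exp_of_nonneg hu0.le
    nlinarith
  have hexp2 : Real.exp (-u) ≤ 8 * tau n ^ 198 := by
    refine hexp.trans ?_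
    rw [div_le_iff₀ (by positivity)]
    have h2 : (1 / (2 * tau n ^ 99)) ^ 2 ≤ u ^ 2 := pow_le_pow_left₀ (by positivity) hu1 2
    have h3 : (1 / (2 * tau n ^ 99)) ^ 2 = 1 / (4 * tau n ^ 198) := by
      rw [div_pow, mul_pow]
      congr 1
      · norm_num
      · rw [← pow_mul]; norm_num
    rw [h3, div_le_iff₀ (by positivity)] at h2
    linarith
  have hX : w2pX n t (Elev n) ≤ tau n * amp n * (8 * tau n ^ 198) := by
    unfold w2pX
    rw [neg_mul]
    exact mul_le_mul (mul_le_mul_of_nonneg_right (hsz n).2 ha.le) hexp2 (Real.exp_pos _).le (by positivity)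
  have h5 : tau n * (8 * tau n ^ 198) ≤ tau n ^ 100 * (8 * (1 / 2) ^ 100) := by
    have h6 : tau n * (8 * tau n ^ 198) = tau n ^ 100 * (8 * tau n ^ 99) := by ring
    rw [h6]
    apply mul_le_mul_of_nonneg_left _ (by positivity)
    apply mul_le_mul_of_nonneg_left _ (by norm_num)
    calc tau n ^ 99 ≤ tau n ^ 1 := pow_le_pow_of_le_one hx0.le hx2 (by norm_num)
      _ = tau n := pow_one _
      _ ≤ _ := hx1
  have h7 : 2 * (tau n * amp n * (8 * tau n ^ 198)) ≤ tau n ^ 100 / 2 * (99 / 100 * amp n) * (1 / 3) := by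
    have h8 : 2 * (tau n * (8 * tau n ^ 198)) ≤ tau n ^ 100 / 2 * (99 / 100) * (1 / 3) := by
      have h9 : (2 : ℝ) * (8 * (1 / 2) ^ 100) ≤ 1 / 2 * (99 / 100) * (1 / 3) := by norm_num
      have h10 : 0 < tau n ^ 100 := by positivity
      nlinarith
    calc 2 * (tau n * amp n * (8 * tau n ^ 198)) = 2 * (tau n * (8 * tau n ^ 198)) * amp n := by ring
      _ ≤ (tau n ^ 100 / 2 * (99 / 100) * (1 / 3)) * amp n := mul_le_mul_of_nonneg_right h8 ha.le
      _ = _ := by ring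
  linarith

/-- Rotation at a level where one of the two terms dominates. -/
theorem w2p_rotate {n : ℕ} {t : ℕ → ℚ} (hsz : Sizes t) {σ : ℝ} (h1 : Slev n ≤ σ) (h2 : σ ≤ Elev n)
    (hd : 2 * w2pX (n + 1) t σ ≤ w2pX n t σ ∨ 2 * w2pX n t σ ≤ w2pX (n + 1) t σ) (y θ : ℝ) :
    JoinedIn {p : ℂ × ℝ | Slev n ≤ p.1.re ∧ p.1.re ≤ Elev n ∧ TM n t p.1.re ≤ 65 * ‖TT n t p.2 p.1‖}
      ((σ : ℂ) + (y : ℂ) * I, θ) ((σ : ℂ), 0) := by
  refine JoinedIn.ofLine (f := fun τ : ℝ => ((σ : ℂ) + (((1 - τ) * y : ℝ) : ℂ) * I, (1 - τ) * θ)) ?_ ?_ ?_ ?_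
  · apply Continuous.continuousOn
    fun_prop
  · simp
  · simp
  · rintro p ⟨τ, -, rfl⟩
    have hre : ((σ : ℂ) + (((1 - τ) * y : ℝ) : ℂ) * I).re = σ := by simp
    simp only [Set.mem_setOf_eq]
    rw [w2p_mem hsz (by norm_num), w2p_TT_norm_sq, hre, w2p_TM]
    refine ⟨h1, h2, ?_⟩
    have hX := w2pX_pos hsz n σ
    have hY := w2pX_pos hsz (n + 1) σ
    have hc := Real.neg_one_le_cos (((1 - τ) * θ -
      t (n + 1) * ((σ : ℂ) + (((1 - τ) * y : ℝ) : ℂ) * I).im) -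
      (-(t n) * ((σ : ℂ) + (((1 - τ) * y : ℝ) : ℂ) * I).im))
    set c := Real.cos (((1 - τ) * θ -
      t (n + 1) * ((σ : ℂ) + (((1 - τ) * y : ℝ) : ℂ) * I).im) -
      (-(t n) * ((σ : ℂ) + (((1 - τ) * y : ℝ) : ℂ) * I).im)) with hcdef
    set X := w2pX n t σ
    set Y := w2pX (n + 1) t σ
    have h3 : (X - Y) ^ 2 ≤ X ^ 2 + 2 * X * Y * c + Y ^ 2 := by
      nlinarith [mul_pos hX hY]
    rcases hd with h | h
    · rw [max_eq_left (by linarith)]
      nlinarith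
    · rw [max_eq_right (by linarith)]
      nlinarith

/-- `(s, θ)` (with `θ = α_{n+1}`) can be joined to `(Slev n, 0)`. See the blueprint. -/
theorem planar_path {n : ℕ} {t : ℕ → ℚ} (hsz : Sizes t) (hx : SmallL n 1) {s : ℂ} {θ : ℝ} (h1 : Slev n ≤ s.re)
    (h2 : s.re ≤ Elev n) (hg : TM n t s.re ≤ 64 * ‖TT n t θ s‖) :
    JoinedIn {p : ℂ × ℝ | Slev n ≤ p.1.re ∧ p.1.re ≤ Elev n ∧ TM n t p.1.re ≤ 65 * ‖TT n t p.2 p.1‖}
      (s, θ) ((Slev n : ℂ), 0) := by
  have hg2 := (w2p_mem hsz (by norm_num)).1 hg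
  rw [w2p_TT_norm_sq, w2p_TM] at hg2
  have hX := w2pX_pos hsz n s.re
  have hY := w2pX_pos hsz (n + 1) s.re
  have hSE := Slev_lt_Elev n
  have hs : s = (s.re : ℂ) + (s.im : ℂ) * I := (Complex.re_add_im s).symm
  rcases le_total (w2pX (n + 1) t s.re) (w2pX n t s.re) with hYX | hXY
  · -- move down
    rw [max_eq_left hYX] at hg2
    have hA : JoinedIn {p : ℂ × ℝ | Slev n ≤ p.1.re ∧ p.1.re ≤ Elev n ∧
        TM n t p.1.re ≤ 65 * ‖TT n t p.2 p.1‖} (s, θ) ((Slev n : ℂ) + (s.im : ℂ) * I, θ) := by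
      refine JoinedIn.ofLine (f := fun τ : ℝ =>
        (((s.re + τ * (Slev n - s.re) : ℝ) : ℂ) + (s.im : ℂ) * I, θ)) ?_ ?_ ?_ ?_
      · apply Continuous.continuousOn
        fun_prop
      · simp
      · simp
      · rintro p ⟨τ, hτ, rfl⟩
        have hre : (((s.re + τ * (Slev n - s.re) : ℝ) : ℂ) + (s.im : ℂ) * I).re =
          s.re + τ * (Slev n - s.re) := by simp
        have him : (((s.re + τ * (Slev n - s.re) : ℝ) : ℂ) + (s.im : ℂ) * I).im = s.im := by simp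
        simp only [Set.mem_setOf_eq]
        rw [w2p_mem hsz (by norm_num), w2p_TT_norm_sq, hre, him, w2p_TM]
        have hle : s.re + τ * (Slev n - s.re) ≤ s.re := by nlinarith [hτ.1]
        obtain ⟨h5, h6⟩ := w2p_homog hX hY (w2pX_pos hsz n _) (w2pX_pos hsz (n + 1) _) hYX
          (w2p_ratio hsz n hle) (Real.neg_one_le_cos _) (Real.cos_le_one _) hg2
        refine ⟨by nlinarith [hτ.2], by linarith, ?_⟩
        rw [max_eq_left h5]
        exact h6
    exact hA.trans (w2p_rotate hsz le_rfl hSE.le (Or.inl (w2p_SX hsz)) _ _)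
  · -- move up
    rw [max_eq_right hXY] at hg2
    have hg3 : w2pX (n + 1) t s.re ^ 2 ≤ 64 ^ 2 * (w2pX (n + 1) t s.re ^ 2 +
        2 * w2pX (n + 1) t s.re * w2pX n t s.re *
          Real.cos ((θ - t (n + 1) * s.im) - (-(t n) * s.im)) + w2pX n t s.re ^ 2) := by
      refine hg2.trans (le_of_eq ?_)
      ring
    have hA : JoinedIn {p : ℂ × ℝ | Slev n ≤ p.1.re ∧ p.1.re ≤ Elev n ∧
        TM n t p.1.re ≤ 65 * ‖TT n t p.2 p.1‖} (s, θ) ((Elev n : ℂ) + (s.im : ℂ) * I, θ) := by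
      refine JoinedIn.ofLine (f := fun τ : ℝ =>
        (((s.re + τ * (Elev n - s.re) : ℝ) : ℂ) + (s.im : ℂ) * I, θ)) ?_ ?_ ?_ ?_
      · apply Continuous.continuousOn
        fun_prop
      · simp
      · simp
      · rintro p ⟨τ, hτ, rfl⟩
        have hre : (((s.re + τ * (Elev n - s.re) : ℝ) : ℂ) + (s.im : ℂ) * I).re =
          s.re + τ * (Elev n - s.re) := by simp
        have him : (((s.re + τ * (Elev n - s.re) : ℝ) : ℂ) + (s.im : ℂ) * I).im = s.im := by simp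
        simp only [Set.mem_setOf_eq]
        rw [w2p_mem hsz (by norm_num), w2p_TT_norm_sq, hre, him, w2p_TM]
        have hle : s.re ≤ s.re + τ * (Elev n - s.re) := by nlinarith [hτ.1]
        have hr := w2p_ratio hsz n hle
        obtain ⟨h5, h6⟩ := w2p_homog hY hX (w2pX_pos hsz (n + 1) (s.re + τ * (Elev n - s.re)))
          (w2pX_pos hsz n (s.re + τ * (Elev n - s.re))) hXY
          (by nlinarith [hr]) (Real.neg_one_le_cos _) (Real.cos_le_one _) hg3
        refine ⟨by linarith, by nlinarith [hτ.2], ?_⟩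
        rw [max_eq_right h5]
        refine h6.trans (le_of_eq ?_)
        ring
    have hB := w2p_rotate hsz hSE.le le_rfl (Or.inr (w2p_EX hsz)) s.im θ
    have hC : JoinedIn {p : ℂ × ℝ | Slev n ≤ p.1.re ∧ p.1.re ≤ Elev n ∧
        TM n t p.1.re ≤ 65 * ‖TT n t p.2 p.1‖} ((Elev n : ℂ), (0 : ℝ)) ((Slev n : ℂ), 0) := by
      refine JoinedIn.ofLine (f := fun τ : ℝ =>
        (((Elev n + τ * (Slev n - Elev n) : ℝ) : ℂ), (0 : ℝ))) ?_ ?_ ?_ ?_
      · apply Continuous.continuousOn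
        fun_prop
      · simp
      · simp
      · rintro p ⟨τ, hτ, rfl⟩
        simp only [Set.mem_setOf_eq]
        rw [w2p_mem hsz (by norm_num), w2p_TT_norm_sq, Complex.ofReal_re, Complex.ofReal_im, w2p_TM]
        refine ⟨by nlinarith [hτ.2], by nlinarith [hτ.1], ?_⟩
        have hX' := w2pX_pos hsz n (Elev n + τ * (Slev n - Elev n))
        have hY' := w2pX_pos hsz (n + 1) (Elev n + τ * (Slev n - Elev n))
        have hc : Real.cos (((0 : ℝ) - t (n + 1) * 0) - (-(t n) * 0)) = 1 := by simp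
        rw [hc]
        rcases le_total (w2pX n t (Elev n + τ * (Slev n - Elev n)))
          (w2pX (n + 1) t (Elev n + τ * (Slev n - Elev n))) with h | h
        · rw [max_eq_right h]
          nlinarith [mul_pos hX' hY']
        · rw [max_eq_left h]
          nlinarith [mul_pos hX' hY']
    exact (hA.trans hB).trans hC

end Pool.Agent.QF
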