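import Pool.Agent.QF.FB
import Pool.Agent.QF.DR
import Pool.Agent.QF.W2P

/-! W2C: every good near-zero state can be joined to a canonical one. -/

namespace Pool.Agent.QF

open Complex

private theorem W2C_cont_main (n : ℕ) (t : ℕ → ℚ) :
    Continuous fun p : (ℕ → ℝ) × ℂ => mainF n t (p.1 (n + 1)) p.2 := by
  unfold mainF
  have h1 : Continuous fun p : (ℕ → ℝ) × ℂ => p.1 (n + 1) :=
    (continuous_apply (n + 1)).comp continuous_fst
  have h2 : Continuous fun p : (ℕ → ℝ) × ℂ => ((p.1 (n + 1) : ℝ) : ℂ) :=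
    Complex.continuous_ofReal.comp h1
  have h3 : Continuous fun p : (ℕ → ℝ) × ℂ => p.2 := continuous_snd
  fun_prop

private theorem W2C_cont (n : ℕ) (t : ℕ → ℚ) (J : Finset ℕ) {std : ℂ → ℕ → ℝ} (hstd : Continuous std) :
    Continuous fun p : (ℕ → ℝ) × ℂ => ((stdst n t J std p.1 p.2, p.2) : (ℕ → ℝ) × ℂ) := by
  refine Continuous.prodMk ?_ continuous_snd
  refine continuous_pi fun k => ?_
  unfold stdst
  by_cases hk : k ∈ J.erase (n + 1)
  · simp only [hk, if_true]
    have h1 : Continuous fun p : (ℕ → ℝ) × ℂ => std (-mainF n t (p.1 (n + 1)) p.2) k :=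
      (continuous_apply k).comp (hstd.comp (W2C_cont_main n t).neg)
    have h2 : Continuous fun p : (ℕ → ℝ) × ℂ => p.2.im := Complex.continuous_im.comp continuous_snd
    exact h1.add (continuous_const.mul h2)
  · simp only [hk, if_false]
    exact (continuous_apply k).comp continuous_fst

private theorem W2C_next (n : ℕ) (t : ℕ → ℚ) (J : Finset ℕ) (std : ℂ → ℕ → ℝ) (α : ℕ → ℝ) (s : ℂ) :
    stdst n t J std α s (n + 1) = α (n + 1) := by
  unfold stdst
  rw [if_neg (Finset.notMem_erase (n + 1) J)]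

private theorem W2C_tau (n : ℕ) : tau n ^ 9000 ≤ 2 * tau n ^ 450 := by
  have h0 := tau_pos n
  have h1 : tau n ≤ 1 := (tau_le n).trans (pow_le_one₀ (by norm_num) (by norm_num))
  have h2 : tau n ^ 9000 ≤ tau n ^ 450 := pow_le_pow_of_le_one h0.le h1 (by norm_num)
  have h3 : 0 < tau n ^ 450 := pow_pos h0 450
  linarith

private theorem W2C_mem {n : ℕ} {t : ℕ → ℚ} (hsz : Sizes t) {J : Finset ℕ} (J_gt : ∀ k ∈ J, n < k)
    (hJ1 : n + 1 ∈ J) {std : ℂ → ℕ → ℝ} (hstd : IsStd n (J.erase (n + 1)) std) (α : ℕ → ℝ) (s : ℂ)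
    (h1 : Slev n ≤ s.re) (h2 : s.re ≤ Elev n) (h : TM n t s.re ≤ 65 * ‖TT n t (α (n + 1)) s‖) :
    ((stdst n t J std α s, s) : (ℕ → ℝ) × ℂ) ∈ Gst n t J := by
  have hF := FF_stdst hsz J_gt hJ1 hstd α ((Slev_pos n).le.trans h1) h2
  have hF' := hF.trans (W2C_tau n)
  have hT : TM n t s.re ≤ 65 * ‖TT n t (stdst n t J std α s (n + 1)) s‖ := by
    rw [W2C_next]
    exact h
  unfold Gst
  exact ⟨h1, h2, hF', hT⟩

theorem to_canonical {n : ℕ} {t : ℕ → ℚ} (hsz : Sizes t) {J : Finset ℕ} (J_gt : ∀ k ∈ J, n < k)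
    (J_mem : ∀ k, n < k → k ≤ n + 1400 → k ∈ J) (hx : SmallL n 1) :
    ∃ q : (ℕ → ℝ) × ℂ, ∀ (α : ℕ → ℝ) (s : ℂ), Slev n ≤ s.re → s.re ≤ Elev n →
      ‖FF n t J α s‖ ≤ tau n ^ 450 → TM n t s.re ≤ 64 * ‖TT n t (α (n + 1)) s‖ →
      JoinedIn (Gst n t J) (α, s) q := by
  have hJ1 : n + 1 ∈ J := J_mem (n + 1) (by omega) (by omega)
  obtain ⟨std, hstd⟩ := fibre n (J.erase (n + 1))
    (fun k hk => by
      have h1 := Finset.mem_erase.mp hk
      have h2 := J_gt k h1.2
      have h3 := h1.1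
      omega)
    (fun k h1 h2 => Finset.mem_erase.mpr ⟨by omega, J_mem k (by omega) h2⟩)
  refine ⟨(stdst n t J std 0 (Slev n), (Slev n : ℂ)), fun α s h1 h2 hF hT => ?_⟩
  have hS0 : 0 < Slev n := Slev_pos n
  have hs0 : 0 ≤ s.re := hS0.le.trans h1
  have hT65 : TM n t s.re ≤ 65 * ‖TT n t (α (n + 1)) s‖ := by
    have := norm_nonneg (TT n t (α (n + 1)) s)
    linarith
  -- first path
  have P1 : JoinedIn (Gst n t J) (α, s) (stdst n t J std α s, s) := by
    have h := to_std hsz hx J_gt hJ1 hstd α hs0 h2 hF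
    have h' := h.map (f := fun α' : ℕ → ℝ => ((α', s) : (ℕ → ℝ) × ℂ))
      (continuous_id.prodMk continuous_const)
    refine h'.mono ?_
    rintro _ ⟨α', ⟨ha, hb⟩, rfl⟩
    have hT' : TM n t s.re ≤ 65 * ‖TT n t (α' (n + 1)) s‖ := by
      rw [ha]
      exact hT65
    exact ⟨h1, h2, hb, hT'⟩
  -- the planar path
  have hpl := planar_path hsz hx h1 h2 hT
  have hend := hpl.target_mem
  have P2 : JoinedIn (Gst n t J) (stdst n t J std α s, s)
      (stdst n t J std (Function.update α (n + 1) 0) (Slev n), (Slev n : ℂ)) := by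
    have hc : Continuous fun p : ℂ × ℝ =>
        ((stdst n t J std (Function.update α (n + 1) p.2) p.1, p.1) : (ℕ → ℝ) × ℂ) := by
      have hu : Continuous fun p : ℂ × ℝ => ((Function.update α (n + 1) p.2, p.1) : (ℕ → ℝ) × ℂ) :=
        ((continuous_const : Continuous fun _ : ℂ × ℝ => α).update (n + 1)
          continuous_snd).prodMk continuous_fst
      exact (W2C_cont n t J hstd.1).comp hu
    have h := hpl.map hc
    have e0 : Function.update α (n + 1) (α (n + 1)) = α := Function.update_eq_self _ _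
    simp only [e0] at h
    refine h.mono ?_
    rintro _ ⟨⟨s', θ⟩, ⟨ha, hb, hc'⟩, rfl⟩
    refine W2C_mem hsz J_gt hJ1 hstd _ s' ha hb ?_
    rw [Function.update_self]
    exact hc'
  -- the other coordinates
  have P3 : JoinedIn (Gst n t J) (stdst n t J std (Function.update α (n + 1) 0) (Slev n), (Slev n : ℂ))
      (stdst n t J std 0 (Slev n), (Slev n : ℂ)) := by
    let β : ℝ → ℕ → ℝ := fun x k => (1 - x) * Function.update α (n + 1) 0 k
    have hβ : Continuous β := by
      refine continuous_pi fun k => ?_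
      exact (continuous_const.sub continuous_id).mul continuous_const
    have hβ1 : ∀ x, β x (n + 1) = 0 := fun x => by
      show (1 - x) * Function.update α (n + 1) 0 (n + 1) = 0
      rw [Function.update_self, mul_zero]
    have hc : Continuous fun x : ℝ =>
        ((stdst n t J std (β x) (Slev n), (Slev n : ℂ)) : (ℕ → ℝ) × ℂ) := by
      have h2 : Continuous fun x : ℝ => ((β x, (Slev n : ℂ)) : (ℕ → ℝ) × ℂ) :=
        hβ.prodMk continuous_const
      have h3 := (W2C_cont n t J hstd.1).comp h2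
      simp only [Function.comp_def] at h3
      exact h3
    refine JoinedIn.ofLine (f := fun x : ℝ =>
        ((stdst n t J std (β x) (Slev n), (Slev n : ℂ)) : (ℕ → ℝ) × ℂ)) hc.continuousOn ?_ ?_ ?_
    · have : β 0 = Function.update α (n + 1) 0 := by
        funext k
        show (1 - 0) * Function.update α (n + 1) 0 k = _
        ring
      simp only [this]
    · have : β 1 = 0 := by
        funext k
        show (1 - 1) * Function.update α (n + 1) 0 k = 0
        ring
      simp only [this]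
    · rintro _ ⟨x, _, rfl⟩
      obtain ⟨ha, hb, hc'⟩ := hend
      refine W2C_mem hsz J_gt hJ1 hstd _ _ ha hb ?_
      rw [hβ1]
      exact hc'
  exact (P1.trans P2).trans P3

end Pool.Agent.QF
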