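import Pool.Agent.QF.Defs

/-! W3G: the function `e^{-ξ} - 1 + κξ` near a double zero. -/

namespace Pool.Agent.QF

open Complex

theorem w3g_exp {ξ : ℂ} (hξ : ‖ξ‖ ≤ 1 / 4) :
    ‖exp (-ξ) - 1 + ξ - ξ ^ 2 / 2‖ ≤ 2 / 9 * ‖ξ‖ ^ 3 := by
  have h := Complex.exp_bound (x := -ξ) (by rw [norm_neg]; linarith) (n := 3) (by norm_num)
  rw [norm_neg] at h
  have e : exp (-ξ) - ∑ m ∈ Finset.range 3, (-ξ) ^ m / (m.factorial : ℂ)
      = exp (-ξ) - 1 + ξ - ξ ^ 2 / 2 := by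
    simp only [Finset.sum_range_succ, Finset.sum_range_zero, Nat.factorial, Nat.cast_one]
    push_cast
    ring
  rw [e] at h
  refine h.trans (le_of_eq ?_)
  simp only [Nat.factorial]
  push_cast
  ring

theorem G_circle {κ ξ : ℂ} (hκ : ‖1 - κ‖ ≤ 1 / 16) (hξ : ‖ξ‖ = 1 / 4) :
    1 / 100 ≤ ‖exp (-ξ) - 1 + κ * ξ‖ := by
  have hu := w3g_exp hξ.le
  have h1 : ξ ^ 2 / 2 = (exp (-ξ) - 1 + κ * ξ) + (1 - κ) * ξ - (exp (-ξ) - 1 + ξ - ξ ^ 2 / 2) := by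
    ring
  have h2 : ‖ξ ^ 2 / 2‖ ≤ ‖exp (-ξ) - 1 + κ * ξ‖ + ‖(1 - κ) * ξ‖ +
      ‖exp (-ξ) - 1 + ξ - ξ ^ 2 / 2‖ := by
    conv_lhs => rw [h1]
    refine (norm_sub_le _ _).trans ?_
    exact add_le_add_left (norm_add_le _ _) _
  have h3 : ‖ξ ^ 2 / 2‖ = 1 / 32 := by
    rw [norm_div, norm_pow, hξ]
    norm_num
  have h4 : ‖(1 - κ) * ξ‖ ≤ 1 / 64 := by
    rw [norm_mul, hξ]
    linarith
  rw [hξ] at hu
  rw [h3] at h2
  norm_num at hu
  linarith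

/-- `D = κ - e^{-ξ}`, `G = e^{-ξ} - 1 + κ ξ`, `u = e^{-ξ} - 1 + ξ - ξ²/2`: then
`2G - ξD = (κ-1)ξ + 2u + ξ³/2 + ξu`, so `‖κ-1‖‖ξ‖ ≤ 2‖G‖ + ‖ξ‖‖D‖ + ‖ξ‖³`; and `G = (κ-1)ξ + ξ²/2 + u` bounds `‖ξ‖`
by about `0.14`. For `‖ξ‖ ≤ 1/100` directly `‖D‖ ≥ 1/16 - ‖1 - e^{-ξ}‖`. -/
theorem G_exit {κ ξ : ℂ} (hκ : ‖1 - κ‖ = 1 / 16) (hξ : ‖ξ‖ ≤ 1 / 4)
    (hG : ‖exp (-ξ) - 1 + κ * ξ‖ ≤ 1 / 10 ^ 6) : max ‖exp (-ξ)‖ ‖κ‖ ≤ 50 * ‖κ - exp (-ξ)‖ := by
  have hu := w3g_exp hξ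
  set u := exp (-ξ) - 1 + ξ - ξ ^ 2 / 2 with hudef
  set G := exp (-ξ) - 1 + κ * ξ with hGdef
  set D := κ - exp (-ξ) with hDdef
  set y := ‖ξ‖ with hy
  have hy0 : 0 ≤ y := norm_nonneg _
  have hD : 1 / 40 ≤ ‖D‖ := by
    rcases le_total y (1 / 100) with hs | hs
    · -- small case
      have e : 1 - κ = -D - (u - ξ + ξ ^ 2 / 2) := by
        rw [hDdef, hudef]; ring
      have h1 : ‖1 - κ‖ ≤ ‖D‖ + (‖u‖ + y + y ^ 2 / 2) := by
        rw [e]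
        refine (norm_sub_le _ _).trans ?_
        rw [norm_neg]
        refine add_le_add_right ?_ _
        refine (norm_add_le _ _).trans ?_
        refine add_le_add ((norm_sub_le _ _)) ?_
        rw [norm_div, norm_pow]
        norm_num [hy]
      rw [hκ] at h1
      nlinarith [pow_nonneg hy0 3, pow_le_pow_left₀ hy0 hs 3, pow_le_pow_left₀ hy0 hs 2]
    · -- large case
      have hy1 : 0 < y := by linarith
      have e1 : (1 - κ) * ξ = -(2 * G - ξ * D) + (2 * u + ξ ^ 3 / 2 + ξ * u) := by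
        rw [hGdef, hDdef, hudef]; ring
      have h1 : ‖(1 - κ) * ξ‖ ≤ 2 * ‖G‖ + y * ‖D‖ + y ^ 3 := by
        rw [e1]
        refine (norm_add_le _ _).trans ?_
        rw [norm_neg]
        have a1 : ‖2 * G - ξ * D‖ ≤ 2 * ‖G‖ + y * ‖D‖ := by
          refine (norm_sub_le _ _).trans ?_
          rw [norm_mul, norm_mul]
          norm_num [hy]
        have a2 : ‖2 * u + ξ ^ 3 / 2 + ξ * u‖ ≤ y ^ 3 := by
          refine (norm_add_le _ _).trans ?_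
          have b1 : ‖2 * u + ξ ^ 3 / 2‖ ≤ 2 * ‖u‖ + y ^ 3 / 2 := by
            refine (norm_add_le _ _).trans ?_
            rw [norm_mul, norm_div, norm_pow]
            norm_num [hy]
          have b2 : ‖ξ * u‖ ≤ 1 / 4 * ‖u‖ := by
            rw [norm_mul]
            exact mul_le_mul_of_nonneg_right hξ (norm_nonneg _)
          nlinarith [norm_nonneg u]
        linarith
      have h2 : ‖(1 - κ) * ξ‖ = y / 16 := by
        rw [norm_mul, hκ]; ring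
      have e2 : ξ ^ 2 / 2 = G + (1 - κ) * ξ - u := by
        rw [hGdef, hudef]; ring
      have h3 : y ^ 2 / 2 ≤ ‖G‖ + y / 16 + ‖u‖ := by
        have h4 : ‖ξ ^ 2 / 2‖ ≤ ‖G‖ + ‖(1 - κ) * ξ‖ + ‖u‖ := by
          conv_lhs => rw [e2]
          refine (norm_sub_le _ _).trans ?_
          exact add_le_add_left (norm_add_le _ _) _
        rw [h2, norm_div, norm_pow] at h4
        norm_num at h4
        exact h4
      rw [h2] at h1
      -- bound on y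
      have hG' : ‖G‖ ≤ y / 10000 := by
        refine hG.trans ?_
        have : (1 : ℝ) / 10 ^ 6 = 1 / 100 / 10000 := by norm_num
        rw [this]
        linarith
      have h5 : y * (y / 2) ≤ y * (1 / 10000 + 1 / 16 + 2 / 9 * y ^ 2) := by
        nlinarith
      have h6 : y / 2 ≤ 1 / 10000 + 1 / 16 + 2 / 9 * y ^ 2 := le_of_mul_le_mul_left h5 hy1
      have h7 : y ≤ 15 / 100 := by nlinarith
      have h8 : y * (1 / 16) ≤ y * (2 / 10000 + ‖D‖ + y ^ 2) := by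
        nlinarith
      have h9 : 1 / 16 ≤ 2 / 10000 + ‖D‖ + y ^ 2 := le_of_mul_le_mul_left h8 hy1
      nlinarith
  have hκ1 : ‖κ‖ ≤ 17 / 16 := by
    have e : κ = 1 - (1 - κ) := by ring
    have h1 : ‖κ‖ ≤ ‖(1 : ℂ)‖ + ‖1 - κ‖ := by
      conv_lhs => rw [e]
      exact norm_sub_le _ _
    rw [norm_one, hκ] at h1
    linarith
  have he : ‖exp (-ξ)‖ ≤ 17 / 16 + ‖D‖ := by
    have e : exp (-ξ) = κ - D := by rw [hDdef]; ring
    rw [e]
    exact (norm_sub_le _ _).trans (by linarith)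
  exact max_le (by linarith) (by linarith)

/-- The rotation of `κ` until `‖1 - κ‖ = 1/16`. -/
theorem rotate {κ : ℂ} (hκ : ‖1 - κ‖ ≤ 1 / 16) : ∃ δ : ℝ, ‖1 - κ * exp ((δ : ℂ) * I)‖ = 1 / 16 ∧
    ∀ x ∈ Set.Icc (0 : ℝ) 1, ‖1 - κ * exp (((x * δ : ℝ) : ℂ) * I)‖ ≤ 1 / 16 := by
  set h : ℝ → ℝ := fun y => ‖1 - κ * exp ((y : ℂ) * I)‖ with hh
  have hc : Continuous h := by
    refine continuous_norm.comp (continuous_const.sub (continuous_const.mul ?_))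
    exact Complex.continuous_exp.comp (Complex.continuous_ofReal.mul continuous_const)
  have h0 : h 0 ≤ 1 / 16 := by
    simp only [hh, Complex.ofReal_zero, zero_mul, Complex.exp_zero, mul_one]
    exact hκ
  have hpi : 1 / 16 ≤ h Real.pi := by
    simp only [hh]
    rw [Complex.exp_pi_mul_I]
    have e : (2 : ℂ) = (1 - κ * -1) + (1 - κ) := by ring
    have h1 : ‖(2 : ℂ)‖ ≤ ‖1 - κ * -1‖ + ‖1 - κ‖ := by
      conv_lhs => rw [e]
      exact norm_add_le _ _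
    norm_num at h1 ⊢
    linarith
  set S : Set ℝ := Set.Icc 0 Real.pi ∩ {y | 1 / 16 ≤ h y} with hS
  have hScomp : IsCompact S := isCompact_Icc.inter_right (isClosed_le continuous_const hc)
  obtain ⟨y0, hy0, hleast⟩ := hScomp.exists_isLeast ⟨Real.pi, ⟨Real.pi_pos.le, le_rfl⟩, hpi⟩
  have hy0nn : 0 ≤ y0 := hy0.1.1
  have hval : h y0 = 1 / 16 := by
    obtain ⟨y1, hy1, hy1v⟩ := intermediate_value_Icc hy0nn hc.continuousOn
      (show (1 / 16 : ℝ) ∈ Set.Icc (h 0) (h y0) from ⟨h0, hy0.2⟩)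
    have hmem : y1 ∈ S := ⟨⟨hy1.1, hy1.2.trans hy0.1.2⟩, by simp only [Set.mem_ofPred_eq, hy1v, le_refl]⟩
    have : y1 = y0 := le_antisymm hy1.2 (hleast hmem)
    rw [← this]
    exact hy1v
  refine ⟨y0, hval, fun x hx => ?_⟩
  by_contra hcon
  push Not at hcon
  have hxy : x * y0 ≤ y0 := by nlinarith [hx.2]
  have hxy0 : 0 ≤ x * y0 := mul_nonneg hx.1 hy0nn
  have hmem : x * y0 ∈ S := ⟨⟨hxy0, hxy.trans hy0.1.2⟩, hcon.le⟩
  have heq : x * y0 = y0 := le_antisymm hxy (hleast hmem)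
  rw [heq] at hcon
  have : h y0 = 1 / 16 := hval
  simp only [hh] at this
  linarith

end Pool.Agent.QF
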