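import Pool.Agent.QF.Defs

/-! W3Z: persistence of zeros. -/

namespace Pool.Agent.QF

open Complex

/-- Minimum modulus principle. -/
private theorem W3Z_min {r m : ℝ} {c : ℂ} {h : ℂ → ℂ} (hr : 0 < r) (hm : 0 < m)
    (hol : Differentiable ℂ h) (hcirc : ∀ z ∈ Metric.sphere c r, m ≤ ‖h z‖)
    (h0 : ∃ z ∈ Metric.closedBall c r, ‖h z‖ < m) : ∃ z ∈ Metric.closedBall c r, h z = 0 := by
  by_contra hc
  push Not at hc
  obtain ⟨z, hz, hzm⟩ := h0
  have hcl : closure (Metric.ball c r) = Metric.closedBall c r := closure_ball c hr.ne'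
  have hd : DiffContOnCl ℂ (fun w => (h w)⁻¹) (Metric.ball c r) := by
    refine ⟨?_, ?_⟩
    · intro w hw
      exact (hol.differentiableAt.inv (hc w (Metric.ball_subset_closedBall hw))).differentiableWithinAt
    · rw [hcl]
      intro w hw
      exact (hol.continuous.continuousAt.inv₀ (hc w hw)).continuousWithinAt
  have hfr : ∀ w ∈ frontier (Metric.ball c r), ‖(h w)⁻¹‖ ≤ m⁻¹ := by
    intro w hw
    rw [frontier_ball c hr.ne'] at hw
    rw [norm_inv]
    exact inv_anti₀ hm (hcirc w hw)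
  have hb := Complex.norm_le_of_forall_mem_frontier_norm_le Metric.isBounded_ball hd hfr
    (z := z) (by rw [hcl]; exact hz)
  rw [norm_inv] at hb
  have hpos : 0 < ‖h z‖ := norm_pos_iff.mpr (hc z hz)
  have := (inv_le_inv₀ hpos hm).mp hb
  linarith

/-- Zeros persist: clopen argument in `x ∈ [0,1]`, with the minimum modulus principle (if `H x` has no zero in the
closed ball, then `‖H x z‖ ≥ m` on the whole ball; apply the maximum principle to `1 / H x`). -/
theorem zero_persists {r m : ℝ} {c : ℂ} {H : ℝ → ℂ → ℂ} (hr : 0 < r) (hm : 0 < m)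
    (hcont : Continuous fun p : ℝ × ℂ => H p.1 p.2) (hol : ∀ x, Differentiable ℂ (H x))
    (hcirc : ∀ x ∈ Set.Icc (0 : ℝ) 1, ∀ z ∈ Metric.sphere c r, m ≤ ‖H x z‖)
    (h0 : ∃ z ∈ Metric.closedBall c r, ‖H 0 z‖ < m) : ∃ z ∈ Metric.closedBall c r, H 1 z = 0 := by
  let P : Set ℝ := {x | ∃ z ∈ Metric.closedBall c r, H x z = 0}
  have hclosed : IsClosed (P ∩ Set.Icc (0 : ℝ) 1) := by
    have hK : IsCompact ((Set.Icc (0 : ℝ) 1 ×ˢ Metric.closedBall c r) ∩
        {p : ℝ × ℂ | H p.1 p.2 = 0}) :=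
      (isCompact_Icc.prod (isCompact_closedBall c r)).inter_right
        (isClosed_eq hcont continuous_const)
    have himg := (hK.image continuous_fst).isClosed
    convert himg using 1
    ext x
    constructor
    · rintro ⟨⟨z, hz, hzx⟩, hx⟩
      exact ⟨(x, z), ⟨⟨hx, hz⟩, hzx⟩, rfl⟩
    · rintro ⟨⟨x', z⟩, ⟨⟨hx, hz⟩, hzx⟩, rfl⟩
      exact ⟨⟨z, hz, hzx⟩, hx⟩
  have h0P : (0 : ℝ) ∈ P :=
    W3Z_min hr hm (hol 0) (hcirc 0 ⟨le_rfl, zero_le_one⟩) h0
  have hsub : Set.Icc (0 : ℝ) 1 ⊆ P := by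
    apply IsClosed.Icc_subset_of_forall_mem_nhdsWithin hclosed h0P
    rintro x ⟨⟨z, hz, hzx⟩, hx⟩
    have hopen : ∀ᶠ y in nhds x, ‖H y z‖ < m := by
      have hc1 : Continuous fun y => ‖H y z‖ :=
        (hcont.comp (continuous_id.prodMk continuous_const)).norm
      have : ‖H x z‖ < m := by rw [hzx, norm_zero]; exact hm
      exact hc1.continuousAt.eventually_lt continuousAt_const this
    have h1 : ∀ᶠ y in nhdsWithin x (Set.Ioi x), ‖H y z‖ < m :=
      hopen.filter_mono nhdsWithin_le_nhds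
    have h2 : ∀ᶠ y in nhdsWithin x (Set.Ioi x), y ∈ Set.Ioo x 1 :=
      Ioo_mem_nhdsGT hx.2
    filter_upwards [h1, h2] with y hy1 hy2
    exact W3Z_min hr hm (hol y) (hcirc y ⟨le_trans hx.1 hy2.1.le, hy2.2.le⟩) ⟨z, hz, hy1⟩
  exact hsub ⟨zero_le_one, le_rfl⟩

end Pool.Agent.QF
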