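import Pool.Agent.QF.FB
import Pool.Agent.QF.DR
import Pool.Agent.QF.W3Z
import Pool.Agent.QF.W3G

/-! W3D: from a near-degenerate state with `C` small to a good state with `C = 0`. -/

namespace Pool.Agent.QF

open Complex

theorem w3d_norm_exp (q : ℚ) (s : ℂ) : ‖exp (-(q : ℂ) * s)‖ = Real.exp (-(q : ℝ) * s.re) := by
  rw [Complex.norm_exp]
  simp

theorem w3d_norm_amp (k : ℕ) : ‖(amp k : ℂ)‖ = amp k := by
  rw [Complex.norm_real, Real.norm_of_nonneg (amp_pos k).le]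

theorem w3d_norm_rat {q : ℚ} (hq : 0 ≤ (q : ℝ)) : ‖(q : ℂ)‖ = (q : ℝ) := by
  have h : ((q : ℝ) : ℂ) = (q : ℂ) := by push_cast; rfl
  rw [← h, Complex.norm_real, Real.norm_of_nonneg hq]

theorem w3d_exp_le {q : ℚ} (hq : 0 ≤ (q : ℝ)) {s : ℂ} (hs : 0 ≤ s.re) : ‖exp (-(q : ℂ) * s)‖ ≤ 1 := by
  rw [w3d_norm_exp, Real.exp_le_one_iff]
  nlinarith

/-- Expansion of `F` around a near-degenerate state, on the disc `‖ζ‖ ≤ 1/(4 t_n)`. -/
theorem FF_expand {n : ℕ} {t : ℕ → ℚ} (hsz : Sizes t) {J : Finset ℕ} (J_gt : ∀ k ∈ J, n < k) (hJ1 : n + 1 ∈ J)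
    (α : ℕ → ℝ) {s ζ : ℂ} (h1 : 0 ≤ s.re) (h1' : 0 ≤ (s + ζ).re) (h2 : s.re ≤ Elev n)
    (hζ : ‖ζ‖ * (4 * t n) ≤ 1) {κ : ℂ}
    (hκ : (t n : ℂ) * amp n * exp (-(t n : ℂ) * s) * κ =
      -((t (n + 1) : ℂ) * amp (n + 1) * exp ((α (n + 1) : ℂ) * I) * exp (-(t (n + 1) : ℂ) * s))) :
    ‖FF n t J α (s + ζ) - FF n t J α s -
        (amp n : ℂ) * exp (-(t n : ℂ) * s) * (exp (-((t n : ℂ) * ζ)) - 1 + κ * ((t n : ℂ) * ζ))‖
      ≤ tau n ^ 190 := by
  have hx0 := tau_pos n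
  have hx1 : tau n ≤ (1 / 2) ^ 100 := tau_le n
  have htn := hsz n
  have htn1 := hsz (n + 1)
  rw [tau_succ] at htn1
  -- the size of `ζ`
  have hζ1 : ‖ζ‖ * tau n ≤ 1 / 2 := by
    have h3 : ‖ζ‖ * (2 * tau n) ≤ ‖ζ‖ * (4 * t n) :=
      mul_le_mul_of_nonneg_left (by linarith [htn.1]) (norm_nonneg _)
    linarith
  have hz1 : ‖(t (n + 1) : ℂ) * ζ‖ ≤ tau n ^ 99 / 2 := by
    rw [norm_mul, w3d_norm_rat (by linarith [htn1.1, pow_pos hx0 100])]
    calc (t (n + 1) : ℝ) * ‖ζ‖ ≤ tau n ^ 100 * ‖ζ‖ :=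
          mul_le_mul_of_nonneg_right htn1.2 (norm_nonneg _)
      _ = tau n ^ 99 * (‖ζ‖ * tau n) := by ring
      _ ≤ tau n ^ 99 * (1 / 2) := mul_le_mul_of_nonneg_left hζ1 (by positivity)
      _ = tau n ^ 99 / 2 := by ring
  have hpow : ∀ m, 1 ≤ m → tau n ^ m ≤ 1 / 2 := by
    intro m hm
    calc tau n ^ m ≤ tau n ^ 1 := pow_le_pow_of_le_one hx0.le (hx1.trans (by norm_num)) hm
      _ ≤ 1 / 2 := by rw [pow_one]; exact hx1.trans (by norm_num)
  have hzk : ∀ k ∈ J.erase (n + 1), ‖(t k : ℂ) * ζ‖ ≤ tau n ^ 9999 / 2 := by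
    intro k hk
    have hk1 := Finset.mem_erase.1 hk
    have hk2 : n + 2 ≤ k := by
      have := J_gt k hk1.2
      have := hk1.1
      omega
    have h3 : (t k : ℝ) ≤ tau n ^ 10000 := by
      refine (hsz k).2.trans ((tau_anti hk2).trans ?_)
      rw [tau_succ, tau_succ, ← pow_mul]
    rw [norm_mul, w3d_norm_rat (by linarith [(hsz k).1, tau_pos k])]
    calc (t k : ℝ) * ‖ζ‖ ≤ tau n ^ 10000 * ‖ζ‖ := mul_le_mul_of_nonneg_right h3 (norm_nonneg _)
      _ = tau n ^ 9999 * (‖ζ‖ * tau n) := by ring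
      _ ≤ tau n ^ 9999 * (1 / 2) := mul_le_mul_of_nonneg_left hζ1 (by positivity)
      _ = tau n ^ 9999 / 2 := by ring
  -- the identity
  have hS : (∑ k ∈ J.erase (n + 1), (amp k : ℂ) * exp ((α k : ℂ) * I) * exp (-(t k : ℂ) * s) *
      (exp (-((t k : ℂ) * ζ)) - 1)) =
      (∑ k ∈ J.erase (n + 1), (amp k : ℂ) * exp ((α k : ℂ) * I) * exp (-(t k : ℂ) * (s + ζ))) -
      ∑ k ∈ J.erase (n + 1), (amp k : ℂ) * exp ((α k : ℂ) * I) * exp (-(t k : ℂ) * s) := by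
    rw [← Finset.sum_sub_distrib]
    refine Finset.sum_congr rfl fun k _ => ?_
    rw [mul_add, exp_add, ← neg_mul]
    ring
  have key : FF n t J α (s + ζ) - FF n t J α s -
        (amp n : ℂ) * exp (-(t n : ℂ) * s) * (exp (-((t n : ℂ) * ζ)) - 1 + κ * ((t n : ℂ) * ζ)) =
      (amp (n + 1) : ℂ) * exp ((α (n + 1) : ℂ) * I) * exp (-(t (n + 1) : ℂ) * s) *
        (exp (-((t (n + 1) : ℂ) * ζ)) - 1 - (-((t (n + 1) : ℂ) * ζ))) +
      ∑ k ∈ J.erase (n + 1), (amp k : ℂ) * exp ((α k : ℂ) * I) * exp (-(t k : ℂ) * s) *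
        (exp (-((t k : ℂ) * ζ)) - 1) := by
    rw [hS]
    unfold FF
    rw [← Finset.add_sum_erase J _ hJ1, ← Finset.add_sum_erase J _ hJ1]
    have e1 : exp (-(t n : ℂ) * (s + ζ)) = exp (-(t n : ℂ) * s) * exp (-((t n : ℂ) * ζ)) := by
      rw [mul_add, exp_add, ← neg_mul]
    have e2 : exp (-(t (n + 1) : ℂ) * (s + ζ)) =
        exp (-(t (n + 1) : ℂ) * s) * exp (-((t (n + 1) : ℂ) * ζ)) := by
      rw [mul_add, exp_add, ← neg_mul]
    rw [e1, e2]
    linear_combination (-ζ) * hκ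
  rw [key]
  -- first term
  have hb1 : ‖(amp (n + 1) : ℂ) * exp ((α (n + 1) : ℂ) * I) * exp (-(t (n + 1) : ℂ) * s) *
        (exp (-((t (n + 1) : ℂ) * ζ)) - 1 - (-((t (n + 1) : ℂ) * ζ)))‖ ≤ tau n ^ 198 := by
    have h3 : ‖exp (-((t (n + 1) : ℂ) * ζ)) - 1 - (-((t (n + 1) : ℂ) * ζ))‖ ≤
        ‖-((t (n + 1) : ℂ) * ζ)‖ ^ 2 := by
      apply Complex.norm_exp_sub_one_sub_id_le
      rw [norm_neg]
      exact hz1.trans (by linarith [hpow 99 (by norm_num)])
    rw [norm_neg] at h3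
    have h4 : ‖(t (n + 1) : ℂ) * ζ‖ ^ 2 ≤ (tau n ^ 99) ^ 2 := by
      apply pow_le_pow_left₀ (norm_nonneg _)
      exact hz1.trans (by linarith [pow_pos hx0 99])
    rw [norm_mul, norm_mul, norm_mul, w3d_norm_amp, Complex.norm_exp_ofReal_mul_I, mul_one]
    have h5 := w3d_exp_le (q := t (n + 1)) (by linarith [htn1.1, pow_pos hx0 100]) h1
    have h6 : amp (n + 1) * ‖exp (-(t (n + 1) : ℂ) * s)‖ ≤ 1 * 1 :=
      mul_le_mul (amp_le_one _) h5 (norm_nonneg _) zero_le_one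
    calc _ ≤ (1 * 1) * (tau n ^ 99) ^ 2 :=
          mul_le_mul h6 (h3.trans h4) (norm_nonneg _) (by norm_num)
      _ = tau n ^ 198 := by ring
  -- the sum
  have hb2 : ‖∑ k ∈ J.erase (n + 1), (amp k : ℂ) * exp ((α k : ℂ) * I) * exp (-(t k : ℂ) * s) *
        (exp (-((t k : ℂ) * ζ)) - 1)‖ ≤ 200 * tau n ^ 9999 := by
    calc _ ≤ ∑ k ∈ J.erase (n + 1), amp k * tau n ^ 9999 := by
          refine (norm_sum_le _ _).trans (Finset.sum_le_sum fun k hk => ?_)
          rw [norm_mul, norm_mul, norm_mul, w3d_norm_amp, Complex.norm_exp_ofReal_mul_I, mul_one]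
          have h5 := w3d_exp_le (q := t k) (by linarith [(hsz k).1, tau_pos k]) h1
          have h6 : ‖exp (-((t k : ℂ) * ζ)) - 1‖ ≤ tau n ^ 9999 := by
            have h7 : ‖exp (-((t k : ℂ) * ζ)) - 1‖ ≤ 2 * ‖-((t k : ℂ) * ζ)‖ := by
              apply Complex.norm_exp_sub_one_le
              rw [norm_neg]
              exact (hzk k hk).trans (by linarith [hpow 9999 (by norm_num)])
            rw [norm_neg] at h7
            linarith [hzk k hk]
          have h8 : amp k * ‖exp (-(t k : ℂ) * s)‖ ≤ amp k * 1 :=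
            mul_le_mul_of_nonneg_left h5 (amp_pos k).le
          calc _ ≤ (amp k * 1) * tau n ^ 9999 :=
                mul_le_mul h8 h6 (norm_nonneg _) (by linarith [amp_pos k])
            _ = _ := by ring
      _ = (∑ k ∈ J.erase (n + 1), amp k) * tau n ^ 9999 := by rw [Finset.sum_mul]
      _ ≤ 200 * tau n ^ 9999 := by
          refine mul_le_mul_of_nonneg_right ?_ (by positivity)
          have h9 := amp_sum_le n (J.erase (n + 1)) (fun k hk => (J_gt k (Finset.mem_of_mem_erase hk)).le)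
          linarith [amp_le_one n]
  refine (norm_add_le _ _).trans ((add_le_add hb1 hb2).trans ?_)
  have h10 : tau n ^ 198 ≤ tau n ^ 190 * (1 / 2) := by
    calc tau n ^ 198 = tau n ^ 190 * tau n ^ 8 := by ring
      _ ≤ tau n ^ 190 * (1 / 2) := mul_le_mul_of_nonneg_left (hpow 8 (by norm_num)) (by positivity)
  have h11 : 200 * tau n ^ 9999 ≤ tau n ^ 190 * (1 / 2) := by
    have h12 : tau n ^ 9809 ≤ tau n ^ 1 :=
      pow_le_pow_of_le_one hx0.le (hx1.trans (by norm_num)) (by norm_num)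
    have h13 : tau n ^ 9809 ≤ 1 / 400 := by
      rw [pow_one] at h12
      exact h12.trans (hx1.trans (by norm_num))
    calc 200 * tau n ^ 9999 = tau n ^ 190 * (200 * tau n ^ 9809) := by ring
      _ ≤ tau n ^ 190 * (1 / 2) := mul_le_mul_of_nonneg_left (by linarith) (by positivity)
  linarith

theorem w3d_small {n : ℕ} {L : ℝ} (hL : 1 ≤ L) (h : SmallL n L) : 10 ^ 10 * L * tau n ≤ amp n := by
  have ha := amp_pos n
  have hx := tau_pos n
  have hq : 1 ≤ 10 ^ 10 * L / amp n := by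
    rw [le_div_iff₀ ha]
    have := amp_le_one n
    nlinarith
  have h1 : 10 ^ 10 * L / amp n ≤ (10 ^ 10 * L / amp n) ^ 100 := le_self_pow₀ hq (by norm_num)
  have h2 : 10 ^ 10 * L / amp n * tau n ≤ 1 :=
    (mul_le_mul_of_nonneg_right h1 hx.le).trans h
  rw [div_mul_eq_mul_div, div_le_one ha] at h2
  exact h2

theorem w3d_small_one {n : ℕ} {L : ℝ} (hL : 1 ≤ L) (h : SmallL n L) : SmallL n 1 := by
  unfold SmallL at h ⊢
  refine le_trans (mul_le_mul_of_nonneg_right ?_ (tau_pos n).le) h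
  have ha := amp_pos n
  refine pow_le_pow_left₀ (by positivity) ?_ _
  exact div_le_div_of_nonneg_right (by linarith) ha.le

/-- The numbers at a near-degenerate state. -/
theorem w3d_near {n : ℕ} {t : ℕ → ℚ} (hsz : Sizes t) (ha : 10 ^ 10 * tau n ≤ amp n) {σ : ℝ}
    (h1 : Slev n ≤ σ) (h2 : σ ≤ Elev n)
    (hXY : 64 * |(t n : ℝ) * amp n * Real.exp (-(t n : ℝ) * σ) -
        (t (n + 1) : ℝ) * amp (n + 1) * Real.exp (-(t (n + 1) : ℝ) * σ)| < TM n t σ) :
    10 ^ 9 * tau n ^ 100 ≤ amp n * Real.exp (-(t n : ℝ) * σ) ∧ Slev n ≤ σ - 1 / (4 * t n) ∧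
      σ + 1 / (4 * t n) ≤ Elev n ∧
      (t (n + 1) : ℝ) * amp (n + 1) * Real.exp (-(t (n + 1) : ℝ) * σ) ≤
        64 / 63 * ((t n : ℝ) * amp n * Real.exp (-(t n : ℝ) * σ)) := by
  have hx0 := tau_pos n
  have hx1 : tau n ≤ (1 / 2) ^ 100 := tau_le n
  have htn := hsz n
  have htn1 := hsz (n + 1)
  have hS := Slev_sq n
  have hSp := Slev_pos n
  have hE : Elev n = 1 / tau n ^ 100 := by rw [Elev_eq, tau_succ]
  rw [tau_succ] at htn1
  have hb : 3 / 4 * amp n ≤ amp (n + 1) := amp_near n 1 (by norm_num)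
  have hb' : amp (n + 1) ≤ amp n := amp_anti (Nat.le_succ n)
  have hap := amp_pos n
  unfold TM at hXY
  set p : ℝ := (t n : ℝ) with hp
  set q : ℝ := (t (n + 1) : ℝ) with hq
  set x : ℝ := tau n with hx
  set a : ℝ := amp n with haa
  set b : ℝ := amp (n + 1) with hbb
  set E0 : ℝ := Real.exp (-p * σ) with hE0
  set E1 : ℝ := Real.exp (-q * σ) with hE1
  have hE0p : 0 < E0 := Real.exp_pos _
  have hE1p : 0 < E1 := Real.exp_pos _
  have hpp : 0 < p := by linarith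
  have hx100 : 0 < x ^ 100 := pow_pos hx0 100
  have hx99 : 0 < x ^ 99 := pow_pos hx0 99
  have hσ : 0 < σ := by linarith
  -- comparison of the two terms
  have hcmp : q * b * E1 ≤ 64 / 63 * (p * a * E0) ∧ p * a * E0 ≤ 64 / 63 * (q * b * E1) := by
    have hX0 : 0 < p * a * E0 := by positivity
    have hY0 : 0 < q * b * E1 := by
      have : 0 < q := by linarith
      have : 0 < b := by linarith
      positivity
    rcases le_total (p * a * E0) (q * b * E1) with h3 | h3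
    · rw [max_eq_right h3, abs_of_nonpos (by linarith)] at hXY
      constructor <;> linarith
    · rw [max_eq_left h3, abs_of_nonneg (by linarith)] at hXY
      constructor <;> linarith
  -- the second term
  have hE1' : 1 / 3 ≤ E1 := by
    have h3 : q * σ ≤ 1 := by
      calc q * σ ≤ x ^ 100 * (1 / x ^ 100) := by
            apply mul_le_mul htn1.2 (h2.trans hE.le) hσ.le hx100.le
        _ = 1 := by field_simp
    have h4 : Real.exp (-1) ≤ E1 := by
      rw [hE1]; apply Real.exp_le_exp.2; linarith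
    have := Real.exp_neg_one_gt_d9
    linarith
  have hE1'' : E1 ≤ 1 := by
    rw [hE1, Real.exp_le_one_iff]
    have : 0 < q * σ := mul_pos (by linarith) hσ
    linarith
  have hYl : a * x ^ 100 / 8 ≤ q * b * E1 := by
    have h3 : (x ^ 100 / 2) * (3 / 4 * a) * (1 / 3) ≤ q * b * E1 := by
      apply mul_le_mul _ hE1' (by norm_num) (by nlinarith)
      apply mul_le_mul htn1.1 hb (by positivity) (by linarith)
    calc a * x ^ 100 / 8 = (x ^ 100 / 2) * (3 / 4 * a) * (1 / 3) := by ring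
      _ ≤ _ := h3
  have hYu : q * b * E1 ≤ x ^ 100 * a := by
    have h3 : q * b * E1 ≤ x ^ 100 * a * 1 := by
      apply mul_le_mul _ hE1'' hE1p.le (by positivity)
      apply mul_le_mul htn1.2 hb' (by linarith) hx100.le
    linarith
  -- `E0`
  have hE0l : x ^ 99 / 9 ≤ E0 := by
    have h3 : a * x ^ 100 / 9 ≤ p * a * E0 := by
      have := hcmp.1
      have h4 : 0 < a * x ^ 100 := by positivity
      linarith
    have h4 : p * a * E0 ≤ x * a * E0 := by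
      apply mul_le_mul_of_nonneg_right _ hE0p.le
      exact mul_le_mul_of_nonneg_right htn.2 hap.le
    have h5 : x * a * (x ^ 99 / 9) ≤ x * a * E0 := by
      calc x * a * (x ^ 99 / 9) = a * x ^ 100 / 9 := by ring
        _ ≤ _ := h3.trans h4
    exact le_of_mul_le_mul_left h5 (by positivity)
  have hE0u : E0 ≤ 3 * x ^ 99 := by
    have h3 : p * a * E0 ≤ 64 / 63 * (x ^ 100 * a) := by
      have := hcmp.2
      linarith
    have h4 : x / 2 * a * E0 ≤ p * a * E0 := by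
      apply mul_le_mul_of_nonneg_right _ hE0p.le
      exact mul_le_mul_of_nonneg_right htn.1 hap.le
    have h5 : x / 2 * a * E0 ≤ x / 2 * a * (3 * x ^ 99) := by
      have h6 : 0 < x ^ 100 * a := by positivity
      calc x / 2 * a * E0 ≤ 64 / 63 * (x ^ 100 * a) := h4.trans h3
        _ ≤ 3 / 2 * (x ^ 100 * a) := by linarith
        _ = x / 2 * a * (3 * x ^ 99) := by ring
    exact le_of_mul_le_mul_left h5 (by positivity)
  have hx99' : x ^ 99 ≤ 1 / 10 ^ 4 := by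
    calc x ^ 99 ≤ x ^ 1 := pow_le_pow_of_le_one hx0.le (hx1.trans (by norm_num)) (by norm_num)
      _ ≤ 1 / 10 ^ 4 := by rw [pow_one]; exact hx1.trans (by norm_num)
  refine ⟨?_, ?_, ?_, hcmp.1⟩
  · -- lower bound of `a E0`
    calc 10 ^ 9 * x ^ 100 ≤ 10 ^ 10 / 9 * x ^ 100 := by
          apply mul_le_mul_of_nonneg_right (by norm_num) hx100.le
      _ = (10 ^ 10 * x) * (x ^ 99 / 9) := by ring
      _ ≤ a * E0 := mul_le_mul ha hE0l (by positivity) hap.le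
  · -- lower end
    have hpσ : 1 ≤ p * σ := by
      by_contra hcon
      push Not at hcon
      have h3 : Real.exp (-1) ≤ E0 := by
        rw [hE0]; apply Real.exp_le_exp.2; linarith
      have := Real.exp_neg_one_gt_d9
      linarith
    have hpS : p * Slev n ≤ 3 / 4 := by
      have h3 : (x * Slev n) ^ 2 ≤ (1 / 2) ^ 2 := by
        rw [mul_pow, hS]
        calc x ^ 2 * (1 / x) = x := by field_simp
          _ ≤ (1 / 2) ^ 2 := hx1.trans (by norm_num)
      have h4 : x * Slev n ≤ 1 / 2 := by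
        have := abs_le_of_sq_le_sq' h3 (by norm_num)
        exact this.2
      have h5 : p * Slev n ≤ x * Slev n := mul_le_mul_of_nonneg_right htn.2 hSp.le
      linarith
    have h3 : p * Slev n ≤ p * (σ - 1 / (4 * p)) := by
      have h4 : p * (σ - 1 / (4 * p)) = p * σ - 1 / 4 := by field_simp
      rw [h4]; linarith
    exact le_of_mul_le_mul_left h3 hpp
  · -- upper end
    have hu : 10 ^ 4 ≤ 1 / x ^ 99 := by
      rw [le_div_iff₀ hx99]; linarith
    have hE0inv : Real.exp (p * σ) ≤ 9 * (1 / x ^ 99) := by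
      have h3 : Real.exp (p * σ) * E0 = 1 := by
        rw [hE0, ← Real.exp_add]; ring_nf; exact Real.exp_zero
      have h4 : Real.exp (p * σ) * (x ^ 99 / 9) ≤ 1 := by
        rw [← h3]; exact mul_le_mul_of_nonneg_left hE0l (Real.exp_pos _).le
      rw [mul_one_div, le_div_iff₀ hx99]
      linarith
    set u : ℝ := 1 / x ^ 99 with hu'
    have hpσ : p * σ ≤ u / 4 := by
      by_contra hcon
      push Not at hcon
      have h3 : Real.exp (u / 4) < Real.exp (p * σ) := Real.exp_lt_exp.2 hcon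
      have h4 := Real.quadratic_le_exp_of_nonneg (x := u / 4) (by linarith)
      nlinarith
    have h3 : p * (σ + 1 / (4 * p)) ≤ p * Elev n := by
      have h4 : p * (σ + 1 / (4 * p)) = p * σ + 1 / 4 := by field_simp
      have h5 : u / 2 ≤ p * Elev n := by
        calc u / 2 = (x / 2) * (1 / x ^ 100) := by rw [hu']; field_simp
          _ ≤ p * Elev n := by
            rw [hE]; exact mul_le_mul_of_nonneg_right htn.1 (by positivity)
      rw [h4]; linarith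
    exact le_of_mul_le_mul_left h3 hpp

theorem w3d_term_norm {t : ℕ → ℚ} (hsz : Sizes t) (k : ℕ) (θ : ℝ) (s : ℂ) :
    ‖(t k : ℂ) * amp k * exp ((θ : ℂ) * I) * exp (-(t k : ℂ) * s)‖ =
      (t k : ℝ) * amp k * Real.exp (-(t k : ℝ) * s.re) := by
  rw [norm_mul, norm_mul, norm_mul, w3d_norm_rat (by linarith [(hsz k).1, tau_pos k]), w3d_norm_amp,
    Complex.norm_exp_ofReal_mul_I, w3d_norm_exp, mul_one]

theorem w3d_term_norm' {t : ℕ → ℚ} (hsz : Sizes t) (k : ℕ) (s : ℂ) :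
    ‖(t k : ℂ) * amp k * exp (-(t k : ℂ) * s)‖ =
      (t k : ℝ) * amp k * Real.exp (-(t k : ℝ) * s.re) := by
  rw [norm_mul, norm_mul, w3d_norm_rat (by linarith [(hsz k).1, tau_pos k]), w3d_norm_amp,
    w3d_norm_exp]

/-- The value of `G` at the moved zero is tiny. -/
theorem w3d_G_small {n : ℕ} {A : ℝ} {a b F1 F2 G : ℂ} (hab : ‖a * b‖ = A) (hA : 10 ^ 9 * tau n ^ 100 ≤ A)
    (hexp : ‖F2 - F1 - a * b * G‖ ≤ tau n ^ 190)
    (h1 : ‖F1‖ ≤ 2 * tau n ^ 450) (h2 : ‖F2‖ ≤ tau n ^ 4000) : ‖G‖ ≤ 1 / 10 ^ 6 := by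
  have hx0 := tau_pos n
  have hx1 : tau n ≤ (1 / 2) ^ 100 := tau_le n
  have hpow : ∀ i j, i ≤ j → tau n ^ j ≤ tau n ^ i := fun i j hij =>
    pow_le_pow_of_le_one hx0.le (hx1.trans (by norm_num)) hij
  have h3 : ‖a * b * G‖ ≤ ‖F2‖ + ‖F1‖ + tau n ^ 190 := by
    have h4 : a * b * G = F2 - F1 - (F2 - F1 - a * b * G) := by ring
    calc ‖a * b * G‖ = ‖F2 - F1 - (F2 - F1 - a * b * G)‖ := by rw [← h4]
      _ ≤ ‖F2 - F1‖ + ‖F2 - F1 - a * b * G‖ := norm_sub_le _ _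
      _ ≤ _ := add_le_add (norm_sub_le _ _) hexp
  rw [norm_mul, hab] at h3
  have h4 : 10 ^ 9 * tau n ^ 100 * ‖G‖ ≤ A * ‖G‖ := mul_le_mul_of_nonneg_right hA (norm_nonneg _)
  have h5 : tau n ^ 4000 ≤ tau n ^ 190 := hpow _ _ (by norm_num)
  have h6 : tau n ^ 450 ≤ tau n ^ 190 := hpow _ _ (by norm_num)
  have h9 : 0 < tau n ^ 100 := by positivity
  have h7 : 10 ^ 9 * tau n ^ 100 * ‖G‖ ≤ 10 ^ 9 * tau n ^ 100 * (1 / 10 ^ 6) := by
    have h8 : tau n ^ 190 ≤ tau n ^ 100 * (1 / 10 ^ 10) := by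
      calc tau n ^ 190 = tau n ^ 100 * tau n ^ 90 := by ring
        _ ≤ _ := by
          refine mul_le_mul_of_nonneg_left ?_ (by positivity)
          calc tau n ^ 90 ≤ tau n ^ 1 := hpow 1 90 (by norm_num)
            _ ≤ 1 / 10 ^ 10 := by rw [pow_one]; exact hx1.trans (by norm_num)
    linarith
  exact le_of_mul_le_mul_left h7 (by positivity)

/-- The change of the term `n + 1` along the move is a factor near `1`. -/
theorem w3d_rho {n : ℕ} {t : ℕ → ℚ} (hsz : Sizes t) {s s₁ : ℂ} (hd : ‖s₁ - s‖ ≤ 1 / (4 * (t n : ℝ))) :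
    ‖exp (-((t (n + 1) : ℂ) * (s₁ - s))) - 1‖ ≤ tau n ^ 99 := by
  have hx0 := tau_pos n
  have hx1 : tau n ≤ (1 / 2) ^ 100 := tau_le n
  have htn := hsz n
  have hpp : 0 < (t n : ℝ) := by linarith [htn.1]
  have hpow : ∀ i j, i ≤ j → tau n ^ j ≤ tau n ^ i := fun i j hij =>
    pow_le_pow_of_le_one hx0.le (hx1.trans (by norm_num)) hij
  have htn1 := hsz (n + 1)
  rw [tau_succ] at htn1
  have h3 : ‖(t (n + 1) : ℂ) * (s₁ - s)‖ ≤ tau n ^ 99 / 2 := by
    rw [norm_mul, w3d_norm_rat (by linarith [htn1.1, pow_pos hx0 100])]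
    have h4 : tau n * ‖s₁ - s‖ ≤ 1 / 2 := by
      calc tau n * ‖s₁ - s‖ ≤ (2 * (t n : ℝ)) * (1 / (4 * (t n : ℝ))) :=
            mul_le_mul (by linarith [htn.1]) hd (norm_nonneg _) (by positivity)
        _ = 1 / 2 := by field_simp; norm_num
    calc (t (n + 1) : ℝ) * ‖s₁ - s‖ ≤ tau n ^ 100 * ‖s₁ - s‖ :=
          mul_le_mul_of_nonneg_right htn1.2 (norm_nonneg _)
      _ = tau n ^ 99 * (tau n * ‖s₁ - s‖) := by ring
      _ ≤ tau n ^ 99 * (1 / 2) := mul_le_mul_of_nonneg_left h4 (by positivity)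
      _ = _ := by ring
  have h5 : ‖exp (-((t (n + 1) : ℂ) * (s₁ - s))) - 1‖ ≤ 2 * ‖-((t (n + 1) : ℂ) * (s₁ - s))‖ := by
    apply Complex.norm_exp_sub_one_le
    rw [norm_neg]
    have h6 : tau n ^ 99 ≤ 1 := pow_le_one₀ hx0.le (hx1.trans (by norm_num))
    linarith [h3]
  rw [norm_neg] at h5
  linarith

theorem w3d_final {n : ℕ} {E κ ρ : ℂ} (hexit : max ‖E‖ ‖κ‖ ≤ 50 * ‖κ - E‖) (hρ : ‖ρ - 1‖ ≤ tau n ^ 99) :
    max ‖E‖ (‖κ‖ * ‖ρ‖) ≤ 64 * ‖E - κ * ρ‖ := by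
  have hx0 := tau_pos n
  have hx1 : tau n ≤ (1 / 2) ^ 100 := tau_le n
  have hpow : ∀ i j, i ≤ j → tau n ^ j ≤ tau n ^ i := fun i j hij =>
    pow_le_pow_of_le_one hx0.le (hx1.trans (by norm_num)) hij
  obtain ⟨m, hm⟩ : ∃ m, m = max ‖E‖ ‖κ‖ := ⟨_, rfl⟩
  have hm1 : ‖E‖ ≤ m := by rw [hm]; exact le_max_left _ _
  have hm2 : ‖κ‖ ≤ m := by rw [hm]; exact le_max_right _ _
  rw [← hm] at hexit
  have hm0 : 0 ≤ m := (norm_nonneg _).trans hm1
  have hρn : ‖ρ‖ ≤ 1 + tau n ^ 99 := by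
    have h3 : ρ = 1 + (ρ - 1) := by ring
    calc ‖ρ‖ = ‖1 + (ρ - 1)‖ := by rw [← h3]
      _ ≤ ‖(1 : ℂ)‖ + ‖ρ - 1‖ := norm_add_le _ _
      _ ≤ _ := by rw [norm_one]; linarith
  have hlow : m / 50 - m * tau n ^ 99 ≤ ‖E - κ * ρ‖ := by
    have h3 : ‖κ - E‖ ≤ ‖E - κ * ρ‖ + ‖κ * (ρ - 1)‖ := by
      have h4 : κ - E = -(E - κ * ρ) - κ * (ρ - 1) := by ring
      rw [h4]
      refine (norm_sub_le _ _).trans ?_
      rw [norm_neg]
    rw [norm_mul κ] at h3
    have h4 : ‖κ‖ * ‖ρ - 1‖ ≤ m * tau n ^ 99 := mul_le_mul hm2 hρ (norm_nonneg _) hm0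
    linarith
  have hx99 : tau n ^ 99 ≤ 1 / 10 ^ 10 := by
    calc tau n ^ 99 ≤ tau n ^ 1 := hpow 1 99 (by norm_num)
      _ ≤ 1 / 10 ^ 10 := by rw [pow_one]; exact hx1.trans (by norm_num)
  have hx99' : 0 < tau n ^ 99 := by positivity
  have h5 : 0 ≤ m * tau n ^ 99 := by positivity
  have hfin : m * (1 + tau n ^ 99) ≤ 64 * ‖E - κ * ρ‖ := by
    have h4 : m * tau n ^ 99 ≤ m * (1 / 10 ^ 10) := mul_le_mul_of_nonneg_left hx99 hm0
    linarith
  refine le_trans (max_le ?_ ?_) hfin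
  · linarith
  · exact mul_le_mul hm2 hρn (norm_nonneg _) hm0

/-- The exit estimate. -/
theorem w3d_exit {n : ℕ} {t : ℕ → ℚ} (hsz : Sizes t) {s s₁ κ : ℂ} {θ : ℝ}
    (hκ : (t n : ℂ) * amp n * exp (-(t n : ℂ) * s) * κ =
      -((t (n + 1) : ℂ) * amp (n + 1) * exp ((θ : ℂ) * I) * exp (-(t (n + 1) : ℂ) * s)))
    (hd : ‖s₁ - s‖ ≤ 1 / (4 * (t n : ℝ)))
    (hexit : max ‖exp (-((t n : ℂ) * (s₁ - s)))‖ ‖κ‖ ≤ 50 * ‖κ - exp (-((t n : ℂ) * (s₁ - s)))‖) :
    TM n t s₁.re ≤ 64 * ‖TT n t θ s₁‖ := by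
  have hf := w3d_final hexit (w3d_rho hsz hd)
  have e1 : (t n : ℂ) * amp n * exp (-(t n : ℂ) * s₁) =
      (t n : ℂ) * amp n * exp (-(t n : ℂ) * s) * exp (-((t n : ℂ) * (s₁ - s))) := by
    rw [mul_assoc ((t n : ℂ) * amp n), ← exp_add]
    congr 2
    ring
  have e2 : (t (n + 1) : ℂ) * amp (n + 1) * exp ((θ : ℂ) * I) * exp (-(t (n + 1) : ℂ) * s₁) =
      -((t n : ℂ) * amp n * exp (-(t n : ℂ) * s) * κ * exp (-((t (n + 1) : ℂ) * (s₁ - s)))) := by
    have e3 : exp (-(t (n + 1) : ℂ) * s₁) = exp (-(t (n + 1) : ℂ) * s) * exp (-((t (n + 1) : ℂ) * (s₁ - s))) := by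
      rw [← exp_add]
      congr 1
      ring
    rw [hκ, e3]
    ring
  obtain ⟨T, hT⟩ : ∃ T, T = (t n : ℂ) * amp n * exp (-(t n : ℂ) * s) := ⟨_, rfl⟩
  obtain ⟨E, hE⟩ : ∃ E, E = exp (-((t n : ℂ) * (s₁ - s))) := ⟨_, rfl⟩
  obtain ⟨ρ, hρ⟩ : ∃ ρ, ρ = exp (-((t (n + 1) : ℂ) * (s₁ - s))) := ⟨_, rfl⟩
  rw [← hT, ← hE] at e1
  rw [← hT, ← hρ] at e2
  rw [← hE, ← hρ] at hf
  have hTT1 : TT n t θ s₁ = T * (E - κ * ρ) := by
    unfold TT
    rw [e1, e2]
    ring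
  have hTM1 : TM n t s₁.re = max (‖T‖ * ‖E‖) (‖T‖ * (‖κ‖ * ‖ρ‖)) := by
    have h3 := w3d_term_norm' hsz n s₁
    have h4 := w3d_term_norm hsz (n + 1) θ s₁
    rw [e1, norm_mul] at h3
    rw [e2, norm_neg, norm_mul, norm_mul, mul_assoc] at h4
    unfold TM
    rw [← h3, ← h4]
  rw [hTM1, hTT1, norm_mul]
  calc max (‖T‖ * ‖E‖) (‖T‖ * (‖κ‖ * ‖ρ‖)) = ‖T‖ * max ‖E‖ (‖κ‖ * ‖ρ‖) := by
        rw [mul_max_of_nonneg _ _ (norm_nonneg _)]
    _ ≤ ‖T‖ * (64 * ‖E - κ * ρ‖) := mul_le_mul_of_nonneg_left hf (norm_nonneg _)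
    _ = _ := by ring

theorem degenerate {n : ℕ} {t : ℕ → ℚ} {L : ℝ} {J : Finset ℕ} {B C : (ℕ → ℝ) → ℂ → ℂ} (h : Win n t L J B C)
    {α : ℕ → ℝ} {s : ℂ} (h1 : Slev n ≤ s.re) (h2 : s.re ≤ Elev n) (hC : ‖C α s‖ < tau n ^ 500)
    (hdeg : 64 * ‖TT n t (α (n + 1)) s‖ < TM n t s.re) :
    ∃ (α₁ : ℕ → ℝ) (s₁ : ℂ), Slev n ≤ s₁.re ∧ s₁.re ≤ Elev n ∧ C α₁ s₁ = 0 ∧
      TM n t s₁.re ≤ 64 * ‖TT n t (α₁ (n + 1)) s₁‖ := by
  have hx0 := tau_pos n
  have hx1 : tau n ≤ (1 / 2) ^ 100 := tau_le n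
  have hsz := h.sizes
  have hL := h.one_le
  have hap := amp_pos n
  have ha1 := amp_le_one n
  have hsm := w3d_small hL h.small
  have ha : 10 ^ 10 * tau n ≤ amp n := by nlinarith
  have hLx : L * tau n ≤ 1 := by
    have : 0 < L * tau n := by positivity
    linarith
  have hSp := Slev_pos n
  have h1'' : 0 ≤ s.re := by linarith
  have hJ1 : n + 1 ∈ J := h.J_mem (n + 1) (by omega) (by omega)
  have htn := hsz n
  have hpp : 0 < (t n : ℝ) := by linarith [htn.1]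
  have hpow : ∀ i j, i ≤ j → tau n ^ j ≤ tau n ^ i := fun i j hij =>
    pow_le_pow_of_le_one hx0.le (hx1.trans (by norm_num)) hij
  have hpow1 : ∀ i, 1 ≤ i → tau n ^ i ≤ 1 / 10 ^ 10 := fun i hi => by
    calc tau n ^ i ≤ tau n ^ 1 := hpow 1 i hi
      _ ≤ 1 / 10 ^ 10 := by rw [pow_one]; exact hx1.trans (by norm_num)
  -- notation
  set T0 : ℂ := (t n : ℂ) * amp n * exp (-(t n : ℂ) * s) with hT0
  have hT0n : ‖T0‖ = (t n : ℝ) * amp n * Real.exp (-(t n : ℝ) * s.re) := w3d_term_norm' hsz n s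
  have hT0pos : 0 < ‖T0‖ := by rw [hT0n]; positivity
  have hT0ne : T0 ≠ 0 := norm_pos_iff.1 hT0pos
  let kap : ℝ → ℂ := fun θ' =>
    -((t (n + 1) : ℂ) * amp (n + 1) * exp ((θ' : ℂ) * I) * exp (-(t (n + 1) : ℂ) * s)) / T0
  have hkap : ∀ θ' : ℝ, T0 * kap θ' =
      -((t (n + 1) : ℂ) * amp (n + 1) * exp ((θ' : ℂ) * I) * exp (-(t (n + 1) : ℂ) * s)) := fun θ' =>
    mul_div_cancel₀ _ hT0ne
  have hrot : ∀ θ' y : ℝ, kap (θ' + y) = kap θ' * exp ((y : ℂ) * I) := by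
    intro θ' y
    simp only [kap]
    rw [Complex.ofReal_add, add_mul, exp_add]
    ring
  have hTT : TT n t (α (n + 1)) s = T0 * (1 - kap (α (n + 1))) := by
    rw [mul_sub, hkap]
    unfold TT
    ring
  have hTM : TM n t s.re = max ‖T0‖ ‖T0 * kap (α (n + 1))‖ := by
    rw [hkap, norm_neg, w3d_term_norm hsz, hT0n]
    rfl
  have hdeg' : 64 * |(t n : ℝ) * amp n * Real.exp (-(t n : ℝ) * s.re) -
        (t (n + 1) : ℝ) * amp (n + 1) * Real.exp (-(t (n + 1) : ℝ) * s.re)| < TM n t s.re := by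
    refine lt_of_le_of_lt (mul_le_mul_of_nonneg_left ?_ (by norm_num)) hdeg
    rw [← hT0n, ← w3d_term_norm hsz (n + 1) (α (n + 1)) s, ← norm_neg ((t (n + 1) : ℂ) * _ * _ * _), ← hkap,
      hTT, mul_sub, mul_one]
    exact abs_norm_sub_norm_le _ _
  obtain ⟨hA, hlo, hhi, hYX⟩ := w3d_near hsz ha h1 h2 hdeg'
  have hκ1 : ‖1 - kap (α (n + 1))‖ ≤ 1 / 16 := by
    have h3 : TM n t s.re ≤ 64 / 63 * ‖T0‖ := by
      rw [hTM, hkap, norm_neg, w3d_term_norm hsz]
      refine max_le (by linarith) ?_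
      rw [hT0n]; exact hYX
    rw [hTT, norm_mul] at hdeg
    have h4 : ‖T0‖ * (64 * ‖1 - kap (α (n + 1))‖) ≤ ‖T0‖ * (64 / 63) := by linarith
    have h5 := le_of_mul_le_mul_left h4 hT0pos
    linarith
  obtain ⟨δ, hδ1, hδ⟩ := rotate hκ1
  -- the bound for `F` at the initial state
  have hF : ‖FF n t J α s‖ ≤ tau n ^ 450 := by
    have h3 := h.prod α s h1
    have h4 : ‖B α s * C α s‖ ≤ L * tau n ^ 500 := by
      rw [norm_mul]
      exact mul_le_mul (h.bddB α s h1'') hC.le (norm_nonneg _) (by linarith)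
    have h5 : ‖FF n t J α s‖ ≤ ‖B α s * C α s‖ + ‖B α s * C α s - FF n t J α s‖ := by
      have h6 : FF n t J α s = B α s * C α s - (B α s * C α s - FF n t J α s) := by ring
      calc ‖FF n t J α s‖ = ‖B α s * C α s - (B α s * C α s - FF n t J α s)‖ := by rw [← h6]
        _ ≤ _ := norm_sub_le _ _
    have h6 : L * tau n ^ 500 ≤ tau n ^ 499 := by
      calc L * tau n ^ 500 = (L * tau n) * tau n ^ 499 := by ring
        _ ≤ 1 * tau n ^ 499 := mul_le_mul_of_nonneg_right hLx (by positivity)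
        _ = _ := one_mul _
    have h7 : tau n ^ 499 ≤ tau n ^ 450 * (1 / 2) := by
      calc tau n ^ 499 = tau n ^ 450 * tau n ^ 49 := by ring
        _ ≤ tau n ^ 450 * (1 / 2) :=
          mul_le_mul_of_nonneg_left ((hpow1 49 (by norm_num)).trans (by norm_num)) (by positivity)
    have h8 : tau n ^ 4000 ≤ tau n ^ 499 := hpow _ _ (by norm_num)
    linarith
  -- the standard position
  obtain ⟨std, hstd⟩ := fibre n (J.erase (n + 1))
    (fun k hk => by
      have h3 := Finset.mem_erase.1 hk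
      have := h.J_gt k h3.2
      have := h3.1
      omega)
    (fun k h3 h4 => Finset.mem_erase.2 ⟨by omega, h.J_mem k (by omega) h4⟩)
  have hj1 := to_std hsz (w3d_small_one hL h.small) h.J_gt hJ1 hstd α h1'' h2 hF
  let SS : Set (ℕ → ℝ) := {α' | ‖FF n t J α' s‖ ≤ 2 * tau n ^ 450 ∧
    ∃ y ∈ Set.Icc (0 : ℝ) 1, α' (n + 1) = α (n + 1) + y * δ}
  have hj1' : JoinedIn SS α (stdst n t J std α s) := by
    refine hj1.mono ?_
    rintro α' ⟨h3, h4⟩
    exact ⟨h4, 0, ⟨le_rfl, zero_le_one⟩, by rw [h3]; ring⟩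
  let g : ℝ → ℕ → ℝ := fun y => stdst n t J std (Function.update α (n + 1) (α (n + 1) + y * δ)) s
  have hg1 : ∀ y, g y (n + 1) = α (n + 1) + y * δ := by
    intro y
    simp only [g, stdst]
    rw [if_neg (by simp), Function.update_self]
  have hg : Continuous g := by
    refine continuous_pi fun k => ?_
    simp only [g, stdst, Function.update_self]
    split_ifs with hk
    · refine Continuous.add ?_ continuous_const
      have h3 : Continuous fun y : ℝ => -mainF n t (α (n + 1) + y * δ) s := by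
        unfold mainF
        fun_prop
      exact (continuous_apply k).comp (hstd.1.comp h3)
    · by_cases hk1 : k = n + 1
      · subst hk1
        simp only [Function.update_self]
        fun_prop
      · simp only [Function.update_of_ne hk1]
        fun_prop
  have hj2 : JoinedIn SS (stdst n t J std α s) (g 1) := by
    refine JoinedIn.ofLine hg.continuousOn ?_ rfl ?_
    · simp only [g, zero_mul, add_zero, Function.update_eq_self]
    · rintro _ ⟨y, hy, rfl⟩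
      refine ⟨?_, y, hy, hg1 y⟩
      refine (FF_stdst hsz h.J_gt hJ1 hstd _ h1'' h2).trans ?_
      have h3 : tau n ^ 9000 ≤ tau n ^ 450 := hpow _ _ (by norm_num)
      have h4 : 0 < tau n ^ 450 := by positivity
      linarith
  have hj := hj1'.trans hj2
  -- the lower bound on the circle
  have hcircle : ∀ α' ∈ SS, ∀ z : ℂ, ‖z - s‖ = 1 / (4 * (t n : ℝ)) → tau n ^ 101 ≤ ‖C α' z‖ := by
    rintro α' ⟨hF', y, hy, hα'⟩ z hz
    have hre : |(z - s).re| ≤ 1 / (4 * (t n : ℝ)) := (abs_re_le_norm _).trans hz.le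
    have hzre1 : Slev n ≤ z.re := by
      have h3 := (abs_le.1 hre).1
      rw [sub_re] at h3
      linarith
    have hk : ‖1 - kap (α' (n + 1))‖ ≤ 1 / 16 := by
      rw [hα', hrot]; exact hδ y hy
    have hexp := FF_expand hsz h.J_gt hJ1 α' (s := s) (ζ := z - s) h1''
      (by rw [add_sub_cancel]; linarith) h2 (by rw [hz]; field_simp; exact le_rfl) (hkap (α' (n + 1)))
    rw [add_sub_cancel] at hexp
    have hG := G_circle hk (ξ := (t n : ℂ) * (z - s))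
      (by rw [norm_mul, w3d_norm_rat hpp.le, hz]; field_simp)
    set main : ℂ := (amp n : ℂ) * exp (-(t n : ℂ) * s) *
      (exp (-((t n : ℂ) * (z - s))) - 1 + kap (α' (n + 1)) * ((t n : ℂ) * (z - s))) with hmain
    have hmainn : 10 ^ 7 * tau n ^ 100 ≤ ‖main‖ := by
      rw [hmain, norm_mul, norm_mul, w3d_norm_amp, w3d_norm_exp]
      calc 10 ^ 7 * tau n ^ 100 = (10 ^ 9 * tau n ^ 100) * (1 / 100) := by ring
        _ ≤ _ := mul_le_mul hA hG (by norm_num) (by positivity)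
    have hFz : 2 * tau n ^ 100 ≤ ‖FF n t J α' z‖ := by
      have h3 : ‖main‖ ≤ ‖FF n t J α' z‖ + ‖FF n t J α' s‖ + tau n ^ 190 := by
        have h4 : main = FF n t J α' z - FF n t J α' s - (FF n t J α' z - FF n t J α' s - main) := by ring
        calc ‖main‖ = ‖FF n t J α' z - FF n t J α' s - (FF n t J α' z - FF n t J α' s - main)‖ := by
              rw [← h4]
          _ ≤ ‖FF n t J α' z - FF n t J α' s‖ + ‖FF n t J α' z - FF n t J α' s - main‖ := norm_sub_le _ _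
          _ ≤ _ := add_le_add (norm_sub_le _ _) hexp
      have h5 : tau n ^ 450 ≤ tau n ^ 100 := hpow _ _ (by norm_num)
      have h6 : tau n ^ 190 ≤ tau n ^ 100 := hpow _ _ (by norm_num)
      have h7 : 0 < tau n ^ 100 := by positivity
      linarith
    have hprod := h.prod α' z hzre1
    have hBC : tau n ^ 100 ≤ ‖B α' z * C α' z‖ := by
      have h3 : ‖FF n t J α' z‖ ≤ ‖B α' z * C α' z‖ + ‖B α' z * C α' z - FF n t J α' z‖ := by
        have h6 : FF n t J α' z = B α' z * C α' z - (B α' z * C α' z - FF n t J α' z) := by ring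
        calc ‖FF n t J α' z‖ = ‖B α' z * C α' z - (B α' z * C α' z - FF n t J α' z)‖ := by rw [← h6]
          _ ≤ _ := norm_sub_le _ _
      have h4 : tau n ^ 4000 ≤ tau n ^ 100 := hpow _ _ (by norm_num)
      linarith
    rw [norm_mul] at hBC
    have hBL : ‖B α' z‖ * ‖C α' z‖ ≤ L * ‖C α' z‖ :=
      mul_le_mul_of_nonneg_right (h.bddB α' z (by linarith)) (norm_nonneg _)
    by_contra hcon
    push Not at hcon
    have h8 : L * ‖C α' z‖ < L * tau n ^ 101 := mul_lt_mul_of_pos_left hcon (by linarith)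
    have h9 : L * tau n ^ 101 ≤ tau n ^ 100 := by
      calc L * tau n ^ 101 = (L * tau n) * tau n ^ 100 := by ring
        _ ≤ 1 * tau n ^ 100 := mul_le_mul_of_nonneg_right hLx (by positivity)
        _ = _ := one_mul _
    linarith
  -- persistence of the zero
  obtain ⟨s₁, hs₁, hCs₁⟩ := zero_persists (r := 1 / (4 * (t n : ℝ))) (m := tau n ^ 101) (c := s)
    (H := fun x z => C (hj.somePath.extend x) z) (by positivity) (by positivity)
    (h.contC.comp ((hj.somePath.continuous_extend.comp continuous_fst).prodMk continuous_snd))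
    (fun x => h.holC _)
    (fun x hx z hz => by
      refine hcircle _ ?_ z ?_
      · rw [hj.somePath.extend_apply hx]
        exact hj.somePath_mem _
      · rw [← dist_eq_norm]; exact hz)
    ⟨s, Metric.mem_closedBall_self (by positivity), by
      show ‖C (hj.somePath.extend 0) s‖ < _
      rw [hj.somePath.extend_zero]
      exact hC.trans_le (hpow _ _ (by norm_num))⟩
  have hCs₁' : C (g 1) s₁ = 0 := by
    have h3 : C (hj.somePath.extend 1) s₁ = 0 := hCs₁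
    rwa [hj.somePath.extend_one] at h3
  have hd : ‖s₁ - s‖ ≤ 1 / (4 * (t n : ℝ)) := by rw [← dist_eq_norm]; exact hs₁
  have hre : |(s₁ - s).re| ≤ 1 / (4 * (t n : ℝ)) := (abs_re_le_norm _).trans hd
  rw [sub_re, abs_le] at hre
  have hs1 : Slev n ≤ s₁.re := by linarith [hre.1]
  have hs2 : s₁.re ≤ Elev n := by linarith [hre.2]
  refine ⟨g 1, s₁, hs1, hs2, hCs₁', ?_⟩
  -- the exit
  have hg11 : g 1 (n + 1) = α (n + 1) + δ := by rw [hg1, one_mul]
  have hκ₁ : ‖1 - kap (g 1 (n + 1))‖ = 1 / 16 := by rw [hg11, hrot]; exact hδ1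
  have hexp := FF_expand hsz h.J_gt hJ1 (g 1) (s := s) (ζ := s₁ - s) h1''
      (by rw [add_sub_cancel]; linarith) h2
      (by
        calc ‖s₁ - s‖ * (4 * (t n : ℝ)) ≤ 1 / (4 * (t n : ℝ)) * (4 * (t n : ℝ)) :=
              mul_le_mul_of_nonneg_right hd (by positivity)
          _ = 1 := by field_simp) (hkap (g 1 (n + 1)))
  rw [add_sub_cancel] at hexp
  have hξn : ‖(t n : ℂ) * (s₁ - s)‖ ≤ 1 / 4 := by
    rw [norm_mul, w3d_norm_rat hpp.le]
    calc (t n : ℝ) * ‖s₁ - s‖ ≤ (t n : ℝ) * (1 / (4 * (t n : ℝ))) := mul_le_mul_of_nonneg_left hd hpp.le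
      _ = 1 / 4 := by field_simp
  have hFs : ‖FF n t J (g 1) s‖ ≤ 2 * tau n ^ 450 := hj.target_mem.1
  have hFs₁ : ‖FF n t J (g 1) s₁‖ ≤ tau n ^ 4000 := by
    have h3 := h.prod (g 1) s₁ hs1
    rwa [hCs₁', mul_zero, zero_sub, norm_neg] at h3
  exact w3d_exit hsz (hkap (g 1 (n + 1))) hd (G_exit hκ₁ hξn (w3d_G_small (by
    rw [norm_mul, w3d_norm_amp, w3d_norm_exp]) hA hexp hFs hFs₁))

end Pool.Agent.QF
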