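import Pool.Agent.QF.W1
import Pool.Agent.QF.W2C
import Pool.Agent.QF.W3D

/-! WL: the window lemma. -/

namespace Pool.Agent.QF

open Complex

private theorem WL_L_le {n : ℕ} {L : ℝ} (hL : 1 ≤ L) (h : SmallL n L) : L * tau n ≤ 1 := by
  have hx := tau_pos n
  have ha := amp_pos n
  have ha1 := amp_le_one n
  have h1 : L ≤ 10 ^ 10 * L / amp n := by
    rw [le_div_iff₀ ha]
    nlinarith
  have h2 : L ^ 100 ≤ (10 ^ 10 * L / amp n) ^ 100 := pow_le_pow_left₀ (by linarith) h1 100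
  have h3 : L ≤ L ^ 100 := le_self_pow₀ hL (by norm_num)
  calc L * tau n ≤ (10 ^ 10 * L / amp n) ^ 100 * tau n :=
        mul_le_mul_of_nonneg_right (h3.trans h2) hx.le
    _ ≤ 1 := h

private theorem WL_x (n : ℕ) : tau n ≤ 1 / 2 := by
  have := tau_le n
  have h : ((1 : ℝ) / 2) ^ 100 ≤ 1 / 2 := by norm_num
  linarith

private theorem WL_F {n : ℕ} {t : ℕ → ℚ} {L : ℝ} {J : Finset ℕ} {B C : (ℕ → ℝ) → ℂ → ℂ}
    (h : Win n t L J B C) {α : ℕ → ℝ} {s : ℂ} (h1 : Slev n ≤ s.re)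
    (hC : ‖C α s‖ < tau n ^ 500) : ‖FF n t J α s‖ ≤ tau n ^ 450 := by
  have hx := tau_pos n
  have hx2 := WL_x n
  have hLx := WL_L_le h.one_le h.small
  have hre : 0 ≤ s.re := (Slev_pos n).le.trans h1
  have hB := h.bddB α s hre
  have hprod := h.prod α s h1
  have hBC : ‖B α s * C α s‖ ≤ L * tau n ^ 500 := by
    rw [norm_mul]
    exact mul_le_mul hB hC.le (norm_nonneg _) (by linarith [h.one_le])
  have hsub : ‖FF n t J α s‖ ≤ ‖B α s * C α s - FF n t J α s‖ + ‖B α s * C α s‖ := by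
    have : FF n t J α s = B α s * C α s - (B α s * C α s - FF n t J α s) := by ring
    calc ‖FF n t J α s‖ = ‖B α s * C α s - (B α s * C α s - FF n t J α s)‖ := by rw [← this]
      _ ≤ ‖B α s * C α s‖ + ‖B α s * C α s - FF n t J α s‖ := norm_sub_le _ _
      _ = _ := by ring
  have h499 : L * tau n ^ 500 ≤ tau n ^ 499 := by
    have : L * tau n ^ 500 = (L * tau n) * tau n ^ 499 := by ring
    rw [this]
    calc (L * tau n) * tau n ^ 499 ≤ 1 * tau n ^ 499 :=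
          mul_le_mul_of_nonneg_right hLx (by positivity)
      _ = tau n ^ 499 := one_mul _
  have h4000 : tau n ^ 4000 ≤ tau n ^ 499 :=
    pow_le_pow_of_le_one hx.le (by linarith) (by norm_num)
  have h451 : tau n ^ 499 ≤ tau n ^ 451 :=
    pow_le_pow_of_le_one hx.le (by linarith) (by norm_num)
  have hfin : 2 * tau n ^ 451 ≤ tau n ^ 450 := by
    have : tau n ^ 451 = tau n * tau n ^ 450 := by ring
    rw [this]
    have hp : 0 ≤ tau n ^ 450 := by positivity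
    nlinarith
  linarith

/-- A small value of `C` leads to a small value of `C` at the canonical state. -/
theorem small_at_canonical {n : ℕ} {t : ℕ → ℚ} {L : ℝ} {J : Finset ℕ} {B C : (ℕ → ℝ) → ℂ → ℂ}
    (h : Win n t L J B C) {q : (ℕ → ℝ) × ℂ} (hq : ∀ (α : ℕ → ℝ) (s : ℂ), Slev n ≤ s.re → s.re ≤ Elev n →
      ‖FF n t J α s‖ ≤ tau n ^ 450 → TM n t s.re ≤ 64 * ‖TT n t (α (n + 1)) s‖ →
      JoinedIn (Gst n t J) (α, s) q) {α : ℕ → ℝ} {s : ℂ} (h1 : Slev n ≤ s.re) (h2 : s.re ≤ Elev n)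
    (hC : ‖C α s‖ < tau n ^ 500) : q ∈ Gst n t J ∧ ‖C q.1 q.2‖ < tau n ^ 200 := by
  have hx := tau_pos n
  have hx2 := WL_x n
  by_cases hgood : TM n t s.re ≤ 64 * ‖TT n t (α (n + 1)) s‖
  · have hj := hq α s h1 h2 (WL_F h h1 hC) hgood
    refine ⟨hj.target_mem, same_side h hj ?_⟩
    have : tau n ^ 500 ≤ tau n ^ 200 :=
      pow_le_pow_of_le_one hx.le (by linarith) (by norm_num)
    exact lt_of_lt_of_le hC this
  · push Not at hgood
    obtain ⟨α₁, s₁, g1, g2, g3, g4⟩ := degenerate h h1 h2 hC hgood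
    have hC1 : ‖C α₁ s₁‖ < tau n ^ 500 := by rw [g3, norm_zero]; positivity
    have hj := hq α₁ s₁ g1 g2 (WL_F h g1 hC1) g4
    refine ⟨hj.target_mem, same_side h hj ?_⟩
    simp only [g3, norm_zero]
    positivity

theorem window {n : ℕ} {t : ℕ → ℚ} {L : ℝ} {J : Finset ℕ} {B C : (ℕ → ℝ) → ℂ → ℂ} (h : Win n t L J B C) :
    (∀ α s, Slev n ≤ s.re → s.re ≤ Elev n → tau n ^ 500 ≤ ‖C α s‖) ∨
    (∀ α s, Slev n ≤ s.re → s.re ≤ Elev n → tau n ^ 500 ≤ ‖B α s‖) := by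
  by_contra hcon
  push Not at hcon
  obtain ⟨⟨α, s, h1, h2, h3⟩, ⟨α', s', h1', h2', h3'⟩⟩ := hcon
  have ha := amp_pos n
  have hs1 : SmallL n 1 := by
    unfold SmallL
    refine le_trans ?_ h.small
    refine mul_le_mul_of_nonneg_right ?_ (tau_pos n).le
    refine pow_le_pow_left₀ (by positivity) ?_ 100
    refine div_le_div_of_nonneg_right ?_ ha.le
    linarith [h.one_le]
  obtain ⟨q, hq⟩ := to_canonical h.sizes h.J_gt h.J_mem hs1
  have hc := small_at_canonical h hq h1 h2 h3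
  have hb := small_at_canonical h.symm hq h1' h2' h3'
  exact dichotomy h (α := q.1) (s := q.2) hc.1 ⟨hb.2, hc.2⟩

end Pool.Agent.QF
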