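import Pool.Agent.QF.EX
import Pool.Agent.QF.MW
import Pool.Agent.QF.WL
import Pool.Agent.QF.OV
import Pool.Agent.QF.JF
import Pool.Agent.QF.EV

/-! Main: the assembly. -/

namespace Pool.Agent.QF

/-- There are exponents such that `f` has no factorization. -/
theorem no_fac : ∃ t : ℕ → ℚ, Sizes t ∧ ∀ (L : ℝ) (b c : ℚ → ℂ), ¬ Fac t L b c := by
  classical
  -- thresholds
  choose θov hθov Kov hov using overlap
  let th : ℕ → ℝ := fun n => min (tau (n + 2) ^ 200) ((Finset.range (n + 1)).inf' ⟨0, by simp⟩ θov)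
  have hth0 : ∀ n, 0 < th n := by
    intro n
    refine lt_min (pow_pos (tau_pos _) _) ?_
    rw [Finset.lt_inf'_iff]
    exact fun i _ => hθov i
  have hth1 : ∀ n, th n ≤ tau (n + 2) ^ 200 := fun n => min_le_left _ _
  have hth2 : ∀ n, th n ≤ θov n := fun n =>
    (min_le_right _ _).trans (Finset.inf'_le _ (by simp))
  have hth3 : ∀ n, th (n + 1) ≤ θov n := fun n =>
    (min_le_right _ _).trans (Finset.inf'_le _ (by simp))
  choose Kw hw using fun n => exists_win n (th n) (hth0 n)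
  let K : ℕ → ℕ := fun n => max (Kov n) (Kw n)
  obtain ⟨t, hsz, hind⟩ := exists_t K
  refine ⟨t, hsz, ?_⟩
  -- the conclusion for one of the two factors
  have key : ∀ (L : ℝ) (b c : ℚ → ℂ), Fac t L b c → ∀ n₁ : ℕ, (∀ n, n₁ ≤ n → SmallL n L ∧ L ≤ n + 1) →
      (∃ (A C : ℕ → Finset ℚ) (θ : ℕ → ℝ), (∀ n, n₁ ≤ n → 0 < θ n ∧ θ n ≤ th n ∧
        Split b (Slev n) (vth n) (θ n) (A n) ∧ Split c (Slev n) (vth n) (θ n) (C n) ∧
        (∀ g ∈ A n, 0 < g) ∧ (∀ g ∈ C n, 0 < g) ∧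
        ((∀ s : ℂ, Slev n ≤ s.re → s.re ≤ Elev n → tau n ^ 500 ≤ ‖poly c (C n) s‖) ∨
          (∀ s : ℂ, Slev n ≤ s.re → s.re ≤ Elev n → tau n ^ 500 ≤ ‖poly b (A n) s‖)))) := by
    intro L b c hF n₁ hn₁
    have h1 : ∀ n, ∃ (A C : Finset ℚ) (θ : ℝ), n₁ ≤ n → 0 < θ ∧ θ ≤ th n ∧
        Split b (Slev n) (vth n) θ A ∧ Split c (Slev n) (vth n) θ C ∧
        (∀ g ∈ A, 0 < g) ∧ (∀ g ∈ C, 0 < g) ∧
        ((∀ s : ℂ, Slev n ≤ s.re → s.re ≤ Elev n → tau n ^ 500 ≤ ‖poly c C s‖) ∨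
          (∀ s : ℂ, Slev n ≤ s.re → s.re ≤ Elev n → tau n ^ 500 ≤ ‖poly b A s‖)) := by
      intro n
      by_cases hn : n₁ ≤ n
      · obtain ⟨A, C, θ, J, B, D, hθ, hθ', hA, hC, hA0, hC0, hW, hB0, hD0⟩ :=
          hw n t K (le_max_right _ _) hsz hind L b c hF (hn₁ n hn).2 (hn₁ n hn).1
        refine ⟨A, C, θ, fun _ => ⟨hθ, hθ', hA, hC, hA0, hC0, ?_⟩⟩
        rcases window hW with h | h
        · left
          intro s hs1 hs2
          rw [← hD0 s]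
          exact h 0 s hs1 hs2
        · right
          intro s hs1 hs2
          rw [← hB0 s]
          exact h 0 s hs1 hs2
      · exact ⟨∅, ∅, 0, fun h => absurd h hn⟩
    choose A C θ h using h1
    exact ⟨A, C, θ, h⟩
  intro L b c hF
  obtain ⟨n₁, hn₁⟩ := eventually_small L hF.one_le
  obtain ⟨A, C, θ, h⟩ := key L b c hF n₁ hn₁
  -- the alternatives propagate
  have hPc : ∀ n, n₁ ≤ n → (∀ s : ℂ, Slev n ≤ s.re → s.re ≤ Elev n → tau n ^ 500 ≤ ‖poly c (C n) s‖) →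
      ¬ (∀ s : ℂ, Slev (n + 1) ≤ s.re → s.re ≤ Elev (n + 1) → tau (n + 1) ^ 500 ≤ ‖poly b (A (n + 1)) s‖) := by
    intro n hn hc hb
    exact hov n t K (le_max_left _ _) hsz hind L b c hF (hn₁ n hn).2 (hn₁ n hn).1 (A (n + 1)) (C n)
      (θ n) (θ (n + 1)) ((h n hn).2.1.trans (hth2 n)) ((h (n + 1) (by omega)).2.1.trans (hth3 n))
      (h n hn).2.2.2.1 (h (n + 1) (by omega)).2.2.1 hc hb
  have hPb : ∀ n, n₁ ≤ n → (∀ s : ℂ, Slev n ≤ s.re → s.re ≤ Elev n → tau n ^ 500 ≤ ‖poly b (A n) s‖) →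
      ¬ (∀ s : ℂ, Slev (n + 1) ≤ s.re → s.re ≤ Elev (n + 1) → tau (n + 1) ^ 500 ≤ ‖poly c (C (n + 1)) s‖) := by
    intro n hn hb hc
    exact hov n t K (le_max_left _ _) hsz hind L c b hF.symm (hn₁ n hn).2 (hn₁ n hn).1 (C (n + 1)) (A n)
      (θ n) (θ (n + 1)) ((h n hn).2.1.trans (hth2 n)) ((h (n + 1) (by omega)).2.1.trans (hth3 n))
      (h n hn).2.2.1 (h (n + 1) (by omega)).2.2.2.1 hb hc
  rcases (h n₁ le_rfl).2.2.2.2.2.2 with h0 | h0
  · have hall : ∀ n, n₁ ≤ n → ∀ s : ℂ, Slev n ≤ s.re → s.re ≤ Elev n → tau n ^ 500 ≤ ‖poly c (C n) s‖ := by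
      intro n hn
      induction n, hn using Nat.le_induction with
      | base => exact h0
      | succ n hn ih =>
        rcases (h (n + 1) (by omega)).2.2.2.2.2.2 with h' | h'
        · exact h'
        · exact absurd h' (hPc n hn ih)
    exact final_contra hF.one_le hF.posc hF.sumc hF.normc n₁ C θ (fun n hn => (h n hn).2.2.2.2.2.1)
      (fun n hn => ⟨(h n hn).1, (h n hn).2.1.trans (hth1 n)⟩) (fun n hn => (h n hn).2.2.2.1) hall
  · have hall : ∀ n, n₁ ≤ n → ∀ s : ℂ, Slev n ≤ s.re → s.re ≤ Elev n → tau n ^ 500 ≤ ‖poly b (A n) s‖ := by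
      intro n hn
      induction n, hn using Nat.le_induction with
      | base => exact h0
      | succ n hn ih =>
        rcases (h (n + 1) (by omega)).2.2.2.2.2.2 with h' | h'
        · exact absurd h' (hPb n hn ih)
        · exact h'
    exact final_contra hF.one_le hF.posb hF.sumb hF.normb n₁ A θ (fun n hn => (h n hn).2.2.2.2.1)
      (fun n hn => ⟨(h n hn).1, (h n hn).2.1.trans (hth1 n)⟩) (fun n hn => (h n hn).2.2.1) hall

end Pool.Agent.QF
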