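import Pool.Agent.QF.Defs

/-! O1: the factorization as an identity of Dirichlet type series. -/

namespace Pool.Agent.QF

open Complex

/-- The series `b(s) = ∑ b g e^{-gs}`. -/
noncomputable def ser (b : ℚ → ℂ) (s : ℂ) : ℂ := ∑' g, b g * exp (-(g : ℂ) * s)

theorem O1_norm_exp (g : ℚ) (s : ℂ) : ‖exp (-(g : ℂ) * s)‖ = Real.exp (-(g : ℝ) * s.re) := by
  rw [Complex.norm_exp]
  congr 1
  simp [Complex.mul_re]

theorem O1_norm_le {b : ℚ → ℂ} (hb0 : ∀ g, g ≤ 0 → b g = 0) {s : ℂ} (hs : 0 ≤ s.re) (g : ℚ) :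
    ‖b g * exp (-(g : ℂ) * s)‖ ≤ ‖b g‖ := by
  rcases le_or_gt g 0 with h | h
  · simp [hb0 g h]
  · rw [norm_mul, O1_norm_exp]
    refine mul_le_of_le_one_right (norm_nonneg _) ?_
    rw [Real.exp_le_one_iff]
    have : (0 : ℝ) < g := by exact_mod_cast h
    nlinarith

/-- `b(s) c(s) = f(s) + g(s)` with `‖g(s)‖ ≤ L² e^{-Re s}`. -/
theorem ser_mul {t : ℕ → ℚ} {L : ℝ} {b c : ℚ → ℂ} (hsz : Sizes t) (h : Fac t L b c) {s : ℂ} (hs : 0 ≤ s.re) :
    ‖ser b s * ser c s - ∑' k, (amp k : ℂ) * exp (-(t k : ℂ) * s)‖ ≤ L ^ 2 * Real.exp (-s.re) := by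
  classical
  have ht0 : ∀ k, 0 < t k := by
    intro k
    have h1 := (hsz k).1
    have h2 := tau_pos k
    have : (0 : ℝ) < t k := by linarith
    exact_mod_cast this
  have ht1 : ∀ k, t k ≤ 1 := by
    intro k
    have h1 := (hsz k).2
    have h2 := tau_le k
    have h3 : ((1 : ℝ) / 2) ^ 100 ≤ 1 := by norm_num
    have : (t k : ℝ) ≤ 1 := by linarith
    exact_mod_cast this
  -- the product of the two series
  set fb : ℚ → ℂ := fun g => b g * exp (-(g : ℂ) * s) with hfb
  set fc : ℚ → ℂ := fun g => c g * exp (-(g : ℂ) * s) with hfc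
  have sfb : Summable fun g => ‖fb g‖ :=
    Summable.of_nonneg_of_le (fun _ => norm_nonneg _) (fun g => O1_norm_le h.posb hs g) h.sumb
  have sfc : Summable fun g => ‖fc g‖ :=
    Summable.of_nonneg_of_le (fun _ => norm_nonneg _) (fun g => O1_norm_le h.posc hs g) h.sumc
  let e : ℚ × ℚ ≃ ℚ × ℚ :=
    { toFun := fun p => (p.2, p.1 - p.2)
      invFun := fun p => (p.1 + p.2, p.1)
      left_inv := fun p => by ext <;> simp
      right_inv := fun p => by ext <;> simp }
  have hprod : ser b s * ser c s = ∑' z : ℚ × ℚ, fb z.1 * fc z.2 :=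
    tsum_mul_tsum_of_summable_norm sfb sfc
  have hsum : Summable fun z : ℚ × ℚ => fb z.1 * fc z.2 :=
    summable_mul_of_summable_norm sfb sfc
  have hsum' : Summable fun z : ℚ × ℚ => fb z.2 * fc (z.1 - z.2) :=
    (e.summable_iff (f := fun z : ℚ × ℚ => fb z.1 * fc z.2)).mpr hsum
  have hprod2 : ser b s * ser c s = ∑' r : ℚ, ∑' g : ℚ, fb g * fc (r - g) := by
    rw [hprod, ← e.tsum_eq (fun z : ℚ × ℚ => fb z.1 * fc z.2)]
    exact hsum'.tsum_prod
  -- the majorant
  set q : ℚ → ℝ := fun r => ∑' g : ℚ, ‖b g‖ * ‖c (r - g)‖ with hq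
  have hN : Summable fun z : ℚ × ℚ => ‖b z.1‖ * ‖c z.2‖ :=
    h.sumb.mul_of_nonneg h.sumc (fun _ => norm_nonneg _) (fun _ => norm_nonneg _)
  have hN' : Summable fun z : ℚ × ℚ => ‖b z.2‖ * ‖c (z.1 - z.2)‖ :=
    (e.summable_iff (f := fun z : ℚ × ℚ => ‖b z.1‖ * ‖c z.2‖)).mpr hN
  have hqs : Summable q := hN'.prod
  have hqt : ∑' r, q r ≤ L ^ 2 := by
    have e1 : ∑' r, q r = (∑' g, ‖b g‖) * ∑' g, ‖c g‖ := by
      have h1 : (∑' g, ‖b g‖) * ∑' g, ‖c g‖ = ∑' z : ℚ × ℚ, ‖b z.1‖ * ‖c z.2‖ :=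
        h.sumb.tsum_mul_tsum h.sumc hN
      rw [h1, ← e.tsum_eq (fun z : ℚ × ℚ => ‖b z.1‖ * ‖c z.2‖)]
      exact hN'.tsum_prod.symm
    rw [e1, sq]
    have hL : 0 ≤ L := by have := h.one_le; linarith
    exact mul_le_mul h.normb h.normc (tsum_nonneg fun _ => norm_nonneg _) hL
  have hfac : ∀ r : ℚ, Summable fun g : ℚ => ‖b g‖ * ‖c (r - g)‖ := fun r => hN'.prod_factor r
  -- inner sums
  set p : ℚ → ℂ := fun r => ∑' g : ℚ, b g * c (r - g) with hp
  have hinner : ∀ r : ℚ, ∑' g : ℚ, fb g * fc (r - g) = p r * exp (-(r : ℂ) * s) := by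
    intro r
    rw [hp]
    simp only
    rw [← tsum_mul_right]
    refine tsum_congr fun g => ?_
    simp only [hfb, hfc]
    have : exp (-(r : ℂ) * s) = exp (-(g : ℂ) * s) * exp (-((r - g : ℚ) : ℂ) * s) := by
      rw [← Complex.exp_add]
      congr 1
      push_cast
      ring
    rw [this]
    ring
  have hpq : ∀ r, ‖p r‖ ≤ q r := by
    intro r
    rw [hp, hq]
    simp only
    have hs1 : Summable fun g : ℚ => ‖b g * c (r - g)‖ := by
      refine (hfac r).congr fun g => ?_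
      rw [norm_mul]
    refine (norm_tsum_le_tsum_norm hs1).trans (le_of_eq ?_)
    exact tsum_congr fun g => norm_mul _ _
  have hp0 : ∀ r : ℚ, r ≤ 0 → p r = 0 := by
    intro r hr
    rw [hp]
    simp only
    refine (tsum_congr fun g => ?_).trans tsum_zero
    rcases le_or_gt g 0 with hg | hg
    · rw [h.posb g hg, zero_mul]
    · rw [h.posc (r - g) (by linarith), mul_zero]
  have hf0 : ∀ r : ℚ, (∀ k, t k ≠ r) → fcoef t r = 0 := by
    intro r hr
    unfold fcoef
    exact (tsum_congr fun k => if_neg (hr k)).trans tsum_zero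
  -- the series of f
  let i : ℕ → ℚ × ℕ := fun k => (t k, k)
  have hi : Function.Injective i := fun a b hab => (Prod.ext_iff.mp hab).2
  let K : ℚ × ℕ → ℂ := fun z => if t z.2 = z.1 then (amp z.2 : ℂ) * exp (-(z.1 : ℂ) * s) else 0
  have hK0 : ∀ z, z ∉ Set.range i → K z = 0 := by
    intro z hz
    simp only [K]
    refine if_neg fun hh => hz ⟨z.2, ?_⟩
    exact Prod.ext hh rfl
  have hKi : ∀ k, K (i k) = (amp k : ℂ) * exp (-(t k : ℂ) * s) := by
    intro k
    simp [K, i]
  have hKsum : Summable K := by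
    rw [← hi.summable_iff hK0]
    refine Summable.of_norm_bounded amp_summable fun k => ?_
    rw [Function.comp_apply, hKi, norm_mul, O1_norm_exp, Complex.norm_real, Real.norm_eq_abs,
      abs_of_pos (amp_pos k)]
    refine mul_le_of_le_one_right (amp_pos k).le ?_
    rw [Real.exp_le_one_iff]
    have : (0 : ℝ) < t k := by exact_mod_cast ht0 k
    nlinarith
  have hKt : ∑' k, (amp k : ℂ) * exp (-(t k : ℂ) * s) = ∑' r : ℚ, fcoef t r * exp (-(r : ℂ) * s) := by
    have h1 : ∑' z, K z = ∑' k, (amp k : ℂ) * exp (-(t k : ℂ) * s) := by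
      rw [← hi.tsum_eq (fun z hz => by
        by_contra hcon
        exact hz (hK0 z hcon))]
      exact tsum_congr hKi
    rw [← h1, hKsum.tsum_prod]
    refine tsum_congr fun r => ?_
    unfold fcoef
    rw [← tsum_mul_right]
    refine tsum_congr fun k => ?_
    simp only [K]
    split_ifs <;> simp
  have hfs : Summable fun r : ℚ => fcoef t r * exp (-(r : ℂ) * s) := by
    refine hKsum.prod.congr fun r => ?_
    unfold fcoef
    rw [← tsum_mul_right]
    refine tsum_congr fun k => ?_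
    simp only [K]
    split_ifs <;> simp
  have hps : Summable fun r : ℚ => p r * exp (-(r : ℂ) * s) := by
    refine hsum'.prod.congr fun r => ?_
    exact hinner r
  rw [hprod2, hKt, tsum_congr hinner, ← hps.tsum_sub hfs]
  have hterm : ∀ r : ℚ, ‖p r * exp (-(r : ℂ) * s) - fcoef t r * exp (-(r : ℂ) * s)‖ ≤
      q r * Real.exp (-s.re) := by
    intro r
    have hq0 : 0 ≤ q r := tsum_nonneg fun g => by positivity
    rcases le_or_gt r 0 with hr | hr
    · rw [hp0 r hr, hf0 r (fun k hk => absurd (ht0 k) (by rw [hk]; exact not_lt.mpr hr))]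
      simp only [zero_mul, sub_zero, norm_zero]
      positivity
    · rcases le_or_gt r 1 with hr1 | hr1
      · have := h.prod r hr hr1
        rw [hp]
        simp only
        rw [this, sub_self, norm_zero]
        positivity
      · rw [hf0 r (fun k hk => absurd (ht1 k) (by rw [hk]; exact not_le.mpr hr1)), zero_mul,
          sub_zero, norm_mul, O1_norm_exp]
        refine mul_le_mul (hpq r) ?_ (Real.exp_pos _).le hq0
        refine Real.exp_le_exp.mpr ?_
        have : (1 : ℝ) < r := by exact_mod_cast hr1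
        nlinarith
  have hqe : Summable fun r => q r * Real.exp (-s.re) := hqs.mul_right _
  calc ‖∑' r : ℚ, (p r * exp (-(r : ℂ) * s) - fcoef t r * exp (-(r : ℂ) * s))‖
      ≤ ∑' r, q r * Real.exp (-s.re) := tsum_of_norm_bounded hqe.hasSum hterm
    _ = (∑' r, q r) * Real.exp (-s.re) := tsum_mul_right
    _ ≤ L ^ 2 * Real.exp (-s.re) := mul_le_mul_of_nonneg_right hqt (Real.exp_pos _).le

/-- Up to `v`, up to a finite trigonometric polynomial with small coefficients, and up to `ε`, the series is the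
approximant. (`U` is a large finite set, disjoint from `A` and `D`.) -/
theorem ser_split {L : ℝ} {b : ℚ → ℂ} (hb0 : ∀ g, g ≤ 0 → b g = 0) (hb : Summable fun g => ‖b g‖)
    (hL : ∑' g, ‖b g‖ ≤ L) {S v θ : ℝ} (hS : 0 ≤ S) {A : Finset ℚ} (hA : Split b S v θ A) {ε : ℝ} (hε : 0 < ε) :
    ∃ U : Finset ℚ, (∀ g ∈ U, 0 < g) ∧ (∀ g ∈ U, ‖b g‖ * Real.exp (-(g : ℝ) * S) ≤ θ) ∧
      (∑ g ∈ U, ‖b g‖ ≤ L) ∧
      ∀ s : ℂ, S ≤ s.re → ‖ser b s - poly b A s - poly b U s‖ ≤ v + ε := by
  classical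
  obtain ⟨D, hAD, hD, hθ⟩ := hA
  -- a large finite set
  obtain ⟨U0, hU0⟩ : ∃ U0 : Finset ℚ, ∑' g, ‖b g‖ - ε ≤ ∑ g ∈ U0, ‖b g‖ := by
    have h1 : ∀ᶠ U : Finset ℚ in Filter.atTop, ∑' g, ‖b g‖ - ε < ∑ g ∈ U, ‖b g‖ :=
      (hb.hasSum.eventually (lt_mem_nhds (by linarith)))
    obtain ⟨U, hU⟩ := h1.exists
    exact ⟨U, hU.le⟩
  set U : Finset ℚ := (U0 \ (A ∪ D)).filter fun g => 0 < g with hU
  have memU : ∀ g ∈ U, 0 < g ∧ g ∉ A ∧ g ∉ D := by
    intro g hg
    rw [hU, Finset.mem_filter, Finset.mem_sdiff, Finset.mem_union] at hg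
    exact ⟨hg.2, fun h => hg.1.2 (Or.inl h), fun h => hg.1.2 (Or.inr h)⟩
  refine ⟨U, fun g hg => (memU g hg).1, fun g hg => hθ g (memU g hg).2.1 (memU g hg).2.2,
    (hb.sum_le_tsum U fun _ _ => norm_nonneg _).trans hL, fun s hs => ?_⟩
  have hs0 : 0 ≤ s.re := hS.trans hs
  set f : ℚ → ℂ := fun g => b g * exp (-(g : ℂ) * s) with hf
  have hfn : ∀ g, ‖f g‖ ≤ ‖b g‖ := fun g => O1_norm_le hb0 hs0 g
  have hfs : Summable f := Summable.of_norm_bounded hb hfn
  set W : Finset ℚ := A ∪ D ∪ U with hW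
  have hWsum : ∑ g ∈ W, f g = poly b A s + ∑ g ∈ D, f g + poly b U s := by
    rw [hW, Finset.sum_union, Finset.sum_union hAD]
    · rfl
    · rw [Finset.disjoint_left]
      intro g hg hgU
      obtain ⟨-, h1, h2⟩ := memU g hgU
      rcases Finset.mem_union.mp hg with h | h
      · exact h1 h
      · exact h2 h
  have hDle : ‖∑ g ∈ D, f g‖ ≤ v := by
    refine (norm_sum_le _ _).trans (le_trans (Finset.sum_le_sum fun g _ => ?_) hD)
    rcases le_or_gt g 0 with hg | hg
    · simp only [hf, hb0 g hg, zero_mul, norm_zero, le_refl]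
    · simp only [hf]
      rw [norm_mul, O1_norm_exp]
      refine mul_le_mul_of_nonneg_left (Real.exp_le_exp.mpr ?_) (norm_nonneg _)
      have : (0 : ℝ) < g := by exact_mod_cast hg
      nlinarith
  -- the remainder
  have hrem : ‖∑' g, f g - ∑ g ∈ W, f g‖ ≤ ε := by
    have h1 : ∑' g, f g - ∑ g ∈ W, f g = ∑' g, (if g ∈ W then 0 else f g) := by
      have h2 : ∑ g ∈ W, f g = ∑' g, (if g ∈ W then f g else 0) := by
        rw [tsum_eq_sum (s := W) (fun g hg => if_neg hg)]
        exact Finset.sum_congr rfl fun g hg => (if_pos hg).symm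
      have hs1 : Summable fun g => (if g ∈ W then f g else 0) :=
        summable_of_ne_finset_zero (s := W) (fun g hg => if_neg hg)
      rw [h2, ← hfs.tsum_sub hs1]
      refine tsum_congr fun g => ?_
      split_ifs <;> simp
    rw [h1]
    have h3 : ∀ g, ‖(if g ∈ W then 0 else f g)‖ ≤ ‖b g‖ - (if g ∈ U0 then ‖b g‖ else 0) := by
      intro g
      by_cases hg : g ∈ W
      · rw [if_pos hg, norm_zero]
        split_ifs
        · simp
        · simp
      · rw [if_neg hg]
        by_cases hg0 : g ∈ U0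
        · rw [if_pos hg0, sub_self]
          have : g ≤ 0 := by
            by_contra hpos
            push Not at hpos
            apply hg
            rw [hW, Finset.mem_union]
            by_cases hAD' : g ∈ A ∪ D
            · exact Or.inl hAD'
            · right
              rw [hU, Finset.mem_filter, Finset.mem_sdiff]
              exact ⟨⟨hg0, hAD'⟩, hpos⟩
          simp [hf, hb0 g this]
        · rw [if_neg hg0, sub_zero]
          exact hfn g
    have hs2 : Summable fun g => (if g ∈ U0 then ‖b g‖ else 0) :=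
      summable_of_ne_finset_zero (s := U0) (fun g hg => if_neg hg)
    have h4 : ∑' g, (if g ∈ U0 then ‖b g‖ else 0) = ∑ g ∈ U0, ‖b g‖ := by
      rw [tsum_eq_sum (s := U0) (fun g hg => if_neg hg)]
      exact Finset.sum_congr rfl fun g hg => if_pos hg
    refine (tsum_of_norm_bounded (hb.sub hs2).hasSum h3).trans ?_
    rw [hb.tsum_sub hs2, h4]
    linarith
  have h5 : ser b s - poly b A s - poly b U s = (∑' g, f g - ∑ g ∈ W, f g) + ∑ g ∈ D, f g := by
    rw [hWsum]
    unfold ser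
    ring
  rw [h5]
  refine (norm_add_le _ _).trans ?_
  linarith

end Pool.Agent.QF
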