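import Pool.Agent.QF.Defs
import Pool.Agent.QF.Alg

/-! TR: from `no_fac` to the three algebras. -/

namespace Pool.Agent.QF

private theorem TR_pos {t : ℕ → ℚ} (h : Sizes t) (k : ℕ) : 0 < t k := by
  have h1 := (h k).1
  have h2 := tau_pos k
  have : (0 : ℝ) < t k := by linarith
  exact_mod_cast this

private theorem TR_le {t : ℕ → ℚ} (h : Sizes t) (k : ℕ) : t k ≤ 1 := by
  have h1 := (h k).2
  have h2 := tau_le k
  have h3 : ((1 : ℝ) / 2) ^ 100 ≤ 1 := by norm_num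
  have : (t k : ℝ) ≤ 1 := by linarith
  exact_mod_cast this

private theorem TR_lt {t : ℕ → ℚ} (h : Sizes t) {i j : ℕ} (hij : i < j) : t j < t i := by
  have h1 := (h i).1
  have h2 := (h j).2
  have h3 : tau j ≤ tau (i + 1) := tau_anti hij
  have h4 := tau_succ i
  have h5 := tau_pos i
  have h6 := tau_le i
  have h7 : ((1 : ℝ) / 2) ^ 100 ≤ 1 / 4 := by norm_num
  have h8 : tau i ^ 100 ≤ tau i ^ 2 :=
    pow_le_pow_of_le_one h5.le (by linarith) (by norm_num)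
  have h9 : tau i ^ 2 ≤ tau i * (1 / 4) := by
    rw [pow_two]
    exact mul_le_mul_of_nonneg_left (by linarith) h5.le
  have : (t j : ℝ) < t i := by linarith
  exact_mod_cast this

private theorem TR_inj {t : ℕ → ℚ} (h : Sizes t) : Function.Injective t := by
  intro i j hij
  rcases lt_trichotomy i j with h1 | h1 | h1
  · exact absurd hij (TR_lt h h1).ne'
  · exact h1
  · exact absurd hij (TR_lt h h1).ne

private theorem TR_fcoef_t {t : ℕ → ℚ} (h : Sizes t) (k : ℕ) : fcoef t (t k) = amp k := by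
  unfold fcoef
  rw [tsum_eq_single k]
  · rw [if_pos rfl]
  · intro j hj
    rw [if_neg]
    intro hjk
    exact hj (TR_inj h hjk)

private theorem TR_fcoef_zero {t : ℕ → ℚ} {r : ℚ} (h : ∀ k, t k ≠ r) : fcoef t r = 0 := by
  unfold fcoef
  have : (fun k => if t k = r then (amp k : ℂ) else 0) = fun _ => 0 := by
    funext k
    rw [if_neg (h k)]
  rw [this, tsum_zero]

private theorem TR_mem {t : ℕ → ℚ} (h : Sizes t) {P : ℚ → Prop} (hP : ∀ k, P (t k))
    (ω : {q : ℚ // P q} → ℝ) (h0 : ∀ q, 0 ≤ ω q) (h1 : ∀ q, ω q ≤ 1) :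
    Summable fun q : {q : ℚ // P q} => ‖fcoef t q.1‖ * ω q := by
  have hi : Function.Injective fun k : ℕ => (⟨t k, hP k⟩ : {q : ℚ // P q}) := by
    intro i j hij
    exact TR_inj h (Subtype.ext_iff.mp hij)
  rw [← hi.summable_iff]
  · refine Summable.of_nonneg_of_le (fun k => mul_nonneg (norm_nonneg _) (h0 _)) (fun k => ?_)
      amp_summable
    simp only [Function.comp]
    rw [TR_fcoef_t h k, Complex.norm_real, Real.norm_of_nonneg (amp_pos k).le]
    calc amp k * ω ⟨t k, hP k⟩ ≤ amp k * 1 := mul_le_mul_of_nonneg_left (h1 _) (amp_pos k).le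
      _ = amp k := mul_one _
  · intro q hq
    rw [TR_fcoef_zero, norm_zero, zero_mul]
    intro k hk
    exact hq ⟨k, Subtype.ext hk⟩

open Classical in
private noncomputable def TRext {P : ℚ → Prop} (hP1 : ∀ q, 0 < q → q ≤ 1 → P q)
    (b : {q : ℚ // P q} → ℂ) (q : ℚ) : ℂ :=
  if h : 0 < q ∧ q ≤ 1 then b ⟨q, hP1 q h.1 h.2⟩ else 0

private theorem TRext_sum {P : ℚ → Prop} (hP1 : ∀ q, 0 < q → q ≤ 1 → P q)
    (ω : {q : ℚ // P q} → ℝ) (hω : ∀ q, q.1 ≤ 1 → Real.exp (-1) ≤ ω q)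
    (b : {q : ℚ // P q} → ℂ) (hb : Summable fun q => ‖b q‖ * ω q) :
    Summable fun q => ‖TRext hP1 b q‖ := by
  have hi : Function.Injective (Subtype.val : {q : ℚ // 0 < q ∧ q ≤ 1} → ℚ) :=
    Subtype.val_injective
  rw [← hi.summable_iff]
  · have hj : Function.Injective
        fun q : {q : ℚ // 0 < q ∧ q ≤ 1} => (⟨q.1, hP1 q.1 q.2.1 q.2.2⟩ : {q : ℚ // P q}) := by
      intro a c hac
      exact Subtype.ext (congrArg (fun x : {q : ℚ // P q} => x.1) hac)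
    have h1 := (hb.comp_injective hj).mul_left (Real.exp 1)
    refine Summable.of_nonneg_of_le (fun _ => norm_nonneg _) (fun q => ?_) h1
    simp only [Function.comp]
    have e1 : TRext hP1 b q.1 = b ⟨q.1, hP1 q.1 q.2.1 q.2.2⟩ := by
      unfold TRext
      rw [dif_pos q.2]
    rw [e1]
    have h2 := hω ⟨q.1, hP1 q.1 q.2.1 q.2.2⟩ q.2.2
    have h3 : Real.exp 1 * Real.exp (-1) = 1 := by rw [← Real.exp_add]; simp
    have h4 : 0 ≤ ‖b ⟨q.1, hP1 q.1 q.2.1 q.2.2⟩‖ := norm_nonneg _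
    have h5 : 0 ≤ Real.exp 1 := (Real.exp_pos 1).le
    calc ‖b ⟨q.1, hP1 q.1 q.2.1 q.2.2⟩‖
        = (Real.exp 1 * Real.exp (-1)) * ‖b ⟨q.1, hP1 q.1 q.2.1 q.2.2⟩‖ := by rw [h3, one_mul]
      _ = Real.exp 1 * (‖b ⟨q.1, hP1 q.1 q.2.1 q.2.2⟩‖ * Real.exp (-1)) := by ring
      _ ≤ Real.exp 1 * (‖b ⟨q.1, hP1 q.1 q.2.1 q.2.2⟩‖ * ω ⟨q.1, hP1 q.1 q.2.1 q.2.2⟩) :=
          mul_le_mul_of_nonneg_left (mul_le_mul_of_nonneg_left h2 h4) h5
  · intro q hq
    have : ¬ (0 < q ∧ q ≤ 1) := fun hc => hq ⟨⟨q, hc⟩, rfl⟩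
    unfold TRext
    rw [dif_neg this, norm_zero]

private theorem TRext_prod {P : ℚ → Prop} (hP0 : ∀ q, P q → 0 < q)
    (hP1 : ∀ q, 0 < q → q ≤ 1 → P q) (b c : {q : ℚ // P q} → ℂ) {r : ℚ} (hr : r ≤ 1) :
    ∑' g, TRext hP1 b g * TRext hP1 c (r - g) =
      ∑' p : {p : {q : ℚ // P q} × {q : ℚ // P q} // p.1.1 + p.2.1 = r}, b p.1.1 * c p.1.2 := by
  have hi : Function.Injective
      fun p : {p : {q : ℚ // P q} × {q : ℚ // P q} // p.1.1 + p.2.1 = r} => p.1.1.1 := by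
    intro x y hxy
    simp only at hxy
    have hx := x.2
    have hy := y.2
    apply Subtype.ext
    refine Prod.ext (Subtype.ext hxy) (Subtype.ext ?_)
    rw [hxy] at hx
    linarith
  rw [← hi.tsum_eq (f := fun g => TRext hP1 b g * TRext hP1 c (r - g))]
  · refine tsum_congr fun p => ?_
    have hp := p.2
    have h1 := hP0 _ p.1.1.2
    have h2 := hP0 _ p.1.2.2
    have e1 : TRext hP1 b p.1.1.1 = b p.1.1 := by
      unfold TRext
      rw [dif_pos ⟨h1, by linarith⟩]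
    have e2 : TRext hP1 c (r - p.1.1.1) = c p.1.2 := by
      have e3 : r - p.1.1.1 = p.1.2.1 := by linarith
      rw [e3]
      unfold TRext
      rw [dif_pos ⟨h2, by linarith⟩]
    rw [e1, e2]
  · intro x hx
    have hx' : TRext hP1 b x * TRext hP1 c (r - x) ≠ 0 := hx
    have ha := left_ne_zero_of_mul hx'
    have hb := right_ne_zero_of_mul hx'
    have ha' : 0 < x ∧ x ≤ 1 := by
      by_contra hcon
      unfold TRext at ha
      rw [dif_neg hcon] at ha
      exact ha rfl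
    have hb' : 0 < r - x ∧ r - x ≤ 1 := by
      by_contra hcon
      unfold TRext at hb
      rw [dif_neg hcon] at hb
      exact hb rfl
    exact ⟨⟨(⟨x, hP1 x ha'.1 ha'.2⟩, ⟨r - x, hP1 _ hb'.1 hb'.2⟩), by simp⟩, rfl⟩

private theorem TR_core {t : ℕ → ℚ} {P : ℚ → Prop} (hP0 : ∀ q, P q → 0 < q)
    (hP1 : ∀ q, 0 < q → q ≤ 1 → P q)
    (ω : {q : ℚ // P q} → ℝ) (hω : ∀ q, q.1 ≤ 1 → Real.exp (-1) ≤ ω q)
    (b c : {q : ℚ // P q} → ℂ) (hb : Summable fun q => ‖b q‖ * ω q)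
    (hc : Summable fun q => ‖c q‖ * ω q)
    (hprod : ∀ r : {q : ℚ // P q}, fcoef t r.1 =
      ∑' p : {p : {q : ℚ // P q} × {q : ℚ // P q} // p.1.1 + p.2.1 = r.1}, b p.1.1 * c p.1.2) :
    ∃ (L : ℝ) (b' c' : ℚ → ℂ), Fac t L b' c' := by
  refine ⟨max 1 (max (∑' g, ‖TRext hP1 b g‖) (∑' g, ‖TRext hP1 c g‖)), TRext hP1 b, TRext hP1 c,
    ?_⟩
  refine ⟨le_max_left _ _, ?_, ?_, TRext_sum hP1 ω hω b hb, TRext_sum hP1 ω hω c hc,
    (le_max_left _ _).trans (le_max_right _ _), (le_max_right _ _).trans (le_max_right _ _), ?_⟩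
  · intro g hg
    unfold TRext
    rw [dif_neg]
    intro h
    linarith [h.1]
  · intro g hg
    unfold TRext
    rw [dif_neg]
    intro h
    linarith [h.1]
  · intro r h0 h1
    rw [TRext_prod hP0 hP1 b c h1, ← hprod ⟨r, hP1 r h0 h1⟩]

/-- Put `f = ∑ₖ amp k δ_{t k}`. A factorization in one of the algebras gives (restrict `b`, `c` to `(0,1]`,
extend by `0` to `ℚ`) a `Fac t L b c`. (`t k ≤ tau k ≤ 1`; `∑ amp k < ∞`; in the weighted algebra the weight is
between `e^{-1}` and `1` on `(0,1]`.) -/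
theorem transfer (h : ∃ t : ℕ → ℚ, Sizes t ∧ ∀ (L : ℝ) (b c : ℚ → ℂ), ¬ Fac t L b c) :
    ¬ Factors (Ell1 fun _ => 1) conv ∧ ¬ Factors (Ell1 fun t => Real.exp (-(t.1 : ℝ) ^ 2)) conv ∧
      ¬ Factors Ell1Unit convUnit := by
  obtain ⟨t, hsz, hno⟩ := h
  refine ⟨?_, ?_, ?_⟩
  · intro hF
    have hmem : (fun q : QPos => fcoef t q.1) ∈ Ell1 fun _ => 1 :=
      TR_mem hsz (P := fun q => 0 < q) (TR_pos hsz) (fun _ => 1) (fun _ => zero_le_one)
        (fun _ => le_rfl)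
    obtain ⟨b, hb, c, hc, habc⟩ := hF _ hmem
    obtain ⟨L, b', c', hfac⟩ := TR_core (t := t) (P := fun q => 0 < q) (fun q hq => hq)
      (fun q h0 _ => h0) (fun _ => 1)
      (fun q _ => by rw [Real.exp_le_one_iff]; norm_num) b c hb hc
      (fun r => congrFun habc r)
    exact hno L b' c' hfac
  · intro hF
    have hmem : (fun q : QPos => fcoef t q.1) ∈ Ell1 fun t => Real.exp (-(t.1 : ℝ) ^ 2) :=
      TR_mem hsz (P := fun q => 0 < q) (TR_pos hsz) (fun t => Real.exp (-(t.1 : ℝ) ^ 2))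
        (fun _ => (Real.exp_pos _).le)
        (fun q => by rw [Real.exp_le_one_iff]; nlinarith [sq_nonneg ((q.1 : ℚ) : ℝ)])
    obtain ⟨b, hb, c, hc, habc⟩ := hF _ hmem
    obtain ⟨L, b', c', hfac⟩ := TR_core (t := t) (P := fun q => 0 < q) (fun q hq => hq)
      (fun q h0 _ => h0) (fun t => Real.exp (-(t.1 : ℝ) ^ 2))
      (fun q hq => by
        have h0 : (0 : ℝ) < ((q.1 : ℚ) : ℝ) := by exact_mod_cast q.2
        have h1 : ((q.1 : ℚ) : ℝ) ≤ 1 := by exact_mod_cast hq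
        apply Real.exp_le_exp.mpr
        nlinarith) b c hb hc
      (fun r => congrFun habc r)
    exact hno L b' c' hfac
  · intro hF
    have hmem : (fun q : QUnit => fcoef t q.1) ∈ Ell1Unit := by
      have := TR_mem hsz (P := fun q => 0 < q ∧ q ≤ 1) (fun k => ⟨TR_pos hsz k, TR_le hsz k⟩)
        (fun _ => 1) (fun _ => zero_le_one) (fun _ => le_rfl)
      show Summable fun q : QUnit => ‖fcoef t q.1‖
      simpa only [mul_one] using this
    obtain ⟨b, hb, c, hc, habc⟩ := hF _ hmem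
    have hb' : Summable fun q => ‖b q‖ := hb
    have hc' : Summable fun q => ‖c q‖ := hc
    obtain ⟨L, b', c', hfac⟩ := TR_core (t := t) (P := fun q => 0 < q ∧ q ≤ 1)
      (fun q hq => hq.1) (fun q h0 h1 => ⟨h0, h1⟩) (fun _ => 1)
      (fun q _ => by rw [Real.exp_le_one_iff]; norm_num) b c
      (by simpa only [mul_one] using hb') (by simpa only [mul_one] using hc')
      (fun r => congrFun habc r)
    exact hno L b' c' hfac

end Pool.Agent.QF
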