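import Pool.Agent.QF.FR

/-! TW: twists exist. -/

namespace Pool.Agent.QF

theorem Sizes.strictAnti {t : ℕ → ℚ} (h : Sizes t) : StrictAnti t := by
  refine strictAnti_nat_of_succ_lt fun k => ?_
  have h1 := (h (k + 1)).2
  have h2 := (h k).1
  have h3 : tau (k + 1) < tau k / 2 := by
    rw [tau_succ]
    have hp := tau_pos k
    have hl : tau k ≤ 1 / 4 := (tau_le k).trans (by norm_num)
    have h4 : tau k ^ 100 ≤ tau k ^ 2 := pow_le_pow_of_le_one hp.le (by linarith) (by norm_num)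
    nlinarith
  have : (t (k + 1) : ℝ) < t k := by linarith
  exact_mod_cast this

/-- a surjection from `Fin N` onto a nonempty finite set with at most `N` elements -/
theorem exists_surj {N : ℕ} {A : Finset ℚ} (hA : A.Nonempty) (hN : A.card ≤ N) :
    ∃ (u : Fin N → ℚ) (s : ℚ → Fin N), ∀ g ∈ A, u (s g) = g := by
  obtain ⟨a, ha⟩ := hA
  have hpos : 0 < N := lt_of_lt_of_le (Finset.card_pos.mpr ⟨a, ha⟩) hN
  let e := A.equivFin
  refine ⟨fun i => if hi : (i : ℕ) < A.card then (e.symm ⟨i, hi⟩ : ℚ) else a,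
    fun g => if hg : g ∈ A then ⟨(e ⟨g, hg⟩ : ℕ), lt_of_lt_of_le (e ⟨g, hg⟩).2 hN⟩ else ⟨0, hpos⟩, ?_⟩
  intro g hg
  simp only [dif_pos hg]
  rw [dif_pos (e ⟨g, hg⟩).2]
  simp

/-- From `freiman_alt` and genericity. `A`, `C` finite sets with at most `N` elements. For `k₀ > n` with
`t k₀ ∈ A + C` there is a homomorphism with value `1` on the sums equal to `t k₀` and value `0` on the sums
equal to another `t k`. -/
theorem exists_twist (N : ℕ) : ∃ K₀ : ℕ, ∀ (t : ℕ → ℚ) (K : ℕ → ℕ) (n : ℕ), K₀ ≤ K n → Sizes t → Ind t K →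
    ∀ (A C : Finset ℚ), A.card ≤ N → C.card ≤ N → ∀ k₀, n < k₀ → (∃ g ∈ A, ∃ h ∈ C, g + h = t k₀) →
    ∃ x y : ℚ → ℚ, (∀ g ∈ A, ∀ h ∈ C, ∀ g' ∈ A, ∀ h' ∈ C, g + h = g' + h' → x g + y h = x g' + y h') ∧
      (∀ g ∈ A, ∀ h ∈ C, g + h = t k₀ → x g + y h = 1) ∧
      (∀ g ∈ A, ∀ h ∈ C, ∀ k, k ≠ k₀ → g + h = t k → x g + y h = 0) := by
  classical
  obtain ⟨K₀, hK₀⟩ := freiman_alt N
  refine ⟨K₀, fun t K n hKn hsz hind A C hA hC k₀ hk₀ hex => ?_⟩
  obtain ⟨g₀, hg₀, h₀, hh₀, hsum⟩ := hex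
  obtain ⟨u, su, hu⟩ := exists_surj ⟨g₀, hg₀⟩ hA
  obtain ⟨v, sv, hv⟩ := exists_surj ⟨h₀, hh₀⟩ hC
  have hinj : Function.Injective t := hsz.strictAnti.injective
  set I : Finset ℚ := ((A ×ˢ C).image (fun p => p.1 + p.2)).filter (fun r => ∃ k, r = t k) with hI
  have hmemI : ∀ r, r ∈ I ↔ (∃ g ∈ A, ∃ h ∈ C, g + h = r) ∧ ∃ k, r = t k := by
    intro r
    rw [hI, Finset.mem_filter, Finset.mem_image]
    constructor
    · rintro ⟨⟨p, hp, rfl⟩, hk⟩
      rw [Finset.mem_product] at hp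
      exact ⟨⟨p.1, hp.1, p.2, hp.2, rfl⟩, hk⟩
    · rintro ⟨⟨g, hg, h, hh, rfl⟩, hk⟩
      exact ⟨⟨(g, h), Finset.mem_product.mpr ⟨hg, hh⟩, rfl⟩, hk⟩
  have h1 : ∀ r ∈ I, ∃ i j, u i + v j = r := by
    intro r hr
    obtain ⟨⟨g, hg, h, hh, rfl⟩, _⟩ := (hmemI r).mp hr
    exact ⟨su g, sv h, by rw [hu g hg, hv h hh]⟩
  have hr₀ : t k₀ ∈ I := (hmemI _).mpr ⟨⟨g₀, hg₀, h₀, hh₀, hsum⟩, k₀, rfl⟩
  rcases hK₀ u v I h1 (t k₀) hr₀ with ⟨x, y, hx1, hx2, hx3⟩ | ⟨m, hm1, hm2, hm3, hm4⟩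
  · refine ⟨fun g => x (su g), fun h => y (sv h), ?_, ?_, ?_⟩
    · intro g hg h hh g' hg' h' hh' hs
      apply hx1
      rw [hu g hg, hv h hh, hu g' hg', hv h' hh', hs]
    · intro g hg h hh hs
      apply hx2
      rw [hu g hg, hv h hh, hs]
    · intro g hg h hh k hk hs
      apply hx3
      · rw [hu g hg, hv h hh]
        exact (hmemI _).mpr ⟨⟨g, hg, h, hh, rfl⟩, k, hs⟩
      · rw [hu g hg, hv h hh, hs]
        exact fun h => hk (hinj h)
  · exfalso
    -- the relation between the exponents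
    have hfin : (t ⁻¹' (I : Set ℚ)).Finite := Set.Finite.preimage hinj.injOn I.finite_toSet
    let M : ℕ →₀ ℤ := Finsupp.onFinset hfin.toFinset (fun k => m (t k)) (by
      intro k hk
      rw [Set.Finite.mem_toFinset, Set.mem_preimage, Finset.mem_coe]
      by_contra h
      exact hk (hm3 _ h))
    have hM : ∀ k, M k = m (t k) := fun k => rfl
    have hMs : (M.sum fun k c => (c : ℚ) * t k) = 0 := by
      rw [Finsupp.onFinset_sum _ (fun k => by simp)]
      rw [← hm4]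
      symm
      refine Finset.sum_bij_ne_zero (fun r _ _ => Classical.epsilon fun k => r = t k) ?_ ?_ ?_ ?_
      · intro r hr _
        have := Classical.epsilon_spec ((hmemI r).mp hr).2
        rw [Set.Finite.mem_toFinset, Set.mem_preimage, ← this]
        exact hr
      · intro r hr _ r' hr' _ he
        have h1 := Classical.epsilon_spec ((hmemI r).mp hr).2
        have h2 := Classical.epsilon_spec ((hmemI r').mp hr').2
        rw [h1, h2, he]
      · intro k hk _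
        rw [Set.Finite.mem_toFinset, Set.mem_preimage] at hk
        refine ⟨t k, hk, by assumption, ?_⟩
        have := Classical.epsilon_spec ((hmemI (t k)).mp hk).2
        exact (hinj this).symm
      · intro r hr _
        have := Classical.epsilon_spec ((hmemI r).mp hr).2
        rw [← this]
    have hbd : ∀ k, |M k| ≤ (K n : ℤ) := by
      intro k
      rw [hM]
      refine (hm1 _).trans ?_
      exact_mod_cast hKn
    exact hm2 (hind n M hbd hMs k₀ hk₀)

end Pool.Agent.QF
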