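import Pool.Agent.QF.Defs

/-! W1: the dichotomy, and constancy of the small factor along paths of good near-zero states. -/

namespace Pool.Agent.QF

open Complex

/-- `L` and `amp n` are harmless. -/
theorem W1_small {n : ℕ} {L : ℝ} (h1 : 1 ≤ L) (h : SmallL n L) : 10 ^ 10 * tau n * L ≤ amp n := by
  unfold SmallL at h
  have ha := amp_pos n
  have ha1 := amp_le_one n
  have hx := tau_pos n
  have hq : 1 ≤ 10 ^ 10 * L / amp n := by
    rw [le_div_iff₀ ha]
    nlinarith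
  have h2 : 10 ^ 10 * L / amp n ≤ (10 ^ 10 * L / amp n) ^ 100 := le_self_pow₀ hq (by norm_num)
  have h3 : 10 ^ 10 * L / amp n * tau n ≤ 1 :=
    (mul_le_mul_of_nonneg_right h2 hx.le).trans h
  rw [div_mul_eq_mul_div, div_le_one ha] at h3
  nlinarith

/-- The first order expansion of one term. -/
theorem W1_exp_sub (u : ℝ) (h0 : 0 ≤ u) (h1 : u ≤ 1) :
    ‖exp (-(u : ℂ)) - 1 + u‖ ≤ u ^ 2 := by
  have h := Complex.norm_exp_sub_one_sub_id_le (x := -(u : ℂ)) (by
    rw [norm_neg, Complex.norm_real, Real.norm_of_nonneg h0]; exact h1)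
  rw [norm_neg, Complex.norm_real, Real.norm_of_nonneg h0] at h
  rwa [sub_neg_eq_add] at h

theorem W1_exp_sub_one (u : ℝ) (h0 : 0 ≤ u) : ‖exp (-(u : ℂ)) - 1‖ ≤ u := by
  rw [← Complex.ofReal_neg, ← Complex.ofReal_exp, ← Complex.ofReal_one, ← Complex.ofReal_sub,
    Complex.norm_real, Real.norm_eq_abs]
  have h2 : Real.exp (-u) ≤ 1 := Real.exp_le_one_iff.mpr (by linarith)
  have h3 := Real.add_one_le_exp (-u)
  rw [abs_of_nonpos (by linarith)]
  linarith

/-- The difference of one term of `F`. -/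
theorem W1_term (a : ℝ) (ha : 0 ≤ a) (w : ℂ) (hw : ‖w‖ = 1) (u : ℚ) (hu : 0 ≤ (u : ℝ)) (s : ℂ) (ζ : ℝ)
    (hζ : 0 ≤ ζ) (h1 : (u : ℝ) * ζ ≤ 1) :
    ‖(a : ℂ) * w * exp (-(u : ℂ) * (s + ζ)) - (a : ℂ) * w * exp (-(u : ℂ) * s)
      + ζ * ((u : ℂ) * a * w * exp (-(u : ℂ) * s))‖ ≤ a * Real.exp (-(u : ℝ) * s.re) * ((u : ℝ) * ζ) ^ 2 := by
  have e1 : exp (-(u : ℂ) * (s + ζ)) = exp (-(u : ℂ) * s) * exp (-(((u : ℝ) * ζ : ℝ) : ℂ)) := by
    rw [← Complex.exp_add]
    congr 1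
    push_cast
    ring
  have e2 : (a : ℂ) * w * exp (-(u : ℂ) * (s + ζ)) - (a : ℂ) * w * exp (-(u : ℂ) * s)
      + ζ * ((u : ℂ) * a * w * exp (-(u : ℂ) * s)) =
      (a : ℂ) * w * exp (-(u : ℂ) * s) * (exp (-(((u : ℝ) * ζ : ℝ) : ℂ)) - 1 + (((u : ℝ) * ζ : ℝ) : ℂ)) := by
    rw [e1]
    push_cast
    ring
  rw [e2, norm_mul, norm_mul, norm_mul, hw, Complex.norm_real, Real.norm_of_nonneg ha, mul_one]
  have e3 : ‖exp (-(u : ℂ) * s)‖ = Real.exp (-(u : ℝ) * s.re) := by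
    rw [Complex.norm_exp]
    congr 1
    simp
  rw [e3]
  exact mul_le_mul_of_nonneg_left (W1_exp_sub _ (by positivity) h1) (by positivity)

theorem W1_term' (a : ℝ) (ha : 0 ≤ a) (w : ℂ) (hw : ‖w‖ = 1) (u : ℚ) (hu : 0 ≤ (u : ℝ)) (s : ℂ) (hs : 0 ≤ s.re)
    (ζ : ℝ) (hζ : 0 ≤ ζ) :
    ‖(a : ℂ) * w * exp (-(u : ℂ) * (s + ζ)) - (a : ℂ) * w * exp (-(u : ℂ) * s)‖ ≤ a * ((u : ℝ) * ζ) := by
  have e1 : exp (-(u : ℂ) * (s + ζ)) = exp (-(u : ℂ) * s) * exp (-(((u : ℝ) * ζ : ℝ) : ℂ)) := by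
    rw [← Complex.exp_add]
    congr 1
    push_cast
    ring
  have e2 : (a : ℂ) * w * exp (-(u : ℂ) * (s + ζ)) - (a : ℂ) * w * exp (-(u : ℂ) * s) =
      (a : ℂ) * w * exp (-(u : ℂ) * s) * (exp (-(((u : ℝ) * ζ : ℝ) : ℂ)) - 1) := by
    rw [e1]
    ring
  rw [e2, norm_mul, norm_mul, norm_mul, hw, Complex.norm_real, Real.norm_of_nonneg ha, mul_one]
  have e3 : ‖exp (-(u : ℂ) * s)‖ = Real.exp (-(u : ℝ) * s.re) := by
    rw [Complex.norm_exp]
    congr 1
    simp
  rw [e3]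
  have h2 : Real.exp (-(u : ℝ) * s.re) ≤ 1 := by
    rw [Real.exp_le_one_iff]
    nlinarith
  calc a * Real.exp (-(u : ℝ) * s.re) * ‖exp (-(((u : ℝ) * ζ : ℝ) : ℂ)) - 1‖
      ≤ a * 1 * ((u : ℝ) * ζ) := by
        refine mul_le_mul (mul_le_mul_of_nonneg_left h2 ha) (W1_exp_sub_one _ (by positivity)) (norm_nonneg _)
          (by positivity)
    _ = a * ((u : ℝ) * ζ) := by ring

/-- The increment of `F` in the real direction. -/
theorem W1_diff {n : ℕ} {t : ℕ → ℚ} (hsz : Sizes t) {J : Finset ℕ} (J_gt : ∀ k ∈ J, n < k) (hJ1 : n + 1 ∈ J)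
    (α : ℕ → ℝ) {s : ℂ} (hs : 0 ≤ s.re) {ζ : ℝ} (hζ : 0 ≤ ζ) (hζ1 : ζ ≤ 1) :
    ‖FF n t J α (s + ζ) - FF n t J α s + ζ * TT n t (α (n + 1)) s‖ ≤
      2 * tau n * ζ ^ 2 * TM n t s.re + 200 * tau (n + 2) * ζ := by
  have tpos : ∀ k, 0 < (t k : ℝ) := fun k => by
    have := (hsz k).1; have := tau_pos k; linarith
  have tle : ∀ k, n ≤ k → (t k : ℝ) ≤ tau n := fun k hk => (hsz k).2.trans (tau_anti hk)
  have tau1 : tau n ≤ 1 := (tau_le n).trans (by norm_num)
  have split : ∀ z : ℂ, FF n t J α z = (amp n : ℂ) * exp (-(t n : ℂ) * z) +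
      ((amp (n + 1) : ℂ) * exp ((α (n + 1) : ℂ) * I) * exp (-(t (n + 1) : ℂ) * z) +
      ∑ k ∈ J.erase (n + 1), (amp k : ℂ) * exp ((α k : ℂ) * I) * exp (-(t k : ℂ) * z)) := by
    intro z
    unfold FF
    rw [Finset.add_sum_erase J (fun k => (amp k : ℂ) * exp ((α k : ℂ) * I) * exp (-(t k : ℂ) * z)) hJ1]
  have hun : ∀ θ : ℝ, ‖exp ((θ : ℂ) * I)‖ = 1 := fun θ => by
    rw [Complex.norm_exp]; simp
  have key : FF n t J α (s + ζ) - FF n t J α s + ζ * TT n t (α (n + 1)) s =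
      ((amp n : ℂ) * 1 * exp (-(t n : ℂ) * (s + ζ)) - (amp n : ℂ) * 1 * exp (-(t n : ℂ) * s)
        + ζ * ((t n : ℂ) * amp n * 1 * exp (-(t n : ℂ) * s))) +
      ((amp (n + 1) : ℂ) * exp ((α (n + 1) : ℂ) * I) * exp (-(t (n + 1) : ℂ) * (s + ζ))
        - (amp (n + 1) : ℂ) * exp ((α (n + 1) : ℂ) * I) * exp (-(t (n + 1) : ℂ) * s)
        + ζ * ((t (n + 1) : ℂ) * amp (n + 1) * exp ((α (n + 1) : ℂ) * I) * exp (-(t (n + 1) : ℂ) * s))) +
      ∑ k ∈ J.erase (n + 1), ((amp k : ℂ) * exp ((α k : ℂ) * I) * exp (-(t k : ℂ) * (s + ζ)) -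
        (amp k : ℂ) * exp ((α k : ℂ) * I) * exp (-(t k : ℂ) * s)) := by
    rw [split, split, Finset.sum_sub_distrib]
    unfold TT
    ring
  rw [key]
  have b1 := W1_term (amp n) (amp_pos n).le 1 (by simp) (t n) (tpos n).le s ζ hζ
    (by have := tle n le_rfl; have := tpos n; nlinarith)
  have b2 := W1_term (amp (n + 1)) (amp_pos (n + 1)).le (exp ((α (n + 1) : ℂ) * I)) (hun _) (t (n + 1))
    (tpos (n + 1)).le s ζ hζ (by have := tle (n + 1) (by omega); have := tpos (n + 1); nlinarith)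
  have b3 : ‖∑ k ∈ J.erase (n + 1), ((amp k : ℂ) * exp ((α k : ℂ) * I) * exp (-(t k : ℂ) * (s + ζ)) -
        (amp k : ℂ) * exp ((α k : ℂ) * I) * exp (-(t k : ℂ) * s))‖ ≤ 200 * tau (n + 2) * ζ := by
    have hge : ∀ k ∈ J.erase (n + 1), n + 2 ≤ k := by
      intro k hk
      rw [Finset.mem_erase] at hk
      have := J_gt k hk.2
      omega
    calc ‖∑ k ∈ J.erase (n + 1), ((amp k : ℂ) * exp ((α k : ℂ) * I) * exp (-(t k : ℂ) * (s + ζ)) -
        (amp k : ℂ) * exp ((α k : ℂ) * I) * exp (-(t k : ℂ) * s))‖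
        ≤ ∑ k ∈ J.erase (n + 1), amp k * (tau (n + 2) * ζ) := by
          refine norm_sum_le_of_le _ fun k hk => ?_
          refine (W1_term' (amp k) (amp_pos k).le _ (hun _) (t k) (tpos k).le s hs ζ hζ).trans ?_
          refine mul_le_mul_of_nonneg_left ?_ (amp_pos k).le
          exact mul_le_mul_of_nonneg_right ((hsz k).2.trans (tau_anti (hge k hk))) hζ
      _ = (∑ k ∈ J.erase (n + 1), amp k) * (tau (n + 2) * ζ) := by rw [Finset.sum_mul]
      _ ≤ 200 * amp (n + 2) * (tau (n + 2) * ζ) := by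
          refine mul_le_mul_of_nonneg_right (amp_sum_le (n + 2) _ hge) ?_
          have := tau_pos (n + 2)
          positivity
      _ ≤ 200 * 1 * (tau (n + 2) * ζ) := by
          have := tau_pos (n + 2)
          refine mul_le_mul_of_nonneg_right ?_ (by positivity)
          have := amp_le_one (n + 2)
          linarith
      _ = 200 * tau (n + 2) * ζ := by ring
  have c1 : amp n * Real.exp (-(t n : ℝ) * s.re) * ((t n : ℝ) * ζ) ^ 2 ≤ tau n * ζ ^ 2 * TM n t s.re := by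
    have hM : (t n : ℝ) * amp n * Real.exp (-(t n : ℝ) * s.re) ≤ TM n t s.re := le_max_left _ _
    have h0 : 0 ≤ TM n t s.re := le_trans (by have := tpos n; have := amp_pos n; positivity) hM
    calc amp n * Real.exp (-(t n : ℝ) * s.re) * ((t n : ℝ) * ζ) ^ 2
        = (t n : ℝ) * ζ ^ 2 * ((t n : ℝ) * amp n * Real.exp (-(t n : ℝ) * s.re)) := by ring
      _ ≤ (t n : ℝ) * ζ ^ 2 * TM n t s.re := by
          refine mul_le_mul_of_nonneg_left hM ?_
          have := tpos n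
          positivity
      _ ≤ tau n * ζ ^ 2 * TM n t s.re := by
          refine mul_le_mul_of_nonneg_right ?_ h0
          exact mul_le_mul_of_nonneg_right (tle n le_rfl) (by positivity)
  have c2 : amp (n + 1) * Real.exp (-(t (n + 1) : ℝ) * s.re) * ((t (n + 1) : ℝ) * ζ) ^ 2 ≤
      tau n * ζ ^ 2 * TM n t s.re := by
    have hM : (t (n + 1) : ℝ) * amp (n + 1) * Real.exp (-(t (n + 1) : ℝ) * s.re) ≤ TM n t s.re := le_max_right _ _
    have h0 : 0 ≤ TM n t s.re :=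
      le_trans (by have := tpos (n + 1); have := amp_pos (n + 1); positivity) hM
    calc amp (n + 1) * Real.exp (-(t (n + 1) : ℝ) * s.re) * ((t (n + 1) : ℝ) * ζ) ^ 2
        = (t (n + 1) : ℝ) * ζ ^ 2 * ((t (n + 1) : ℝ) * amp (n + 1) * Real.exp (-(t (n + 1) : ℝ) * s.re)) := by ring
      _ ≤ (t (n + 1) : ℝ) * ζ ^ 2 * TM n t s.re := by
          refine mul_le_mul_of_nonneg_left hM ?_
          have := tpos (n + 1)
          positivity
      _ ≤ tau n * ζ ^ 2 * TM n t s.re := by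
          refine mul_le_mul_of_nonneg_right ?_ h0
          exact mul_le_mul_of_nonneg_right (tle (n + 1) (by omega)) (by positivity)
  refine (norm_add₃_le).trans ?_
  linarith

theorem dichotomy {n : ℕ} {t : ℕ → ℚ} {L : ℝ} {J : Finset ℕ} {B C : (ℕ → ℝ) → ℂ → ℂ} (h : Win n t L J B C)
    {α : ℕ → ℝ} {s : ℂ} (hG : (α, s) ∈ Gst n t J) : ¬ (‖B α s‖ < tau n ^ 200 ∧ ‖C α s‖ < tau n ^ 200) := by
  rintro ⟨hB, hC⟩
  obtain ⟨hS, hE, hF, hT⟩ := hG
  simp only at hS hE hF hT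
  set x := tau n with hx
  have x0 : 0 < x := tau_pos n
  have x1 : x ≤ (1 / 2) ^ 100 := tau_le n
  have x1' : x ≤ 1 / 1000 := x1.trans (by norm_num)
  have hL := h.one_le
  have hL0 : 0 < L := by linarith
  have hsm := W1_small hL h.small
  rw [← hx] at hsm
  have hσS : 1 ≤ s.re := by
    have h1 := Slev_ge n
    have h2 : (1 : ℝ) ≤ 2 ^ 50 := by norm_num
    linarith
  have hσ0 : 0 < s.re := by linarith
  have hη : tau (n + 1) = x ^ 100 := tau_succ n
  have hη2 : tau (n + 2) = x ^ 10000 := by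
    rw [show n + 2 = (n + 1) + 1 from rfl, tau_succ, hη, ← pow_mul]
  have hEx : s.re * x ^ 100 ≤ 1 := by
    rw [Elev_eq, hη, le_div_iff₀ (by positivity)] at hE
    exact hE
  have hJ1 : n + 1 ∈ J := h.J_mem (n + 1) (by omega) (by omega)
  -- the step
  set ζ : ℝ := x ^ 200 * s.re / L with hζ
  have ζ0 : 0 < ζ := by positivity
  have ζle : ζ ≤ x ^ 100 := by
    rw [hζ, div_le_iff₀ hL0]
    calc x ^ 200 * s.re = x ^ 100 * (s.re * x ^ 100) := by ring
      _ ≤ x ^ 100 * 1 := mul_le_mul_of_nonneg_left hEx (by positivity)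
      _ ≤ x ^ 100 * L := mul_le_mul_of_nonneg_left hL (by positivity)
  have x100 : x ^ 100 ≤ 1 / 1000 := by
    calc x ^ 100 ≤ x ^ 1 := pow_le_pow_of_le_one x0.le (by linarith) (by norm_num)
      _ ≤ 1 / 1000 := by rw [pow_one]; exact x1'
  have ζ1 : ζ ≤ 1 := by linarith
  have lipval : L * ζ / s.re = x ^ 200 := by
    rw [hζ, mul_div_cancel₀ _ hL0.ne', mul_div_assoc, div_self hσ0.ne', mul_one]
  have hB2 : ‖B α (s + ζ)‖ ≤ 2 * x ^ 200 := by
    have := h.lipB α s ζ hσ0 ζ0.le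
    rw [lipval] at this
    have h3 := norm_le_norm_add_norm_sub' (B α (s + ζ)) (B α s)
    linarith
  have hC2 : ‖C α (s + ζ)‖ ≤ 2 * x ^ 200 := by
    have := h.lipC α s ζ hσ0 ζ0.le
    rw [lipval] at this
    have h3 := norm_le_norm_add_norm_sub' (C α (s + ζ)) (C α s)
    linarith
  have hre : (s + ζ).re = s.re + ζ := by simp
  have hF2 : ‖FF n t J α (s + ζ)‖ ≤ 4 * x ^ 400 + x ^ 4000 := by
    have h1 := h.prod α (s + ζ) (by rw [hre]; linarith)
    have h2 : ‖B α (s + ζ) * C α (s + ζ)‖ ≤ 4 * x ^ 400 := by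
      rw [norm_mul]
      calc ‖B α (s + ζ)‖ * ‖C α (s + ζ)‖ ≤ (2 * x ^ 200) * (2 * x ^ 200) :=
            mul_le_mul hB2 hC2 (norm_nonneg _) (by positivity)
        _ = 4 * x ^ 400 := by ring
    have h3 := norm_le_norm_add_norm_sub (B α (s + ζ) * C α (s + ζ)) (FF n t J α (s + ζ))
    linarith
  have hD := W1_diff h.sizes h.J_gt hJ1 α hσ0.le ζ0.le ζ1
  rw [← hx, hη2] at hD
  set T := TM n t s.re with hTdef
  -- the lower bound of T
  have hTlow : x ^ 100 * amp n / 10 ≤ T := by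
    have h1 : (t (n + 1) : ℝ) * amp (n + 1) * Real.exp (-(t (n + 1) : ℝ) * s.re) ≤ T := le_max_right _ _
    have h2 := (h.sizes (n + 1)).1
    have h3 := (h.sizes (n + 1)).2
    rw [hη] at h2 h3
    have h4 : 99 / 100 * amp n ≤ amp (n + 1) := by
      have := amp_add_ge n 1
      norm_num at this
      linarith
    have h5 : 1 / 3 ≤ Real.exp (-(t (n + 1) : ℝ) * s.re) := by
      have h6 : (t (n + 1) : ℝ) * s.re ≤ 1 := by
        calc (t (n + 1) : ℝ) * s.re ≤ x ^ 100 * s.re := mul_le_mul_of_nonneg_right h3 hσ0.le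
          _ = s.re * x ^ 100 := mul_comm _ _
          _ ≤ 1 := hEx
      have h7 : Real.exp (-1) ≤ Real.exp (-(t (n + 1) : ℝ) * s.re) := by
        apply Real.exp_le_exp.mpr
        linarith
      have h8 : (1 / 3 : ℝ) ≤ Real.exp (-1) := by
        rw [Real.exp_neg, one_div]
        apply inv_anti₀ (Real.exp_pos 1)
        have := Real.exp_one_lt_d9
        linarith
      linarith
    have ha := amp_pos n
    have hx100 : 0 < x ^ 100 := by positivity
    calc x ^ 100 * amp n / 10 ≤ (x ^ 100 / 2) * (99 / 100 * amp n) * (1 / 3) := by nlinarith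
      _ ≤ (t (n + 1) : ℝ) * amp (n + 1) * Real.exp (-(t (n + 1) : ℝ) * s.re) := by
          refine mul_le_mul (mul_le_mul h2 h4 (by positivity) (by linarith)) h5 (by norm_num) ?_
          have := amp_pos (n + 1)
          have : 0 < (t (n + 1) : ℝ) := by linarith
          positivity
      _ ≤ T := h1
  have T0 : 0 < T := by
    have ha := amp_pos n
    have : 0 < x ^ 100 * amp n / 10 := by positivity
    linarith
  -- combine
  have hup : ζ * ‖TT n t (α (n + 1)) s‖ ≤ 4 * x ^ 400 + x ^ 4000 + 2 * x ^ 450 +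
      (2 * x * ζ ^ 2 * T + 200 * x ^ 10000 * ζ) := by
    have h1 : ζ * ‖TT n t (α (n + 1)) s‖ = ‖(ζ : ℂ) * TT n t (α (n + 1)) s‖ := by
      rw [norm_mul, Complex.norm_real, Real.norm_of_nonneg ζ0.le]
    rw [h1]
    have h2 : (ζ : ℂ) * TT n t (α (n + 1)) s =
        (FF n t J α (s + ζ) - FF n t J α s + ζ * TT n t (α (n + 1)) s) + (-FF n t J α (s + ζ)) + FF n t J α s := by
      ring
    rw [h2]
    refine (norm_add₃_le).trans ?_
    rw [norm_neg]
    linarith
  have hTT : ζ * T ≤ 65 * (ζ * ‖TT n t (α (n + 1)) s‖) := by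
    calc ζ * T ≤ ζ * (65 * ‖TT n t (α (n + 1)) s‖) := mul_le_mul_of_nonneg_left hT ζ0.le
      _ = 65 * (ζ * ‖TT n t (α (n + 1)) s‖) := by ring
  -- the error terms are small against ζ T
  have hsmall1 : 65 * (2 * x * ζ ^ 2 * T) ≤ ζ * T / 4 := by
    have h1 : x * ζ ≤ 1 / 1000 := by
      calc x * ζ ≤ 1 / 1000 * 1 := mul_le_mul x1' ζ1 ζ0.le (by norm_num)
        _ = 1 / 1000 := by norm_num
    have h2 : x * ζ * (ζ * T) ≤ 1 / 1000 * (ζ * T) := mul_le_mul_of_nonneg_right h1 (by positivity)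
    nlinarith
  have ha := amp_pos n
  have hax : 10 ^ 10 * x ≤ amp n := by
    nlinarith
  have hsmall2 : 65 * (200 * x ^ 10000 * ζ) ≤ ζ * T / 4 := by
    have h1 : x ^ 10000 ≤ x ^ 102 * (1 / 1000) := by
      calc x ^ 10000 ≤ x ^ 103 := pow_le_pow_of_le_one x0.le (by linarith) (by norm_num)
        _ = x ^ 102 * x := by ring
        _ ≤ x ^ 102 * (1 / 1000) := mul_le_mul_of_nonneg_left x1' (by positivity)
    have h2 : x ^ 102 * 1000000 ≤ T := by
      calc x ^ 102 * 1000000 ≤ x ^ 101 * (1 / 1000) * 1000000 := by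
            have : x ^ 102 = x ^ 101 * x := by ring
            rw [this]
            have h5 : x ^ 101 * x ≤ x ^ 101 * (1 / 1000) := mul_le_mul_of_nonneg_left x1' (by positivity)
            linarith
        _ = x ^ 100 * (1000 * x) := by ring
        _ ≤ x ^ 100 * (amp n / 10) := mul_le_mul_of_nonneg_left (by nlinarith) (by positivity)
        _ = x ^ 100 * amp n / 10 := by ring
        _ ≤ T := hTlow
    have h3 : 65 * (200 * x ^ 10000) ≤ T / 4 := by
      have : 0 < x ^ 102 := by positivity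
      nlinarith
    calc 65 * (200 * x ^ 10000 * ζ) = (65 * (200 * x ^ 10000)) * ζ := by ring
      _ ≤ (T / 4) * ζ := mul_le_mul_of_nonneg_right h3 ζ0.le
      _ = ζ * T / 4 := by ring
  -- the main contradiction
  have hlow : x ^ 301 * 10 ≤ ζ * T := by
    have h1 : x ^ 200 / L ≤ ζ := by
      rw [hζ]
      apply div_le_div_of_nonneg_right _ hL0.le
      exact le_mul_of_one_le_right (by positivity) hσS
    calc x ^ 301 * 10 ≤ x ^ 300 * (10 ^ 10 * x / 10) := by
          have : x ^ 301 = x ^ 300 * x := by ring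
          rw [this]
          have : 0 < x ^ 300 * x := by positivity
          nlinarith
      _ ≤ x ^ 300 * (amp n / L / 10) := by
          refine mul_le_mul_of_nonneg_left ?_ (by positivity)
          have : 10 ^ 10 * x ≤ amp n / L := by
            rw [le_div_iff₀ hL0]
            exact hsm
          linarith
      _ = x ^ 200 / L * (x ^ 100 * amp n / 10) := by
          ring
      _ ≤ ζ * T := mul_le_mul h1 hTlow (by positivity) ζ0.le
  have h400 : x ^ 400 ≤ x ^ 301 * (1 / 1000) := by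
    calc x ^ 400 ≤ x ^ 302 := pow_le_pow_of_le_one x0.le (by linarith) (by norm_num)
      _ = x ^ 301 * x := by ring
      _ ≤ x ^ 301 * (1 / 1000) := mul_le_mul_of_nonneg_left x1' (by positivity)
  have h450 : x ^ 450 ≤ x ^ 400 := pow_le_pow_of_le_one x0.le (by linarith) (by norm_num)
  have h4000 : x ^ 4000 ≤ x ^ 400 := pow_le_pow_of_le_one x0.le (by linarith) (by norm_num)
  have : 0 < x ^ 301 := by positivity
  nlinarith

theorem same_side {n : ℕ} {t : ℕ → ℚ} {L : ℝ} {J : Finset ℕ} {B C : (ℕ → ℝ) → ℂ → ℂ} (h : Win n t L J B C)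
    {p q : (ℕ → ℝ) × ℂ} (hpq : JoinedIn (Gst n t J) p q) (hp : ‖C p.1 p.2‖ < tau n ^ 200) :
    ‖C q.1 q.2‖ < tau n ^ 200 := by
  have x0 : 0 < tau n := tau_pos n
  have x1 : tau n ≤ 1 / 1000 := (tau_le n).trans (by norm_num)
  -- on good states the two alternatives are complementary
  have key : ∀ r ∈ Gst n t J, (‖C r.1 r.2‖ < tau n ^ 200 ↔ tau n ^ 200 ≤ ‖B r.1 r.2‖) := by
    intro r hr
    constructor
    · intro hC
      by_contra hB
      exact dichotomy h hr ⟨not_le.mp hB, hC⟩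
    · intro hB
      by_contra hC
      rw [not_lt] at hC
      have h1 : tau n ^ 400 ≤ ‖B r.1 r.2 * C r.1 r.2‖ := by
        rw [norm_mul, show tau n ^ 400 = tau n ^ 200 * tau n ^ 200 by ring]
        exact mul_le_mul hB hC (by positivity) (norm_nonneg _)
      have h2 := h.prod r.1 r.2 hr.1
      have h3 := hr.2.2.1
      have h4 := norm_le_norm_add_norm_sub' (B r.1 r.2 * C r.1 r.2) (FF n t J r.1 r.2)
      have h5 : tau n ^ 450 ≤ tau n ^ 400 * (1 / 1000) := by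
        calc tau n ^ 450 ≤ tau n ^ 401 := pow_le_pow_of_le_one x0.le (by linarith) (by norm_num)
          _ = tau n ^ 400 * tau n := by ring
          _ ≤ tau n ^ 400 * (1 / 1000) := mul_le_mul_of_nonneg_left x1 (by positivity)
      have h6 : tau n ^ 4000 ≤ tau n ^ 450 := pow_le_pow_of_le_one x0.le (by linarith) (by norm_num)
      have h7 : 0 < tau n ^ 400 := by positivity
      linarith
  let γ := hpq.somePath
  have hγ : ∀ u, γ u ∈ Gst n t J := hpq.somePath_mem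
  have cγ : Continuous γ := γ.continuous
  have cC : Continuous fun u => ‖C (γ u).1 (γ u).2‖ := (h.contC.comp cγ).norm
  have cB : Continuous fun u => ‖B (γ u).1 (γ u).2‖ := (h.contB.comp cγ).norm
  let U : Set unitInterval := {u | ‖C (γ u).1 (γ u).2‖ < tau n ^ 200}
  have hU : U = {u | tau n ^ 200 ≤ ‖B (γ u).1 (γ u).2‖} := by
    ext u
    exact key _ (hγ u)
  have hop : IsOpen U := isOpen_lt cC continuous_const
  have hcl : IsClosed U := by
    rw [hU]
    exact isClosed_le continuous_const cB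
  have h0 : (0 : unitInterval) ∈ U := by
    change ‖C (γ 0).1 (γ 0).2‖ < tau n ^ 200
    rw [γ.source]
    exact hp
  have huniv : U = Set.univ := IsClopen.eq_univ ⟨hcl, hop⟩ ⟨0, h0⟩
  have h1 : (1 : unitInterval) ∈ U := by rw [huniv]; trivial
  change ‖C (γ 1).1 (γ 1).2‖ < tau n ^ 200 at h1
  rwa [γ.target] at h1

end Pool.Agent.QF
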